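import Pool.Agent.Lib.MP_23455a_nt.Defs
import Pool.Agent.Lib.MP_580eba_nt.Resid

-- part Pool.Agent.Lib.MP_23455a_nt.Lev
section

set_option autoImplicit false

open NumberField Pool.Agent.Lib.MP_580eba_nt
open scoped Classical nonZeroDivisors

namespace Pool.Agent.Lib.MP_23455a_nt

/-- Additive characters of order dividing three. -/
def Ch {G : Type*} [Mul G] (a : G → ZMod 3) : Prop := ∀ g h, a (g * h) = a g + a h

namespace Ch

variable {G : Type*} [Group G] {a b : G → ZMod 3}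

lemma one (h : Ch a) : a 1 = 0 := by simpa using h 1 1

lemma inv (h : Ch a) (g : G) : a g⁻¹ = -a g := by
  have := h g g⁻¹
  rw [mul_inv_cancel, h.one] at this
  linear_combination -this

lemma pow (h : Ch a) (g : G) (n : ℕ) : a (g ^ n) = n * a g := by
  induction n with
  | zero => simp [h.one]
  | succ n ih => rw [pow_succ, h, ih]; push_cast; ring

lemma zpow (h : Ch a) (g : G) (n : ℤ) : a (g ^ n) = n * a g := by
  obtain ⟨n, rfl | rfl⟩ := n.eq_nat_or_neg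
  · simpa using h.pow g n
  · simp [h.inv, h.pow]

lemma zero : Ch (fun _ : G => (0 : ZMod 3)) := fun _ _ => by simp

lemma add (h : Ch a) (h' : Ch b) : Ch fun g => a g + b g := fun g k => by
  simp only [h g k, h' g k]; ring

lemma smul (h : Ch a) (k : ZMod 3) : Ch fun g => k * a g := fun g l => by
  simp only [h g l]; ring

lemma comp {H : Type*} [Group H] (h : Ch a) (f : H →* G) : Ch fun g => a (f g) := fun g l => by
  simp only [map_mul, h _ _]

/-- The kernel. -/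
def ker (h : Ch a) : Subgroup G where
  carrier := {g | a g = 0}
  mul_mem' {x y} hx hy := by
    simp only [Set.mem_ofPred_eq] at *
    rw [h, hx, hy, add_zero]
  one_mem' := h.one
  inv_mem' {x} hx := by
    simp only [Set.mem_ofPred_eq] at *
    rw [h.inv, hx, neg_zero]

lemma mem_ker (h : Ch a) {g : G} : g ∈ h.ker ↔ a g = 0 := Iff.rfl

lemma exists_one (h : Ch a) {g : G} (hg : a g ≠ 0) : a g = 1 ∨ a g⁻¹ = 1 := by
  rw [h.inv]
  generalize a g = x at hg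
  revert x
  decide

/-- A character which vanishes on the kernel of another one is a multiple of it. -/
lemma eq_mul (h : Ch a) (h' : Ch b) (hk : ∀ g, a g = 0 → b g = 0) : ∃ k, ∀ g, b g = k * a g := by
  by_cases h0 : ∃ g, a g = 1
  · obtain ⟨g0, h0⟩ := h0
    refine ⟨b g0, fun g => ?_⟩
    have := hk (g * (g0 ^ (a g).val)⁻¹) (by rw [h, h.inv, h.pow, h0]; simp)
    rw [h', h'.inv, h'.pow] at this
    simp only [ZMod.natCast_val, ZMod.cast_id', id] at this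
    linear_combination this
  · refine ⟨0, fun g => ?_⟩
    rw [zero_mul]
    refine hk g (by_contra fun e => ?_)
    exact (h.exists_one e).elim (fun k => h0 ⟨_, k⟩) fun k => h0 ⟨_, k⟩

end Ch

section frob

variable (K : Type*) {N G : Type*} [Field K] [Field N] [NumberField K] [NumberField N]
  [Algebra K N] [Group G] [MulSemiringAction G N]

/-- Frobenius elements. -/
def IsFrob (w : Pl N) (g : G) : Prop :=
  g • w = w ∧ ∀ x : N, val w x ≤ 1 → val w (g • x - x ^ nP (und K w)) < 1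

lemma exists_isFrob (G : Type*) [Group G] [Finite G] [MulSemiringAction G N]
    [IsGaloisGroup G K N] (w : Pl N) : ∃ g : G, IsFrob K w g := exists_frob G w

end frob

/-- The class of a prime. -/
noncomputable def cl {K : Type*} [Field K] [NumberField K] (v : Pl K) : ClassGroup (𝓞 K) :=
  ClassGroup.mk0 ⟨v.asIdeal, mem_nonZeroDivisors_of_ne_zero v.ne_bot⟩

/-- The algebraic closure. -/
abbrev Kb (K : Type) [Field K] : Type := AlgebraicClosure K

/-- Finite Galois levels. -/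
abbrev Lev (K : Type) [Field K] : Type := FiniteGaloisIntermediateField K (Kb K)

variable {K : Type} [Field K]

/-- Restriction to a finite level. -/
noncomputable def rs (N : Lev K) : GalK K →* (N ≃ₐ[K] N) := AlgEquiv.restrictNormalHom N

@[simp] lemma rs_apply (N : Lev K) (σ : GalK K) (x : N) : (rs N σ x : Kb K) = σ x :=
  AlgEquiv.restrictNormalHom_apply _ σ x

@[simp] lemma rs_smul (N : Lev K) (σ : GalK K) (x : N) : ((rs N σ • x : N) : Kb K) = σ x :=
  rs_apply N σ x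

lemma rs_surj (N : Lev K) : Function.Surjective (rs N) :=
  AlgEquiv.restrictNormalHom_surjective (Kb K)

lemma rs_eq_one_iff {N : Lev K} {σ : GalK K} :
    rs N σ = 1 ↔ ∀ x ∈ N.toIntermediateField, σ x = x :=
  ⟨fun h x hx => by simpa [h] using (rs_apply N σ ⟨x, hx⟩).symm,
    fun h => AlgEquiv.ext fun x => Subtype.ext (by simpa using h x x.2)⟩

lemma rs_eq_iff {N : Lev K} {σ τ : GalK K} :
    rs N σ = rs N τ ↔ ∀ x ∈ N.toIntermediateField, σ x = τ x :=
  ⟨fun h x hx => by rw [← rs_apply N σ ⟨x, hx⟩, h, rs_apply],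
    fun h => AlgEquiv.ext fun x => Subtype.ext (by simpa using h x x.2)⟩

/-- The character factors through the level. -/
def Fac (N : Lev K) (a : GalK K → ZMod 3) : Prop := ∀ σ, rs N σ = 1 → a σ = 0

lemma Fac.mono {N N' : Lev K} {a : GalK K → ZMod 3} (h : Fac N a) (hN : N ≤ N') : Fac N' a :=
  fun σ hσ => h σ (rs_eq_one_iff.2 fun x hx => rs_eq_one_iff.1 hσ x (hN hx))

lemma Fac.congr {N : Lev K} {a : GalK K → ZMod 3} (h : Fac N a) (ha : Ch a) {σ τ : GalK K}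
    (e : rs N σ = rs N τ) : a σ = a τ := by
  have := h (σ * τ⁻¹) (by rw [map_mul, map_inv, e, mul_inv_cancel])
  rw [ha, ha.inv] at this
  linear_combination this

lemma Fac.descend {N : Lev K} {a : GalK K → ZMod 3} (h : Fac N a) (ha : Ch a) :
    ∃ b : (N ≃ₐ[K] N) → ZMod 3, Ch b ∧ ∀ σ, b (rs N σ) = a σ := by
  choose l hl using rs_surj N
  refine ⟨fun g => a (l g), fun g k => ?_, fun σ => h.congr ha (hl _)⟩
  rw [← ha]
  exact h.congr ha (by rw [map_mul, hl, hl, hl])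

variable [NumberField K]

lemma exists_lev {S : Set (Kb K)} (hS : S.Finite) : ∃ N : Lev K, S ⊆ N.toIntermediateField :=
  haveI := hS.to_subtype
  ⟨_, FiniteGaloisIntermediateField.subset_adjoin K S⟩

/-- Levels which are Galois over the rationals are cofinal. -/
lemma exists_lev_rat (N : Lev K) : ∃ N' : Lev K, N ≤ N' ∧ IsGalois ℚ N' := by
  have : Algebra.IsAlgebraic ℚ (Kb K) := Algebra.IsAlgebraic.trans ℚ K (Kb K)
  have : IsAlgClosure ℚ (Kb K) := ⟨inferInstance, inferInstance⟩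
  have : FiniteDimensional ℚ (N.toIntermediateField.restrictScalars ℚ) :=
    inferInstanceAs (FiniteDimensional ℚ N)
  let M := IntermediateField.normalClosure ℚ (N.toIntermediateField.restrictScalars ℚ) (Kb K)
  have h1 : N.toIntermediateField.restrictScalars ℚ ≤ M := IntermediateField.le_normalClosure _
  let M' : IntermediateField K (Kb K) :=
    M.toSubfield.toIntermediateField fun x => h1 (N.toIntermediateField.algebraMap_mem x)
  have : IsGalois ℚ (Kb K) := {}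
  have h2 : IsGalois ℚ M' := IsGalois.normalClosure ℚ _ (Kb K)
  have h3 : FiniteDimensional ℚ M' := inferInstanceAs (FiniteDimensional ℚ M)
  have : FiniteDimensional K M' := Module.Finite.of_restrictScalars_finite ℚ K M'
  have : IsGalois K M' := IsGalois.tower_top_of_isGalois ℚ K M'
  exact ⟨⟨M'⟩, h1, h2⟩

end Pool.Agent.Lib.MP_23455a_nt
end

-- part Pool.Agent.Lib.MP_23455a_nt.Div
section

set_option autoImplicit false

open NumberField Pool.Agent.Lib.MP_580eba_nt FractionalIdeal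
open scoped Classical nonZeroDivisors

namespace Pool.Agent.Lib.MP_23455a_nt

variable {K : Type*} [Field K] [NumberField K]

/-- Divisors. -/
abbrev Dv (K : Type*) [Field K] := Pl K →₀ ℤ

/-- The divisor of a fractional ideal. -/
noncomputable def cnt (I : FractionalIdeal (𝓞 K)⁰ K) : Dv K :=
  Finsupp.ofSupportFinite (fun v => count K v I) (finite_factors I)

/-- The fractional ideal of a divisor. -/
noncomputable def fr (D : Dv K) : FractionalIdeal (𝓞 K)⁰ K := D.prod fun v n => v.asIdeal ^ n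

lemma cnt_apply (I : FractionalIdeal (𝓞 K)⁰ K) (v : Pl K) : cnt I v = count K v I := rfl

lemma cnt_fr (D : Dv K) : cnt (fr D) = D := Finsupp.ext fun v => count_finsuppProd K v D

lemma fr_cnt {I : FractionalIdeal (𝓞 K)⁰ K} (h : I ≠ 0) : fr (cnt I) = I := by
  conv_rhs => rw [← finprod_heightOneSpectrum_factorization' K h]
  refine (finprod_eq_prod_of_mulSupport_subset _ fun v hv => ?_).symm
  simp only [Finset.mem_coe, Finsupp.mem_support_iff, cnt_apply]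
  exact fun e => hv (by simp [cnt_apply, e])

lemma fr_ne (D : Dv K) : fr D ≠ 0 :=
  Finset.prod_ne_zero_iff.2 fun v _ => zpow_ne_zero _ (coeIdeal_ne_zero.2 v.ne_bot)

lemma fr_add (D E : Dv K) : fr (D + E) = fr D * fr E :=
  Finsupp.prod_add_index' (fun _ => zpow_zero _) fun v =>
    zpow_add₀ (coeIdeal_ne_zero.2 v.ne_bot)

lemma fr_zero : fr (0 : Dv K) = 1 := rfl

lemma cnt_mul {I J : FractionalIdeal (𝓞 K)⁰ K} (h : I ≠ 0) (h' : J ≠ 0) :
    cnt (I * J) = cnt I + cnt J := Finsupp.ext fun v => count_mul K v h h'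

lemma fr_le_iff {D E : Dv K} : fr D ≤ fr E ↔ E ≤ D := by
  refine ⟨fun h v => by simpa only [← cnt_apply, cnt_fr] using count_mono K v (fr_ne D) h,
    fun h => ?_⟩
  obtain ⟨G, h0, rfl⟩ : ∃ G, 0 ≤ G ∧ D = E + G := ⟨D - E, sub_nonneg.2 h, by abel⟩
  rw [fr_add]
  refine mul_le_of_le_one_right' (Finset.prod_le_one' fun v _ => ?_)
  obtain ⟨n, hn⟩ := Int.eq_ofNat_of_zero_le (h0 v)
  simpa only [hn, zpow_natCast] using pow_le_one' coeIdeal_le_one n

/-- The divisor of an element. -/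
noncomputable def dv (x : K) : Dv K := Finsupp.ofSupportFinite (fun v => ord v x) (finite_ord x)

@[simp] lemma dv_apply (x : K) (v : Pl K) : dv x v = ord v x := rfl

lemma fr_dv {x : K} (hx : x ≠ 0) : fr (dv x) = spanSingleton _ x := by
  rw [← fr_cnt (spanSingleton_ne_zero_iff.2 hx)]
  congr 1
  exact Finsupp.ext fun v => (count_eq_ord v hx).symm

lemma dv_mul {x y : K} (hx : x ≠ 0) (hy : y ≠ 0) : dv (x * y) = dv x + dv y :=
  Finsupp.ext fun v => ord_mul v hx hy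

lemma dv_div {x y : K} (hx : x ≠ 0) (hy : y ≠ 0) : dv (x / y) = dv x - dv y :=
  Finsupp.ext fun v => ord_div v hx hy

lemma dv_one : dv (1 : K) = 0 := Finsupp.ext ord_one

lemma dv_inv (x : K) : dv x⁻¹ = -dv x := Finsupp.ext fun v => ord_inv v x

lemma dv_pow (x : K) (n : ℕ) : dv (x ^ n) = n • dv x :=
  Finsupp.ext fun v => by simp [ord_pow]

lemma dv_prod {ι : Type*} (s : Finset ι) {f : ι → K} (h : ∀ i, f i ≠ 0) :
    dv (∏ i ∈ s, f i) = ∑ i ∈ s, dv (f i) := by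
  induction s using Finset.induction_on with
  | empty => simpa using dv_one
  | insert a s ha ih => rw [Finset.prod_insert ha, Finset.sum_insert ha,
      dv_mul (h a) (Finset.prod_ne_zero_iff.2 fun i _ => h i), ih]

/-- The module of the elements whose divisor is at least `D`. -/
noncomputable def ID (D : Dv K) : Submodule (𝓞 K) K := fr D

lemma mem_ID {D : Dv K} {x : K} : x ∈ ID D ↔ x = 0 ∨ ∀ v, D v ≤ ord v x := by
  rcases eq_or_ne x 0 with rfl | hx
  · simp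
  · rw [ID, mem_coe, ← spanSingleton_le_iff_mem, ← fr_dv hx, fr_le_iff, or_iff_right hx]
    rfl

lemma ID_add (D E : Dv K) : ID (D + E) = ID D * ID E := by rw [ID, fr_add, coe_mul, ID, ID]

lemma ID_le_iff {D E : Dv K} : ID D ≤ ID E ↔ E ≤ D := fr_le_iff

lemma ID_inj {D E : Dv K} (h : ID D = ID E) : D = E :=
  le_antisymm (ID_le_iff.1 h.ge) (ID_le_iff.1 h.le)

lemma mem_ID_zero {x : K} : x ∈ ID (0 : Dv K) ↔ ∃ y : 𝓞 K, ↑y = x := mem_one_iff _

lemma mul_mem_ID {D E : Dv K} {x y : K} (hx : x ∈ ID D) (hy : y ∈ ID E) : x * y ∈ ID (D + E) :=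
  ID_add D E ▸ Submodule.mul_mem_mul hx hy

lemma mem_ID_dv (x : K) : x ∈ ID (dv x) := mem_ID.2 (Or.inr fun _ => le_rfl)

lemma mul_mem_ID_iff {D : Dv K} {x y : K} (hx : x ≠ 0) : x * y ∈ ID (dv x + D) ↔ y ∈ ID D := by
  refine ⟨fun h => ?_, mul_mem_ID (mem_ID_dv x)⟩
  simpa [dv_inv, hx] using mul_mem_ID (mem_ID_dv x⁻¹) h

lemma exists_mem_ord (D : Dv K) (v : Pl K) : ∃ x ∈ ID D, x ≠ 0 ∧ ord v x = D v := by
  by_contra! h
  have := ID_le_iff.1 (show ID D ≤ ID (D + .single v 1) from fun x hx => ?_) v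
  · simp at this
  rcases eq_or_ne x 0 with rfl | h0
  · exact Submodule.zero_mem _
  refine mem_ID.2 (Or.inr fun u => ?_)
  have h1 := (mem_ID.1 hx).resolve_left h0 u
  rcases eq_or_ne v u with rfl | e
  · simpa using h1.lt_of_ne (h x hx h0).symm
  · simpa [e] using h1

lemma ID_fg (D : Dv K) : (ID D).FG := fg_of_isUnit _ (Ne.isUnit (fr_ne D))

lemma exists_ID {M : Submodule (𝓞 K) K} (h : M.FG) (h0 : M ≠ ⊥) : ∃ D, ID D = M :=
  ⟨cnt ⟨M, isFractional_of_fg h⟩, congr_arg coeToSubmodule (fr_cnt (I := ⟨M, isFractional_of_fg h⟩)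
    fun e => h0 ((congr_arg coeToSubmodule e).trans coe_zero))⟩

/-- The class of a divisor. -/
noncomputable def clD (D : Dv K) : ClassGroup (𝓞 K) := ClassGroup.mk K (Units.mk0 _ (fr_ne D))

lemma clD_add (D E : Dv K) : clD (D + E) = clD D * clD E := by
  rw [clD, clD, clD, ← map_mul]
  congr 1
  exact Units.ext (fr_add D E)

lemma clD_zero : clD (0 : Dv K) = 1 := by simpa using clD_add (0 : Dv K) 0

lemma clD_neg (D : Dv K) : clD (-D) = (clD D)⁻¹ :=
  eq_inv_of_mul_eq_one_left (by rw [← clD_add, neg_add_cancel, clD_zero])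

lemma clD_sub (D E : Dv K) : clD (D - E) = clD D / clD E := by
  rw [sub_eq_add_neg, clD_add, clD_neg, div_eq_mul_inv]

lemma clD_nsmul (D : Dv K) (n : ℕ) : clD (n • D) = clD D ^ n := by
  induction n with
  | zero => simpa using clD_zero
  | succ n ih => rw [succ_nsmul, clD_add, ih, pow_succ]

lemma clD_zsmul (D : Dv K) (n : ℤ) : clD (n • D) = clD D ^ n := by
  obtain ⟨n, rfl | rfl⟩ := n.eq_nat_or_neg <;> simp [clD_nsmul, clD_neg]

lemma clD_surj (c : ClassGroup (𝓞 K)) : ∃ D, clD D = c :=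
  ClassGroup.induction K (P := fun c => ∃ D, clD D = c)
    (fun I => ⟨cnt I, congr_arg (ClassGroup.mk K) (Units.ext (fr_cnt I.ne_zero))⟩) c

lemma clD_eq_one {D : Dv K} : clD D = 1 ↔ ∃ x, x ≠ 0 ∧ dv x = D := by
  rw [clD, ClassGroup.mk_eq_one_iff, isPrincipal_iff, Units.val_mk0]
  refine exists_congr fun x => ⟨fun h => ?_, fun h => by rw [← h.2, fr_dv h.1]⟩
  have hx : x ≠ 0 := spanSingleton_ne_zero_iff.1 (h ▸ fr_ne D)
  exact ⟨hx, by rw [← cnt_fr D, h, ← fr_dv hx, cnt_fr]⟩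

lemma clD_dv {x : K} (hx : x ≠ 0) : clD (dv x) = 1 := clD_eq_one.2 ⟨x, hx, rfl⟩

lemma clD_eq_iff {D E : Dv K} : clD D = clD E ↔ ∃ x, x ≠ 0 ∧ D = dv x + E := by
  simp only [← div_eq_one (a := clD D), ← clD_sub, clD_eq_one, eq_sub_iff_add_eq, eq_comm (a := D)]

lemma exists_dv_card (D : Dv K) : ∃ x, x ≠ 0 ∧ dv x = Fintype.card (ClassGroup (𝓞 K)) • D :=
  clD_eq_one.1 (by rw [clD_nsmul, pow_card_eq_one])

/-- The divisor of an ideal. -/
noncomputable def dI (I : Ideal (𝓞 K)) : Dv K := cnt I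

section
variable {I J : Ideal (𝓞 K)}

lemma fr_dI (h : I ≠ 0) : fr (dI I) = I := fr_cnt (coeIdeal_ne_zero.2 h)

lemma mem_ID_dI (h : I ≠ 0) {x : K} : x ∈ ID (dI I) ↔ ∃ y ∈ I, ↑y = x := by
  rw [ID, fr_dI h, mem_coe, mem_coeIdeal]

lemma coe_mem_ID_dI (h : I ≠ 0) {x : 𝓞 K} : (x : K) ∈ ID (dI I) ↔ x ∈ I := by
  simp [mem_ID_dI h]

lemma dI_mul (h : I ≠ 0) (h' : J ≠ 0) : dI (I * J) = dI I + dI J := by
  rw [dI, coeIdeal_mul, cnt_mul (coeIdeal_ne_zero.2 h) (coeIdeal_ne_zero.2 h'), dI, dI]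

lemma dI_pow (I : Ideal (𝓞 K)) (n : ℕ) : dI (I ^ n) = n • dI I :=
  Finsupp.ext fun v => by simp [dI, cnt_apply, coeIdeal_pow, count_pow]

lemma dI_inj (h : I ≠ 0) (h' : J ≠ 0) (e : dI I = dI J) : I = J :=
  coeIdeal_injective (K := K) (by simp only [← fr_dI h, ← fr_dI h', e])

lemma dI_span {x : 𝓞 K} (hx : x ≠ 0) : dI (Ideal.span {x}) = dv (x : K) := by
  rw [dI, coeIdeal_span_singleton, ← fr_dv (by simpa using hx), cnt_fr]

lemma dI_asIdeal (v : Pl K) : dI v.asIdeal = .single v 1 :=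
  Finsupp.ext fun u => by rw [dI, cnt_apply, count_maximal, Finsupp.single_apply]

lemma dI_nonneg (I : Ideal (𝓞 K)) : 0 ≤ dI I := fun v => count_coe_nonneg K v I

lemma exists_dI {D : Dv K} (h : 0 ≤ D) : ∃ I, I ≠ 0 ∧ dI I = D := by
  obtain ⟨I, hI⟩ := le_one_iff_exists_coeIdeal.1 (fr_le_iff.2 h)
  exact ⟨I, coeIdeal_ne_zero.1 (hI ▸ fr_ne D), by rw [dI, hI, cnt_fr]⟩

lemma clD_dI (I : (Ideal (𝓞 K))⁰) : clD (dI (I : Ideal (𝓞 K))) = ClassGroup.mk0 I := by
  rw [← ClassGroup.mk_mk0 K]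
  exact congr_arg _ (Units.ext (fr_dI (nonZeroDivisors.ne_zero I.2)))

lemma clD_single (v : Pl K) (n : ℤ) : clD (.single v n) = cl v ^ n := by
  rw [cl, ← clD_dI, dI_asIdeal, ← clD_zsmul, Finsupp.smul_single, smul_eq_mul, mul_one]

end

/-- A character of the class group which vanishes on all primes is trivial. -/
lemma Ch.eq_zero_of_cl {χ : ClassGroup (𝓞 K) → ZMod 3} (h : Ch χ) (h0 : ∀ v, χ (cl v) = 0)
    (c : ClassGroup (𝓞 K)) : χ c = 0 := by
  obtain ⟨D, rfl⟩ := clD_surj c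
  induction D using Finsupp.induction_linear with
  | zero => rw [clD_zero, h.one]
  | add D E h1 h2 => rw [clD_add, h, h1, h2, add_zero]
  | single v n => rw [clD_single, h.zpow, h0, mul_zero]

/-- The class number. -/
noncomputable abbrev hh (K : Type*) [Field K] [NumberField K] : ℕ :=
  Fintype.card (ClassGroup (𝓞 K))

/-- Places with completion the field of three-adic numbers. -/
def Spl (v : Pl K) : Prop := ord v (3 : K) = 1 ∧ nP v = 3

/-- Local cubes at a place with completion the field of three-adic numbers. -/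
def PC (v : Pl K) (x : K) : Prop := ∃ z : K, z ≠ 0 ∧ val v (x / z ^ 3 - 1) ≤ val v 9

/-- An imaginary quadratic field in which three splits. -/
structure Setup (P Q : Pl K) : Prop where
  deg : Module.finrank ℚ K = 2
  tc : IsTotallyComplex K
  ne : P ≠ Q
  three : dv (3 : K) = .single P 1 + .single Q 1

lemma Setup.symm {P Q : Pl K} (h : Setup P Q) : Setup Q P :=
  ⟨h.deg, h.tc, h.ne.symm, by rw [h.three, add_comm]⟩

end Pool.Agent.Lib.MP_23455a_nt
end

-- part Pool.Agent.Lib.MP_23455a_nt.ClsA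
section

set_option autoImplicit false

open scoped Classical

namespace Pool.Agent.Lib.MP_23455a_nt

variable {A : Type*} [CommGroup A]

/-- The element generates the group modulo cubes. -/
def Gen3 (g : A) : Prop := ∀ c : A, ∃ (d : A) (k : ℕ), c = d ^ 3 * g ^ k

variable (A) in
/-- There are at most three elements killed by three. -/
def T3 : Prop := Nat.card (powMonoidHom 3 : A →* A).ker ≤ 3

lemma Gen3.inv [Finite A] {g : A} (h : Gen3 g) : Gen3 g⁻¹ := fun c => by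
  obtain ⟨d, k, e⟩ := h c
  obtain ⟨n, hn⟩ := mem_powers_iff_mem_zpowers.2
    (show g ^ k ∈ Subgroup.zpowers g⁻¹ by
      rw [Subgroup.zpowers_inv]; exact Subgroup.npow_mem_zpowers g k)
  exact ⟨d, n, by rw [e, ← hn]⟩

lemma Gen3.t3 [Finite A] {g : A} (h : Gen3 g) : T3 A := by
  rw [T3, ← Subgroup.index_range, Subgroup.index]
  refine (Nat.card_le_card_of_surjective
    (fun k : Fin 3 => (QuotientGroup.mk (g ^ (k : ℕ)) : A ⧸ (powMonoidHom 3 : A →* A).range))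
    fun x => ?_).trans (by simp)
  obtain ⟨c, rfl⟩ := QuotientGroup.mk_surjective x
  obtain ⟨d, k, rfl⟩ := h c
  refine ⟨⟨k % 3, Nat.mod_lt _ (by norm_num)⟩, QuotientGroup.eq.2 ⟨d * g ^ (k / 3), ?_⟩⟩
  simp only [powMonoidHom_apply]
  conv_rhs => rw [← Nat.div_add_mod k 3]
  simp only [Nat.add_mod, Nat.mul_mod_right, zero_add, Nat.mod_mod]
  rw [pow_add, mul_pow, ← pow_mul, mul_comm (k / 3), ← mul_assoc (d ^ 3), mul_comm _ (g ^ (k % 3)),
    inv_mul_cancel_left]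

lemma orderOf_eq_three {G : Type*} [Group G] {t : G} (h : t ^ 3 = 1) (h1 : t ≠ 1) :
    orderOf t = 3 :=
  haveI : Fact (Nat.Prime 3) := ⟨Nat.prime_three⟩
  orderOf_eq_prime h h1

lemma T3.eq_pow [Finite A] (h : T3 A) {s t : A} (hs : s ^ 3 = 1) (ht : t ^ 3 = 1) (h1 : t ≠ 1) :
    ∃ j : ℕ, s = t ^ j := by
  have e : Subgroup.zpowers t = (powMonoidHom 3 : A →* A).ker :=
    Subgroup.eq_of_le_of_card_ge ((Subgroup.zpowers_le).2 ht)
      (by rw [Nat.card_zpowers, orderOf_eq_three ht h1]; exact h)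
  obtain ⟨j, hj⟩ := mem_powers_iff_mem_zpowers.2 (show s ∈ Subgroup.zpowers t from e ▸ hs)
  exact ⟨j, hj.symm⟩

lemma T3.gen3 [Finite A] (h : T3 A) {u : A} (hu : ∀ d, u ≠ d ^ 3) : Gen3 u := fun c => by
  rw [T3, ← Subgroup.index_range, Subgroup.index] at h
  set H := (powMonoidHom 3 : A →* A).range
  have h1 : (QuotientGroup.mk u : A ⧸ H) ≠ 1 := fun e => by
    obtain ⟨d, hd⟩ := (QuotientGroup.eq_one_iff _).1 e
    exact hu d hd.symm
  have h3 : (QuotientGroup.mk u : A ⧸ H) ^ 3 = 1 :=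
    (QuotientGroup.eq_one_iff (u ^ 3)).2 ⟨u, rfl⟩
  have e : Subgroup.zpowers (QuotientGroup.mk u : A ⧸ H) = ⊤ :=
    Subgroup.eq_of_le_of_card_ge le_top
      (by rw [Nat.card_zpowers, orderOf_eq_three h3 h1, Subgroup.card_top]; exact h)
  obtain ⟨k, hk⟩ := mem_powers_iff_mem_zpowers.2
    (show (QuotientGroup.mk c : A ⧸ H) ∈ Subgroup.zpowers _ from e ▸ Subgroup.mem_top _)
  obtain ⟨d, hd⟩ := QuotientGroup.eq.1 (show (QuotientGroup.mk (u ^ k) : A ⧸ H) = _ from hk)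
  refine ⟨d, k, ?_⟩
  rw [show d ^ 3 = (u ^ k)⁻¹ * c from hd, mul_comm, mul_inv_cancel_left]

lemma exists_cube_of_not_dvd {G : Type*} [Group G] [Finite G] (h : ¬ 3 ∣ Nat.card G) (c : G) :
    ∃ d, c = d ^ 3 := by
  obtain ⟨m, hm⟩ := exists_pow_eq_self_of_coprime (x := c) (n := 3)
    ((Nat.prime_three.coprime_iff_not_dvd).2 fun e => h (e.trans (orderOf_dvd_natCard c)))
  exact ⟨c ^ m, by rw [← pow_mul, mul_comm, pow_mul, hm]⟩

lemma exists_order_three {G : Type*} [Group G] [Finite G] (h : 3 ∣ Nat.card G) :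
    ∃ t : G, t ^ 3 = 1 ∧ t ≠ 1 := by
  have : Fact (Nat.Prime 3) := ⟨Nat.prime_three⟩
  obtain ⟨t, ht⟩ := exists_prime_orderOf_dvd_card' 3 h
  exact ⟨t, ht ▸ pow_orderOf_eq_one t, fun e => by simp [e] at ht⟩

lemma gen3_of_pow_ne [Finite A] {g : A} (h : g ^ (Nat.card A / 3) ≠ 1) :
    Gen3 g := fun c => by
  have h1 : ¬ 3 ∣ Nat.card (A ⧸ Subgroup.zpowers g) := fun ⟨m, hm⟩ => h (by
    have e := Subgroup.card_eq_card_quotient_mul_card_subgroup (Subgroup.zpowers g)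
    rw [Nat.card_zpowers, hm] at e
    rw [e, mul_assoc, Nat.mul_div_cancel_left _ (by norm_num), mul_comm, pow_mul,
      pow_orderOf_eq_one, one_pow])
  obtain ⟨d, hd⟩ := exists_cube_of_not_dvd h1 (QuotientGroup.mk c)
  obtain ⟨d, rfl⟩ := QuotientGroup.mk_surjective d
  obtain ⟨k, hk⟩ := mem_powers_iff_mem_zpowers.2
    (QuotientGroup.eq.1 (show (QuotientGroup.mk (d ^ 3) : A ⧸ Subgroup.zpowers g) = _ from hd.symm))
  exact ⟨d, k, by rw [show g ^ k = (d ^ 3)⁻¹ * c from hk, mul_inv_cancel_left]⟩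

lemma T3.exists_pow_ne [Finite A] (h : T3 A) (h3 : 3 ∣ Nat.card A) :
    ∃ c : A, c ^ (Nat.card A / 3) ≠ 1 := by
  by_contra! hc
  obtain ⟨g, hg⟩ := Monoid.exists_orderOf_eq_exponent (G := A) Monoid.ExponentExists.of_finite
  obtain ⟨t, ht, ht1⟩ := exists_order_three h3
  obtain ⟨e, he⟩ : 3 ∣ orderOf g := by
    rw [hg, ← orderOf_eq_three ht ht1]; exact Monoid.order_dvd_exponent t
  have he0 : 0 < e := by have := orderOf_pos g; omega
  obtain ⟨m, hm⟩ := orderOf_dvd_of_pow_eq_one (hc g)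
  have h1 : 3 ∣ Nat.card (A ⧸ Subgroup.zpowers g) := by
    have e1 := Subgroup.card_eq_card_quotient_mul_card_subgroup (Subgroup.zpowers g)
    rw [Nat.card_zpowers, ← Nat.mul_div_cancel' h3, hm, mul_comm (orderOf g), ← mul_assoc] at e1
    exact ⟨m, (Nat.eq_of_mul_eq_mul_right (orderOf_pos g) e1).symm⟩
  obtain ⟨x, hx, hx1⟩ := exists_order_three h1
  obtain ⟨x, rfl⟩ := QuotientGroup.mk_surjective x
  obtain ⟨k, hk⟩ := mem_powers_iff_mem_zpowers.2 ((QuotientGroup.eq_one_iff (x ^ 3)).1 hx)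
  have hk' : g ^ k = x ^ 3 := hk
  have h2 : g ^ (k * e) = 1 := by
    rw [pow_mul, hk', ← pow_mul, ← he, hg, Monoid.pow_exponent_eq_one]
  obtain ⟨l, rfl⟩ : 3 ∣ k := by
    have := orderOf_dvd_of_pow_eq_one h2
    rw [he] at this
    exact Nat.dvd_of_mul_dvd_mul_right he0 this
  obtain ⟨j, hj⟩ := h.eq_pow (s := x / g ^ l) (t := g ^ e)
    (by rw [div_pow, ← hk', ← pow_mul, mul_comm, div_self'])
    (by rw [← pow_mul, mul_comm, ← he, pow_orderOf_eq_one])
    (pow_ne_one_of_lt_orderOf he0.ne' (by omega))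
  refine hx1 ((QuotientGroup.eq_one_iff x).2 ?_)
  rw [div_eq_iff_eq_mul, ← pow_mul, ← pow_add] at hj
  rw [hj]
  exact Subgroup.npow_mem_zpowers g _

lemma Gen3.pow_ne [Finite A] {g : A} (h : Gen3 g) (h3 : 3 ∣ Nat.card A) :
    g ^ (Nat.card A / 3) ≠ 1 := fun e => by
  obtain ⟨c, hc⟩ := h.t3.exists_pow_ne h3
  obtain ⟨d, k, rfl⟩ := h c
  refine hc ?_
  rw [mul_pow, ← pow_mul, Nat.mul_div_cancel' h3, pow_card_eq_one', ← pow_mul, mul_comm k, pow_mul,
    e, one_pow, one_mul]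

lemma Gen3.ne_cube [Finite A] {g : A} (h : Gen3 g) (h3 : 3 ∣ Nat.card A) (d : A) : g ≠ d ^ 3 :=
  fun e => h.pow_ne h3 (by rw [e, ← pow_mul, Nat.mul_div_cancel' h3, pow_card_eq_one'])

lemma exists_ch_of_not_gen3 {g : A} (h : ¬ Gen3 g) :
    ∃ χ : A → ZMod 3, Ch χ ∧ (∃ c, χ c ≠ 0) ∧ χ g = 0 := by
  have : Fact (Nat.Prime 3) := ⟨Nat.prime_three⟩
  let H : Subgroup A := (powMonoidHom 3 : A →* A).range ⊔ Subgroup.zpowers g
  obtain ⟨c, hc⟩ : ∃ c, c ∉ H := by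
    by_contra! hc
    refine h fun c => ?_
    obtain ⟨_, ⟨d, rfl⟩, _, ⟨k, rfl⟩, e⟩ := Subgroup.mem_sup.1 (hc c)
    refine ⟨d * g ^ (k / 3), (k % 3).toNat, ?_⟩
    rw [← e, ← zpow_natCast g, Int.toNat_of_nonneg (Int.emod_nonneg _ (by norm_num)), mul_pow,
      ← zpow_natCast (g ^ (k / 3)), ← zpow_mul, mul_assoc, ← zpow_add]
    simp only [powMonoidHom_apply]
    congr 2
    push_cast
    omega
  let _ : Module (ZMod 3) (Additive (A ⧸ H)) := AddCommGroup.zmodModule fun x => by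
    obtain ⟨y, hy⟩ := QuotientGroup.mk_surjective x.toMul
    change x.toMul ^ 3 = 1
    rw [← hy]
    exact (QuotientGroup.eq_one_iff (y ^ 3)).2 (Subgroup.mem_sup_left ⟨y, rfl⟩)
  obtain ⟨φ, hφ⟩ := not_forall.1 fun e => hc ((QuotientGroup.eq_one_iff c).1
    ((Module.forall_dual_apply_eq_zero_iff (ZMod 3)
      (Additive.ofMul (QuotientGroup.mk c : A ⧸ H))).1 e))
  refine ⟨fun a => φ (Additive.ofMul (QuotientGroup.mk a : A ⧸ H)), fun a b => ?_, ⟨c, hφ⟩, ?_⟩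
  · simp only [QuotientGroup.mk_mul, ofMul_mul, map_add]
  · simp only
    rw [(QuotientGroup.eq_one_iff g).2 (Subgroup.mem_sup_right (Subgroup.mem_zpowers g)), ofMul_one,
      map_zero]

end Pool.Agent.Lib.MP_23455a_nt
end

-- part Pool.Agent.Lib.MP_23455a_nt.Cls
section

set_option autoImplicit false

open NumberField Pool.Agent.Lib.MP_580eba_nt WithZero
open scoped Classical nonZeroDivisors

namespace Pool.Agent.Lib.MP_23455a_nt

variable {K : Type*} [Field K] [NumberField K] {P Q v : Pl K}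

lemma natAbs_norm_three (hK : Module.finrank ℚ K = 2) :
    (Algebra.norm ℤ (3 : 𝓞 K)).natAbs = 9 := by
  rw [show (3 : 𝓞 K) = algebraMap ℤ (𝓞 K) 3 by simp, Algebra.norm_algebraMap,
    RingOfIntegers.rank, hK]
  rfl

lemma eq_three_of_mul {a b : ℕ} (h : a * b = 9) (ha : a ≠ 1) (hb : b ≠ 1) : a = 3 := by
  have h1 : a ≤ 9 := Nat.le_of_dvd (by norm_num) ⟨b, h.symm⟩
  interval_cases a <;> omega

theorem exists_setup [IsTotallyComplex K] (hK : Module.finrank ℚ K = 2) {p q : Ideal (𝓞 K)}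
    (h3 : p * q = Ideal.span {3}) (hpq : p ≠ q) (hp : p ≠ 1) (hq : q ≠ 1) :
    ∃ P Q : Pl K, P.asIdeal = p ∧ Q.asIdeal = q ∧ Setup P Q := by
  have h9 : Ideal.absNorm p * Ideal.absNorm q = 9 := by
    rw [← map_mul, h3, Ideal.absNorm_span_singleton, natAbs_norm_three hK]
  have hp1 : Ideal.absNorm p ≠ 1 := fun e => hp (by simpa using Ideal.absNorm_eq_one_iff.1 e)
  have hq1 : Ideal.absNorm q ≠ 1 := fun e => hq (by simpa using Ideal.absNorm_eq_one_iff.1 e)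
  have hp3 := eq_three_of_mul h9 hp1 hq1
  have hq3 := eq_three_of_mul ((mul_comm _ _).trans h9) hq1 hp1
  have hp0 : p ≠ ⊥ := fun e => by simp [e] at hp3
  have hq0 : q ≠ ⊥ := fun e => by simp [e] at hq3
  let P : Pl K := ⟨p, Ideal.isPrime_of_irreducible_absNorm (hp3 ▸ Nat.prime_three), hp0⟩
  let Q : Pl K := ⟨q, Ideal.isPrime_of_irreducible_absNorm (hq3 ▸ Nat.prime_three), hq0⟩
  refine ⟨P, Q, rfl, rfl, hK, inferInstance, fun e => hpq (congrArg (·.asIdeal) e), ?_⟩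
  rw [← dI_asIdeal, ← dI_asIdeal, ← dI_mul hp0 hq0, h3, dI_span (by norm_num)]
  rfl

lemma Setup.ord_three (h : Setup P Q) (v : Pl K) :
    ord v (3 : K) = (if P = v then 1 else 0) + if Q = v then 1 else 0 := by
  rw [← dv_apply, h.three, Finsupp.add_apply, Finsupp.single_apply, Finsupp.single_apply]

theorem Setup.spl (h : Setup P Q) : Spl P := by
  have h1 : ord P (3 : K) = 1 := by simp [h.ord_three, h.ne.symm]
  have h2 : ord Q (3 : K) = 1 := by simp [h.ord_three, h.ne]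
  refine ⟨h1, ?_⟩
  have h9 := absNorm_eq_prod (b := (3 : 𝓞 K)) (by norm_num) (S := {P, Q}) fun v hv => by
    simp only [Finset.mem_insert, Finset.mem_singleton, not_or] at hv
    exact (h.ord_three v).trans (by simp [Ne.symm hv.1, Ne.symm hv.2])
  rw [natAbs_norm_three h.deg, Finset.prod_pair h.ne, show ((3 : 𝓞 K) : K) = 3 from rfl, h1, h2]
    at h9
  exact eq_three_of_mul (b := nP Q) (by simpa using h9.symm)
    (Finite.one_lt_card (α := RF P)).ne' (Finite.one_lt_card (α := RF Q)).ne'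

theorem Setup.val_three (h : Setup P Q) (h1 : v ≠ P) (h2 : v ≠ Q) : val v (3 : K) = 1 :=
  (ord_eq_zero_iff v (by norm_num)).1 (by simp [h.ord_three, h1.symm, h2.symm])

lemma Spl.val_eq (hv : Spl v) : val v (3 : K) = exp (-1) := by
  rw [val_eq_exp v (by norm_num), hv.1]

lemma Spl.val_lt (hv : Spl v) : val v (3 : K) < 1 := by
  rw [hv.val_eq, ← exp_zero, exp_lt_exp]; norm_num

lemma Spl.le_of_lt (hv : Spl v) {x : K} (hx : val v x < 1) : val v x ≤ val v 3 := by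
  rcases eq_or_ne x 0 with rfl | h0
  · simp
  rw [val_eq_exp v h0, ← exp_zero, exp_lt_exp] at hx
  rw [val_eq_exp v h0, hv.val_eq, exp_le_exp]
  omega

lemma Spl.pow_lt (hv : Spl v) {n : ℕ} (hn : n ≠ 0) : val v ((3 : K) ^ n) < 1 := by
  rw [map_pow]; exact pow_lt_one₀ zero_le hv.val_lt hn

lemma Spl.nine_lt (hv : Spl v) : val v (9 : K) < 1 := by
  simpa [show (3 : K) ^ 2 = 9 by norm_num] using hv.pow_lt two_ne_zero

lemma val_le_iff_div {x y : K} (hy : y ≠ 0) : val v x ≤ val v y ↔ val v (x / y) ≤ 1 := by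
  rw [map_div₀, div_le_one₀ (val_pos v hy)]

theorem Spl.exists_int (hv : Spl v) (n : ℕ) {x : K} (hx : val v x ≤ 1) :
    ∃ k : ℤ, val v (x - k) ≤ val v (3 ^ n) := by
  induction n generalizing x with
  | zero => exact ⟨0, by simpa using hx⟩
  | succ n ih =>
    obtain ⟨k, hk⟩ : ∃ k : ℤ, res v x = k := by
      have := Fintype.ofFinite (RF v)
      have h1 := FiniteField.pow_card (res v x)
      rw [← Nat.card_eq_fintype_card, card_RF, hv.2] at h1
      have h2 : res v x * (res v x - 1) * (res v x + 1) = 0 := by linear_combination h1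
      rcases mul_eq_zero.1 h2 with h3 | h3
      · rcases mul_eq_zero.1 h3 with h4 | h4
        · exact ⟨0, by simpa using h4⟩
        · exact ⟨1, by simpa using sub_eq_zero.1 h4⟩
      · exact ⟨-1, by simpa using eq_neg_of_add_eq_zero_left h3⟩
    rw [← res_intCast, res_eq_iff hx (val_intCast_le v k)] at hk
    obtain ⟨l, hl⟩ := ih ((val_le_iff_div (by norm_num)).1 (hv.le_of_lt hk))
    refine ⟨k + 3 * l, ?_⟩
    rw [show x - ((k + 3 * l : ℤ) : K) = ((x - k) / 3 - l) * 3 by push_cast; field_simp; ring,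
      pow_succ, map_mul, map_mul]
    exact mul_le_mul_left hl _

theorem Spl.cube_eq_one (hv : Spl v) {x : K} (hx : x ^ 3 = 1) : x = 1 := by
  by_contra h
  have h0 : x ≠ 0 := fun e => by simp [e] at hx
  have h1 : (x - 1) ^ 2 = -(3 * x) := by
    have : (x - 1) * (x ^ 2 + x + 1) = 0 := by linear_combination hx
    linear_combination (mul_eq_zero.1 this).resolve_left (sub_ne_zero.2 h)
  have h2 := congrArg (ord v) h1
  have h3 := congrArg (ord v) hx
  rw [ord_pow, ord_neg, ord_mul v (by norm_num) h0, hv.1] at h2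
  rw [ord_pow, ord_one] at h3
  omega

/-- Units are cubes. -/
theorem Setup.cube_of_ord (h : Setup P Q) {x : K} (hx : x ≠ 0) (h0 : ∀ v, ord v x = 0) :
    ∃ z, x = z ^ 3 := by
  obtain ⟨u, rfl⟩ := exists_unit_of_val fun v => (ord_eq_zero_iff v hx).1 (h0 v)
  have hr : Units.rank K = 0 := by
    have h1 := InfinitePlace.card_add_two_mul_card_eq_rank K
    have h2 := InfinitePlace.card_eq_nrRealPlaces_add_nrComplexPlaces K
    have h3 := (nrRealPlaces_eq_zero_iff (K := K)).2 h.tc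
    rw [Units.rank, h2]
    rw [h.deg] at h1
    omega
  obtain ⟨⟨ζ, e⟩, he, -⟩ := Units.exist_unique_eq_mul_prod K u
  have : IsEmpty (Fin (Units.rank K)) := by rw [hr]; infer_instance
  rw [Finset.univ_eq_empty, Finset.prod_empty, mul_one] at he
  obtain ⟨d, hd⟩ := exists_cube_of_not_dvd (G := Units.torsion K) (fun h3 => by
    obtain ⟨t, ht, ht1⟩ := exists_order_three h3
    have h4 : (((t : (𝓞 K)ˣ) : 𝓞 K) : K) ^ 3 = 1 := by
      simpa using congrArg (fun s : Units.torsion K => (((s : (𝓞 K)ˣ) : 𝓞 K) : K)) ht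
    exact ht1 (Subtype.ext (Units.ext (Subtype.ext (h.spl.cube_eq_one h4))))) ζ
  exact ⟨((d : (𝓞 K)ˣ) : 𝓞 K), by simp only [he, hd]; simp⟩

/-- The discrete logarithm to the base two of `x / 3 ^ ord v x` modulo nine, taken modulo three. -/
noncomputable def lgv (v : Pl K) (x : K) : ZMod 3 :=
  ((Classical.epsilon fun n : ℕ => val v (x / 3 ^ ord v x - 2 ^ n) ≤ val v 9 : ℕ) : ZMod 3)

lemma Spl.val_two_pow (hv : Spl v) (n : ℕ) : val v ((2 : K) ^ n) = 1 := by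
  have : val v ((2 : ℤ) : K) = 1 :=
    val_eq_one_of_coprime (a := 3) (by norm_num [Int.isCoprime_iff_gcd_eq_one])
      (by simpa using hv.val_lt)
  rw [map_pow, show (2 : K) = ((2 : ℤ) : K) by simp, this, one_pow]

lemma val_int_le_of_dvd {a b : ℤ} (h : a ∣ b) : val v (b : K) ≤ val v (a : K) := by
  obtain ⟨c, rfl⟩ := h
  rw [Int.cast_mul, map_mul]
  exact mul_le_of_le_one_right' (val_intCast_le v c)

lemma Spl.exists_lg (hv : Spl v) {u : K} (hu : val v u = 1) :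
    ∃ n : ℕ, val v (u - 2 ^ n) ≤ val v 27 := by
  obtain ⟨k, hk⟩ := hv.exists_int 3 hu.le
  have h1 : ¬ (3 : ℤ) ∣ k := fun e => by
    have h2 := (val_int_lt_iff (w := v) Nat.prime_three (by simpa using hv.val_lt)).2 e
    have h3 := Valuation.map_add_lt _ (hk.trans_lt (hv.pow_lt (by norm_num))) h2
    simp [hu] at h3
  obtain ⟨n, hn⟩ : ∃ n : ℕ, (27 : ℤ) ∣ k - 2 ^ n := by
    have h2 : ∀ a : ZMod 27, 9 * a = 0 ∨ ∃ n : Fin 18, a = 2 ^ (n : ℕ) := by decide
    rcases h2 k with h3 | ⟨n, hn⟩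
    · have := (ZMod.intCast_zmod_eq_zero_iff_dvd (9 * k) 27).1 (by push_cast; exact h3)
      omega
    · exact ⟨n, (ZMod.intCast_zmod_eq_zero_iff_dvd (k - 2 ^ (n : ℕ)) 27).1
        (by push_cast; rw [hn, sub_self])⟩
  refine ⟨n, ?_⟩
  rw [show u - 2 ^ n = (u - k) + ((k - 2 ^ n : ℤ) : K) by push_cast; ring]
  refine Valuation.map_add_le _ (by simpa [show (3 : K) ^ 3 = 27 by norm_num] using hk) ?_
  simpa using val_int_le_of_dvd (v := v) hn

lemma val_27_le : val v (27 : K) ≤ val v 9 := by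
  simpa using val_int_le_of_dvd (v := v) (show (9 : ℤ) ∣ 27 by norm_num)

lemma Spl.nine_dvd (hv : Spl v) {a : ℤ} (h : val v (a : K) ≤ val v 9) : 9 ∣ a := by
  have h3 := fun b : ℤ => (val_int_lt_iff (w := v) Nat.prime_three (by simpa using hv.val_lt)
    (a := b)).1
  obtain ⟨b, rfl⟩ := h3 a (h.trans_lt hv.nine_lt)
  rw [show (9 : K) = 3 * 3 by norm_num, Int.cast_mul, map_mul, map_mul] at h
  obtain ⟨c, rfl⟩ := h3 b (((mul_le_mul_iff_right₀
    (val_pos v (show (3 : K) ≠ 0 by norm_num))).1 (by simpa using h)).trans_lt hv.val_lt)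
  exact ⟨c, by push_cast; ring⟩

lemma Spl.lg_unique (hv : Spl v) {u : K} {n m : ℕ} (hn : val v (u - 2 ^ n) ≤ val v 9)
    (hm : val v (u - 2 ^ m) ≤ val v 9) : (n : ZMod 3) = m := by
  have h1 : (9 : ℤ) ∣ 2 ^ n - 2 ^ m := hv.nine_dvd (by
    rw [show ((2 ^ n - 2 ^ m : ℤ) : K) = (u - 2 ^ m) - (u - 2 ^ n) by push_cast; ring]
    exact Valuation.map_sub_le _ hm hn)
  have h2 : (2 : ZMod 9) ^ n = 2 ^ m := by
    have := (ZMod.intCast_zmod_eq_zero_iff_dvd (2 ^ n - 2 ^ m) 9).2 h1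
    push_cast at this
    exact sub_eq_zero.1 this
  have h6 : (2 : ZMod 9) ^ 6 = 1 := by decide
  rw [pow_eq_pow_mod n h6, pow_eq_pow_mod m h6] at h2
  have h3 : ∀ a b : Fin 6, (2 : ZMod 9) ^ (a : ℕ) = 2 ^ (b : ℕ) → a = b := by decide
  have h4 : n % 6 = m % 6 := congrArg Fin.val
    (h3 ⟨_, Nat.mod_lt n (by norm_num)⟩ ⟨_, Nat.mod_lt m (by norm_num)⟩ h2)
  exact (ZMod.natCast_eq_natCast_iff' n m 3).2 (by omega)

lemma Spl.val_div (hv : Spl v) {x : K} (hx : x ≠ 0) : val v (x / 3 ^ ord v x) = 1 := by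
  have h3 : (3 : K) ^ ord v x ≠ 0 := zpow_ne_zero _ (by norm_num)
  rw [← ord_eq_zero_iff v (div_ne_zero hx h3), ord_div v hx h3, ord_zpow, hv.1, mul_one, sub_self]

lemma Spl.lgv_spec (hv : Spl v) {x : K} (hx : x ≠ 0) :
    ∃ n : ℕ, val v (x / 3 ^ ord v x - 2 ^ n) ≤ val v 9 ∧ lgv v x = n :=
  ⟨_, Classical.epsilon_spec (p := fun n : ℕ => val v (x / 3 ^ ord v x - 2 ^ n) ≤ val v 9)
    ((hv.exists_lg (hv.val_div hx)).imp fun _ h => h.trans val_27_le), rfl⟩

lemma Spl.lgv_eq (hv : Spl v) {x : K} (hx : x ≠ 0) {n : ℕ}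
    (h : val v (x / 3 ^ ord v x - 2 ^ n) ≤ val v 9) : lgv v x = n := by
  obtain ⟨m, hm, e⟩ := hv.lgv_spec hx
  rw [e, hv.lg_unique hm h]

theorem Spl.lgv_mul (hv : Spl v) {x y : K} (hx : x ≠ 0) (hy : y ≠ 0) :
    lgv v (x * y) = lgv v x + lgv v y := by
  obtain ⟨n, hn, e⟩ := hv.lgv_spec hx
  obtain ⟨m, hm, e'⟩ := hv.lgv_spec hy
  rw [e, e', ← Nat.cast_add]
  refine hv.lgv_eq (mul_ne_zero hx hy) ?_
  rw [ord_mul v hx hy, zpow_add₀ (by norm_num), mul_div_mul_comm, pow_add,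
    show ∀ a b c d : K, a * b - c * d = (a - c) * b + c * (b - d) from fun _ _ _ _ => by ring]
  refine Valuation.map_add_le _ ?_ ?_
  · rwa [map_mul, hv.val_div hy, mul_one]
  · rwa [map_mul, hv.val_two_pow, one_mul]

theorem Spl.lgv_of (hv : Spl v) {x y : K} (hx : x ≠ 0) {n : ℕ}
    (h : val v (y - 2 ^ n * x) ≤ val v (9 * x)) : lgv v y = lgv v x + n := by
  have h1 : val v (2 ^ n * x) = val v x := by rw [map_mul, hv.val_two_pow, one_mul]
  have h2 : val v y = val v x := by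
    rw [← h1]
    refine Valuation.map_eq_of_sub_lt _ (h.trans_lt ?_)
    rw [h1, map_mul]
    exact mul_lt_of_lt_one_left (val_pos v hx) hv.nine_lt
  have hy : y ≠ 0 := fun e => val_ne_zero v hx (by rw [← h2, e, map_zero])
  obtain ⟨m, hm, e⟩ := hv.lgv_spec hx
  rw [e, ← Nat.cast_add]
  refine hv.lgv_eq hy ?_
  rw [ord_congr h2, show y / 3 ^ ord v x - 2 ^ (m + n) = (y - 2 ^ n * x) / x * (x / 3 ^ ord v x)
    + 2 ^ n * (x / 3 ^ ord v x - 2 ^ m) by rw [pow_add]; field_simp; ring]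
  refine Valuation.map_add_le _ ?_ ?_
  · rwa [map_mul, hv.val_div hx, mul_one, map_div₀, div_le_iff₀ (val_pos v hx), ← map_mul]
  · rwa [map_mul, hv.val_two_pow, one_mul]

theorem Spl.exists_pow (hv : Spl v) {x y : K} (hx : x ≠ 0) (hy : y ≠ 0) (h : ord v x = ord v y) :
    ∃ n : ℕ, val v (y - 2 ^ n * x) ≤ val v (27 * x) := by
  obtain ⟨n, hn⟩ := hv.exists_lg (u := y / x)
    (by rw [← ord_eq_zero_iff v (div_ne_zero hy hx), ord_div v hy hx, h, sub_self])
  refine ⟨n, ?_⟩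
  rw [show y - 2 ^ n * x = (y / x - 2 ^ n) * x by field_simp, map_mul, map_mul]
  exact mul_le_mul_left hn _

theorem Spl.lgv_three (hv : Spl v) : lgv v 3 = 0 := by
  simpa using hv.lgv_eq (x := 3) (n := 0) (by norm_num) (by simp [hv.1])

lemma Spl.lgv_one (hv : Spl v) : lgv v 1 = 0 := by
  simpa using hv.lgv_mul one_ne_zero one_ne_zero

lemma Spl.lgv_pow (hv : Spl v) {x : K} (hx : x ≠ 0) (n : ℕ) : lgv v (x ^ n) = n * lgv v x := by
  induction n with
  | zero => simp [hv.lgv_one]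
  | succ n ih => rw [pow_succ, hv.lgv_mul (pow_ne_zero _ hx) hx, ih]; push_cast; ring

lemma Spl.lgv_cube (hv : Spl v) {x : K} (hx : x ≠ 0) : lgv v (x ^ 3) = 0 := by
  rw [hv.lgv_pow hx, ZMod.natCast_self, zero_mul]

lemma Spl.lgv_div (hv : Spl v) {x y : K} (hx : x ≠ 0) (hy : y ≠ 0) :
    lgv v (x / y) = lgv v x - lgv v y := by
  rw [eq_sub_iff_add_eq, ← hv.lgv_mul (div_ne_zero hx hy) hy, div_mul_cancel₀ _ hy]

theorem Spl.pc_iff (hv : Spl v) {x : K} (hx : x ≠ 0) :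
    PC v x ↔ 3 ∣ ord v x ∧ lgv v x = 0 := by
  constructor
  · rintro ⟨z, hz, h⟩
    have hz3 := pow_ne_zero 3 hz
    refine ⟨⟨ord v z, ?_⟩, ?_⟩
    · have := (ord_eq_zero_iff v (div_ne_zero hx hz3)).2 (val_eq_one_of_sub (h.trans_lt hv.nine_lt))
      rw [ord_div v hx hz3, ord_pow] at this
      omega
    · have := hv.lgv_of (y := x / z ^ 3) (n := 0) one_ne_zero (by simpa using h)
      simpa [hv.lgv_div hx hz3, hv.lgv_cube hz, hv.lgv_one] using this
  · rintro ⟨⟨k, hk⟩, h⟩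
    obtain ⟨n, hn, e⟩ := hv.lgv_spec hx
    obtain ⟨m, rfl⟩ := (ZMod.natCast_eq_zero_iff n 3).1 (e ▸ h)
    have h3 : (3 : K) ^ k ≠ 0 := zpow_ne_zero _ (by norm_num)
    refine ⟨3 ^ k * 2 ^ m, mul_ne_zero h3 (pow_ne_zero _ two_ne_zero), ?_⟩
    rw [show x / (3 ^ k * 2 ^ m) ^ 3 - 1 = (x / 3 ^ ord v x - 2 ^ (3 * m)) / 2 ^ (3 * m) by
      rw [hk, mul_comm 3 k, zpow_mul, pow_mul', zpow_ofNat]; field_simp, map_div₀, hv.val_two_pow,
      div_one]
    exact hn

theorem Spl.lgv_prod (hv : Spl v) {ι : Type*} (s : Finset ι) {f : ι → K} (h : ∀ i, f i ≠ 0) :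
    lgv v (∏ i ∈ s, f i) = ∑ i ∈ s, lgv v (f i) := by
  induction s using Finset.induction_on with
  | empty => simpa using hv.lgv_one
  | insert a s ha ih => rw [Finset.prod_insert ha, Finset.sum_insert ha,
      hv.lgv_mul (h a) (Finset.prod_ne_zero_iff.2 fun i _ => h i), ih]

lemma exists_third_dv {x : K} (h : ∀ v, 3 ∣ ord v x) : ∃ D : Dv K, dv x = 3 • D :=
  ⟨(dv x).mapRange (· / 3) (by simp), Finsupp.ext fun v => by
    simp [Int.mul_ediv_cancel' (h v)]⟩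

lemma dvd_ord_of_dv {x : K} {D : Dv K} (h : dv x = 3 • D) (v : Pl K) : 3 ∣ ord v x :=
  ⟨D v, by rw [← dv_apply, h]; simp⟩

lemma Setup.eq_of_dv (h : Setup P Q) {x y : K} (hx : x ≠ 0) (hy : y ≠ 0) (e : dv x = dv y) :
    ∃ w, w ≠ 0 ∧ x = w ^ 3 * y := by
  obtain ⟨w, hw⟩ := h.cube_of_ord (div_ne_zero hx hy) fun v => by
    rw [← dv_apply, dv_div hx hy, e, sub_self]; rfl
  exact ⟨w, fun e0 => div_ne_zero hx hy (by rw [hw, e0]; norm_num), by rw [← hw]; field_simp⟩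

lemma Setup.cube_of_clD (h : Setup P Q) {x : K} (hx : x ≠ 0) {D : Dv K} (e : dv x = 3 • D)
    (h1 : clD D = 1) : ∃ z, x = z ^ 3 := by
  obtain ⟨y, hy, rfl⟩ := clD_eq_one.1 h1
  obtain ⟨w, -, hw⟩ := h.eq_of_dv hx (pow_ne_zero 3 hy) (by rw [e, dv_pow])
  exact ⟨w * y, by rw [hw, mul_pow]⟩

lemma clD_eq_one_of_cube {z : K} (hz : z ^ 3 ≠ 0) {D : Dv K} (e : dv (z ^ 3) = 3 • D) :
    clD D = 1 := by
  rw [dv_pow] at e
  rw [← nsmul_right_injective (by norm_num : (3 : ℕ) ≠ 0) e]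
  exact clD_dv fun e0 => hz (by simp [e0])

lemma clD_cube {x : K} (hx : x ≠ 0) {D : Dv K} (e : dv x = 3 • D) : clD D ^ 3 = 1 := by
  rw [← clD_nsmul, ← e, clD_dv hx]

lemma Setup.cl_mul (h : Setup P Q) : cl P * cl Q = 1 := by
  simpa [h.three, clD_add, clD_single] using clD_dv (show (3 : K) ≠ 0 by norm_num)

lemma Setup.cl_eq (h : Setup P Q) : cl Q = (cl P)⁻¹ := eq_inv_of_mul_eq_one_right h.cl_mul

/-- The logarithm of a generator of the `h`-th power of an ideal in the class. -/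
noncomputable def chi (Q : Pl K) (c : ClassGroup (𝓞 K)) : ZMod 3 :=
  lgv Q (Classical.epsilon fun x : K => x ≠ 0 ∧ ∃ D : Dv K, clD D = c ∧ dv x = hh K • D)

theorem Setup.chi_eq (h : Setup P Q) (h3 : 3 ∣ hh K) {D : Dv K} {x : K} (hx : x ≠ 0)
    (e : dv x = hh K • D) : chi Q (clD D) = lgv Q x := by
  obtain ⟨hy, E, hE, e'⟩ := Classical.epsilon_spec
    (p := fun x : K => x ≠ 0 ∧ ∃ E : Dv K, clD E = clD D ∧ dv x = hh K • E) ⟨x, hx, D, rfl, e⟩
  obtain ⟨z, hz, rfl⟩ := clD_eq_iff.1 hE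
  have hzx := mul_ne_zero (pow_ne_zero (hh K) hz) hx
  obtain ⟨w, hw, e1⟩ := h.eq_of_dv hy hzx
    (by rw [e', dv_mul (pow_ne_zero _ hz) hx, dv_pow, e, smul_add])
  have hv := h.symm.spl
  rw [chi, e1, hv.lgv_mul (pow_ne_zero _ hw) hzx, hv.lgv_cube hw, hv.lgv_mul (pow_ne_zero _ hz) hx,
    hv.lgv_pow hz, (ZMod.natCast_eq_zero_iff _ 3).2 h3, zero_mul, zero_add, zero_add]

theorem Setup.ch_chi (h : Setup P Q) (h3 : 3 ∣ hh K) : Ch (chi Q) := fun c d => by
  obtain ⟨D, rfl⟩ := clD_surj c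
  obtain ⟨E, rfl⟩ := clD_surj d
  obtain ⟨x, hx, e⟩ := exists_dv_card D
  obtain ⟨y, hy, e'⟩ := exists_dv_card E
  rw [← clD_add, h.chi_eq h3 hx e, h.chi_eq h3 hy e', h.chi_eq h3 (mul_ne_zero hx hy)
    (by rw [dv_mul hx hy, e, e', smul_add]), h.symm.spl.lgv_mul hx hy]

/-- The class of `P` generates the class group modulo cubes. -/
def C1 (P : Pl K) : Prop := ∀ c : ClassGroup (𝓞 K), ∃ (d : ClassGroup (𝓞 K)) (k : ℕ),
  c = d ^ 3 * cl P ^ k

variable (K) in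
/-- Three-singular elements which are local cubes above three are cubes. -/
def C2 : Prop := ∀ x : 𝓞 K, (∃ I : Ideal (𝓞 K), Ideal.span {x} = I ^ 3) → (9 : 𝓞 K) ∣ x ^ 2 - 1 →
  ∃ z : K, (x : K) = z ^ 3

theorem C1.exists_ord (h : C1 P) (f : Dv K) :
    ∃ x : K, x ≠ 0 ∧ ∀ v, v ≠ P → 3 ∣ f v - ord v x := by
  obtain ⟨d, k, e⟩ := h (clD f)
  obtain ⟨E, rfl⟩ := clD_surj d
  rw [← clD_nsmul, ← zpow_natCast, ← clD_single, ← clD_add] at e
  obtain ⟨x, hx, rfl⟩ := clD_eq_iff.1 e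
  exact ⟨x, hx, fun v hv => ⟨E v, by simp [hv]⟩⟩

lemma Spl.pc_of_sq (hv : Spl v) {x : K} (h : val v (x ^ 2 - 1) ≤ val v 9) : PC v x := by
  have h1 := val_eq_one_of_sq (val_eq_one_of_sub (h.trans_lt hv.nine_lt))
  have hx : x ≠ 0 := fun e => by simp [e] at h1
  refine (hv.pc_iff hx).2 ⟨by simp [(ord_eq_zero_iff v hx).2 h1], ?_⟩
  have h2 := hv.lgv_of (y := x ^ 2) (n := 0) one_ne_zero (by simpa using h)
  rw [hv.lgv_pow hx, hv.lgv_one] at h2
  generalize lgv v x = a at h2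
  revert a
  decide

lemma Spl.sq_of_pc (hv : Spl v) {x : K} (hx : x ≠ 0) (h0 : ord v x = 0) (h : lgv v x = 0) :
    val v (x ^ 2 - 1) ≤ val v 9 := by
  obtain ⟨n, hn, e⟩ := hv.lgv_spec hx
  obtain ⟨m, rfl⟩ := (ZMod.natCast_eq_zero_iff n 3).1 (e ▸ h)
  rw [h0, zpow_zero, div_one] at hn
  rw [show x ^ 2 - 1 = (x - 2 ^ (3 * m)) * (x + 2 ^ (3 * m)) + ((64 ^ m - 1 ^ m : ℤ) : K) by
    push_cast; rw [show (64 : K) = 2 ^ 3 * 2 ^ 3 by norm_num, mul_pow, ← pow_mul]; ring]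
  refine Valuation.map_add_le _ ?_ ?_
  · rw [map_mul]
    exact (mul_le_of_le_one_right' (Valuation.map_add_le _ ((ord_eq_zero_iff v hx).1 h0).le
      (hv.val_two_pow _).le)).trans hn
  · simpa using val_int_le_of_dvd (v := v)
      ((show (9 : ℤ) ∣ 64 - 1 by norm_num).trans (sub_dvd_pow_sub_pow 64 1 m))

lemma ord_add_of_lt {x y : K} (hx : x ≠ 0) (hy : y ≠ 0) (h : ord v x < ord v y) :
    x + y ≠ 0 ∧ ord v (x + y) = ord v x := by
  have h1 : val v (x + y) = val v x := Valuation.map_add_eq_of_lt_left _ (by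
    rw [val_eq_exp v hx, val_eq_exp v hy, exp_lt_exp]; omega)
  exact ⟨fun e => val_ne_zero v hx (by rw [← h1, e, map_zero]), ord_congr h1⟩

lemma exists_mem_ord_two (h : P ≠ Q) (D : Dv K) :
    ∃ y ∈ ID D, y ≠ 0 ∧ ord P y = D P ∧ ord Q y = D Q := by
  obtain ⟨x, hx, hx0, e⟩ := exists_mem_ord (D + .single Q 1) P
  obtain ⟨y, hy, hy0, e'⟩ := exists_mem_ord (D + .single P 1) Q
  have h1 := (mem_ID.1 hx).resolve_left hx0 Q
  have h2 := (mem_ID.1 hy).resolve_left hy0 P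
  simp only [Finsupp.add_apply, Finsupp.single_eq_same, Finsupp.single_eq_of_ne h,
    Finsupp.single_eq_of_ne h.symm, add_zero] at e e' h1 h2
  have hle : ∀ u : Pl K, ID (D + .single u 1) ≤ ID D := fun u =>
    ID_le_iff.2 (le_add_of_nonneg_right (Finsupp.single_nonneg.2 zero_le_one))
  obtain ⟨h3, h4⟩ := ord_add_of_lt (v := P) hx0 hy0 (by omega)
  obtain ⟨-, h5⟩ := ord_add_of_lt (v := Q) hy0 hx0 (by omega)
  exact ⟨x + y, add_mem (hle _ hx) (hle _ hy), h3, h4.trans e, by rw [add_comm, h5, e']⟩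

theorem Setup.c2_iff (h : Setup P Q) : C2 K ↔
    ∀ β : K, β ≠ 0 → (∀ v, 3 ∣ ord v β) → PC P β → PC Q β → ∃ z, β = z ^ 3 := by
  refine ⟨fun h2 β hβ h3 hP hQ => ?_, fun h2 x ⟨I, hI⟩ ⟨y, hy⟩ => ?_⟩
  · obtain ⟨D, hD⟩ := exists_third_dv h3
    obtain ⟨y, hy, hy0, e, e'⟩ := exists_mem_ord_two h.ne (-D)
    have hy3 := pow_ne_zero 3 hy0
    have h0 := mul_ne_zero hβ hy3
    have h4 : 0 ≤ D + dv y := fun v => by
      have := (mem_ID.1 hy).resolve_left hy0 v
      simp only [Finsupp.neg_apply, Finsupp.coe_add, Pi.add_apply, dv_apply, Finsupp.coe_zero,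
        Pi.zero_apply] at this ⊢
      omega
    have h5 : dv (β * y ^ 3) = 3 • (D + dv y) := by rw [dv_mul hβ hy3, hD, dv_pow, smul_add]
    obtain ⟨x, hx⟩ := mem_ID_zero.1 (mem_ID.2 (Or.inr fun v => by
      rw [← dv_apply (β * y ^ 3), h5]; exact nsmul_nonneg h4 3 v))
    obtain ⟨I, hI, eI⟩ := exists_dI h4
    have hx0 : x ≠ 0 := fun e0 => h0 (by rw [← hx, e0]; rfl)
    have key : ∀ v, Spl v → PC v β → ord v y = (-D) v → val v ((β * y ^ 3) ^ 2 - 1) ≤ val v 9 :=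
      fun v hv hp e1 => hv.sq_of_pc h0 (by rw [← dv_apply, h5]; simp [e1])
        (by rw [hv.lgv_mul hβ hy3, hv.lgv_cube hy0, ((hv.pc_iff hβ).1 hp).2, add_zero])
    obtain ⟨w, hw⟩ := IsDedekindDomain.HeightOneSpectrum.mem_integers_of_valuation_le_one
      (R := 𝓞 K) K (((x : K) ^ 2 - 1) / 9) fun v => by
        refine (val_le_iff_div (by norm_num)).1 ?_
        by_cases h6 : v = P
        · rw [h6, hx]; exact key P h.spl hP e
        by_cases h7 : v = Q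
        · rw [h7, hx]; exact key Q h.symm.spl hQ e'
        rw [show (9 : K) = 3 ^ 2 by norm_num, map_pow, h.val_three h6 h7, one_pow]
        exact Valuation.map_sub_le _ (by rw [map_pow]; exact pow_le_one' (val_int_le v x) 2)
          (map_one _).le
    obtain ⟨z, hz⟩ := h2 x ⟨I, dI_inj (by simpa using hx0) (pow_ne_zero _ hI)
      (by rw [dI_span hx0, hx, h5, dI_pow, eI])⟩ ⟨w, by
        apply FaithfulSMul.algebraMap_injective (𝓞 K) K
        rw [map_mul, hw, map_ofNat, mul_div_cancel₀ _ (by norm_num)]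
        simp⟩
    exact ⟨z / y, by rw [div_pow, ← hz, hx]; field_simp⟩
  · rcases eq_or_ne x 0 with rfl | hx
    · exact ⟨0, by simp⟩
    have h9 : ∀ v : Pl K, val v ((x : K) ^ 2 - 1) ≤ val v 9 := fun v => by
      have : (x : K) ^ 2 - 1 = 9 * y := by
        simpa only [map_sub, map_pow, map_one, map_mul, map_ofNat] using
          congrArg (algebraMap (𝓞 K) K) hy
      rw [this, map_mul]
      exact mul_le_of_le_one_right' (val_int_le v y)
    exact h2 x (by simpa using hx) (dvd_ord_of_dv (by rw [← dI_span hx, hI, dI_pow]))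
      (h.spl.pc_of_sq (h9 P)) (h.symm.spl.pc_of_sq (h9 Q))

lemma hh_eq : hh K = Nat.card (ClassGroup (𝓞 K)) := Nat.card_eq_fintype_card.symm

lemma exists_nat_dvd_add {a b : ℤ} (hb : ¬ 3 ∣ b) : ∃ i : ℕ, 3 ∣ a + i * b := by
  have h : 3 ∣ a ∨ 3 ∣ a + b ∨ 3 ∣ a + 2 * b := by
    have h1 : a % 3 = 0 ∨ a % 3 = 1 ∨ a % 3 = 2 := by omega
    have h2 : b % 3 = 1 ∨ b % 3 = 2 := by omega
    omega
  rcases h with h | h | h
  exacts [⟨0, by simpa using h⟩, ⟨1, by simpa using h⟩, ⟨2, by simpa using h⟩]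

variable {B : K}

lemma dv_eq_third (h3 : 3 ∣ hh K) {D : Dv K} (e : dv B = hh K • D) :
    dv B = 3 • ((hh K / 3) • D) := by
  rw [e, ← mul_nsmul', Nat.mul_div_cancel' h3]

theorem Setup.c1_gen (h : Setup P Q) (h1 : C1 P) (hB : B ≠ 0) (e : dv B = hh K • .single Q 1)
    {β : K} (hβ : β ≠ 0) (h3 : ∀ v, v ≠ P → v ≠ Q → 3 ∣ ord v β) :
    ∃ (i j : ℕ) (z : K), β * 3 ^ i * B ^ j = z ^ 3 := by
  have hQ : Gen3 (cl Q) := h.cl_eq ▸ Gen3.inv h1
  obtain ⟨i, hi⟩ := exists_nat_dvd_add (a := ord P β) (b := 1) (by norm_num)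
  have h30 : (3 : K) ^ i ≠ 0 := pow_ne_zero _ (by norm_num)
  have h0 := mul_ne_zero hβ h30
  have h4 : ∀ v, v ≠ Q → 3 ∣ ord v (β * 3 ^ i) := fun v hv => by
    rw [ord_mul v hβ h30, ord_pow]
    by_cases h5 : v = P
    · rwa [h5, h.spl.1]
    · rw [(ord_eq_zero_iff v (by norm_num)).2 (h.val_three h5 hv), mul_zero, add_zero]
      exact h3 v h5 hv
  refine ⟨i, ?_⟩
  generalize β * 3 ^ i = γ at h0 h4
  have hγ := fun j : ℕ => mul_ne_zero h0 (pow_ne_zero j hB)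
  by_cases h5 : 3 ∣ hh K
  · have h6 : 3 ∣ ord Q γ := by
      by_contra h6
      obtain ⟨j, k, hk⟩ := exists_nat_dvd_add (a := -1) h6
      let D : Dv K := (j • dv γ - .single Q 1).mapRange (· / 3) (by simp)
      have h7 : j • dv γ - .single Q 1 = 3 • D := Finsupp.ext fun v => by
        have : (3 : ℤ) ∣ (j • dv γ - .single Q 1 : Dv K) v := by
          by_cases h8 : v = Q
          · exact ⟨k, by simp [h8]; linarith⟩
          · simpa [h8] using (h4 v h8).mul_left j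
        simp only [D, Finsupp.smul_apply (b := (3 : ℕ)), Finsupp.mapRange_apply, nsmul_eq_mul,
          Nat.cast_ofNat, Int.mul_ediv_cancel' this]
      have h8 := congrArg clD h7
      rw [clD_sub, clD_nsmul, clD_dv h0, clD_single, clD_nsmul, one_pow, zpow_one, one_div] at h8
      exact hQ.ne_cube (hh_eq (K := K) ▸ h5) (clD D)⁻¹ (by rw [inv_pow, ← h8, inv_inv])
    obtain ⟨D, hD⟩ := exists_third_dv (x := γ) fun v => by
      by_cases h8 : v = Q
      exacts [h8 ▸ h6, h4 v h8]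
    have hB3 := dv_eq_third h5 e
    obtain ⟨j, hj⟩ := hQ.t3.eq_pow (s := (clD D)⁻¹) (by rw [inv_pow, clD_cube h0 hD, inv_one])
      (clD_cube hB hB3) (by
        rw [clD_nsmul, clD_single, zpow_one, hh_eq]; exact hQ.pow_ne (hh_eq (K := K) ▸ h5))
    exact ⟨j, h.cube_of_clD (hγ j) (D := D + j • (hh K / 3) • .single Q 1)
      (by rw [dv_mul h0 (pow_ne_zero j hB), dv_pow, hD, hB3, smul_add, smul_comm j])
      (by rw [clD_add, clD_nsmul, ← hj, mul_inv_cancel])⟩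
  · obtain ⟨j, hj⟩ := exists_nat_dvd_add (a := ord Q γ) (b := hh K) (by exact_mod_cast h5)
    obtain ⟨D, hD⟩ := exists_third_dv (x := γ * B ^ j) fun v => by
      rw [ord_mul v h0 (pow_ne_zero j hB), ord_pow, ← dv_apply B, e]
      by_cases h8 : v = Q
      · simpa [h8] using hj
      · simpa [h8] using h4 v h8
    refine ⟨j, h.cube_of_clD (hγ j) hD ?_⟩
    by_contra h6
    exact h5 (hh_eq (K := K) ▸ orderOf_eq_three (clD_cube (hγ j) hD) h6 ▸ orderOf_dvd_natCard _)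

theorem Setup.c1_ne (h : Setup P Q) (h1 : C1 P) (hB : B ≠ 0) (e : dv B = hh K • .single Q 1)
    (i : ℕ) (z : K) : B * 3 ^ i ≠ z ^ 3 := fun e1 => by
  have hQ : Gen3 (cl Q) := h.cl_eq ▸ Gen3.inv h1
  have h30 : (3 : K) ^ i ≠ 0 := pow_ne_zero _ (by norm_num)
  have h2 := congrArg (ord P) e1
  have h3 := congrArg (ord Q) e1
  rw [ord_mul _ hB h30, ord_pow, ord_pow, ← dv_apply B, e] at h2 h3
  rw [h.spl.1] at h2
  rw [h.symm.spl.1] at h3
  simp only [Finsupp.smul_apply, Finsupp.single_eq_of_ne h.ne, Finsupp.single_eq_same,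
    nsmul_eq_mul] at h2 h3
  obtain ⟨k, rfl⟩ : 3 ∣ i := by omega
  have h5 : 3 ∣ hh K := by omega
  have h6 : B = (z / 3 ^ k) ^ 3 := by
    rw [div_pow, ← e1, ← pow_mul, mul_comm k, mul_div_cancel_right₀ _ h30]
  have h7 := dv_eq_third h5 e
  rw [h6] at hB h7
  have h8 := clD_eq_one_of_cube hB h7
  rw [clD_nsmul, clD_single, zpow_one, hh_eq] at h8
  exact hQ.pow_ne (hh_eq (K := K) ▸ h5) h8

lemma three_dvd_of_not_c1 (h1 : ¬ C1 P) : 3 ∣ hh K := by
  by_contra h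
  exact h1 fun c => (exists_cube_of_not_dvd (hh_eq (K := K) ▸ h) c).imp fun d hd => ⟨0, by simpa using hd⟩

theorem Setup.not_c1 (h : Setup P Q) (h1 : ¬ C1 P) (hB : B ≠ 0) (e : dv B = hh K • .single Q 1) :
    3 ∣ hh K ∧ (∃ z, B = z ^ 3) ∧ chi Q (cl P) = 0 ∧ chi Q (cl Q) = 0 ∧
      ∃ χ : ClassGroup (𝓞 K) → ZMod 3, Ch χ ∧ (∃ v, χ (cl v) ≠ 0) ∧ χ (cl P) = 0 ∧ χ (cl Q) = 0 := by
  have h3 := three_dvd_of_not_c1 h1
  have h4 : cl P ^ (hh K / 3) = 1 := by
    by_contra h4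
    exact h1 (gen3_of_pow_ne (hh_eq (K := K) ▸ h4))
  obtain ⟨z, hz⟩ := h.cube_of_clD hB (dv_eq_third h3 e)
    (by rw [clD_nsmul, clD_single, zpow_one, h.cl_eq, inv_pow, h4, inv_one])
  have h5 : chi Q (cl Q) = 0 := by
    have := h.chi_eq h3 hB e
    rw [clD_single, zpow_one] at this
    rw [this, hz, h.symm.spl.lgv_cube fun e0 => hB (by simp [hz, e0])]
  obtain ⟨χ, hχ, ⟨c, hc⟩, h6⟩ := exists_ch_of_not_gen3 (g := cl P) h1
  refine ⟨h3, ⟨z, hz⟩, by rw [h.symm.cl_eq, (h.ch_chi h3).inv, h5, neg_zero], h5, χ, hχ, ?_, h6,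
    by rw [h.cl_eq, hχ.inv, h6, neg_zero]⟩
  by_contra! h7
  exact hc (hχ.eq_zero_of_cl h7 c)

lemma lgv_smul {G : Type*} [Group G] [MulSemiringAction G K] (g : G) (v : Pl K) (x : K) :
    lgv (g • v) (g • x) = lgv v x := by
  have h : ∀ n : ℕ, g • (n : K) = n := map_natCast (MulSemiringAction.toRingHom G K g)
  have h9 : val (g • v) (9 : K) = val v 9 := by
    rw [← val_smul g v 9]; congr 1; simpa using (h 9).symm
  rw [lgv, lgv]
  congr 2
  funext n
  rw [h9, ord_smul, ← val_smul g v (x / 3 ^ ord v x - 2 ^ n), smul_sub, smul_div₀', smul_pow',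
    smul_zpow₀', show g • (3 : K) = 3 by simpa using h 3, show g • (2 : K) = 2 by simpa using h 2]

lemma Setup.lgv_add (h : Setup P Q) {x : K} (hx : x ≠ 0) (h3 : ∀ v, 3 ∣ ord v x) :
    lgv Q x + lgv P x = 0 := by
  have : Algebra.IsQuadraticExtension ℚ K := ⟨h.deg⟩
  obtain ⟨g, hg⟩ := exists_smul_eq (K ≃ₐ[ℚ] K) (und_rat_eq Nat.prime_three
    (w := P) (w' := Q) (by simpa using h.spl.val_lt) (by simpa using h.symm.spl.val_lt))
  have hc : Nat.card (K ≃ₐ[ℚ] K) = 2 := by rw [IsGalois.card_aut_eq_finrank, h.deg]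
  have hg1 : 1 ≠ g := fun e => h.ne (by rw [← hg, ← e, one_smul])
  have hu : (Finset.univ : Finset (K ≃ₐ[ℚ] K)) = {1, g} :=
    (Finset.eq_univ_of_card _ (by rw [Finset.card_pair hg1, ← Nat.card_eq_fintype_card, hc])).symm
  have hn := Algebra.norm_eq_prod_automorphisms ℚ x
  rw [hu, Finset.prod_pair hg1] at hn
  have hgx : g • x ≠ 0 := by simpa using hx
  replace hn : algebraMap ℚ K (Algebra.norm ℚ x) = x * g • x := hn
  have h0 := mul_ne_zero hx hgx
  generalize Algebra.norm ℚ x = r at hn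
  have hr : r ≠ 0 := fun e => h0 (by rw [← hn, e, map_zero])
  obtain ⟨D, hD⟩ := exists_third_dv (x := r) fun p => by
    obtain ⟨w, rfl⟩ := exists_und K p
    have h4 : 3 ∣ ord w (algebraMap ℚ K r) := by
      rw [hn, ord_mul w hx hgx, ← smul_inv_smul g w, ord_smul]
      exact dvd_add (h3 _) (h3 _)
    have h5 : ee ℚ w ∣ 2 := by
      rw [← card_In (K ≃ₐ[ℚ] K) w, ← hc]; exact Subgroup.card_subgroup_dvd_card _
    rw [ord_map] at h4
    rcases (Nat.dvd_prime Nat.prime_two).1 h5 with e | e <;> rw [e] at h4 <;> omega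
  obtain ⟨y, hy, rfl⟩ := clD_eq_one.1
    (Fintype.card_le_one_iff.1 Rat.classNumber_eq.le (clD D) 1)
  have hy' : algebraMap ℚ K y ≠ 0 := by simpa using hy
  obtain ⟨w, hw, e⟩ := h.eq_of_dv h0 (pow_ne_zero 3 hy') (Finsupp.ext fun v => by
    rw [dv_apply, dv_apply, ← hn, ← map_pow, ord_map, ord_map, ← dv_apply r, hD, ← dv_pow, dv_apply])
  have hv := h.symm.spl
  rw [← lgv_smul g P, hg, ← hv.lgv_mul hx hgx, e, ← mul_pow, hv.lgv_cube (mul_ne_zero hw hy')]

theorem Setup.of_c2 (h : Setup P Q) (h1 : ¬ C1 P) (h2 : C2 K) : (∃ v, chi Q (cl v) ≠ 0) ∧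
    (∀ u, chi Q (cl u) ≠ 0 → ∀ f : Dv K, ∃ x : K, x ≠ 0 ∧ ∀ v, v ≠ u → 3 ∣ f v - ord v x) ∧
      ∃ x : K, x ≠ 0 ∧ (∀ v, 3 ∣ ord v x) ∧ ¬ PC Q x := by
  have h3 := three_dvd_of_not_c1 h1
  have hv := h.symm.spl
  have key : ∀ {x : K} {D : Dv K}, x ≠ 0 → dv x = 3 • D → lgv Q x = 0 → clD D = 1 :=
    fun {x D} hx e e0 => by
      have h4 := dvd_ord_of_dv e
      obtain ⟨z, rfl⟩ := h.c2_iff.1 h2 x hx h4
        ((h.spl.pc_iff hx).2 ⟨h4 P, by simpa [e0] using h.lgv_add hx h4⟩)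
        ((hv.pc_iff hx).2 ⟨h4 Q, e0⟩)
      exact clD_eq_one_of_cube hx e
  have hT : T3 (ClassGroup (𝓞 K)) := by
    have h4 : ∀ c : (powMonoidHom 3 : ClassGroup (𝓞 K) →* _).ker, ∃ (D : Dv K) (x : K),
        clD D = c ∧ x ≠ 0 ∧ dv x = 3 • D := fun c => by
      obtain ⟨D, hD⟩ := clD_surj (c : ClassGroup (𝓞 K))
      obtain ⟨x, hx, e⟩ := clD_eq_one.1 (show clD (3 • D) = 1 by rw [clD_nsmul, hD]; exact c.2)
      exact ⟨D, x, hD, hx, e⟩
    choose D x hD hx e using h4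
    refine (Nat.card_le_card_of_injective (fun c => lgv Q (x c)) fun c d hcd => ?_).trans (by simp)
    have h5 := key (D := D c - D d) (div_ne_zero (hx c) (hx d))
      (by rw [dv_div (hx c) (hx d), e, e, smul_sub])
      (by rw [hv.lgv_div (hx c) (hx d), sub_eq_zero]; exact hcd)
    rw [clD_sub, hD, hD, div_eq_one] at h5
    exact Subtype.ext h5
  obtain ⟨c, hc⟩ := hT.exists_pow_ne (hh_eq (K := K) ▸ h3)
  obtain ⟨D, rfl⟩ := clD_surj c
  obtain ⟨x, hx, e⟩ := exists_dv_card D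
  have e3 := dv_eq_third h3 e
  have h4 : lgv Q x ≠ 0 := fun e0 => hc (by rw [← hh_eq, ← clD_nsmul]; exact key hx e3 e0)
  refine ⟨?_, fun u hu => C1.exists_ord (hT.gen3 fun d hd => hu ?_), x, hx, dvd_ord_of_dv e3,
    fun hp => h4 ((hv.pc_iff hx).1 hp).2⟩
  · by_contra! h5
    exact h4 (h.chi_eq h3 hx e ▸ (h.ch_chi h3).eq_zero_of_cl h5 _)
  · rw [hd, (h.ch_chi h3).pow, ZMod.natCast_self, zero_mul]

theorem Setup.not_c2 (h : Setup P Q) (h1 : ¬ C1 P) (h2 : ¬ C2 K) (c : ClassGroup (𝓞 K)) :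
    chi Q c = 0 := by
  have h3 := three_dvd_of_not_c1 h1
  have hv := h.symm.spl
  rw [h.c2_iff] at h2
  push Not at h2
  obtain ⟨β, hβ, h4, -, hQ, h5⟩ := h2
  obtain ⟨D, hD⟩ := exists_third_dv h4
  obtain ⟨E, rfl⟩ := clD_surj c
  obtain ⟨x, hx, e⟩ := exists_dv_card E
  have e3 := dv_eq_third h3 e
  obtain ⟨j, hj⟩ : ∃ j : ℕ, clD ((hh K / 3) • E) = clD D ^ j := by
    by_cases h6 : clD ((hh K / 3) • E) = 1
    · exact ⟨0, by rw [h6, pow_zero]⟩
    refine (gen3_of_pow_ne (g := clD E) (by rwa [← hh_eq, ← clD_nsmul])).t3.eq_pow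
      (clD_cube hx e3) (clD_cube hβ hD) fun h7 => ?_
    obtain ⟨z, hz⟩ := h.cube_of_clD hβ hD h7
    exact h5 z hz
  rw [← clD_nsmul] at hj
  obtain ⟨z, hz, e4⟩ := clD_eq_iff.1 hj
  have h6 := mul_ne_zero (pow_ne_zero 3 hz) (pow_ne_zero j hβ)
  obtain ⟨w, hw, e5⟩ := h.eq_of_dv hx h6 (by
    rw [e3, e4, dv_mul (pow_ne_zero 3 hz) (pow_ne_zero j hβ), dv_pow, dv_pow, hD, smul_add,
      smul_comm j])
  rw [h.chi_eq h3 hx e, e5, hv.lgv_mul (pow_ne_zero 3 hw) h6, hv.lgv_cube hw,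
    hv.lgv_mul (pow_ne_zero 3 hz) (pow_ne_zero j hβ), hv.lgv_cube hz, hv.lgv_pow hβ,
    ((hv.pc_iff hβ).1 hQ).2, mul_zero, add_zero, add_zero]

end Pool.Agent.Lib.MP_23455a_nt
end
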