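import Mathlib

set_option autoImplicit false

open WeierstrassCurve NumberField IsDedekindDomain
open scoped Classical nonZeroDivisors

namespace Pool.Agent.Lib.MP_23455a_nt

/-- The elliptic curve `y ^ 2 + y = x ^ 3 - 7` of conductor 27, which is `X_0(27)`. -/
def W27 : WeierstrassCurve ℤ := ⟨0, 0, 1, 0, -7⟩

/-- The group of `F`-rational points of the curve. -/
abbrev Pt (F : Type) [Field F] : Type := (W27.baseChange F).toAffine.Point

/-- The map on points induced by a homomorphism of fields. -/
noncomputable def pm {F F' : Type} [Field F] [Field F'] [DecidableEq F] [DecidableEq F']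
    (f : F →+* F') : Pt F →+ Pt F' :=
  Affine.Point.map (W' := W27.toAffine) f.toIntAlgHom

/-- The first coordinate of the modular parametrization. -/
noncomputable def phiX (τ : ℂ) : ℂ :=
  ModularForm.eta (9 * τ) ^ 4 / (ModularForm.eta (3 * τ) * ModularForm.eta (27 * τ) ^ 3)

/-- The second coordinate of the modular parametrization. -/
noncomputable def phiY (τ : ℂ) : ℂ :=
  ModularForm.eta (3 * τ) ^ 3 / ModularForm.eta (27 * τ) ^ 3 + 4

/-- The point `τ` of the upper half plane is a Heegner point of level `27` for the ideal `n` and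
the ideal class `c`: the pair of lattices `ℤ τ + ℤ ⊆ ℤ τ + ℤ / 27` is homothetic to `n a ⊆ a` for
an ideal `a` in the class `c`. -/
def IsHeegner {K : Type} [Field K] [NumberField K] (ι : K →+* ℂ) (n : Ideal (𝓞 K))
    (c : ClassGroup (𝓞 K)) (τ : ℂ) : Prop :=
  0 < τ.im ∧ ∃ (a : (Ideal (𝓞 K))⁰) (μ : ℂ), μ ≠ 0 ∧ ClassGroup.mk0 a = c ∧
    (∀ z : ℂ, (∃ k l : ℤ, z = k * τ + l / 27) ↔ ∃ x ∈ (a : Ideal (𝓞 K)), z = μ * ι x) ∧
    ∀ z : ℂ, (∃ k l : ℤ, z = k * τ + l) ↔ ∃ x ∈ n * (a : Ideal (𝓞 K)), z = μ * ι x

/-- The absolute Galois group. -/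
abbrev GalK (K : Type) [Field K] : Type := AlgebraicClosure K ≃ₐ[K] AlgebraicClosure K

/-- Continuous one-cocycles of the absolute Galois group with values in the points over the
algebraic closure. -/
def IsCocycle {K : Type} [Field K] (c : GalK K → Pt (AlgebraicClosure K)) : Prop :=
  IsLocallyConstant c ∧ ∀ σ τ : GalK K, c (σ * τ) = c σ + pm (σ : _ →+* _) (c τ)

/-- One-coboundaries. -/
def IsCoboundary {K : Type} [Field K] (c : GalK K → Pt (AlgebraicClosure K)) : Prop :=
  ∃ P, ∀ σ : GalK K, c σ = pm (σ : _ →+* _) P - P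

/-- The cocycle becomes a coboundary over the completion at the finite place `v`. -/
def IsLocallyTrivial {K : Type} [Field K] [NumberField K] (v : HeightOneSpectrum (𝓞 K))
    (c : GalK K → Pt (AlgebraicClosure K)) : Prop :=
  ∀ j : AlgebraicClosure K →ₐ[K] AlgebraicClosure (v.adicCompletion K),
    ∃ P : Pt (AlgebraicClosure (v.adicCompletion K)),
      ∀ (s : GalK (v.adicCompletion K)) (σ : GalK K), (∀ x, j (σ x) = s (j x)) →
        pm (j : _ →+* _) (c σ) = pm (s : _ →+* _) P - P

/-- The Tate-Shafarevich group of the curve over the totally complex field `K` has no element of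
order three. -/
def ShaThreeTrivial (K : Type) [Field K] [NumberField K] : Prop :=
  ∀ c : GalK K → Pt (AlgebraicClosure K), IsCocycle c → (∀ v, IsLocallyTrivial v c) →
    IsCoboundary (fun σ => 3 • c σ) → IsCoboundary c

end Pool.Agent.Lib.MP_23455a_nt
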