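import Pool.Agent.Lib.MP_23455a_nt.Kum
import Pool.Agent.Lib.MP_696deb_nt.RankOne
import Pool.Agent.Lib.MP_696deb_nt.NeronDup

set_option autoImplicit false

open NumberField
open scoped Classical

namespace Pool.Agent.Lib.MP_23455a_nt

theorem dep_of_finrank {G : Type*} [AddCommGroup G] (h : Module.finrank ℤ G = 1) (x y : G) :
    ∃ m n : ℤ, (¬ 3 ∣ m ∨ ¬ 3 ∣ n) ∧ ∃ k : ℕ, 3 ^ k • (m • x + n • y) = 0 := by
  have key : ∀ (N : ℕ) (m n : ℤ) (k : ℕ), m.natAbs + n.natAbs ≤ N → ¬ (m = 0 ∧ n = 0) →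
      3 ^ k • (m • x + n • y) = 0 →
      ∃ m n : ℤ, (¬ 3 ∣ m ∨ ¬ 3 ∣ n) ∧ ∃ k : ℕ, 3 ^ k • (m • x + n • y) = 0 := by
    intro N
    induction N with
    | zero => intro m n k h1 h2 _; omega
    | succ N ih =>
      intro m n k h1 h2 h3
      by_cases hc : 3 ∣ m ∧ 3 ∣ n
      · obtain ⟨⟨m', rfl⟩, n', rfl⟩ := hc
        refine ih m' n' (k + 1) (by omega) (by omega) ?_
        rw [← h3, pow_succ, mul_nsmul']
        congr 1
        module
      · exact ⟨m, n, not_and_or.1 hc, k, h3⟩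
  have hr : Module.rank ℤ G = 1 := by
    rwa [Module.finrank, Cardinal.toNat_eq_one] at h
  have hl : ¬ LinearIndependent ℤ ![x, y] := fun hl => by
    have := hl.cardinal_lift_le_rank
    rw [hr] at this
    simp at this
  rw [LinearIndependent.pair_iff] at hl
  push Not at hl
  obtain ⟨m, n, h1, h2⟩ := hl
  exact key _ m n 0 le_rfl (fun h => h2 h.1 h.2) (by rw [h1, nsmul_zero])

theorem finrank_le_one_of_three {G : Type*} [AddCommGroup G] [Module.Finite ℤ G] {t y : G}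
    (ht : 3 • t = 0) (h : ∀ P : G, ∃ (R : G) (i j : ℕ), P = 3 • R + i • t + j • y) :
    Module.finrank ℤ G ≤ 1 := by
  set S := Submodule.torsion ℤ G with hS
  rw [← finrank_quotient_eq_of_le_torsion (M' := S) le_rfl]
  by_contra hlt
  have hlt' : 1 < Module.finrank ℤ (G ⧸ S) := not_le.mp hlt
  let b := Module.finBasis ℤ (G ⧸ S)
  let i0 : Fin (Module.finrank ℤ (G ⧸ S)) := ⟨0, by omega⟩
  let i1 : Fin (Module.finrank ℤ (G ⧸ S)) := ⟨1, hlt'⟩
  have hne : i0 ≠ i1 := by simp [i0, i1, Fin.ext_iff]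
  have hT0 : S.mkQ t = 0 := by
    rw [Submodule.mkQ_apply, Submodule.Quotient.mk_eq_zero]
    exact ⟨⟨3, mem_nonZeroDivisors_of_ne_zero three_ne_zero⟩, by
      simpa [← natCast_zsmul] using ht⟩
  have key : ∀ P : G, ∃ j : ℤ, ∀ i, ∃ a : ℤ,
      b.repr (S.mkQ P) i = 3 * a + j * b.repr (S.mkQ y) i := by
    intro P
    obtain ⟨R, i, j, rfl⟩ := h P
    refine ⟨j, fun l => ⟨b.repr (S.mkQ R) l, ?_⟩⟩
    simp only [map_add, map_nsmul, hT0, nsmul_zero, add_zero, Finsupp.add_apply,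
      Finsupp.smul_apply, nsmul_eq_mul, Nat.cast_ofNat]
  obtain ⟨P, hP⟩ := S.mkQ_surjective (b i0)
  obtain ⟨Q, hQ⟩ := S.mkQ_surjective (b i1)
  obtain ⟨j, hj⟩ := key P
  obtain ⟨j', hj'⟩ := key Q
  obtain ⟨a, ha⟩ := hj i0
  obtain ⟨a', ha'⟩ := hj i1
  obtain ⟨c, hc⟩ := hj' i0
  obtain ⟨c', hc'⟩ := hj' i1
  rw [hP, b.repr_self] at ha ha'
  rw [hQ, b.repr_self] at hc hc'
  rw [Finsupp.single_eq_same] at ha hc'
  rw [Finsupp.single_eq_of_ne hne.symm] at ha'
  rw [Finsupp.single_eq_of_ne hne] at hc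
  have : (3 : ℤ) ∣ 1 := ⟨a + c' - 3 * a * c' + 3 * a' * c, by
    linear_combination (1 - 3 * c') * ha + j * b.repr (S.mkQ y) i0 * hc' + 3 * c * ha' -
      j * b.repr (S.mkQ y) i1 * hc⟩
  omega

open Pool.Agent.Lib.MP_696deb_nt Height in
theorem finite_of_three {K : Type*} [Field K] [NumberField K] (W : WeierstrassCurve K)
    [W.IsElliptic] {t y : W.toAffine.Point}
    (h : ∀ P : W.toAffine.Point, ∃ (R : W.toAffine.Point) (i j : ℕ),
      P = 3 • R + i • t + j • y) : Module.Finite ℤ W.toAffine.Point := by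
  obtain ⟨C, hC⟩ := approx_parallelogram W
  have hfin : (nsmulAddMonoidHom (α := W.toAffine.Point) 3).range.FiniteIndex := by
    have : Finite (W.toAffine.Point ⧸ (nsmulAddMonoidHom (α := W.toAffine.Point) 3).range) := by
      refine Finite.of_surjective
        (fun p : Fin 3 × Fin 3 => (QuotientAddGroup.mk (p.1.1 • t + p.2.1 • y) :
            W.toAffine.Point ⧸ (nsmulAddMonoidHom (α := W.toAffine.Point) 3).range)) ?_
      intro x
      obtain ⟨P, rfl⟩ := QuotientAddGroup.mk_surjective x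
      obtain ⟨R, i, j, rfl⟩ := h P
      refine ⟨(⟨i % 3, Nat.mod_lt _ three_pos⟩, ⟨j % 3, Nat.mod_lt _ three_pos⟩),
        QuotientAddGroup.eq.mpr ⟨R + (i / 3) • t + (j / 3) • y, ?_⟩⟩
      simp only [nsmulAddMonoidHom_apply, nsmul_add]
      rw [show i • t = (i % 3) • t + 3 • (i / 3) • t by
          rw [← mul_nsmul', ← add_nsmul, Nat.mod_add_div],
        show j • y = (j % 3) • y + 3 • (j / 3) • y by
          rw [← mul_nsmul', ← add_nsmul, Nat.mod_add_div]]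
      abel
    exact AddSubgroup.finiteIndex_of_finite_quotient
  have e : ∀ P, logHeight₁ (xco P) = naiveHeight W P := fun P => (logHeight_xRep P).symm
  simp only [e] at hC
  have h0 : ∀ P, 0 ≤ naiveHeight W P := fun P => logHeight_nonneg _
  rw [Module.Finite.iff_addGroup_fg]
  refine AddCommGroup.fg_of_descent (h := naiveHeight W) (a := 2) (b := 9)
    (c₀ := 2 * naiveHeight W 0 + 3 * C) (c := fun g => 2 * naiveHeight W (-g) + C) (by norm_num)
    (by norm_num) hfin (fun g x => ?_) fun x => ?_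
  · have h1 := abs_le.1 (hC (g + x) (-g))
    rw [show g + x + -g = x by abel] at h1
    linarith [h0 (g + x - -g), h1.2]
  · have h1 := abs_le.1 (hC x x)
    have h2 := abs_le.1 (hC (x + x) x)
    rw [sub_self] at h1
    rw [add_sub_cancel_right, show x + x + x = 3 • x by abel] at h2
    linarith [h1.1, h2.1]

variable {K : Type} [Field K] [NumberField K]

theorem finrank_eq_one {y : Pt K} (hy : ¬ IsOfFinAddOrder y)
    (h : ∀ P : Pt K, ∃ (R : Pt K) (i j : ℕ), P = 3 • R + i • T + j • y) :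
    Module.finrank ℤ (Pt K) = 1 := by
  have : (W27.baseChange K).IsElliptic := ⟨IsUnit.mk0 _ (by
    simp [W27, WeierstrassCurve.baseChange, WeierstrassCurve.Δ, WeierstrassCurve.b₂,
      WeierstrassCurve.b₄, WeierstrassCurve.b₆, WeierstrassCurve.b₈]
    norm_num)⟩
  have hf : Module.Finite ℤ (Pt K) := finite_of_three (W27.baseChange K) h
  exact le_antisymm (finrank_le_one_of_three three_T h)
    (Pool.Agent.Lib.MP_696deb_nt.RankOne.one_le_finrank hy)

theorem pow_tors (h1 : ∀ x : K, x ^ 3 = 1 → x = 1) (h3 : ∀ z : K, z ^ 3 ≠ 3) {t : Pt K} {k : ℕ}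
    (h : 3 ^ k • t = 0) : ∃ i : ℕ, t = i • T := by
  have hT : ∀ s : Pt K, 3 • s ≠ T := fun s hs => h3 (gm s) (by rw [gm_cube, hs, fT_T])
  induction k generalizing t with
  | zero => exact ⟨0, by simpa using h⟩
  | succ k ih =>
    obtain ⟨i, hi⟩ := ih (t := 3 • t) (by rw [← mul_nsmul', ← pow_succ, h])
    rw [nsmul_eq_mod_nsmul i three_T] at hi
    have : i % 3 = 0 ∨ i % 3 = 1 ∨ i % 3 = 2 := by omega
    rcases this with e | e | e <;> rw [e] at hi
    · obtain ⟨j, w, hw, rfl⟩ := exists_e3 (hi.trans (zero_nsmul _))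
      exact ⟨j.val, by rw [h1 w hw, e3, mu_one, add_zero]⟩
    · exact absurd (hi.trans (one_nsmul _)) (hT t)
    · refine absurd ?_ (hT (-t))
      rw [smul_neg, hi, neg_eq_iff_add_eq_zero, ← succ_nsmul, three_T]

theorem tors_eq (h1 : ∀ x : K, x ^ 3 = 1 → x = 1) (h3 : ∀ z : K, z ^ 3 ≠ 3) {t : Pt K}
    (h : IsOfFinAddOrder t) : ∃ (R : Pt K) (i : ℕ), t = 3 • R + i • T := by
  obtain ⟨n, hn, e⟩ := isOfFinAddOrder_iff_nsmul_eq_zero.1 h
  obtain ⟨k, m, hm, rfl⟩ := Nat.exists_eq_pow_mul_and_not_dvd hn.ne' 3 (by norm_num)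
  obtain ⟨i, hi⟩ := pow_tors h1 h3 (t := m • t) (k := k) (by rw [← mul_nsmul', e])
  have : (∃ q, m = 3 * q + 1) ∨ ∃ q, m = 3 * q + 2 := by
    rcases (by omega : m % 3 = 1 ∨ m % 3 = 2) with h | h
    · exact Or.inl ⟨m / 3, by omega⟩
    · exact Or.inr ⟨m / 3, by omega⟩
  rcases this with ⟨q, rfl⟩ | ⟨q, rfl⟩
  · exact ⟨-(q • t), i, by rw [← hi]; module⟩
  · exact ⟨-((2 * q + 1) • t), 2 * i, by rw [mul_nsmul', ← hi]; module⟩

end Pool.Agent.Lib.MP_23455a_nt
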