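import Pool.Agent.Lib.MP_23455a_nt.H1A

set_option autoImplicit false

open NumberField Pool.Agent.Lib.MP_580eba_nt
open scoped Classical nonZeroDivisors

namespace Pool.Agent.Lib.MP_23455a_nt

variable {K N G : Type*} [Field K] [Field N] [NumberField K] [NumberField N] [Algebra K N]
  [Group G] [Finite G] [MulSemiringAction G N] [IsGaloisGroup G K N]

omit [Finite G] [IsGaloisGroup G K N] in
lemma IsFrob.pow_smul {w : Pl N} {F : G} (hF : IsFrob K w F) (n : ℕ) : F ^ n • w = w :=
  (MulAction.stabilizer G w).pow_mem hF.1 n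

omit [Finite G] [IsGaloisGroup G K N] in
lemma IsFrob.res_pow {w : Pl N} {F : G} (hF : IsFrob K w F) (n : ℕ) {x : N} (hx : val w x ≤ 1) :
    res w (F ^ n • x) = res w x ^ nP (und K w) ^ n := by
  induction n with
  | zero => simp
  | succ n ih =>
    have h1 : val w (F ^ n • x) ≤ 1 := by rwa [val_smul_of_eq (hF.pow_smul n)]
    rw [pow_succ', mul_smul, (res_eq_iff (by rwa [val_smul_of_eq hF.1])
      (by rw [map_pow]; exact pow_le_one₀ zero_le h1)).2 (hF.2 _ h1), res_npow h1, ih, ← pow_mul,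
      pow_succ]

/-- The decomposition group is generated by a Frobenius element and the inertia group. -/
theorem dec_gen {w : Pl N} {F g : G} (hF : IsFrob K w F) (hg : g • w = w) :
    ∃ n : ℕ, g * (F ^ n)⁻¹ ∈ In G w := by
  let _ := resAlg K w
  let g' : MulAction.stabilizer G w := ⟨g, hg⟩
  let e : RF w ≃ₐ[RF (und K w)] RF w :=
    AlgEquiv.ofRingEquiv (f := MulSemiringAction.toRingEquiv _ (RF w) g') (by
      rintro ⟨a⟩
      exact congrArg (mkR w) (smul_algebraMap g a))
  have := ringChar.charP (RF (und K w))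
  have : Fact (ringChar (RF (und K w))).Prime := ⟨CharP.char_is_prime (RF (und K w)) _⟩
  obtain ⟨n, hn⟩ := FiniteField.exists_forall_apply_eq_pow (RF (und K w))
    (ringChar (RF (und K w))) (RF w) e
  refine ⟨n, mem_In.2 fun x hx => ?_⟩
  have h1 : (F ^ n)⁻¹ • w = w := inv_smul_eq_iff.2 (hF.pow_smul n).symm
  have h2 : val w ((F ^ n)⁻¹ • x) ≤ 1 := by rwa [val_smul_of_eq h1]
  rw [mul_smul, ← res_eq_iff (by rwa [val_smul_of_eq hg]) hx]
  have h3 := hF.res_pow n h2
  rw [smul_inv_smul] at h3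
  rw [h3]
  exact (res_smul g' h2).trans (hn (res w ((F ^ n)⁻¹ • x)))

omit [Finite G] [IsGaloisGroup G K N] in
theorem IsFrob.mul_inv_mem {w : Pl N} {F F' : G} (hF : IsFrob K w F) (hF' : IsFrob K w F') :
    F * F'⁻¹ ∈ In G w := by
  refine mem_In.2 fun x hx => ?_
  have h1 : F'⁻¹ • w = w := inv_smul_eq_iff.2 hF'.1.symm
  have h2 : val w (F'⁻¹ • x) ≤ 1 := by rwa [val_smul_of_eq h1]
  have h3 := Valuation.map_sub_lt _ (hF.2 _ h2) (hF'.2 _ h2)
  rwa [smul_inv_smul, sub_sub_sub_cancel_right, ← mul_smul] at h3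

omit [Finite G] [IsGaloisGroup G K N] in
theorem IsFrob.In_mul {w : Pl N} {F g : G} (hF : IsFrob K w F) (hg : g ∈ In G w) :
    IsFrob K w (g * F) := by
  refine ⟨by rw [mul_smul, hF.1, smul_eq_of_mem_In hg], fun x hx => ?_⟩
  have h1 := Valuation.map_add_lt _ (mem_In.1 hg (F • x) (by rwa [val_smul_of_eq hF.1])) (hF.2 x hx)
  rwa [sub_add_sub_cancel, ← mul_smul] at h1

include K in
/-- The order of an element fixed by `H` is divisible by the order of the inertia group in `H`. -/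
theorem card_dvd_ord (H : Subgroup G) (w : Pl N) {y : N} (hy : ∀ g ∈ H, g • y = y) :
    (Nat.card (In G w ⊓ H : Subgroup G) : ℤ) ∣ ord w y := by
  let F : IntermediateField K N := FixedPoints.intermediateField H
  have h2 := ord_map w (⟨y, fun g => hy g g.2⟩ : F)
  rw [← card_In H, show In H w = (In G w).subgroupOf H from rfl, ← Subgroup.inf_subgroupOf_right,
    Nat.card_congr (Subgroup.subgroupOfEquivOfLe inf_le_right).toEquiv] at h2
  exact ⟨_, h2⟩

/-- The first inequality of class field theory for a cyclic cubic extension which is ramified at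
most at one place, together with the norm theorem. -/
theorem H1 [IsTotallyComplex K] {a : G → ZMod 3} (ha : Ch a) (hne : ∃ g, a g ≠ 0)
    {R : Set (Pl K)} (hR : R.Subsingleton)
    (hun : ∀ w : Pl N, und K w ∉ R → ∀ g ∈ In G w, a g = 0)
    (hram : ∀ w : Pl N, und K w ∈ R → ∃ g ∈ In G w, a g ≠ 0)
    (hyp : ∀ f : Pl K →₀ ℤ, ∃ x : K, x ≠ 0 ∧ ∀ w : Pl N, und K w ∉ R →
      (∃ g : G, g • w = w ∧ a g ≠ 0) → 3 ∣ f (und K w) - ord (und K w) x) :
    R.Nonempty ∧ ∀ β : K, β ≠ 0 → (∀ v, 3 ∣ ord v β) → ∃ y : N, (∀ g : G, a g = 0 → g • y = y) ∧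
      ∀ g : G, a g = 1 → y * g • y * (g * g) • y = algebraMap K N β := by
  have hnorm : ha.ker.Normal := ⟨fun n hn g => by
    rw [ha.mem_ker] at hn ⊢
    rw [ha, ha, ha.inv, hn]
    ring⟩
  let L : IntermediateField K N := FixedPoints.intermediateField ha.ker
  have := IsGaloisGroup.isGalois (G ⧸ ha.ker) K L
  let r : G →* (L ≃ₐ[K] L) := IsGaloisGroup.restrictHom G (L ≃ₐ[K] L) K L N
  have hr : ∀ g x, algebraMap L N (r g • x) = g • algebraMap L N x :=
    IsGaloisGroup.algebraMap_restrictHom_smul G (L ≃ₐ[K] L) K L N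
  have hsurj : Function.Surjective r := IsGaloisGroup.restrictHom_surjective G (L ≃ₐ[K] L) K L N
  have hker : ∀ g, r g = 1 ↔ a g = 0 := by
    intro g
    rw [← ha.mem_ker, ← IsGaloisGroup.fixingSubgroup_fixedPoints G K N ha.ker,
      mem_fixingSubgroup_iff]
    refine ⟨fun h x hx => ?_, fun h => AlgEquiv.ext fun x => (algebraMap L N).injective ?_⟩
    · have h1 := hr g ⟨x, hx⟩
      rw [h, one_smul] at h1
      exact h1.symm
    · exact (hr g x).trans (h x x.2)
  have heq : ∀ g k, a g = a k → r g = r k := fun g k h => by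
    rw [← mul_inv_eq_one, ← map_inv, ← map_mul, hker, ha, ha.inv, h, add_neg_cancel]
  obtain ⟨g₀, hg₀⟩ : ∃ g, a g = 1 := by
    obtain ⟨g, hg⟩ := hne
    exact (ha.exists_one hg).elim (fun h => ⟨_, h⟩) fun h => ⟨_, h⟩
  have h3 : Cub.Three (r g₀) := by
    refine ⟨fun γ => ?_, fun h => ?_, fun h => ?_⟩
    · obtain ⟨g, rfl⟩ := hsurj γ
      have h1 : ∀ z : ZMod 3, z = 0 ∨ z = 1 ∨ z = 1 + 1 := by decide
      rcases h1 (a g) with h | h | h
      · exact Or.inl ((hker g).2 h)
      · exact Or.inr (Or.inl (heq _ _ (h.trans hg₀.symm)))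
      · exact Or.inr (Or.inr (by rw [← map_mul]; exact heq _ _ (by rw [ha, hg₀, h])))
    · rw [hker, hg₀] at h
      exact absurd h (by decide)
    · rw [← map_mul, hker, ha, hg₀] at h
      exact absurd h (by decide)
  have hund : ∀ (g : G) (w : Pl N), und L (g • w) = r g • und L w := fun g w => pl_ext fun x => by
    rw [← val_map_lt_one, ← inv_inv (r g), ← val_smul', ← map_inv, ← val_map_lt_one, hr, val_smul',
      inv_inv]
  refine (Cub.cubic h3 hR (fun u hu => ?_) (fun u hu => ?_) fun f => ?_).imp_right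
    fun h2 β hβ hβ3 => ?_
  rotate_right
  · obtain ⟨y, hy⟩ := h2 β hβ hβ3
    refine ⟨y, fun g hg => y.2 ⟨g, hg⟩, fun g hg => ?_⟩
    have h4 := congrArg (algebraMap L N) hy
    rw [← heq g g₀ (hg.trans hg₀.symm), map_mul, map_mul, ← IsScalarTower.algebraMap_apply] at h4
    rw [← h4, mul_smul]
    exact congrArg₂ _ (congrArg₂ _ rfl (hr g y).symm)
      ((congrArg (g • ·) (hr g y).symm).trans (hr g _).symm)
  · obtain ⟨w, rfl⟩ := exists_und N u
    rw [und_und] at hu
    have h4 := ee_mul (K := K) (L := L) w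
    rwa [← card_In G, ← card_In ha.ker, show In ha.ker w = (In G w).subgroupOf ha.ker from rfl,
      Nat.card_congr (Subgroup.subgroupOfEquivOfLe (hun w hu)).toEquiv,
      left_eq_mul₀ Nat.card_pos.ne'] at h4
  · obtain ⟨w, rfl⟩ := exists_und N u
    rw [und_und] at hu
    obtain ⟨g, hg, hg0⟩ := hram w hu
    refine ⟨r g, mem_In.2 fun x hx => ?_, fun h => hg0 ((hker g).1 h)⟩
    rw [← val_map_lt_one, map_sub, hr]
    exact mem_In.1 hg _ ((val_map_le_one w).2 hx)
  · obtain ⟨x, hx, h4⟩ := hyp f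
    refine ⟨x, hx, fun u hu hσ => ?_⟩
    obtain ⟨w, rfl⟩ := exists_und N u
    rw [und_und] at hu ⊢
    obtain ⟨k, hk⟩ := exists_smul_eq ha.ker ((hund g₀ w).trans hσ)
    refine h4 w hu ⟨k * g₀, by rw [mul_smul]; exact hk, ?_⟩
    rw [ha, hg₀, ha.mem_ker.1 k.2]
    decide

include K in
/-- A character of the kernel of `a` which kills all decomposition groups is trivial. -/
theorem H2 [IsTotallyComplex K] {a b : G → ZMod 3} (ha : Ch a) (hb : Ch b)
    (h : ∀ (w : Pl N) (g : G), g • w = w → a g = 0 → b g = 0) (g : G) (hg : a g = 0) :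
    b g = 0 := by
  by_contra hne
  let L : IntermediateField K N := FixedPoints.intermediateField ha.ker
  have : IsTotallyComplex L := isTotallyComplex_of_algebra K L
  exact Set.not_nonempty_empty (H1 (K := L) (N := N) (G := ha.ker) (R := ∅)
    (hb.comp ha.ker.subtype) ⟨⟨g, hg⟩, hne⟩ Set.subsingleton_empty
    (fun w _ k hk => h w k (smul_eq_of_mem_In hk) k.2) (fun _ hw => hw.elim)
    fun _ => ⟨1, one_ne_zero, fun w _ ⟨k, hk, hk0⟩ => (hk0 (h w k hk k.2)).elim⟩).1

end Pool.Agent.Lib.MP_23455a_nt
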