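import Pool.Agent.Lib.MP_23455a_nt.Cls

set_option autoImplicit false

open NumberField Pool.Agent.Lib.MP_580eba_nt Subgroup
open scoped Classical nonZeroDivisors

namespace Pool.Agent.Lib.MP_23455a_nt

namespace Cub

variable {K L : Type*} [Field K] [Field L] [NumberField K] [NumberField L] [Algebra K L]

/-- a group with three elements -/
structure Three {Γ : Type*} [Group Γ] (σ : Γ) : Prop where
  all : ∀ g, g = 1 ∨ g = σ ∨ g = σ * σ
  ne1 : σ ≠ 1
  ne2 : σ * σ ≠ 1

namespace Three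

variable {Γ : Type*} [Group Γ] {σ : Γ} (h : Three σ)
include h

lemma cube : σ * σ * σ = 1 := by
  rcases h.all σ⁻¹ with e | e | e
  · exact (h.ne1 (inv_eq_one.1 e)).elim
  · exact (h.ne2 (by nth_rewrite 1 [← e]; exact inv_mul_cancel σ)).elim
  · rw [← e, inv_mul_cancel]

lemma gen (g : Γ) : g ∈ zpowers σ := by
  rcases h.all g with rfl | rfl | rfl
  · exact one_mem _
  · exact mem_zpowers _
  · exact mul_mem (mem_zpowers _) (mem_zpowers _)

lemma top_of {H : Subgroup Γ} {g : Γ} (hg : g ∈ H) (h1 : g ≠ 1) (k : Γ) : k ∈ H := by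
  have hσ : σ ∈ H := by
    rcases h.all g with rfl | rfl | rfl
    · exact (h1 rfl).elim
    · exact hg
    · have := mul_mem hg hg
      rwa [← mul_assoc, h.cube, one_mul] at this
  exact zpowers_le_of_mem hσ (h.gen k)

lemma univ_eq [Fintype Γ] : (Finset.univ : Finset Γ) = {1, σ, σ * σ} := by
  ext g
  simpa using h.all g

lemma prod_eq [Fintype Γ] {M : Type*} [CommMonoid M] (f : Γ → M) :
    ∏ g, f g = f 1 * f σ * f (σ * σ) := by
  have h3 : σ ≠ σ * σ := fun e => h.ne1 (by simpa using e)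
  rw [h.univ_eq, Finset.prod_insert (by simp [h.ne1.symm, h.ne2.symm]),
    Finset.prod_pair h3, mul_assoc]

lemma card_eq [Fintype Γ] : Fintype.card Γ = 3 := by
  have h3 : σ ≠ σ * σ := fun e => h.ne1 (by simpa using e)
  rw [← Finset.card_univ, h.univ_eq, Finset.card_insert_of_notMem (by simp [h.ne1.symm, h.ne2.symm]),
    Finset.card_pair h3]

end Three

lemma ord_prod {ι : Type*} (u : Pl L) (s : Finset ι) (f : ι → Lˣ) :
    ord u ((∏ i ∈ s, f i : Lˣ) : L) = ∑ i ∈ s, ord u (f i : L) := by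
  induction s using Finset.induction_on with
  | empty => simp [ord_one]
  | insert i s hi ih =>
    rw [Finset.prod_insert hi, Finset.sum_insert hi, Units.val_mul,
      ord_mul u (Units.ne_zero _) (Units.ne_zero _), ih]

lemma mem_WWW_empty {j : Pl L → Lˣ} : j ∈ WWW (∅ : Set (Pl L)) ↔ ∀ u, ord u (j u : L) = 0 := by
  rw [mem_WWW]
  exact forall_congr' fun u => by rw [WW_of_notMem (Set.notMem_empty u), mem_UU']

lemma mem_JJ_iff {j : Pl L → Lˣ} : j ∈ JJ L ↔ {u | ord u (j u : L) ≠ 0}.Finite := by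
  change {u | j u ∉ UU u}.Finite ↔ _
  simp only [mem_UU']

variable [IsGalois K L] {σ : L ≃ₐ[K] L}

/-- invariant divisors which are divisible by three at the fixed places are norms -/
lemma mem_norm (h : Three σ) {j : Pl L → Lˣ} (hj : j ∈ JJ L)
    (hinv : ∀ (g : L ≃ₐ[K] L) (u : Pl L), ord (g • u) (j (g • u) : L) = ord u (j u : L))
    (hdiv : ∀ u : Pl L, σ • u = u → 3 ∣ ord u (j u : L)) :
    j ∈ (JJ L).map (nrm (tw (Pl L) (actU (L ≃ₐ[K] L) L))) ⊔ WWW ∅ := by
  choose w hw using exists_und (K := K) L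
  let e : Pl L → ℤ := fun u => if σ • u = u then ord u (j u : L) / 3 else
    if u = w (und K u) then ord u (j u : L) else 0
  choose x hx0 hx using fun u : Pl L => exists_ord_eq u (e u)
  let i : Pl L → Lˣ := fun u => Units.mk0 (x u) (hx0 u)
  have hi : i ∈ JJ L := by
    rw [mem_JJ_iff] at hj ⊢
    refine hj.subset fun u hu h0 => hu ?_
    change ord u (x u) = 0
    rw [hx]
    simp only [e, h0]
    split_ifs <;> simp
  refine mem_sup.2 ⟨_, ⟨i, hi, rfl⟩, j / nrm (tw (Pl L) (actU (L ≃ₐ[K] L) L)) i,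
    mem_WWW_empty.2 fun u => ?_, mul_div_cancel _ _⟩
  rw [Pi.div_apply, Units.val_div_eq_div_val, ord_div u (Units.ne_zero _) (Units.ne_zero _),
    sub_eq_zero, nrm_apply, Finset.prod_apply, ord_prod]
  have h1 : ∀ g : L ≃ₐ[K] L,
      ord u ((tw (Pl L) (actU (L ≃ₐ[K] L) L) g i u : Lˣ) : L) = e (g⁻¹ • u) := by
    intro g
    rw [tw_apply, actU_val, ← hx, ← ord_smul g (g⁻¹ • u), smul_inv_smul]
    rfl
  simp only [h1]
  by_cases hu : σ • u = u
  · have h2 : ∀ g : L ≃ₐ[K] L, g • u = u := fun g =>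
      h.top_of (H := MulAction.stabilizer _ u) hu h.ne1 g
    simp only [h2, e, if_true, Finset.sum_const, Finset.card_univ, h.card_eq]
    have := hdiv u hu
    simp only [nsmul_eq_mul]
    omega
  · have h2 : ∀ g : L ≃ₐ[K] L, g • u = u → g = 1 := fun g hg => by
      by_contra h3
      exact hu (h.top_of (H := MulAction.stabilizer _ u) hg h3 σ)
    have h3 : ∀ g : L ≃ₐ[K] L, ¬ σ • g • u = g • u := fun g hg => by
      have := h2 (g⁻¹ * σ * g) (by rw [mul_smul, mul_smul, hg, inv_smul_smul])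
      rw [mul_assoc, inv_mul_eq_one] at this
      exact h.ne1 (by simpa using this)
    obtain ⟨g₀, hg₀⟩ := exists_smul_eq (L ≃ₐ[K] L) (hw (und K u)).symm
    rw [Finset.sum_eq_single g₀⁻¹]
    · simp only [e, inv_inv, h3, if_false, und_smul]
      rw [if_pos hg₀, hinv]
    · intro g _ hg
      simp only [e, h3, if_false, und_smul]
      rw [if_neg]
      intro h4
      apply hg
      have := h2 (g * g₀) (by rw [mul_smul, hg₀, ← h4, smul_inv_smul])
      exact eq_inv_of_mul_eq_one_left this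
    · simp

/-- the statement for a cyclic cubic extension -/
theorem cubic [IsTotallyComplex K] (h : Three σ) {R : Set (Pl K)} (hR : R.Subsingleton)
    (hun : ∀ u : Pl L, und K u ∉ R → ee K u = 1)
    (hram : ∀ u : Pl L, und K u ∈ R → ∃ g ∈ In (L ≃ₐ[K] L) u, g ≠ 1)
    (hyp : ∀ f : Pl K →₀ ℤ, ∃ x : K, x ≠ 0 ∧ ∀ u : Pl L, und K u ∉ R → σ • u = u →
      3 ∣ f (und K u) - ord (und K u) x) :
    R.Nonempty ∧ ∀ β : K, β ≠ 0 → (∀ v, 3 ∣ ord v β) →
      ∃ y : L, y * σ y * σ (σ y) = algebraMap K L β := by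
  obtain ⟨c, hc, h1, h2⟩ := core h.gen Set.finite_empty (fun _ _ h => h)
  rw [h.card_eq] at h1
  set a := actU (L ≃ₐ[K] L) L with ha
  set A := (JJ L).map (nrm (tw (Pl L) a)) ⊔ WWW ∅ ⊔ (phi a σ).ker.map (cst (Pl L) Lˣ) with hA
  set B := (WWW (∅ : Set (Pl L))).comap (phi (tw (Pl L) a) σ) ⊓ JJ L with hB
  have hr : ∀ u : Pl L, und K u ∈ R → ee K u = 3 ∧ ∀ g : L ≃ₐ[K] L, g • u = u := by
    intro u hu
    obtain ⟨g, hg, hg1⟩ := hram u hu
    have h3 := h.top_of hg hg1
    refine ⟨?_, fun k => smul_eq_of_mem_In (h3 k)⟩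
    rw [← card_In (L ≃ₐ[K] L), (eq_top_iff' _).2 h3, card_top, Nat.card_eq_fintype_card, h.card_eq]
  have key : ∀ k ∈ B, (∀ u : Pl L, und K u ∈ R → 3 ∣ ord u (k u : L)) → k ∈ A := by
    intro k hk hkR
    have hinv : ∀ (g : L ≃ₐ[K] L) (u : Pl L), ord (g • u) (k (g • u) : L) = ord u (k u : L) := by
      intro g u
      have h3 := mem_WWW_empty.1 ((gst_WWW (R := ∅) fun _ _ h => h).act_div_mem h.gen hk.1 g) (g • u)
      rw [Pi.div_apply, Units.val_div_eq_div_val, ord_div _ (Units.ne_zero _) (Units.ne_zero _),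
        sub_eq_zero, tw_apply, inv_smul_smul, actU_val, ord_smul] at h3
      exact h3.symm
    choose w hw using exists_und (K := K) L
    have hfin : (Function.support fun v : Pl K => ord (w v) (k (w v) : L)).Finite :=
      ((mem_JJ_iff.1 hk.2).image (und K)).subset fun v hv => ⟨w v, hv, hw v⟩
    obtain ⟨x, hx0, hx⟩ := hyp (Finsupp.ofSupportFinite _ hfin)
    have hd : ∀ u : Pl L, ord u (((k / cst (Pl L) Lˣ (mp K L (Units.mk0 x hx0))) u : Lˣ) : L) =
        ord u (k u : L) - ee K u * ord (und K u) x := by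
      intro u
      rw [Pi.div_apply, Units.val_div_eq_div_val, ord_div _ (Units.ne_zero _) (Units.ne_zero _),
        ← ord_map]
      rfl
    refine mem_sup.2 ⟨k / cst (Pl L) Lˣ (mp K L (Units.mk0 x hx0)),
      mem_norm h ((JJ L).div_mem hk.2 (cst_mem_JJ _)) (fun g u => ?_) (fun u hu => ?_), _,
      ⟨mp K L (Units.mk0 x hx0), MonoidHom.mem_ker.2 (by rw [phi_apply, act_mp, div_self']), rfl⟩,
      div_mul_cancel _ _⟩
    · rw [hd, hd, hinv, ← ord_map, ← ord_map, ← ord_smul g u (algebraMap K L x), smul_algebraMap]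
    · rw [hd]
      by_cases hR' : und K u ∈ R
      · rw [(hr u hR').1]
        exact dvd_sub (hkR u hR') (dvd_mul_right _ _)
      · have h3 := hx u hR' hu
        obtain ⟨g, hg⟩ := exists_smul_eq (L ≃ₐ[K] L) (hw (und K u))
        have h4 := hinv g (w (und K u))
        rw [hg] at h4
        rw [hun u hR', Nat.cast_one, one_mul, h4]
        exact h3
  have hne : R.Nonempty := by
    by_contra h3
    rw [Set.not_nonempty_iff_eq_empty] at h3
    rw [relIndex_eq_one.2 fun k hk => key k hk fun u hu => by simp [h3] at hu] at h1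
    have := Nat.le_of_dvd one_pos h1
    omega
  refine ⟨hne, fun β hβ h3 => ?_⟩
  obtain ⟨v₀, hv₀⟩ := hne
  obtain ⟨u₀, rfl⟩ := exists_und L v₀
  obtain ⟨h4, h5⟩ := relIndex_ne_zero_of_fun (A := A) (B := B)
    (fun j => ((ord u₀ (j u₀ : L) : ℤ) : ZMod 3)) fun j hj j' hj' e => by
      refine key _ (B.div_mem hj hj') fun u hu => ?_
      obtain ⟨g, hg⟩ := exists_smul_eq (L ≃ₐ[K] L) (hR hv₀ hu)
      rw [(hr u₀ hv₀).2 g] at hg
      subst hg
      rw [Pi.div_apply, Units.val_div_eq_div_val, ord_div _ (Units.ne_zero _) (Units.ne_zero _)]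
      exact (ZMod.intCast_eq_intCast_iff_dvd_sub _ _ 3).1 e.symm
  rw [Nat.card_zmod] at h5
  have h6 := Nat.le_of_dvd (Nat.pos_of_ne_zero h4) h1
  have hd : ∀ u : Pl L, ord u ((cst (Pl L) Lˣ (mp K L (Units.mk0 β hβ)) u : Lˣ) : L) =
      ee K u * ord (und K u) β := fun u => ord_map u β
  obtain ⟨y, hy⟩ := h2 (by omega) (mp K L (Units.mk0 β hβ)) (by rw [phi_apply, act_mp, div_self'])
    (mem_norm h (cst_mem_JJ _) (fun g u => by
      rw [hd, hd, ← ord_map, ← ord_map, ← ord_smul g u, smul_algebraMap])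
      fun u _ => by rw [hd]; exact (h3 _).mul_left _)
  rw [nrm_apply, h.prod_eq] at hy
  exact ⟨y, congrArg Units.val hy⟩

end Cub

end Pool.Agent.Lib.MP_23455a_nt
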