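import Pool.Agent.Lib.MP_23455a_nt.Defs

-- part Pool.Agent.Lib.MP_23455a_nt.Ferm
section

set_option autoImplicit false

open WeierstrassCurve WeierstrassCurve.Affine

namespace Pool.Agent.Lib.MP_23455a_nt

variable {F F' : Type} [Field F] [Field F'] [CharZero F] [CharZero F']

lemma ns_iff {x y : F} : (W27.baseChange F).toAffine.Nonsingular x y ↔ y ^ 2 + y = x ^ 3 - 7 := by
  rw [← equation_iff_nonsingular_of_Δ_ne_zero (by
    simp [W27, WeierstrassCurve.baseChange, Δ, b₂, b₄, b₆, b₈]; norm_num), equation_iff]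
  simp [W27, sub_eq_add_neg]

/-- An affine point. -/
abbrev mkP (x y : F) (h : y ^ 2 + y = x ^ 3 - 7) : Pt F := .some x y (ns_iff.2 h)

/-- First coordinate on the Fermat cubic. -/
def cA : Pt F → F
  | .zero => 1
  | .some _ y _ => y + 5

/-- Second coordinate on the Fermat cubic. -/
def cB : Pt F → F
  | .zero => -1
  | .some _ y _ => 4 - y

/-- Third coordinate on the Fermat cubic. -/
def cC : Pt F → F
  | .zero => 0
  | .some x _ _ => -3 * x

/-- Projective coordinates on the Fermat cubic. -/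
def Co (P : Pt F) (A B C : F) : Prop := ∃ l : F, l ≠ 0 ∧ A = l * cA P ∧ B = l * cB P ∧ C = l * cC P

section
variable {P Q : Pt F} {A B C A' B' C' : F}

omit [CharZero F] in
lemma co_self (P : Pt F) : Co P (cA P) (cB P) (cC P) := ⟨1, one_ne_zero, by simp⟩

omit [CharZero F] in
lemma co_zero : Co (0 : Pt F) 1 (-1) 0 := co_self 0

omit [CharZero F] in
lemma Co.smul (h : Co P A B C) {l : F} (hl : l ≠ 0) : Co P (l * A) (l * B) (l * C) := by
  obtain ⟨m, hm, rfl, rfl, rfl⟩ := h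
  exact ⟨l * m, mul_ne_zero hl hm, by ring, by ring, by ring⟩

omit [CharZero F] in
lemma Co.eq (h : Co P A B C) (h' : Co P A' B' C') :
    ∃ l : F, l ≠ 0 ∧ A' = l * A ∧ B' = l * B ∧ C' = l * C := by
  obtain ⟨m, hm, rfl, rfl, rfl⟩ := h
  obtain ⟨m', hm', rfl, rfl, rfl⟩ := h'
  exact ⟨m' / m, div_ne_zero hm' hm, by field_simp, by field_simp, by field_simp⟩

lemma Co.cubic (h : Co P A B C) : A ^ 3 + B ^ 3 + C ^ 3 = 0 := by
  obtain ⟨m, -, rfl, rfl, rfl⟩ := h
  rcases P with _ | ⟨x, y, h⟩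
  · simp only [cA, cB, cC]; ring
  · simp only [cA, cB, cC]; linear_combination 27 * m ^ 3 * ns_iff.1 h

lemma Co.ne (h : Co P A B C) : A ≠ 0 ∨ B ≠ 0 := by
  obtain ⟨m, hm, rfl, rfl, rfl⟩ := h
  rcases P with _ | ⟨x, y, h⟩ <;> simp only [cA, cB] <;> grind

lemma Co.inj (h : Co P A B C) (h' : Co Q A B C) : P = Q := by
  obtain ⟨m, hm, rfl, rfl, rfl⟩ := h
  obtain ⟨m', hm', h1, h2, h3⟩ := h'
  rcases P with _ | ⟨x, y, h⟩ <;> rcases Q with _ | ⟨x', y', h'⟩ <;> simp only [cA, cB, cC] at *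
  · grind
  · grind
  · obtain rfl : m = m' := by grind
    obtain rfl : x = x' := by grind
    obtain rfl : y = y' := by grind
    rfl

lemma Co.prop (h : Co P A B C) (h0 : A' ≠ 0 ∨ B' ≠ 0 ∨ C' ≠ 0) (h1 : A' * B = B' * A)
    (h2 : A' * C = C' * A) (h3 : B' * C = C' * B) : Co P A' B' C' := by
  rcases h.ne with h4 | h4
  · have := h.smul (l := A' / A) (by grind)
    rwa [show A' / A * A = A' by grind, show A' / A * B = B' by grind,
      show A' / A * C = C' by grind] at this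
  · have := h.smul (l := B' / B) (by grind)
    rwa [show B' / B * A = A' by grind, show B' / B * B = B' by grind,
      show B' / B * C = C' by grind] at this

lemma exists_co (h : A ^ 3 + B ^ 3 + C ^ 3 = 0) (h0 : A ≠ 0 ∨ B ≠ 0) : ∃ P : Pt F, Co P A B C := by
  by_cases e : A + B = 0
  · have : C ^ 3 = 0 := by grind
    exact ⟨0, co_zero.prop (by tauto) (by grind) (by grind) (by grind)⟩
  · refine ⟨mkP (-3 * C / (A + B)) ((4 * A - 5 * B) / (A + B)) (by grind), (A + B) / 9,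
      by grind, ?_⟩
    simp only [cA, cB, cC]
    grind

omit [CharZero F] in
lemma Co.neg (h : Co P A B C) : Co (-P) B A C := by
  obtain ⟨m, hm, rfl, rfl, rfl⟩ := h
  rcases P with _ | ⟨x, y, h⟩
  · exact ⟨-m, neg_ne_zero.2 hm, by simp [cA, cB, cC, ← Point.zero_def]⟩
  · refine ⟨m, hm, ?_⟩
    simp only [Point.neg_some, cA, cB, cC, negY]
    simp [W27]
    exact ⟨Or.inl (by ring), Or.inl (by ring)⟩

variable [DecidableEq F] [DecidableEq F']

omit [CharZero F] [CharZero F'] in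
lemma Co.map (h : Co P A B C) (f : F →+* F') : Co (pm f P) (f A) (f B) (f C) := by
  obtain ⟨m, hm, rfl, rfl, rfl⟩ := h
  refine ⟨f m, (map_ne_zero f).2 hm, ?_⟩
  rcases P with _ | ⟨x, y, h⟩
  · rw [← Point.zero_def, map_zero]
    simp [cA, cB, cC]
  · rw [pm, Point.map_some]
    simp [cA, cB, cC, map_ofNat]

/-- The addition law. -/
theorem Co.add (h : Co P A B C) (h' : Co Q A' B' C') {X Y Z : F}
    (hX : X = B ^ 2 * A' * C' - B' ^ 2 * A * C) (hY : Y = A ^ 2 * B' * C' - A' ^ 2 * B * C)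
    (hZ : Z = C ^ 2 * A' * B' - C' ^ 2 * A * B) (h0 : X ≠ 0 ∨ Y ≠ 0 ∨ Z ≠ 0) :
    Co (P + Q) X Y Z := by
  obtain ⟨m, hm, rfl, rfl, rfl⟩ := h
  obtain ⟨m', hm', rfl, rfl, rfl⟩ := h'
  rcases P with _ | ⟨x, y, h⟩
  · rw [← Point.zero_def, zero_add]
    refine (co_self Q).prop h0 ?_ ?_ ?_ <;> simp only [hX, hY, hZ, ← Point.zero_def] <;>
      simp only [cA, cB, cC] <;> ring
  rcases Q with _ | ⟨x', y', h'⟩
  · rw [← Point.zero_def, add_zero]
    refine (co_self _).prop h0 ?_ ?_ ?_ <;> simp only [hX, hY, hZ, cA, cB, cC] <;> ring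
  have e := ns_iff.1 h
  have e' := ns_iff.1 h'
  simp only [cA, cB, cC] at hX hY hZ
  by_cases hx : x = x'
  · subst hx
    have : y' = y ∨ y' = -y - 1 := by grind
    rcases this with rfl | rfl
    · exact absurd h0 (by grind)
    · rw [Point.add_of_Y_eq rfl (by simp [negY, W27])]
      exact co_zero.prop h0 (by grind) (by grind) (by grind)
  · rw [Point.add_of_X_ne hx]
    have h1 := sub_ne_zero.2 hx
    obtain ⟨l, hl⟩ : ∃ l, l = (W27.baseChange F).toAffine.slope x x' y y' := ⟨_, rfl⟩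
    have h2 : l * (x - x') = y - y' := by rw [hl, slope_of_X_ne hx, div_mul_cancel₀ _ h1]
    have h3 : (W27.baseChange F).toAffine.addX x x' l = l ^ 2 - x - x' := by simp [addX, W27]
    have h4 : (W27.baseChange F).toAffine.addY x x' y l =
        -(l * (l ^ 2 - x - x' - x) + y) - 1 := by simp [addY, negAddY, negY, W27]
    refine (co_self _).prop h0 ?_ ?_ ?_ <;> simp only [cA, cB, cC, ← hl, h3, h4, hX, hY, hZ] <;>
      clear h3 h4 hX hY hZ h0 hl h h' <;> grind

/-- The rational point of order three. -/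
def T : Pt F := mkP 3 4 (by norm_num)

omit [DecidableEq F] in
lemma co_T : Co (T : Pt F) 1 0 (-1) := ⟨1 / 9, by norm_num, by norm_num [T, cA, cB, cC]⟩

lemma pm_T (f : F →+* F') : pm f T = T := by simpa using (co_T.map f).inj (by simpa using co_T)

lemma three_T : 3 • (T : Pt F) = 0 := by
  have h : (4 : F) ≠ (W27.baseChange F).toAffine.negY 3 4 := by simp [negY, W27]; norm_num
  rw [show 3 • (T : Pt F) = T + T + T by abel, add_eq_zero_iff_eq_neg, T,
    Point.add_self_of_Y_ne h, Point.neg_some, Point.some.injEq, slope_of_Y_ne rfl h]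
  norm_num [addX, addY, negAddY, negY, W27]

lemma Co.sub_T' (h : Co P A B C) (h0 : A ≠ 0) : Co (P - T) C A B := by
  have := (h.add co_T.neg (X := -A * C) (Y := -A * A) (Z := -A * B) (by ring) (by ring) (by ring)
    (by simp [h0])).smul (inv_ne_zero (neg_ne_zero.2 h0))
  simpa only [inv_mul_cancel_left₀ (neg_ne_zero.2 h0), sub_eq_add_neg] using this

lemma Co.add_T (h : Co P A B C) : Co (P + T) B C A := by
  by_cases h0 : B = 0
  · have h1 : A ≠ 0 := by simpa [h0] using h.ne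
    have h2 : C ≠ 0 := by have := h.cubic; grind
    rw [show P + T = P - T - T + 3 • T by abel, three_T, add_zero]
    exact (h.sub_T' h1).sub_T' h2
  · have := (h.add co_T (X := -B * B) (Y := -B * C) (Z := -B * A) (by ring) (by ring) (by ring)
      (by simp [h0])).smul (inv_ne_zero (neg_ne_zero.2 h0))
    simpa only [inv_mul_cancel_left₀ (neg_ne_zero.2 h0)] using this

lemma Co.sub_T (h : Co P A B C) : Co (P - T) C A B := by
  rw [show P - T = P + T + T - 3 • T by abel, three_T, sub_zero]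
  exact h.add_T.add_T

/-- The points of order three which are fixed by `y ↦ y`, `x ↦ w x`. -/
noncomputable def mu (w : F) : Pt F :=
  if h : w ^ 2 + w + 1 = 0 then mkP 0 (1 + 3 * w) (by linear_combination 9 * h) else 0

lemma co_mu {w : F} (hw : w ^ 3 = 1) : Co (mu w) w (-w ^ 2) 0 := by
  rw [mu]
  split_ifs with h
  · exact (co_self _).prop (by grind) (by simp only [cA, cB]; grind) (by simp [cC]) (by simp [cC])
  · obtain rfl : w = 1 := by grind
    simpa using co_zero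

lemma Co.add_mu (h : Co P A B C) {w : F} (hw : w ^ 3 = 1) :
    Co (P + mu w) (w * A) (w ^ 2 * B) C := by
  have key : ∀ {P : Pt F} {A B C : F}, Co P A B C → C ≠ 0 →
      Co (P + mu w) (w * A) (w ^ 2 * B) C := fun {P A B C} h h0 => by
    have := (h.add (co_mu hw) (X := -C * (w * A)) (Y := -C * (w ^ 2 * B)) (Z := -C * C) (by grind)
      (by ring) (by grind) (by simp [h0])).smul (inv_ne_zero (neg_ne_zero.2 h0))
    simpa only [inv_mul_cancel_left₀ (neg_ne_zero.2 h0)] using this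
  by_cases h0 : C = 0
  · have h1 : A ≠ 0 := by have := h.cubic; have := h.ne; grind
    have := ((key h.add_T h1).sub_T).smul (l := w) (by grind)
    rwa [show P + T + mu w - T = P + mu w by abel, show w * (w * B) = w ^ 2 * B by ring,
      show w * (w ^ 2 * C) = C by grind] at this
  · exact key h h0

omit [DecidableEq F] [CharZero F] in
lemma cube_mul {w w' : F} (hw : w ^ 3 = 1) (hw' : w' ^ 3 = 1) : (w * w') ^ 3 = 1 := by
  rw [mul_pow, hw, hw', mul_one]

lemma mu_mul {w w' : F} (hw : w ^ 3 = 1) (hw' : w' ^ 3 = 1) : mu (w * w') = mu w + mu w' :=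
  (co_mu (cube_mul hw hw')).inj (by
    have := (co_mu hw).add_mu hw'
    rwa [mul_comm, show w' ^ 2 * -w ^ 2 = -(w * w') ^ 2 by ring] at this)

lemma mu_one : mu (1 : F) = 0 := dif_neg (by norm_num)

lemma pm_mu (f : F →+* F') {w : F} (hw : w ^ 3 = 1) : pm f (mu w) = mu (f w) :=
  ((co_mu hw).map f).inj (by simpa using co_mu (w := f w) (by rw [← map_pow, hw, map_one]))

/-- The points of order dividing three. -/
noncomputable def e3 (i : ZMod 3) (w : F) : Pt F := i.val • T + mu w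

lemma natCast_T (n : ℕ) : (n : ZMod 3).val • (T : Pt F) = n • T := by
  rw [ZMod.val_natCast, ← nsmul_eq_mod_nsmul n three_T]

lemma e3_nat (n : ℕ) (w : F) : e3 n w = n • T + mu w := by rw [e3, natCast_T]

lemma e3_zero (w : F) : e3 0 w = mu w := by simp [e3]

lemma e3_zero_one : e3 0 (1 : F) = 0 := by rw [e3_zero, mu_one]

lemma e3_add (i j : ZMod 3) {w w' : F} (hw : w ^ 3 = 1) (hw' : w' ^ 3 = 1) :
    e3 (i + j) (w * w') = e3 i w + e3 j w' := by
  have : i + j = ((i.val + j.val : ℕ) : ZMod 3) := by simp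
  rw [this, e3_nat, mu_mul hw hw', e3, e3, add_nsmul]
  abel

lemma pm_e3 (f : F →+* F') (i : ZMod 3) {w : F} (hw : w ^ 3 = 1) : pm f (e3 i w) = e3 i (f w) := by
  rw [e3, e3, map_add, map_nsmul, pm_T, pm_mu f hw]

lemma three_e3 (i : ZMod 3) {w : F} (hw : w ^ 3 = 1) : 3 • e3 i w = 0 := by
  rw [show 3 • e3 i w = e3 i w + e3 i w + e3 i w by abel, ← e3_add i i hw hw,
    ← e3_add _ _ (cube_mul hw hw) hw, show w * w * w = 1 by grind,
    show i + i + i = 0 by revert i; decide, e3_zero_one]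

lemma neg_e3 (i : ZMod 3) {w : F} (hw : w ^ 3 = 1) : -e3 i w = e3 (-i) w⁻¹ := by
  rw [neg_eq_iff_add_eq_zero, ← e3_add _ _ hw (by rw [inv_pow, hw, inv_one]), add_neg_cancel,
    mul_inv_cancel₀ (by grind), e3_zero_one]

lemma zmod_cases (i : ZMod 3) : i = 0 ∨ i = 1 ∨ i = 2 := by revert i; decide

/-- Translation by the points of order three. -/
lemma Co.add_e3 (h : Co P A B C) (i : ZMod 3) {w : F} (hw : w ^ 3 = 1) :
    i = 0 ∧ Co (P + e3 i w) (w * A) (w ^ 2 * B) C ∨ i = 1 ∧ Co (P + e3 i w) (w ^ 2 * B) C (w * A) ∨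
      i = 2 ∧ Co (P + e3 i w) C (w * A) (w ^ 2 * B) := by
  have h1 := h.add_mu hw
  obtain rfl | rfl | rfl := zmod_cases i
  · exact Or.inl ⟨rfl, by rwa [e3_zero]⟩
  · refine Or.inr (Or.inl ⟨rfl, ?_⟩)
    rw [show P + e3 1 w = P + mu w + T by rw [← Nat.cast_one, e3_nat]; abel]
    exact h1.add_T
  · refine Or.inr (Or.inr ⟨rfl, ?_⟩)
    rw [show P + e3 2 w = P + mu w + T + T by rw [← Nat.cast_ofNat, e3_nat]; abel]
    exact h1.add_T.add_T

lemma e3_eq_zero {i : ZMod 3} {w : F} (hw : w ^ 3 = 1) (h : e3 i w = 0) : i = 0 ∧ w = 1 := by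
  have := co_zero.add_e3 i hw
  rw [h, add_zero] at this
  rcases this with ⟨h1, h2⟩ | ⟨h1, h2⟩ | ⟨h1, h2⟩ <;> have := co_zero.eq h2 <;> grind

lemma e3_inj {i j : ZMod 3} {w w' : F} (hw : w ^ 3 = 1) (hw' : w' ^ 3 = 1)
    (h : e3 i w = e3 j w') : i = j ∧ w = w' := by
  have h1 : w'⁻¹ ^ 3 = 1 := by rw [inv_pow, hw', inv_one]
  have := e3_eq_zero (i := i + -j) (cube_mul hw h1) (by
    rw [e3_add _ _ hw h1, ← neg_e3 _ hw', h, add_neg_cancel])
  exact ⟨add_neg_eq_zero.1 this.1, (mul_inv_eq_one₀ (by grind)).1 this.2⟩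

lemma Co.exists_e3 (h : Co P A B C) (h0 : A * B * C = 0) :
    ∃ i w, w ^ 3 = 1 ∧ P = e3 i w := by
  have key : ∀ {P : Pt F} {A B : F}, Co P A B 0 → ∃ w, w ^ 3 = 1 ∧ P = mu w := fun {P A B} h => by
    have h1 := h.cubic
    have h2 := h.ne
    have h3 : (-B / A) ^ 3 = 1 := by grind
    exact ⟨_, h3, ((co_mu h3).prop (by tauto) (by grind) (by simp) (by simp)).inj h |>.symm⟩
  rcases mul_eq_zero.1 h0 with h0 | rfl
  · rcases mul_eq_zero.1 h0 with rfl | rfl
    · obtain ⟨w, hw, e⟩ := key h.add_T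
      refine ⟨2, w, hw, ?_⟩
      rw [← Nat.cast_ofNat, e3_nat, ← e, eq_comm, ← sub_eq_zero, ← three_T]
      abel
    · obtain ⟨w, hw, e⟩ := key h.sub_T
      refine ⟨1, w, hw, ?_⟩
      rw [← Nat.cast_one, e3_nat, ← e]
      abel
  · obtain ⟨w, hw, e⟩ := key h
    exact ⟨0, w, hw, by rw [e3_zero, e]⟩

/-- First coordinate of the triple. -/
def tA {R : Type*} [CommRing R] (A B C : R) : R :=
  A ^ 6 * B ^ 3 + B ^ 6 * C ^ 3 + C ^ 6 * A ^ 3 - 3 * (A * B * C) ^ 3

/-- Third coordinate of the triple. -/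
def tC {R : Type*} [CommRing R] (A B C : R) : R :=
  A * B * C * (A ^ 6 + B ^ 6 + C ^ 6 - A ^ 3 * B ^ 3 - B ^ 3 * C ^ 3 - C ^ 3 * A ^ 3)

omit [DecidableEq F] in
lemma Co.tA_add (h : Co P A B C) : tA A B C + tA B A C = -9 * (A * B * C) ^ 3 := by
  have := h.cubic
  simp only [tA]
  grind

theorem Co.three (h : Co P A B C) : Co (3 • P) (tA A B C) (tA B A C) (tC A B C) := by
  have h1 := h.cubic
  have h2 := h.ne
  by_cases h0 : A * B * C = 0
  · obtain ⟨i, w, hw, rfl⟩ := h.exists_e3 h0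
    rw [three_e3 i hw]
    refine co_zero.prop (Or.inl ?_) (by have := h.tA_add; grind) (by simp [tC, h0])
      (by simp [tC, h0])
    simp only [tA]
    grind
  · have h3 := h.add_T.add h.sub_T (X := B * (C ^ 3 - A ^ 3)) (Y := A * (B ^ 3 - C ^ 3))
      (Z := C * (A ^ 3 - B ^ 3)) (by ring) (by ring) (by ring) (by grind)
    have h4 := h.tA_add
    have h5 : C ≠ 0 := by grind
    rw [show 3 • P = P + T + (P - T) + P by abel]
    have := (h3.add h (X := C * tA A B C) (Y := C * tA B A C) (Z := C * tC A B C)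
      (by simp only [tA]; ring) (by simp only [tA]; ring) (by simp only [tC]; ring)
      (by grind)).smul (inv_ne_zero h5)
    simpa only [inv_mul_cancel_left₀ h5] using this

theorem exists_e3 (h : 3 • P = 0) : ∃ i w, w ^ 3 = 1 ∧ P = e3 i w := by
  refine (co_self P).exists_e3 ?_
  have h1 := (co_self P).three
  have h2 := (co_self P).tA_add
  rw [h] at h1
  have := co_zero.eq h1
  grind

end

end Pool.Agent.Lib.MP_23455a_nt
end

-- part Pool.Agent.Lib.MP_23455a_nt.Kum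
section

set_option autoImplicit false

open WeierstrassCurve WeierstrassCurve.Affine IsLocalRing

namespace Pool.Agent.Lib.MP_23455a_nt

variable {F F' : Type} [Field F] [Field F'] [CharZero F] [CharZero F']
  {P Q : Pt F} {A B C A' B' C' : F}

/-- A cube root of the function with divisor `3 (T) - 3 (0)` at `3 P`. -/
def gam (P : Pt F) : F := cA P / cB P + cB P / cC P + cC P / cA P

/-- The function of level nine which generates the cyclic cubic cover. -/
def vv (P : Pt F) : F := cA P ^ 3 / cB P ^ 3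

/-- The generator of the deck group. -/
def rho (V : F) : F := -1 / (1 + V)

omit [CharZero F] in
lemma Co.gam_eq (h : Co P A B C) : gam P = A / B + B / C + C / A := by
  obtain ⟨m, hm, rfl, rfl, rfl⟩ := h
  simp only [gam, mul_div_mul_left _ _ hm]

omit [CharZero F] in
lemma Co.vv_eq (h : Co P A B C) : vv P = A ^ 3 / B ^ 3 := by
  obtain ⟨m, hm, rfl, rfl, rfl⟩ := h
  simp only [vv, mul_pow, mul_div_mul_left _ _ (pow_ne_zero 3 hm)]

omit [CharZero F] [CharZero F'] in
lemma map_rho (f : F →+* F') (V : F) : f (rho V) = rho (f V) := by simp [rho]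

omit [CharZero F] in
lemma rho_three {V : F} (h : V ≠ 0) (h' : V + 1 ≠ 0) : rho (rho (rho V)) = V := by
  have : 1 + V ≠ 0 := by grind
  simp only [rho]
  grind

omit [CharZero F] in
lemma rho_iter {V : F} (h : V ≠ 0) (h' : V + 1 ≠ 0) (n : ℕ) :
    rho^[n] V = rho^[(n : ZMod 3).val] V := by
  rw [ZMod.val_natCast]
  conv_lhs => rw [← Nat.mod_add_div n 3, Function.iterate_add_apply, Function.iterate_mul,
    Function.iterate_fixed (f := rho^[3]) (rho_three h h')]

omit [CharZero F] in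
lemma rho_inj {V : F} (h : V ≠ 0) (h' : V + 1 ≠ 0) (h0 : V ^ 2 + V + 1 ≠ 0) {i j : ZMod 3}
    (e : rho^[i.val] V = rho^[j.val] V) : i = j := by
  have h1 : 1 + V ≠ 0 := by grind
  have h2 : rho (rho V) = -(1 + V) / V := by simp only [rho]; grind
  have h3 : rho V = -1 / (1 + V) := rfl
  obtain rfl | rfl | rfl := zmod_cases i <;> obtain rfl | rfl | rfl := zmod_cases j <;>
    simp only [show (0 : ZMod 3).val = 0 from rfl, show (1 : ZMod 3).val = 1 from rfl,
      show (2 : ZMod 3).val = 2 from rfl, Function.iterate_succ, Function.comp,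
      Function.iterate_zero, id] at e <;> grind

variable [DecidableEq F] [DecidableEq F']

omit [CharZero F] [CharZero F'] in
lemma gam_pm (f : F →+* F') (P : Pt F) : gam (pm f P) = f (gam P) := by
  rw [((co_self P).map f).gam_eq]
  simp [gam]

omit [CharZero F] [CharZero F'] in
lemma vv_pm (f : F →+* F') (P : Pt F) : vv (pm f P) = f (vv P) := by
  rw [((co_self P).map f).vv_eq]
  simp [vv]

omit [CharZero F] [CharZero F'] in
lemma pm_inj (f : F →+* F') : Function.Injective (pm f) := Point.map_injective _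

omit [CharZero F] [CharZero F'] in
lemma pm_pm {F'' : Type} [Field F''] [DecidableEq F''] (f : F →+* F') (g : F' →+* F'') (P : Pt F) :
    pm g (pm f P) = pm (g.comp f) P := by
  rcases P with _ | ⟨x, y, h⟩ <;> rfl

omit [CharZero F] in
lemma pm_id (P : Pt F) : pm (RingHom.id F) P = P := by
  rcases P with _ | ⟨x, y, h⟩ <;> rfl

lemma pm_congr {f g : F →+* F'} (h1 : f (cA P) = g (cA P)) (h2 : f (cC P) = g (cC P)) :
    pm f P = pm g P := by
  rcases P with _ | ⟨x, y, h⟩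
  · rfl
  · simp only [cA, cC, map_add, map_mul, map_neg, map_ofNat] at h1 h2
    rw [pm, pm, Point.map_some, Point.map_some, Point.some.injEq]
    exact ⟨by simp; grind, by simp; grind⟩

lemma cA_pm (f : F →+* F') (P : Pt F) : cA (pm f P) = f (cA P) := by
  rcases P with _ | ⟨x, y, h⟩
  · exact (map_one f).symm
  · rw [pm, Point.map_some]; simp [cA, map_ofNat]

lemma cB_pm (f : F →+* F') (P : Pt F) : cB (pm f P) = f (cB P) := by
  rcases P with _ | ⟨x, y, h⟩
  · exact (by simp : (-1 : F') = f (-1))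
  · rw [pm, Point.map_some]; simp [cB, map_ofNat]

lemma cC_pm (f : F →+* F') (P : Pt F) : cC (pm f P) = f (cC P) := by
  rcases P with _ | ⟨x, y, h⟩
  · exact (map_zero f).symm
  · rw [pm, Point.map_some]; simp [cC, map_ofNat]

/-- A point with coordinates in the image comes from the smaller field. -/
lemma exists_pm (f : F →+* F') {P : Pt F'} (h1 : cA P ∈ f.range) (h2 : cC P ∈ f.range) :
    ∃ Q, pm f Q = P := by
  rcases P with _ | ⟨x, y, h⟩
  · exact ⟨0, rfl⟩
  · obtain ⟨a, ha⟩ := h1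
    obtain ⟨c, hc⟩ := h2
    simp only [cA, cC] at ha hc
    obtain rfl : x = f (-c / 3) := by simp [map_ofNat, hc]
    obtain rfl : y = f (a - 5) := by simp [map_ofNat, ha]
    exact ⟨mkP (-c / 3) (a - 5) (f.injective (by simpa [map_ofNat] using ns_iff.1 h)), rfl⟩

lemma gam_add_e3 (P : Pt F) (i : ZMod 3) {w : F} (hw : w ^ 3 = 1) :
    gam (P + e3 i w) * w = gam P := by
  have h0 : w ≠ 0 := by grind
  have h1 : ∀ x y : F, w * x / (w ^ 2 * y) * w = x / y := fun x y => by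
    by_cases h : y = 0 <;> grind
  have h2 : ∀ x y : F, x / (w * y) * w = x / y := fun x y => by by_cases h : y = 0 <;> grind
  have h3 : ∀ x y : F, w ^ 2 * x / y * w = x / y := fun x y => by by_cases h : y = 0 <;> grind
  rcases (co_self P).add_e3 i hw with ⟨-, h⟩ | ⟨-, h⟩ | ⟨-, h⟩ <;>
    simp only [h.gam_eq, add_mul, h1, h2, h3] <;> rw [gam] <;> ring

lemma gam_cube_zero (h : 3 • P = 0) : gam P ^ 3 = -1 := by
  obtain ⟨i, w, hw, rfl⟩ := exists_e3 h
  have h1 := gam_add_e3 0 i hw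
  rw [zero_add, co_zero.gam_eq] at h1
  grind

lemma Co.mul_ne (h : Co P A B C) (h0 : 3 • P ≠ 0) : A ≠ 0 ∧ B ≠ 0 ∧ C ≠ 0 := by
  have : A * B * C ≠ 0 := fun e => by
    obtain ⟨i, w, hw, rfl⟩ := h.exists_e3 e
    exact h0 (three_e3 i hw)
  grind

section
variable {x y : F} {h : (W27.baseChange F).toAffine.Nonsingular x y}

lemma Co.three_eq (e : 3 • P = .some x y h) (hP : Co P A B C) :
    tA A B C = -(A * B * C) ^ 3 * (y + 5) ∧ tC A B C = (A * B * C) ^ 3 * (3 * x) := by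
  have h1 := hP.three
  have h2 := hP.tA_add
  rw [e] at h1
  obtain ⟨l, -, h3, h4, h5⟩ := h1
  simp only [cA, cB, cC] at h3 h4 h5
  grind

lemma gam_cube (e : 3 • P = .some x y h) : gam P ^ 3 = y - 3 * x + 5 := by
  obtain ⟨h1, h2⟩ := (co_self P).three_eq e
  obtain ⟨h3, h4, h5⟩ := (co_self P).mul_ne (e ▸ Point.some_ne_zero h)
  have := (co_self P).cubic
  rw [gam]
  generalize cA P = A, cB P = B, cC P = C at *
  have h6 : (A ^ 2 * C + B ^ 2 * A + C ^ 2 * B) ^ 3 = -tA A B C - tC A B C := by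
    simp only [tA, tC]
    grind
  rw [show A / B + B / C + C / A = (A ^ 2 * C + B ^ 2 * A + C ^ 2 * B) / (A * B * C) by field_simp,
    div_pow, h6, h1, h2]
  field_simp
  ring

lemma vv_ne (e : 3 • P ≠ 0) : vv P ≠ 0 ∧ vv P + 1 ≠ 0 := by
  obtain ⟨h3, h4, h5⟩ := (co_self P).mul_ne e
  have := (co_self P).cubic
  simp only [vv]
  grind

lemma vv_cubic (e : 3 • P = .some x y h) :
    vv P ^ 3 - 3 * vv P - 1 = (y - 1) * vv P * (vv P + 1) := by
  obtain ⟨h1, h2⟩ := (co_self P).three_eq e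
  obtain ⟨h3, h4, h5⟩ := (co_self P).mul_ne (e ▸ Point.some_ne_zero h)
  have := (co_self P).cubic
  simp only [tA, vv] at *
  field_simp
  grind

lemma vv_add_e3 (e : 3 • P ≠ 0) (i : ZMod 3) {w : F} (hw : w ^ 3 = 1) :
    vv (P + e3 i w) = rho^[i.val] (vv P) := by
  obtain ⟨h3, h4, h5⟩ := (co_self P).mul_ne e
  have := (co_self P).cubic
  have h6 : 1 + cA P ^ 3 / cB P ^ 3 ≠ 0 := by grind
  rcases (co_self P).add_e3 i hw with ⟨rfl, h⟩ | ⟨rfl, h⟩ | ⟨rfl, h⟩ <;> rw [h.vv_eq]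
  · change _ = cA P ^ 3 / cB P ^ 3
    grind
  · change _ = -1 / (1 + cA P ^ 3 / cB P ^ 3)
    grind
  · change _ = -1 / (1 + -1 / (1 + cA P ^ 3 / cB P ^ 3))
    grind

lemma exists_e3_add (e : 3 • Q = 3 • P) : ∃ i w, w ^ 3 = 1 ∧ Q = P + e3 i w := by
  obtain ⟨i, w, hw, h⟩ := exists_e3 (P := Q - P) (by rw [nsmul_sub, e, sub_self])
  exact ⟨i, w, hw, by rw [← h, add_sub_cancel]⟩

lemma eq_e3_of_vv (e : 3 • P = .some x y h) (hx : x ≠ 0) (e' : 3 • Q = 3 • P) {n : ℕ}
    (hv : vv Q = rho^[n] (vv P)) : ∃ w, w ^ 3 = 1 ∧ Q = P + e3 n w := by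
  obtain ⟨i, w, hw, rfl⟩ := exists_e3_add e'
  have h0 : 3 • P ≠ 0 := e ▸ Point.some_ne_zero h
  obtain ⟨h1, h2⟩ := vv_ne h0
  rw [vv_add_e3 h0 i hw, rho_iter h1 h2 n] at hv
  have h3 := vv_cubic e
  have h4 := ns_iff.1 h
  exact ⟨w, hw, by rw [rho_inj h1 h2 (by grind) hv]⟩

theorem exists_third_vv [IsAlgClosed F] {V : F} (hV : V ^ 3 - 3 * V - 1 = (y - 1) * V * (V + 1)) :
    ∃ Q : Pt F, 3 • Q = .some x y h ∧ vv Q = V := by
  obtain ⟨A, hA⟩ := IsAlgClosed.exists_pow_nat_eq V (n := 3) (by norm_num)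
  obtain ⟨C, hC⟩ := IsAlgClosed.exists_pow_nat_eq (-1 - V) (n := 3) (by norm_num)
  have h0 := ns_iff.1 h
  have hA0 : A ≠ 0 := by grind
  have hC0 : C ≠ 0 := by grind
  obtain ⟨z, hz, h1⟩ : ∃ z : F, z ^ 3 = 1 ∧ tC A 1 (z * C) = (A * C) ^ 3 * (3 * x) := by
    have k : ∀ z : F, z ^ 3 = 1 → tC A 1 (z * C) = z * (3 * A * C * (V ^ 2 + V + 1)) :=
      fun z hz => by simp only [tC]; grind
    have k2 : (V ^ 2 + V + 1) ^ 3 = V ^ 2 * (V + 1) ^ 2 * x ^ 3 := by grind
    have h1 : ((A * C) ^ 3 * (3 * x)) ^ 3 = (3 * A * C * (V ^ 2 + V + 1)) ^ 3 := by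
      simp only [mul_pow, k2, hA, hC]
      ring
    generalize (A * C) ^ 3 * (3 * x) = s, 3 * A * C * (V ^ 2 + V + 1) = t at *
    by_cases h2 : t = 0
    · exact ⟨1, by simp, by rw [k 1 (by simp)]; grind⟩
    · have h3 : (s / t) ^ 3 = 1 := by rw [div_pow, h1, div_self (pow_ne_zero 3 h2)]
      exact ⟨_, h3, by rw [k _ h3, div_mul_cancel₀ _ h2]⟩
  obtain ⟨Q, hQ⟩ := exists_co (A := A) (B := 1) (C := z * C) (by grind) (by simp)
  refine ⟨Q, hQ.three.inj ⟨-(A * C) ^ 3, by grind, ?_⟩, by rw [hQ.vv_eq, hA]; simp⟩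
  simp only [h1, cA, cB, cC, tA]
  grind

end

theorem exists_third [IsAlgClosed F] (P : Pt F) : ∃ Q : Pt F, 3 • Q = P := by
  rcases P with _ | ⟨x, y, h⟩
  · exact ⟨0, nsmul_zero 3⟩
  · open Polynomial in
    obtain ⟨V, hV⟩ := IsAlgClosed.exists_root
      (X ^ 3 - C (y - 1) * X ^ 2 - C (y + 2) * X - 1 : F[X]) (by
        rw [show degree _ = 3 by compute_degree!]; norm_num)
    exact (exists_third_vv (V := V) (by simp at hV; grind)).imp fun _ => And.left

/-- The Kummer function. -/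
noncomputable def gm (P : Pt F) : F := if 3 • P = T then -3 / gam (-P) else gam P

/-- The function with divisor `3 (T) - 3 (0)`, extended to all points. -/
noncomputable def fT (P : Pt F) : F := if P = 0 then -1 else if P = T then 3 else cA P + cC P

omit [DecidableEq F] in
lemma T_ne_zero : (T : Pt F) ≠ 0 := Point.some_ne_zero _

lemma fT_zero : fT (0 : Pt F) = -1 := if_pos rfl

lemma fT_T : fT (T : Pt F) = 3 := by rw [fT, if_neg T_ne_zero, if_pos rfl]

lemma fT_some {x y : F} (h : (W27.baseChange F).toAffine.Nonsingular x y)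
    (h0 : ¬ (x = 3 ∧ y = 4)) : fT (.some x y h) = y - 3 * x + 5 := by
  rw [fT, if_neg (Point.some_ne_zero _), if_neg (by rwa [T, Point.some.injEq])]
  simp only [cA, cC]
  ring

lemma gm_cube (P : Pt F) : gm P ^ 3 = fT (3 • P) := by
  rw [gm]
  split_ifs with h
  · have := gam_cube (P := -P) (by rw [smul_neg, h, T, Point.neg_some])
    rw [h, fT_T, div_pow, this]
    norm_num [negY, W27]
  · rcases e : 3 • P with _ | ⟨x, y, h'⟩
    · exact (gam_cube_zero e).trans fT_zero.symm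
    · rw [gam_cube e, fT_some]
      rintro ⟨rfl, rfl⟩
      exact h e

lemma fT_ne (P : Pt F) : fT P ≠ 0 := by
  rcases P with _ | ⟨x, y, h⟩
  · exact fT_zero.trans_ne (by norm_num)
  · by_cases e : x = 3 ∧ y = 4
    · obtain ⟨rfl, rfl⟩ := e
      exact fT_T.trans_ne (by norm_num)
    · have := ns_iff.1 h
      rw [fT_some h e]
      grind

lemma gm_ne (P : Pt F) : gm P ≠ 0 := fun h => fT_ne (3 • P) (by rw [← gm_cube, h]; simp)

lemma gm_pm (f : F →+* F') (P : Pt F) : gm (pm f P) = f (gm P) := by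
  have : 3 • pm f P = T ↔ 3 • P = T := by rw [← map_nsmul, ← pm_T f, (pm_inj f).eq_iff]
  simp only [gm, this, ← map_neg, gam_pm]
  split_ifs <;> simp [map_ofNat]

lemma fT_pm (f : F →+* F') (P : Pt F) : fT (pm f P) = f (fT P) := by
  have h1 : pm f P = T ↔ P = T := by rw [← pm_T f, (pm_inj f).eq_iff]
  have h2 : pm f P = 0 ↔ P = 0 := map_eq_zero_iff _ (pm_inj f)
  simp only [fT, h1, h2, cA_pm, cC_pm]
  split_ifs <;> simp [map_ofNat]

lemma gm_add_e3 (P : Pt F) (i : ZMod 3) {w : F} (hw : w ^ 3 = 1) :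
    gm (P + e3 i w) * w = gm P := by
  simp only [gm, nsmul_add, three_e3 i hw, add_zero]
  split_ifs
  · rw [neg_add, neg_e3 i hw, ← gam_add_e3 (-P) (-i) (w := w⁻¹) (by rw [inv_pow, hw, inv_one])]
    simp [div_eq_mul_inv]
    ring
  · exact gam_add_e3 P i hw

section red

variable {Γ : Type*} [LinearOrderedCommGroupWithZero Γ] (W : Valuation F Γ)

/-- Reduction modulo the maximal ideal of a valuation. -/
def Red (P : Pt F) (a b c : ResidueField W.valuationSubring) : Prop :=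
  (a ≠ 0 ∨ b ≠ 0) ∧ ∃ A B C : W.valuationSubring, Co P A B C ∧
    residue _ A = a ∧ residue _ B = b ∧ residue _ C = c

/-- Two points with the same reduction. -/
def Cg (P Q : Pt F) : Prop := ∃ a b c, Red W P a b c ∧ Red W Q a b c

variable {W} {a b c a' b' c' : ResidueField W.valuationSubring}

omit [CharZero F] [DecidableEq F] in
lemma residue_eq_zero {x : W.valuationSubring} : residue _ x = 0 ↔ W x < 1 := by
  rw [residue_eq_zero_iff, Valuation.mem_maximalIdeal_iff]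

omit [CharZero F] [DecidableEq F] in
lemma residue_eq {x y : W.valuationSubring} : residue _ x = residue _ y ↔ W (x - y) < 1 := by
  rw [← sub_eq_zero, ← map_sub, residue_eq_zero]
  rfl

omit [DecidableEq F] in
lemma Red.cubic (h : Red W P a b c) : a ^ 3 + b ^ 3 + c ^ 3 = 0 := by
  obtain ⟨-, A, B, C, h, rfl, rfl, rfl⟩ := h
  have : A ^ 3 + B ^ 3 + C ^ 3 = 0 := Subtype.ext h.cubic
  simpa using congr(residue _ $this)

omit [CharZero F] [DecidableEq F] in
lemma Red.eq (h : Red W P a b c) (h' : Red W P a' b' c') :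
    ∃ l, a' = l * a ∧ b' = l * b ∧ c' = l * c := by
  obtain ⟨h0, A, B, C, h, rfl, rfl, rfl⟩ := h
  obtain ⟨-, A', B', C', h', rfl, rfl, rfl⟩ := h'
  obtain ⟨l, -, h1, h2, h3⟩ := h.eq h'
  have key : ∀ {x y : W.valuationSubring}, residue _ x ≠ 0 → (y : F) = l * x → W l ≤ 1 :=
    fun {x y} hx e => by
      have h4 : W y ≤ 1 := y.2
      rwa [e, map_mul, le_antisymm x.2 (not_lt.1 (mt residue_eq_zero.2 hx)), mul_one] at h4
  have hl : W l ≤ 1 := h0.elim (key · h1) (key · h2)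
  exact ⟨residue _ ⟨l, hl⟩, by rw [← map_mul]; congr 1; exact Subtype.ext h1,
    by rw [← map_mul]; congr 1; exact Subtype.ext h2,
    by rw [← map_mul]; congr 1; exact Subtype.ext h3⟩

omit [CharZero F] [DecidableEq F] in
lemma three_ne (h3 : W 3 = 1) : (3 : ResidueField W.valuationSubring) ≠ 0 := fun h =>
  (residue_eq_zero.1 ((map_ofNat _ 3).trans h)).ne h3

lemma Red.three (h3 : W 3 = 1) (h : Red W P a b c) :
    Red W (3 • P) (tA a b c) (tA b a c) (tC a b c) := by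
  have h1 := h.cubic
  have h2 := three_ne h3
  refine ⟨by_contra fun e => ?_, ?_⟩
  · have h0 := h.1
    simp only [tA, not_or, not_not] at e
    have : 3 * 3 * (a * b * c) ^ 3 = 0 := by grind
    have : a * b * c = 0 := by simpa only [mul_eq_zero, h2, false_or, pow_eq_zero_iff three_ne_zero]
      using this
    grind
  · obtain ⟨h0, A, B, C, h, rfl, rfl, rfl⟩ := h
    exact ⟨tA A B C, tA B A C, tC A B C, h.three, by simp [tA, map_ofNat],
      by simp [tA, map_ofNat], by simp [tC]⟩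

lemma Cg.three (h3 : W 3 = 1) (h : Cg W P Q) : Cg W (3 • P) (3 • Q) := by
  obtain ⟨a, b, c, h1, h2⟩ := h
  exact ⟨_, _, _, h1.three h3, h2.three h3⟩

omit [CharZero F] [DecidableEq F] in
lemma val_of_cube {w : F} (hw : w ^ 3 = 1) : W w = 1 :=
  (pow_eq_one_iff_of_nonneg zero_le (by norm_num : 3 ≠ 0)).1 (by rw [← map_pow, hw, map_one])

omit [CharZero F] [DecidableEq F] in
lemma eq_one_of_cube (h3 : W 3 = 1) {w : F} (hw : w ^ 3 = 1) (h : W (w - 1) < 1) : w = 1 := by
  by_contra e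
  have : (3 : F) = -w ^ 2 * (w - 1) * (w - 1) := by grind
  rw [this, map_mul, map_mul, W.map_neg, map_pow, val_of_cube hw, one_pow, one_mul] at h3
  exact (mul_lt_one_of_nonneg_of_lt_one_left zero_le h h.le).ne h3

/-- Translation by a point of order three has no fixed point on the reduction. -/
theorem Cg.e3_eq (h3 : W 3 = 1) {i : ZMod 3} {w : F} (hw : w ^ 3 = 1) (h : Cg W (P + e3 i w) P) :
    i = 0 ∧ w = 1 := by
  obtain ⟨a, b, c, h1, h2⟩ := h
  have h4 := h2.cubic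
  have h5 := three_ne h3
  obtain ⟨h0, A, B, C, h, rfl, rfl, rfl⟩ := h2
  let u : W.valuationSubring := ⟨w, (val_of_cube hw).le⟩
  have hu : residue _ u ^ 3 = 1 := by rw [← map_pow, show u ^ 3 = 1 from Subtype.ext hw, map_one]
  have key : ∀ {A' B' C' : W.valuationSubring}, Co (P + e3 i w) A' B' C' →
      (residue _ A' ≠ 0 ∨ residue _ B' ≠ 0) → ∃ l,
      residue _ A' = l * residue _ A ∧ residue _ B' = l * residue _ B ∧
        residue _ C' = l * residue _ C := fun h e => h1.eq ⟨e, _, _, _, h, rfl, rfl, rfl⟩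
  rcases h.add_e3 i hw with ⟨rfl, h6⟩ | ⟨rfl, h6⟩ | ⟨rfl, h6⟩
  · obtain ⟨l, h7⟩ := key (A' := u * A) (B' := u ^ 2 * B) h6
      (by simp only [map_mul, map_pow]; grind)
    refine ⟨rfl, eq_one_of_cube h3 hw ((residue_eq (x := u) (y := 1)).1 ?_)⟩
    simp only [map_mul, map_pow, map_one] at h7 ⊢
    grind
  · obtain ⟨l, h7⟩ := key (C' := u * A) (A' := u ^ 2 * B) h6
      (by simp only [map_mul, map_pow]; grind)
    simp only [map_mul, map_pow] at h7
    grind
  · obtain ⟨l, h7⟩ := key (B' := u * A) (C' := u ^ 2 * B) h6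
      (by simp only [map_mul]; grind)
    simp only [map_mul, map_pow] at h7
    grind

/-- Reduction is injective on cosets of the three-power torsion. -/
theorem Cg.eq (h3 : W 3 = 1) {n : ℕ} (h : Cg W Q P) (e : 3 ^ n • Q = 3 ^ n • P) : Q = P := by
  induction n generalizing P Q with
  | zero => simpa using e
  | succ n ih =>
    obtain ⟨i, w, hw, rfl⟩ := exists_e3_add (ih (h.three h3) (by rwa [← mul_nsmul', ← mul_nsmul']))
    obtain ⟨rfl, rfl⟩ := h.e3_eq h3 hw
    rw [e3_zero_one, add_zero]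

omit [DecidableEq F] in
lemma exists_nm (W : Valuation F Γ) (P : Pt F) : ∃ d, (d = cA P ∨ d = cB P) ∧ d ≠ 0 ∧
    W (cA P / d) ≤ 1 ∧ W (cB P / d) ≤ 1 ∧ W (cC P / d) ≤ 1 := by
  have key : ∀ {x y z : F}, x ^ 3 + y ^ 3 + z ^ 3 = 0 → x ≠ 0 → W y ≤ W x →
      W (y / x) ≤ 1 ∧ W (z / x) ≤ 1 := fun {x y z} h hx e => by
    have h1 : W (y / x) ≤ 1 := by rwa [map_div₀, div_le_one₀ (W.pos_iff.2 hx)]
    refine ⟨h1, (pow_le_one_iff (by norm_num : 3 ≠ 0)).1 ?_⟩
    rw [← map_pow, show (z / x) ^ 3 = -1 - (y / x) ^ 3 by grind]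
    exact W.map_sub_le (by simp) (by rw [map_pow]; exact pow_le_one' h1 3)
  have h1 := (co_self P).cubic
  have h2 := (co_self P).ne
  rcases le_total (W (cB P)) (W (cA P)) with e | e
  · have h0 : cA P ≠ 0 := fun h => by simp [h] at e h2; exact h2 e
    exact ⟨_, Or.inl rfl, h0, by simp [h0], key h1 h0 e⟩
  · have h0 : cB P ≠ 0 := fun h => by simp [h] at e h2; exact h2 e
    have := key (y := cA P) (z := cC P) (by linear_combination h1) h0 e
    exact ⟨_, Or.inr rfl, h0, this.1, by simp [h0], this.2⟩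

omit [DecidableEq F] in
lemma exists_red (W : Valuation F Γ) (P : Pt F) {S : Subfield F} (hA : cA P ∈ S) (hB : cB P ∈ S)
    (hC : cC P ∈ S) : ∃ A B C : W.valuationSubring, ↑A ∈ S ∧ ↑B ∈ S ∧ ↑C ∈ S ∧ (A = 1 ∨ B = 1) ∧
      Co P A B C := by
  obtain ⟨d, h, h0, h1, h2, h3⟩ := exists_nm W P
  have hd : d ∈ S := by rcases h with rfl | rfl <;> assumption
  exact ⟨⟨_, h1⟩, ⟨_, h2⟩, ⟨_, h3⟩, div_mem hA hd, div_mem hB hd, div_mem hC hd,
    h.imp (fun e => Subtype.ext (by simp [← e, h0])) fun e => Subtype.ext (by simp [← e, h0]),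
    by simpa only [div_eq_inv_mul] using (co_self P).smul (inv_ne_zero h0)⟩

omit [CharZero F] [DecidableEq F] in
lemma val_le_of_sub {x y : F} (hx : W x ≤ 1) (h : W (y - x) < 1) : W y ≤ 1 := by
  simpa using W.map_add_le h.le hx

/-- An automorphism which acts trivially on the residues of the coordinates. -/
theorem cg_pm (W : Valuation F Γ) (f : F →+* F) {S : Subfield F} (hA : cA P ∈ S) (hB : cB P ∈ S)
    (hC : cC P ∈ S) (h : ∀ z ∈ S, W z ≤ 1 → W (f z - z) < 1) : Cg W (pm f P) P := by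
  obtain ⟨A, B, C, h1, h2, h3, h4, h5⟩ := exists_red W P hA hB hC
  have h0 : residue _ A ≠ 0 ∨ residue _ B ≠ 0 := h4.imp (by rintro rfl; simp) (by rintro rfl; simp)
  exact ⟨_, _, _, ⟨h0, ⟨_, val_le_of_sub A.2 (h _ h1 A.2)⟩, ⟨_, val_le_of_sub B.2 (h _ h2 B.2)⟩,
    ⟨_, val_le_of_sub C.2 (h _ h3 C.2)⟩, h5.map f, residue_eq.2 (h _ h1 A.2),
    residue_eq.2 (h _ h2 B.2), residue_eq.2 (h _ h3 C.2)⟩, h0, A, B, C, h5, rfl, rfl, rfl⟩

/-- Finiteness of the three-power torsion over a field with finite residue field. -/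
theorem finite_tors (h3 : W 3 = 1) {S : Subfield F} {R : Set F} (hR : R.Finite)
    (h : ∀ z ∈ S, W z ≤ 1 → ∃ r ∈ R, W (r - z) < 1) :
    {P : Pt F | cA P ∈ S ∧ cB P ∈ S ∧ cC P ∈ S ∧ ∃ n, 3 ^ n • P = 0}.Finite := by
  have h1 : {a | ∃ x : W.valuationSubring, ↑x ∈ S ∧ residue _ x = a}.Finite :=
    ((hR.preimage (f := ((↑) : W.valuationSubring → F)) Subtype.val_injective.injOn).image
      (residue _)).subset (by
        rintro _ ⟨x, hx, rfl⟩
        obtain ⟨r, hr, e⟩ := h _ hx x.2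
        exact ⟨⟨r, val_le_of_sub x.2 e⟩, hr, residue_eq.2 e⟩)
  refine ((h1.prod (h1.prod h1)).biUnion (t := fun t =>
    {P : Pt F | Red W P t.1 t.2.1 t.2.2 ∧ ∃ n, 3 ^ n • P = 0}) fun t _ =>
      Set.Subsingleton.finite ?_).subset ?_
  · rintro P ⟨hP, n, hn⟩ Q ⟨hQ, m, hm⟩
    exact Cg.eq h3 (n := n + m) ⟨_, _, _, hP, hQ⟩ (by
      rw [pow_add, mul_nsmul, hn, mul_nsmul', hm, nsmul_zero, nsmul_zero])
  · rintro P ⟨hA, hB, hC, hn⟩
    obtain ⟨A, B, C, h1, h2, h3, h4, h5⟩ := exists_red W P hA hB hC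
    exact Set.mem_biUnion (x := (residue _ A, residue _ B, residue _ C))
      ⟨⟨A, h1, rfl⟩, ⟨B, h2, rfl⟩, C, h3, rfl⟩
      ⟨⟨h4.imp (by rintro rfl; simp) (by rintro rfl; simp), A, B, C, h5, rfl, rfl, rfl⟩, hn⟩

end red

end Pool.Agent.Lib.MP_23455a_nt
end
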