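import Mathlib

set_option autoImplicit false

open scoped NNReal

namespace Pool.Agent.Lib.MP_23455a_nt

namespace LocSAux

section ring

variable {A : Type*} [CommRing A] [IsDomain A] [CharZero A]
  (h1 : ∀ z : A, ∃ u, z = 3 * u ∨ z = 1 + 3 * u ∨ z = -1 + 3 * u) (h2 : ∀ w : A, 3 * w ≠ 1)

lemma can3 {a b : A} (h : 3 * a = 3 * b) : a = b := mul_left_cancel₀ (by norm_num) h

include h1 h2

lemma r_pt {x y : A} (h : y ^ 2 + y = x ^ 3 - 7) :
    (∃ p q, x = 1 + 3 * p ∧ (y = 3 + 9 * q ∨ y = 5 + 9 * q)) ∨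
      ∃ p m q, x = 3 * (1 + 3 * p) ∧ y = 4 + 9 * m ∧ (m = 3 * q ∨ m = -1 + 3 * q) := by
  obtain ⟨u, rfl | rfl | rfl⟩ := h1 x <;> obtain ⟨t, rfl | rfl | rfl⟩ := h1 y
  · exact absurd (by linear_combination -h) (h2 (9 * u ^ 3 - 3 * t ^ 2 - t - 2))
  · have e : t ^ 2 + t + 1 = 3 * u ^ 3 := can3 (can3 (by linear_combination h))
    obtain ⟨m, rfl | rfl | rfl⟩ := h1 t
    · exact absurd (by linear_combination -e) (h2 (u ^ 3 - 3 * m ^ 2 - m))
    · have e' : 3 * m ^ 2 + 3 * m + 1 = u ^ 3 := can3 (by linear_combination e)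
      obtain ⟨p, rfl | rfl | rfl⟩ := h1 u
      · exact absurd (by linear_combination -e') (h2 (9 * p ^ 3 - m ^ 2 - m))
      · have e'' : m ^ 2 + m = 3 * (p + 3 * p ^ 2 + 3 * p ^ 3) := can3 (by linear_combination e')
        obtain ⟨q, hq | rfl | hq⟩ := h1 m
        · exact .inr ⟨p, m, q, rfl, by ring, .inl hq⟩
        · exact absurd (by linear_combination e'')
            (h2 (1 - (p + 3 * p ^ 2 + 3 * p ^ 3) + 3 * q + 3 * q ^ 2))
        · exact .inr ⟨p, m, q, rfl, by ring, .inr hq⟩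
      · exact absurd (by linear_combination e')
          (h2 (1 - (3 * p - 9 * p ^ 2 + 9 * p ^ 3 - m ^ 2 - m)))
    · exact absurd (by linear_combination -e) (h2 (u ^ 3 - m * (3 * m - 1)))
  · exact absurd (by linear_combination -h) (h2 (9 * u ^ 3 - t * (3 * t - 1) - 2))
  · exact .inl ⟨u, u + 3 * u ^ 2 + 3 * u ^ 3 - t ^ 2 - 1, rfl, .inl (by linear_combination h)⟩
  · exact absurd (by linear_combination h)
      (h2 (3 - 3 * (u + 3 * u ^ 2 + 3 * u ^ 3 - t - t ^ 2)))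
  · exact .inl ⟨u, t ^ 2 - u - 3 * u ^ 2 - 3 * u ^ 3, rfl, .inr (by linear_combination -h)⟩
  · exact absurd (by linear_combination h)
      (h2 (3 * t ^ 2 + t - 3 * u + 9 * u ^ 2 - 9 * u ^ 3 + 3))
  · exact absurd (by linear_combination -h)
      (h2 (3 * (u - 3 * u ^ 2 + 3 * u ^ 3 - t - t ^ 2) - 3))
  · exact absurd (by linear_combination h)
      (h2 (3 * t ^ 2 - t - 3 * u + 9 * u ^ 2 - 9 * u ^ 3 + 3))

lemma r_ncube {f q z w : A} (hf : f = 5 + 9 * q ∨ f = 7 + 9 * q) : f ≠ z ^ 3 * (1 + 9 * w) := by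
  intro e
  obtain ⟨u, rfl | rfl | rfl⟩ := h1 z <;> rcases hf with rfl | rfl
  · exact h2 (2 + 3 * q - 9 * u ^ 3 * (1 + 9 * w)) (by linear_combination e)
  · exact h2 (-2 - 3 * q + 9 * u ^ 3 * (1 + 9 * w)) (by linear_combination -e)
  · exact h2 (3 * (u + 3 * u ^ 2 + 3 * u ^ 3 + (1 + 3 * u) ^ 3 * w - q) - 1)
      (by linear_combination -e)
  · exact h2 (1 - (u + 3 * u ^ 2 + 3 * u ^ 3 + (1 + 3 * u) ^ 3 * w - q))
      (can3 (by linear_combination e))
  · exact h2 (1 - (u - 3 * u ^ 2 + 3 * u ^ 3 + (-1 + 3 * u) ^ 3 * w - q))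
      (can3 (by linear_combination e))
  · exact h2 (3 - 3 * (u - 3 * u ^ 2 + 3 * u ^ 3 + (-1 + 3 * u) ^ 3 * w - q))
      (by linear_combination e)

omit [IsDomain A] [CharZero A] in
lemma r_nroot {V c q : A} (hc : c = 1 + 3 * q ∨ c = -1 + 3 * q) :
    V ^ 3 - 3 * V - 1 ≠ c * V * (V + 1) := by
  intro e
  obtain ⟨u, rfl | rfl | rfl⟩ := h1 V
  · exact h2 (9 * u ^ 3 - 3 * u - c * u * (3 * u + 1)) (by linear_combination e)
  · rcases hc with rfl | rfl
    · exact h2 (2 + 2 * q + (1 + 3 * q) * (3 * u + 3 * u ^ 2) - 9 * u ^ 2 - 9 * u ^ 3)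
        (by linear_combination -e)
    · exact h2 (-(2 * q) - (-1 + 3 * q) * (3 * u + 3 * u ^ 2) + 9 * u ^ 2 + 9 * u ^ 3)
        (by linear_combination e)
  · exact h2 (c * (-1 + 3 * u) * u + 9 * u ^ 2 - 9 * u ^ 3) (by linear_combination -e)

omit [IsDomain A] [CharZero A] h2 in
lemma r_cube (d : A) : ∃ l, d ^ 3 = d + 3 * l := by
  obtain ⟨u, rfl | rfl | rfl⟩ := h1 d
  · exact ⟨9 * u ^ 3 - u, by ring⟩
  · exact ⟨2 * u + 9 * u ^ 2 + 9 * u ^ 3, by ring⟩
  · exact ⟨2 * u - 9 * u ^ 2 + 9 * u ^ 3, by ring⟩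

end ring

section val

variable {F : Type*} [Field F] [CharZero F] {W : Valuation F ℝ≥0} {S : Subfield F}

/-- The subfield looks like the field of three-adic numbers. -/
structure Z3 (W : Valuation F ℝ≥0) (S : Subfield F) : Prop where
  lt : W 3 < 1
  int : ∀ z ∈ S, W z ≤ 1 → ∃ k : ℤ, W (z - k) < 1
  pw : ∀ z ∈ S, z ≠ 0 → ∃ n : ℤ, W z = W 3 ^ n

/-- The integers of the subfield. -/
noncomputable def AA (W : Valuation F ℝ≥0) (S : Subfield F) : Subring F := S.toSubring ⊓ W.integer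

/-- Cubes modulo nine. -/
def PL (W : Valuation F ℝ≥0) (S : Subfield F) (b : F) : Prop :=
  ∃ z ∈ S, z ≠ 0 ∧ W (b / z ^ 3 - 1) ≤ W 9

lemma W3_pos : 0 < W 3 := W.pos_iff.2 (by norm_num)

omit [CharZero F] in
lemma W9 : W 9 = W 3 ^ 2 := by rw [← map_pow]; norm_num

omit [CharZero F] in
lemma mem_AA {x : F} (h : x ∈ S) (h' : W x ≤ 1) : x ∈ AA W S := ⟨h, h'⟩

omit [CharZero F] in
@[simp, norm_cast] lemma AA.coe_ofNat (n : ℕ) [n.AtLeastTwo] :
    ((ofNat(n) : AA W S) : F) = ofNat(n) := rfl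

omit [CharZero F] in
lemma AA.le (x : AA W S) : W x ≤ 1 := x.2.2

omit [CharZero F] in
lemma AA.mem (x : AA W S) : (x : F) ∈ S := x.2.1

omit [CharZero F] in
lemma PL.mul {b z : F} (h : PL W S b) (hz : z ∈ S) (h0 : z ≠ 0) : PL W S (b * z ^ 3) := by
  obtain ⟨t, h1, h2, h3⟩ := h
  exact ⟨t * z, mul_mem h1 hz, mul_ne_zero h2 h0, by
    rwa [mul_pow, mul_div_mul_right _ _ (pow_ne_zero 3 h0)]⟩

omit [CharZero F] in
lemma pl_mul {b z : F} (hz : z ∈ S) (h0 : z ≠ 0) : PL W S (b * z ^ 3) ↔ PL W S b :=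
  ⟨fun h => by simpa [h0] using h.mul (inv_mem hz) (inv_ne_zero h0), fun h => h.mul hz h0⟩

omit [CharZero F] in
lemma le_nine {u : F} (hu : W u ≤ 1) : W (9 * u) ≤ W 9 := by
  rw [map_mul]; exact mul_le_of_le_one_right' hu

omit [CharZero F] in
lemma div_le {c z : F} (hc : c ≠ 0) (h : W z ≤ W c) : W (z / c) ≤ 1 := by
  rwa [map_div₀, div_le_one₀ (W.pos_iff.2 hc)]

namespace Z3

variable (h : Z3 W S)
include h

lemma le_three {z : F} (hz : z ∈ S) (h1 : W z < 1) : W z ≤ W 3 := by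
  rcases eq_or_ne z 0 with rfl | h0
  · simp
  obtain ⟨n, hn⟩ := h.pw z hz h0
  rw [hn] at h1 ⊢
  simpa using zpow_le_zpow_right_of_le_one₀ W3_pos h.lt.le
    (show 1 ≤ n from (zpow_lt_one_iff_right_of_lt_one₀ W3_pos h.lt).1 h1)

lemma h1 (z : AA W S) : ∃ u, z = 3 * u ∨ z = 1 + 3 * u ∨ z = -1 + 3 * u := by
  obtain ⟨k, hk⟩ := h.int z (AA.mem z) (AA.le z)
  have hm : (z : F) - k ∈ S := sub_mem (AA.mem z) (intCast_mem S k)
  let t : AA W S := ⟨(z - k) / 3, mem_AA (div_mem hm (ofNat_mem S 3))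
    (div_le (by norm_num) (h.le_three hm hk))⟩
  have e : z = k + 3 * t := Subtype.ext (by simp [t]; field_simp; ring)
  obtain ⟨q, rfl | rfl | rfl⟩ : ∃ q, k = 3 * q ∨ k = 1 + 3 * q ∨ k = -1 + 3 * q :=
    ⟨(k + 1) / 3, by omega⟩
  · exact ⟨q + t, .inl (by rw [e]; push_cast; ring)⟩
  · exact ⟨q + t, .inr (.inl (by rw [e]; push_cast; ring))⟩
  · exact ⟨q + t, .inr (.inr (by rw [e]; push_cast; ring))⟩

omit [CharZero F] in
lemma three_lt {u : F} (hu : W u ≤ 1) : W (3 * u) < 1 := by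
  rw [map_mul]; exact (mul_le_of_le_one_right' hu).trans_lt h.lt

omit [CharZero F] in
lemma h2 (w : AA W S) : 3 * w ≠ 1 := fun e => by
  have := h.three_lt (AA.le w)
  rw [show 3 * (w : F) = 1 from congrArg Subtype.val e, map_one] at this
  exact this.false

omit [CharZero F] in
lemma unit {c : F} (u : AA W S) (e : c = 1 + 3 * u ∨ c = -1 + 3 * u) : W c = 1 := by
  have := h.three_lt (AA.le u)
  rcases e with rfl | rfl
  · exact W.map_one_add_of_lt this
  · rw [W.map_add_eq_of_lt_left (by simpa using this)]; simp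

lemma zpow_inj {m n : ℤ} (e : W 3 ^ m = W 3 ^ n) : m = n :=
  zpow_right_injective₀ W3_pos h.lt.ne e

/-- The three types of local points. -/
theorem tri {x y f : F} (hx : x ∈ S) (hy : y ∈ S) (e : y ^ 2 + y = x ^ 3 - 7) (h0 : f ≠ 0)
    (hf : (x = 3 ∧ y = 4 ∧ f = 3) ∨ (¬ (x = 3 ∧ y = 4) ∧ f = y - 3 * x + 5)) :
    (1 < W y ∧ PL W S f) ∨
    (W (y - 1) = 1 ∧ W f = 1 ∧ ¬ PL W S f ∧
      ∀ V ∈ S, V ^ 3 - 3 * V - 1 ≠ (y - 1) * V * (V + 1)) ∨
    ∃ m : AA W S, y = 4 + 9 * m ∧ W (1 + 2 * m) = 1 ∧ x ≠ 0 ∧ ∃ n : ℤ, W f = W 3 ^ n ∧ ¬ 3 ∣ n := by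
  have h7 : W 7 = 1 := h.unit 2 (.inl (by norm_num))
  rcases lt_or_ge 1 (W y) with h1 | h1
  · refine .inl ⟨h1, ?_⟩
    have hy0 : y ≠ 0 := by rintro rfl; simp at h1
    have h3 : W y⁻¹ < 1 := by rw [map_inv₀]; exact inv_lt_one_of_one_lt₀ h1
    have h4 : W (1 + y⁻¹ * (1 + 7 * y⁻¹)) = 1 := W.map_one_add_of_lt (by
      rw [map_mul, W.map_one_add_of_lt (by rwa [map_mul, h7, one_mul]), mul_one]; exact h3)
    have h5 : (x / y) ^ 3 = y⁻¹ * (1 + y⁻¹ * (1 + 7 * y⁻¹)) := by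
      field_simp; linear_combination -e
    have h6 : W (x / y) ^ 3 = W y⁻¹ := by rw [← map_pow, h5, map_mul, h4, mul_one]
    have h8 : W (x / y) ≤ W 3 := h.le_three (div_mem hx hy)
      ((pow_lt_one_iff_of_nonneg zero_le (by norm_num : 3 ≠ 0)).1 (h6 ▸ h3))
    have h9 : W y⁻¹ ≤ W 9 := by
      rw [← h6, W9]
      exact (pow_le_pow_left₀ zero_le h8 3).trans (pow_le_pow_right_of_le_one' h.lt.le (by norm_num))
    have hx0 : x ≠ 0 := by
      rintro rfl
      rw [zero_div, map_zero, zero_pow (by norm_num), eq_comm] at h6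
      simp [hy0] at h6
    let u : AA W S := ⟨x / y / 3,
      mem_AA (div_mem (div_mem hx hy) (ofNat_mem S 3)) (div_le (by norm_num) h8)⟩
    let r : AA W S := ⟨y⁻¹ / 9,
      mem_AA (div_mem (inv_mem hy) (ofNat_mem S 9)) (div_le (by norm_num) h9)⟩
    obtain ⟨-, rfl, -⟩ | ⟨-, rfl⟩ := hf
    · exact absurd (h.unit 1 (.inl (by norm_num))) h1.ne'
    refine ⟨y / x, div_mem hy hx, div_ne_zero hy0 hx0, le_of_eq_of_le (congrArg W ?_)
      (le_nine (AA.le ((5 * r - u) * (1 + 9 * r * (1 + 63 * r)) + r * (1 + 63 * r))))⟩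
    rw [← inv_div x y, inv_pow, div_inv_eq_mul, h5]
    push_cast [u, r]
    field_simp
    ring
  have h2 : W x ≤ 1 := (pow_le_one_iff (by norm_num : 3 ≠ 0)).1 (by
    rw [← map_pow, show x ^ 3 = y ^ 2 + y + 7 by linear_combination -e]
    exact W.map_add_le (W.map_add_le (by rw [map_pow]; exact pow_le_one' h1 2) h1) h7.le)
  lift x to AA W S using mem_AA hx h2
  lift y to AA W S using mem_AA hy h1
  obtain ⟨p, q, rfl, hq⟩ | ⟨p, m, q, rfl, rfl, hq⟩ := r_pt h.h1 h.h2 (x := x) (y := y)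
    (Subtype.ext e)
  · refine .inr (.inl ?_)
    obtain ⟨h3, -⟩ | ⟨-, rfl⟩ := hf
    · exact absurd (Subtype.ext (by push_cast at h3 ⊢; linear_combination -h3)) (h.h2 (1 - p))
    have k1 : ∃ t, y - 1 = 1 + 3 * t ∨ y - 1 = -1 + 3 * t := hq.elim
      (fun k => ⟨1 + 3 * q, .inr (by rw [k]; ring)⟩) fun k => ⟨1 + 3 * q, .inl (by rw [k]; ring)⟩
    have k2 : y - 3 * (1 + 3 * p) + 5 = 5 + 9 * (q - p) ∨ y - 3 * (1 + 3 * p) + 5 = 7 + 9 * (q - p) :=
      hq.imp (fun k => by rw [k]; ring) fun k => by rw [k]; ring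
    obtain ⟨t, k1⟩ := k1
    have k3 := h.unit t (k1.imp (congrArg Subtype.val) (congrArg Subtype.val))
    have k4 : W ((y - 3 * (1 + 3 * p) + 5 : AA W S) : F) = 1 := k2.elim
      (fun k => h.unit (2 + 3 * (q - p)) (.inr (by rw [k]; push_cast; ring)))
      fun k => h.unit (2 + 3 * (q - p)) (.inl (by rw [k]; push_cast; ring))
    refine ⟨k3, k4, ?_, fun V hV k => ?_⟩
    · rintro ⟨z, hz, hz0, k5⟩
      change W (((y - 3 * (1 + 3 * p) + 5 : AA W S) : F) / _ - 1) ≤ _ at k5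
      have k6 := W.map_one_add_of_lt (k5.trans_lt (W9 (W := W) ▸ pow_lt_one₀ zero_le h.lt two_ne_zero))
      rw [add_sub_cancel, map_div₀, k4, map_pow, one_div, inv_eq_one] at k6
      lift z to AA W S using mem_AA hz ((pow_le_one_iff (by norm_num : 3 ≠ 0)).1 k6.le)
      refine r_ncube h.h1 h.h2 (z := z) (w := ⟨_, mem_AA (div_mem (sub_mem (div_mem (AA.mem _)
        (pow_mem (AA.mem z) 3)) S.one_mem) (ofNat_mem S 9)) (div_le (by norm_num) k5)⟩) k2 (Subtype.ext ?_)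
      change _ = (z : F) ^ 3 * (1 + 9 * (_ / 9))
      field_simp
      ring
    · have k5 : W V ≤ 1 := by
        by_contra! k5
        have k6 : W (V + 1) = W V := W.map_add_eq_of_lt_left (by simpa using k5)
        have k7 : W (V ^ 2 - 3) = W V ^ 2 := by
          rw [W.map_sub_eq_of_lt_left (by
            rw [map_pow]; exact h.lt.trans (one_lt_pow₀ k5 two_ne_zero)), map_pow]
        have k8 : W (V * (V ^ 2 - 3)) = W V ^ 3 := by rw [map_mul, k7]; ring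
        have k9 := congrArg W k
        rw [show V ^ 3 - 3 * V = V * (V ^ 2 - 3) by ring, W.map_sub_eq_of_lt_left (by
          rw [k8, map_one]; exact one_lt_pow₀ k5 three_ne_zero), k8, map_mul, map_mul, k6] at k9
        change _ = W ((y - 1 : AA W S) : F) * _ * _ at k9
        rw [k3, one_mul, ← sq] at k9
        exact (pow_lt_pow_right₀ k5 (by norm_num : 2 < 3)).ne' k9
      lift V to AA W S using mem_AA hV k5
      exact r_nroot h.h1 h.h2 (V := V) k1 (Subtype.ext k)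
  · refine .inr (.inr ⟨m, rfl, ?_, ?_, ?_⟩)
    · rcases hq with rfl | rfl
      · exact h.unit (2 * q) (.inl (by push_cast; ring))
      · exact h.unit (2 * q) (.inr (by push_cast; ring))
    · have := h.unit p (.inl rfl)
      push_cast
      exact mul_ne_zero (by norm_num) (by rintro k; simp [k] at this)
    obtain ⟨-, -, rfl⟩ | ⟨-, rfl⟩ := hf
    · exact ⟨1, by simp, by norm_num⟩
    rcases hq with rfl | rfl
    · have k1 := h.unit (p + q) (.inl rfl)
      have k2 : (((4 + 9 * (3 * q) : AA W S) : F) - 3 * (3 * (1 + 3 * p) : AA W S) + 5) *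
          (-9 * (1 + 3 * ((p + q : AA W S) : F))) = -(9 * (p : F)) ^ 3 := by
        push_cast at e ⊢
        linear_combination -e
      have k3 : (9 * p : F) ≠ 0 := fun k => by
        rw [k, zero_pow three_ne_zero, neg_zero, mul_eq_zero, mul_eq_zero] at k2
        rcases k2 with k | k | k
        · exact h0 k
        · norm_num at k
        · exact zero_ne_one ((W.map_zero.symm.trans (congrArg W k.symm)).trans k1)
      obtain ⟨n, hn⟩ := h.pw _ (mul_mem (ofNat_mem S 9) (AA.mem p)) k3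
      have k4 := congrArg W k2
      rw [map_mul, map_mul, k1, W.map_neg, W.map_neg, map_pow, hn, W9, mul_one,
        ← eq_div_iff (pow_ne_zero 2 W3_pos.ne'), ← zpow_natCast, ← zpow_natCast, ← zpow_mul,
        ← zpow_sub₀ W3_pos.ne'] at k4
      exact ⟨_, k4, by omega⟩
    · refine ⟨2, ?_, by norm_num⟩
      rw [show ((4 + 9 * (-1 + 3 * q) : AA W S) : F) - 3 * (3 * (1 + 3 * p) : AA W S) + 5 =
        9 * (-1 + 3 * ((q - p : AA W S) : F)) by push_cast; ring, map_mul,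
        h.unit (q - p) (.inr rfl), W9, mul_one]
      rfl

omit [CharZero F] in
lemma pat {V U : F} (h0 : V ≠ 0) (h1 : V + 1 ≠ 0) (e : U = -1 / (V + 1) ∨ U = -(V + 1) / V)
    (e1 : W U = W V) (e2 : W (U + 1) = W (V + 1)) :
    W V = 1 ∧ W (V + 1) = 1 ∧ (W (U - V) < 1 → W (V - 1) < 1) := by
  have p0 := (W.pos_iff.2 h0).ne'
  have p1 := (W.pos_iff.2 h1).ne'
  have key : W V = 1 ∧ W (V + 1) = 1 := by
    rcases e with rfl | rfl
    · rw [show -1 / (V + 1) + 1 = V / (V + 1) by field_simp; ring, map_div₀, div_eq_iff p1] at e2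
      rw [map_div₀, W.map_neg, map_one, div_eq_iff p1, e2] at e1
      have : W (V + 1) = 1 := (pow_eq_one_iff_left three_ne_zero).1 (by rw [e1]; ring)
      exact ⟨by simp [e2, this], this⟩
    · rw [show -(V + 1) / V + 1 = -1 / V by field_simp; ring, map_div₀, W.map_neg, map_one,
        div_eq_iff p0] at e2
      rw [map_div₀, W.map_neg, div_eq_iff p0] at e1
      rw [e1] at e2
      have : W V = 1 := (pow_eq_one_iff_left three_ne_zero).1 (by rw [e2]; ring)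
      exact ⟨this, by simp [e1, this]⟩
  refine ⟨key.1, key.2, fun k => ?_⟩
  have k1 : W (V ^ 2 + V + 1) < 1 := by
    rcases e with rfl | rfl
    · rwa [show -1 / (V + 1) - V = -(V ^ 2 + V + 1) / (V + 1) by field_simp; ring, map_div₀,
        W.map_neg, key.2, div_one] at k
    · rwa [show -(V + 1) / V - V = -(V ^ 2 + V + 1) / V by field_simp; ring, map_div₀,
        W.map_neg, key.1, div_one] at k
  refine (pow_lt_one_iff_of_nonneg zero_le two_ne_zero).1 ?_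
  rw [← map_pow, show (V - 1) ^ 2 = V ^ 2 + V + 1 - 3 * V by ring]
  exact W.map_sub_lt k1 (h.three_lt key.1.le)

omit [CharZero F] in
lemma not_one {V c : F} (hc : W c = 1) (e : V ^ 3 - 3 * V - 1 = c * V * (V + 1)) (h0 : W V = 1)
    (h1 : W (V + 1) = 1) : ¬ W (V - 1) < 1 := fun k => by
  have := congrArg W e
  rw [map_mul, map_mul, hc, h0, h1, one_mul, one_mul,
    show V ^ 3 - 3 * V - 1 = (V - 1) * (V * (V + 1) + 1) - 3 * V by ring] at this
  refine (W.map_sub_lt ?_ (h.three_lt h0.le)).ne this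
  rw [map_mul]
  exact (mul_le_of_le_one_right' (W.map_add_le (by simp [h0, h1]) (by simp))).trans_lt k

/-- The uniformizer of the ramified cubic extension. -/
lemma unif {m : AA W S} (hm : W (1 + 2 * m) = 1) {V : F}
    (e : V ^ 3 - 3 * V - 1 = (4 + 9 * m - 1) * V * (V + 1)) : V ≠ 1 ∧
      (1 + 2 * m) * (3 / (V - 1)) ^ 3 + 3 * (1 + 3 * m) * (3 / (V - 1)) ^ 2 + 9 * m * (3 / (V - 1))
        - 3 = 0 ∧ W (3 / (V - 1)) ^ 3 = W 3 := by
  have h1 : V ≠ 1 := by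
    rintro rfl
    rw [show 1 + 2 * (m : F) = 0 by linear_combination (-1 / 9 : F) * e] at hm
    simp at hm
  have h2 := sub_ne_zero.2 h1
  have h3 : (1 + 2 * m) * (3 / (V - 1)) ^ 3 + 3 * (1 + 3 * m) * (3 / (V - 1)) ^ 2 +
      9 * m * (3 / (V - 1)) - 3 = 0 := by
    field_simp
    linear_combination -3 * e
  refine ⟨h1, h3, ?_⟩
  generalize 3 / (V - 1) = p at h3
  have h4 : W (1 + 3 * m) = 1 := h.unit m (.inl rfl)
  have h5 := congrArg W (show (1 + 2 * m) * p ^ 3 = 3 * (1 - p * ((1 + 3 * m) * p + 3 * m)) by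
    linear_combination h3)
  rw [map_mul, map_mul, hm, one_mul, map_pow] at h5
  have h6 := h.three_lt (AA.le m)
  rcases lt_or_ge (W p) 1 with k | k
  · rw [h5, W.map_one_sub_of_lt, mul_one]
    rw [map_mul]
    refine (mul_le_of_le_one_right' (W.map_add_le ?_ h6.le)).trans_lt k
    rw [map_mul, h4, one_mul]
    exact k.le
  · have k1 : W (1 - p * ((1 + 3 * m) * p + 3 * m)) ≤ W p ^ 3 := by
      refine W.map_sub_le (by rw [map_one]; exact one_le_pow₀ k) ?_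
      rw [map_mul, W.map_add_eq_of_lt_left (h6.trans_le (by rwa [map_mul, h4, one_mul])),
        map_mul, h4, one_mul, ← sq]
      exact pow_le_pow_right₀ k (by norm_num)
    have k2 := mul_lt_mul_of_lt_of_le_of_nonneg_of_pos h.lt k1 zero_le
      (pow_pos (zero_lt_one.trans_le k) 3)
    rw [← h5, one_mul] at k2
    exact k2.false.elim

omit h [CharZero F] in
lemma le_add {a b : F} (e : W a = W b → a = 0) : W a ≤ W (a + b) ∧ W (a + b) = max (W a) (W b) := by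
  by_cases k : W a = W b
  · obtain rfl := e k
    simp
  · rw [W.map_add_of_distinct_val k]
    exact ⟨le_max_left _ _, rfl⟩

omit h [CharZero F] in
lemma le_add3 {a b c : F} (e1 : W a = W b → a = 0) (e2 : W a = W c → a = 0)
    (e3 : W b = W c → b = 0) : W a ≤ W (a + b + c) := by
  rw [add_assoc]
  refine (le_add fun k => ?_).1
  rw [(le_add e3).2] at k
  exact (max_choice (W b) (W c)).elim (fun l => e1 (k.trans l)) fun l => e2 (k.trans l)

lemma ne_cls {p a b : F} (hp : W p ^ 3 = W 3) (ha : a ∈ S) (hb : b ∈ S) {i j : ℕ}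
    (hij : ¬ (3 : ℤ) ∣ i - j) (e : W (a * p ^ i) = W (b * p ^ j)) : a * p ^ i = 0 := by
  by_contra h0
  have h1 : b * p ^ j ≠ 0 := fun k => h0 (by simpa [k] using e)
  obtain ⟨m, hm⟩ := h.pw a ha (left_ne_zero_of_mul h0)
  obtain ⟨n, hn⟩ := h.pw b hb (left_ne_zero_of_mul h1)
  have := congrArg (· ^ 3) e
  simp only [map_mul, map_pow, mul_pow, hm, hn, pow_right_comm _ _ 3, hp] at this
  simp only [← zpow_natCast, ← zpow_mul, ← zpow_add₀ (W3_pos (W := W)).ne'] at this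
  have := h.zpow_inj this
  omega

lemma le_one {p a : F} (hp : W p ^ 3 = W 3) (ha : a ∈ S) {i : ℕ} (hi : i < 3)
    (e : W (a * p ^ i) ≤ 1) : W a ≤ 1 := by
  rcases eq_or_ne a 0 with rfl | h0
  · simp
  obtain ⟨m, hm⟩ := h.pw a ha h0
  have := pow_le_one' e 3
  simp only [map_mul, map_pow, mul_pow, hm, pow_right_comm _ _ 3, hp] at this
  simp only [← zpow_natCast, ← zpow_mul, ← zpow_add₀ (W3_pos (W := W)).ne'] at this
  rw [zpow_le_one_iff_right_of_lt_one₀ W3_pos h.lt] at this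
  rw [hm, zpow_le_one_iff_right_of_lt_one₀ W3_pos h.lt]
  omega

omit h [CharZero F] in
lemma vieta {a b c d p q r : F} (h1 : p ≠ q) (h2 : p ≠ r) (h3 : q ≠ r)
    (e1 : a * p ^ 3 + b * p ^ 2 + c * p - d = 0) (e2 : a * q ^ 3 + b * q ^ 2 + c * q - d = 0)
    (e3 : a * r ^ 3 + b * r ^ 2 + c * r - d = 0) :
    a * (p + q + r) = -b ∧ a * (p * q + p * r + q * r) = c ∧ a * (p * q * r) = d := by
  have k1 : a * (p ^ 2 + p * q + q ^ 2) + b * (p + q) + c = 0 :=
    mul_left_cancel₀ (sub_ne_zero.2 h1) (by linear_combination e1 - e2)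
  have k2 : a * (p ^ 2 + p * r + r ^ 2) + b * (p + r) + c = 0 :=
    mul_left_cancel₀ (sub_ne_zero.2 h2) (by linear_combination e1 - e3)
  have k3 : a * (p + q + r) = -b :=
    mul_left_cancel₀ (sub_ne_zero.2 h3) (by linear_combination k1 - k2)
  exact ⟨k3, by linear_combination (p + q) * k3 - k1,
    by linear_combination p * ((p + q) * k3 - k1) + e1 - p ^ 2 * k3⟩

/-- Norms of units from the ramified cubic extension are cubes modulo nine. -/
theorem norm_pl {m : AA W S} (hm : W (1 + 2 * m) = 1) {p q r c0 c1 c2 : F} (hp : W p ^ 3 = W 3)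
    (e1 : (1 + 2 * m) * (p + q + r) = -(3 * (1 + 3 * m)))
    (e2 : (1 + 2 * m) * (p * q + p * r + q * r) = 9 * m) (e3 : (1 + 2 * m) * (p * q * r) = 3)
    (h0 : c0 ∈ S) (h1 : c1 ∈ S) (h2 : c2 ∈ S) {n : ℤ} (hn : W (c0 + c1 * p + c2 * p ^ 2) = W 3 ^ n) :
    PL W S ((c0 + c1 * p + c2 * p ^ 2) * (c0 + c1 * q + c2 * q ^ 2) *
      (c0 + c1 * r + c2 * r ^ 2)) := by
  have k01 := @h.ne_cls _ _ _ _ _ p _ _ hp h0 h1 0 1 (by norm_num)
  have k02 := @h.ne_cls _ _ _ _ _ p _ _ hp h0 h2 0 2 (by norm_num)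
  have k12 := @h.ne_cls _ _ _ _ _ p _ _ hp h1 h2 1 2 (by norm_num)
  have k10 := @h.ne_cls _ _ _ _ _ p _ _ hp h1 h0 1 0 (by norm_num)
  have k20 := @h.ne_cls _ _ _ _ _ p _ _ hp h2 h0 2 0 (by norm_num)
  have k21 := @h.ne_cls _ _ _ _ _ p _ _ hp h2 h1 2 1 (by norm_num)
  have h3 : (3 : F) ^ n ∈ S := zpow_mem (ofNat_mem S 3) n
  have l1 := @h.ne_cls _ _ _ _ _ p _ _ hp h1 h3 1 0 (by norm_num)
  have l2 := @h.ne_cls _ _ _ _ _ p _ _ hp h2 h3 2 0 (by norm_num)
  simp only [pow_zero, pow_one, mul_one, map_zpow₀] at k01 k02 k12 k10 k20 k21 l1 l2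
  have z := zpow_pos (W3_pos (W := W)) n
  have m1 : W (c1 * p) < W 3 ^ n := lt_of_le_of_ne
    ((le_add3 k10 k12 k02).trans_eq (by rw [add_comm (c1 * p), hn]))
    fun k => z.ne (by rw [← k, l1 k, map_zero])
  have m2 : W (c2 * p ^ 2) < W 3 ^ n := lt_of_le_of_ne
    ((le_add3 k20 k21 k01).trans_eq (by rw [add_assoc, add_comm, hn]))
    fun k => z.ne (by rw [← k, l2 k, map_zero])
  have m0 : W c0 = W 3 ^ n := by
    rw [← hn, eq_comm, add_assoc, ← add_sub_cancel_right c0 (c1 * p + c2 * p ^ 2),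
      W.map_sub_eq_of_lt_left (by rw [← add_assoc, hn]; exact W.map_add_lt m1 m2),
      add_sub_cancel_right]
  have hc : c0 ≠ 0 := W.pos_iff.1 (m0 ▸ z)
  let d1 : AA W S := ⟨c1 / c0, mem_AA (div_mem h1 h0) (h.le_one hp (div_mem h1 h0) (i := 1)
    (by norm_num) (by rw [pow_one, div_mul_eq_mul_div]; exact div_le hc (m0 ▸ m1.le)))⟩
  let d2 : AA W S := ⟨c2 / c0, mem_AA (div_mem h2 h0) (h.le_one hp (div_mem h2 h0) (i := 2)
    (by norm_num) (by rw [div_mul_eq_mul_div]; exact div_le hc (m0 ▸ m2.le)))⟩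
  have hu : 1 + 2 * (m : F) ≠ 0 := W.pos_iff.1 (hm ▸ zero_lt_one)
  let u : AA W S := ⟨(1 + 2 * m)⁻¹, mem_AA (inv_mem (AA.mem (1 + 2 * m))) (by simp [hm])⟩
  obtain ⟨l, hl⟩ := r_cube h.h1 d1
  refine ⟨c0, h0, hc, le_of_eq_of_le (congrArg W ?_) (le_nine (AA.le (u * (l - m * d1) +
    d2 * (u ^ 2 * (1 + 3 * m) ^ 2 - 2 * m * u) + d1 ^ 2 * m * u -
    d1 * d2 * (3 * m * (1 + 3 * m) * u ^ 2 + u) + d2 ^ 2 * (9 * m ^ 2 + 2 * (1 + 3 * m)) * u ^ 2 -
    d1 ^ 2 * d2 * (1 + 3 * m) * u ^ 2 + 3 * d1 * d2 ^ 2 * m * u ^ 2 + d2 ^ 3 * u ^ 2)))⟩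
  have f1 : p + q + r = -(3 * (1 + 3 * m)) * u := (eq_mul_inv_iff_mul_eq₀ hu).2
    ((mul_comm _ _).trans e1)
  have f2 : p * q + p * r + q * r = 9 * m * u := (eq_mul_inv_iff_mul_eq₀ hu).2
    ((mul_comm _ _).trans e2)
  have f3 : p * q * r = 3 * u := (eq_mul_inv_iff_mul_eq₀ hu).2
    ((mul_comm _ _).trans e3)
  have f4 : (d1 : F) ^ 3 = d1 + 3 * l := congrArg Subtype.val hl
  rw [show c1 = d1 * c0 from (div_mul_cancel₀ _ hc).symm,
    show c2 = d2 * c0 from (div_mul_cancel₀ _ hc).symm]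
  push_cast
  generalize (d1 : F) = d1, (d2 : F) = d2, (u : F) = u at *
  have f5 : (c0 + d1 * c0 * p + d2 * c0 * p ^ 2) * (c0 + d1 * c0 * q + d2 * c0 * q ^ 2) *
      (c0 + d1 * c0 * r + d2 * c0 * r ^ 2) / c0 ^ 3 = 1 + d1 * (p + q + r) +
      d2 * ((p + q + r) ^ 2 - 2 * (p * q + p * r + q * r)) + d1 ^ 2 * (p * q + p * r + q * r) +
      d1 * d2 * ((p + q + r) * (p * q + p * r + q * r) - 3 * (p * q * r)) +
      d2 ^ 2 * ((p * q + p * r + q * r) ^ 2 - 2 * (p + q + r) * (p * q * r)) + d1 ^ 3 * (p * q * r) +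
      d1 ^ 2 * d2 * (p + q + r) * (p * q * r) + d1 * d2 ^ 2 * (p * q + p * r + q * r) * (p * q * r) +
      d2 ^ 3 * (p * q * r) ^ 2 := by
    field_simp
    ring
  rw [f5, f1, f2, f3, f4]
  ring

omit [CharZero F] in
/-- Hensel lifting for cube roots. -/
lemma root_eq {t s : F} (h1 : W (t - 1) ^ 2 < W 3) (h2 : W (s - 1) ^ 2 < W 3) (e : s ^ 3 = t ^ 3) :
    s = t := by
  by_contra k
  have k1 : s ^ 2 + s * t + t ^ 2 = 0 := mul_left_cancel₀ (sub_ne_zero.2 k) (by linear_combination e)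
  have k2 : ∀ {z : F}, W (z - 1) ^ 2 < W 3 → W z = 1 := fun {z} hz => by
    simpa using W.map_one_add_of_lt
      ((pow_lt_one_iff_of_nonneg zero_le two_ne_zero).1 (hz.trans h.lt))
  have k3 := congrArg W (show (s - 1 - (t - 1)) ^ 2 = -3 * s * t by linear_combination k1)
  rw [map_mul, map_mul, W.map_neg, k2 h1, k2 h2, mul_one, mul_one, map_pow] at k3
  rcases le_total (W (s - 1)) (W (t - 1)) with l | l
  · exact ((pow_le_pow_left₀ zero_le (W.map_sub_le l le_rfl) 2).trans_lt h1).ne k3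
  · exact ((pow_le_pow_left₀ zero_le (W.map_sub_le le_rfl l) 2).trans_lt h2).ne k3

lemma exists_root [IsAlgClosed F] {t : F} (ht : W (t ^ 3 - 1) ≤ W 9) :
    ∃ w : F, w ^ 3 = 1 ∧ W (w * t - 1) ^ 2 < W 3 := by
  obtain ⟨u, hu⟩ := IsAlgClosed.exists_pow_nat_eq (-3 : F) (n := 2) (by norm_num)
  by_contra! k
  have k1 := k 1 (by norm_num)
  have k2 := k ((-1 + u) / 2) (by linear_combination (u - 3) / 8 * hu)
  have k3 := k ((-1 - u) / 2) (by linear_combination (-u - 3) / 8 * hu)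
  have k4 := mul_le_mul' (mul_le_mul' k1 k2) k3
  rw [← mul_pow, ← mul_pow, ← map_mul W (_ - _), ← map_mul W (_ * _) (_ - _), show (1 * t - 1) * ((-1 + u) / 2 * t - 1) *
    ((-1 - u) / 2 * t - 1) = t ^ 3 - 1 by linear_combination (t ^ 2 - t ^ 3) / 4 * hu] at k4
  have k5 := k4.trans (pow_le_pow_left₀ zero_le ht 2)
  rw [W9, ← pow_mul, show W 3 * W 3 * W 3 = W 3 ^ 3 by ring] at k5
  exact (pow_lt_pow_right_of_lt_one₀ W3_pos h.lt (by norm_num)).not_ge k5

end Z3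

/-- Lagrange interpolation. -/
def lg0 (p q r x y z : F) : F :=
  x * q * r / ((p - q) * (p - r)) + y * r * p / ((q - r) * (q - p)) + z * p * q / ((r - p) * (r - q))

/-- Lagrange interpolation. -/
def lg1 (p q r x y z : F) : F :=
  -(x * (q + r) / ((p - q) * (p - r)) + y * (r + p) / ((q - r) * (q - p)) +
    z * (p + q) / ((r - p) * (r - q)))

/-- Lagrange interpolation. -/
def lg2 (p q r x y z : F) : F :=
  x / ((p - q) * (p - r)) + y / ((q - r) * (q - p)) + z / ((r - p) * (r - q))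

omit [CharZero F] in
lemma lg_rot (p q r x y z : F) : lg0 q r p y z x = lg0 p q r x y z ∧
    lg1 q r p y z x = lg1 p q r x y z ∧ lg2 q r p y z x = lg2 p q r x y z := by
  simp only [lg0, lg1, lg2]
  exact ⟨by ring, by ring, by ring⟩

omit [CharZero F] in
lemma lg_map (f : F →+* F) (p q r x y z : F) :
    f (lg0 p q r x y z) = lg0 (f p) (f q) (f r) (f x) (f y) (f z) ∧
    f (lg1 p q r x y z) = lg1 (f p) (f q) (f r) (f x) (f y) (f z) ∧
    f (lg2 p q r x y z) = lg2 (f p) (f q) (f r) (f x) (f y) (f z) := by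
  simp [lg0, lg1, lg2]

omit [CharZero F] in
lemma lg_eq {p q r : F} (h1 : p ≠ q) (h2 : p ≠ r) (h3 : q ≠ r) (x y z : F) :
    lg0 p q r x y z + lg1 p q r x y z * p + lg2 p q r x y z * p ^ 2 = x := by
  have := sub_ne_zero.2 h1
  have := sub_ne_zero.2 h2
  have := sub_ne_zero.2 h3
  have := sub_ne_zero.2 h1.symm
  have := sub_ne_zero.2 h2.symm
  have := sub_ne_zero.2 h3.symm
  simp only [lg0, lg1, lg2]
  field_simp
  ring

end val

end LocSAux

end Pool.Agent.Lib.MP_23455a_nt
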