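import Pool.Agent.Lib.MP_23455a_nt.Lat
import Pool.Agent.Lib.MP_23455a_nt.Cls
import Pool.Agent.Lib.MP_23455a_nt.Kum
import Pool.Agent.Lib.MP_23455a_nt.H1
import Pool.Agent.Lib.MP_23455a_nt.LocSA

-- part Pool.Agent.Lib.MP_23455a_nt.HeegA
section

set_option autoImplicit false

open NumberField Pool.Agent.Lib.MP_580eba_nt PeriodPair WeierstrassCurve
open Pool.Agent.Lib.MP_696deb_nt Pool.Agent.Lib.MP_696deb_nt.Gal
open scoped Classical nonZeroDivisors

namespace Pool.Agent.Lib.MP_23455a_nt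

variable {K : Type} [Field K] [NumberField K] {ι : K →+* ℂ} {P Q v : Pl K} {L L' M M' : PeriodPair}
  {t t' μ μ' τ τ' : ℂ} {D D' : Dv K} {ε ε' x y : K} {σ : ℂ ≃+* ℂ}

lemma val_le_iff (hx : x ≠ 0) (hy : y ≠ 0) : val v x ≤ val v y ↔ ord v y ≤ ord v x := by
  rw [val_eq_exp v hx, val_eq_exp v hy, WithZero.exp_le_exp, neg_le_neg_iff]

lemma ID_mono (h : D' ≤ D) (hx : x ∈ ID D) : x ∈ ID D' := ID_le_iff.2 h hx

omit [NumberField K] in
lemma le_add_single (D : Dv K) (v : Pl K) {m n : ℤ} (h : m ≤ n) :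
    D + .single v m ≤ D + .single v n := by gcongr

lemma mem_of_single {n : ℤ} (h : 0 ≤ n) (hx : x ∈ ID (D + .single v n)) : x ∈ ID D :=
  ID_mono (by simpa using le_add_single D v h) hx

lemma int_mul_mem (k : ℤ) (hx : x ∈ ID D) : k * x ∈ ID D := zsmul_eq_mul x k ▸ zsmul_mem hx k

lemma Setup.div_mem (h : Setup P Q) {n : ℕ} (hx : x ∈ ID (D + .single P n))
    (hy : y ≠ 0) (e : ord Q y = D Q) (h1 : val Q x ≤ val Q (3 ^ n * y)) : x / 3 ^ n ∈ ID D := by
  rcases eq_or_ne x 0 with rfl | h0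
  · simp
  refine mem_ID.2 (Or.inr fun v => ?_)
  have h2 := (mem_ID.1 hx).resolve_left h0 v
  have h3 : ord v (3 : K) = _ := congr($h.three v)
  rw [val_le_iff h0 (by simpa), ord_mul _ (by simp) hy, ord_pow, h.symm.spl.1] at h1
  rw [ord_div _ h0 (by simp), ord_pow, h3]
  rcases eq_or_ne Q v with rfl | h4
  · simp [h.ne]
    omega
  · rcases eq_or_ne P v with rfl | h5 <;> simp_all
    omega

lemma Setup.pow_mul_mem (h : Setup P Q) (n : ℕ) (hx : x ∈ ID D) :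
    3 ^ n * x ∈ ID (D + .single P n) :=
  ID_mono (by
    rw [dv_pow, h.three, add_comm _ D, nsmul_add, ← add_assoc]
    simp [Finsupp.single_nonneg]) (mul_mem_ID (mem_ID_dv (3 ^ n)) hx)

lemma Spl.pow_dvd (h : Spl v) {k : ℤ} {n : ℕ} (e : val v (k : K) ≤ val v (3 ^ n)) : 3 ^ n ∣ k := by
  have h3 : val v (3 : K) < 1 := by
    rw [val_eq_exp v (by simp), h.1, ← WithZero.exp_zero, WithZero.exp_lt_exp]
    norm_num
  induction n generalizing k with
  | zero => simp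
  | succ n ih =>
    obtain ⟨l, rfl⟩ : (3 : ℤ) ∣ k := (val_int_lt_iff Nat.prime_three (by exact_mod_cast h3)).1
      (e.trans_lt (by rw [map_pow]; exact pow_lt_one₀ zero_le h3 n.succ_ne_zero))
    rw [pow_succ', Int.cast_mul, map_mul, map_mul, Int.cast_ofNat,
      mul_le_mul_iff_right₀ (val_pos v (by simp))] at e
    exact pow_succ' (3 : ℤ) n ▸ mul_dvd_mul_left 3 (ih e)

/-- Level structures on lattices with complex multiplication. -/
structure LP (ι : K →+* ℂ) (P Q : Pl K) (L : PeriodPair) (t μ : ℂ) (D : Dv K) (ε : K) : Prop where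
  isL : IsL ι L μ D
  ne : ε ≠ 0
  mem : ε ∈ ID (D + .single P 3)
  ordQ : ord Q ε = D Q
  eq : t = μ * ι (ε / 27)

lemma LP.ord27 (h : Setup P Q) (e : LP ι P Q L t μ D ε) : Ord27 L t := fun k => by
  rw [e.eq, show k * (μ * ι (ε / 27)) = μ * ι (k * ε / 27) by simp; ring, e.isL.mem_iff]
  refine ⟨fun h1 => ?_, fun ⟨l, hl⟩ => ?_⟩
  · rcases eq_or_ne k 0 with rfl | h0
    · simp
    have h2 : (k : K) ≠ 0 := by simpa
    have h3 := (mem_ID.1 h1).resolve_left (by simp [h0, e.ne]) Q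
    rw [ord_div _ (mul_ne_zero h2 e.ne) (by simp), ord_mul _ h2 e.ne, e.ordQ] at h3
    exact h.symm.spl.pow_dvd (n := 3) ((val_le_iff h2 (by simp)).2 (by norm_num; omega))
  · rw [hl, show ((27 * l : ℤ) : K) * ε / 27 = l * ε by push_cast; ring]
    exact int_mul_mem l (mem_of_single (by norm_num) e.mem)

lemma LP.of_ord (h : Setup P Q) (hL : IsL ι L μ D) (ht : Ord27 L t) (hε : ε ∈ ID (D + .single P 3))
    (e : t = μ * ι (ε / 27)) : LP ι P Q L t μ D ε := by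
  have key : ε / 3 ^ 1 ∉ ID D := fun h1 => by
    have := (ht 9).1 (by
      rw [e, show ((9 : ℤ) : ℂ) * (μ * ι (ε / 27)) = μ * ι (ε / 3 ^ 1) by simp [map_ofNat]; ring]
      exact hL.mem_iff.2 h1)
    omega
  have h0 : ε ≠ 0 := fun h => key (by simp [h])
  refine ⟨hL, h0, hε, le_antisymm (not_lt.1 fun h1 => key ?_)
    ((mem_ID.1 (mem_of_single (by norm_num) hε)).resolve_left h0 Q), e⟩
  obtain ⟨y, -, hy, h2⟩ := exists_mem_ord D Q
  refine h.div_mem (ID_mono (le_add_single D P (by norm_num)) hε) hy h2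
    ((val_le_iff h0 (by simpa)).2 ?_)
  rw [ord_mul _ (by simp) hy, pow_one, h.symm.spl.1]
  omega

lemma Ord27.two_pow (h : Ord27 L t) (n : ℕ) : Ord27 L (2 ^ n * t) ∧ kx L (2 ^ n * t) = kx L t ∧
    ky L (2 ^ n * t) = ky L t ∧ kv L (2 ^ n * t) = rho^[n] (kv L t) := by
  induction n with
  | zero => simpa using h
  | succ n ih =>
    obtain ⟨h1, h2, h3, h4⟩ := ih
    obtain ⟨h5, h6, h7⟩ := h1.two
    rw [pow_succ', mul_assoc, h5, h6, h7, Function.iterate_succ_apply', ← h4]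
    refine ⟨fun k => ?_, h2, h3, rfl⟩
    rw [show k * (2 * (2 ^ n * t)) = (2 * k : ℤ) * (2 ^ n * t) by push_cast; ring, h1]
    omega

/-- Comparison of two level structures on homothetic lattices. -/
lemma LP.cmp (h : Setup P Q) (e : LP ι P Q L t μ D ε) (e' : LP ι P Q L' t' μ' D' ε') (hx : x ≠ 0)
    (hD : D = dv x + D') : kx L t = kx L' t' ∧ ky L t = ky L' t' ∧ ∃ n : ℕ,
      kv L t = rho^[n] (kv L' t') ∧ lgv Q ε = lgv Q x + lgv Q ε' + n := by
  subst hD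
  obtain ⟨ε, rfl⟩ : ∃ y, ε = x * y := ⟨ε / x, by field_simp⟩
  have h0 := right_ne_zero_of_mul e.ne
  have h1 : ord Q ε' = ord Q ε := by simpa [ord_mul _ hx h0, e'.ordQ, eq_comm] using e.ordQ
  obtain ⟨n, hn⟩ := h.symm.spl.exists_pow e'.ne h0 h1
  have h2 := (e.isL.shift hx).sc e'.isL
  have h3 : μ' / (μ * ι x) * t - 2 ^ n * t' ∈ L'.lattice := by
    have := e'.isL.mem_iff.2 (h.div_mem (n := 3) (sub_mem ((mul_mem_ID_iff hx).1
      (add_assoc (dv x) _ _ ▸ e.mem)) (int_mul_mem (2 ^ n) e'.mem)) e'.ne e'.ordQ (by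
        simpa [show (3 : K) ^ 3 = 27 by norm_num] using hn))
    have h4 := e.isL.ne
    have h5 : ι x ≠ 0 := by simpa
    rwa [show μ' / (μ * ι x) * t - 2 ^ n * t' = μ' * ι ((ε - (2 ^ n : ℤ) * ε') / 3 ^ 3) by
      simp [e.eq, e'.eq, map_ofNat]; field_simp; ring]
  obtain ⟨-, h4, h5, h6⟩ := (e'.ord27 h).two_pow n
  have h7 := ModB.kv_sc h2 h3
  have h8 := ModB.ku_sc h2 h3
  refine ⟨by rw [← h4, kx, kx, h7, h8], by rw [← h5, ky, ky, h7], n, h7.symm.trans h6, ?_⟩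
  rw [h.symm.spl.lgv_mul hx h0, h.symm.spl.lgv_of e'.ne (hn.trans ?_), add_assoc]
  rw [show 27 * ε' = (3 : ℤ) * (9 * ε') by push_cast; ring, map_mul]
  exact mul_le_of_le_one_left' (val_intCast_le _ _)

lemma kv_rel (h : Cj σ L L') (e : Rel σ L L' t t') :
    kx L' t' = σ (kx L t) ∧ ky L' t' = σ (ky L t) ∧ kv L' t' = σ (kv L t) := by
  have key (n : ℕ) [n.AtLeastTwo] : ℘[L'] (OfNat.ofNat n * t') = σ (℘[L] (OfNat.ofNat n * t)) :=
    (h.nat_mul e (OfNat.ofNat n)).wp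
  simp [kx, ky, kv, ku, key, map_ofNat]

/-- The Galois action on level structures. -/
lemma LP.gal (h : Setup P Q) (hσ : ∀ x, σ (ι x) = ι x) (e : LP ι P Q L t 1 0 ε) :
    ∃ L' t' μ B ε', Cj σ L L' ∧ LP ι P Q L' t' μ B ε' ∧ ∀ M D α, IsL ι M 1 D → α ∈ ID D → α ≠ 0 →
      ord Q α = D Q → ∃ M', Cj σ M M' ∧ Rel σ M M' (ι α * t) (ι α * t') ∧
        LP ι P Q M' (ι α * t') μ (D + B) (α * ε') := by
  have := h.tc
  obtain ⟨L', h1⟩ := exists_cj σ L
  obtain ⟨μ, B, h2⟩ := e.isL.exists_cj h.deg h1 (g := 1) hσ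
  obtain ⟨t', h3⟩ := h1.exists_rel t
  have key {M M' : PeriodPair} {D : Dv K} {α : K} (h4 : IsL ι M 1 D) (h5 : Cj σ M M')
      (h6 : α ∈ ID D) (h7 : α ≠ 0) : Rel σ M M' (ι α * t) (ι α * t') := by
    have := h3.isog h1 h5 (α := ι α) (by simpa) fun z hz => by
      obtain ⟨x, hx, rfl⟩ := (e.isL.mem z).1 hz
      rw [mul_left_comm, ← map_mul, h4.mem_iff]
      exact add_zero D ▸ mul_mem_ID h6 hx
    rwa [hσ] at this
  have h4 : Ord27 L' t' := fun k => (h1.int_mul h3 k).mem_iff.trans (e.ord27 h k)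
  obtain ⟨ε', h5, h6⟩ := (h2.mem _).1 ((h4 27).2 dvd_rfl)
  have h7 : t' = μ * ι (ε' / 27) := by
    rw [map_div₀, ← mul_div_assoc, ← h6]
    simp [map_ofNat]
  obtain ⟨α, h8, h9, h10⟩ := exists_mem_ord (.single Q 3) P
  have h11 : α * ε' / 27 ∈ ID B := h2.mem_iff.1 (by
    have := (key e.isL h1 (mem_of_single (by norm_num) (zero_add (.single Q 3 : Dv K) ▸ h8 :))
      h9).mem_iff.2 (by
        have := e.isL.mem_iff.2 (h.div_mem (n := 3) (x := α * ε) (by
          simpa using mul_mem_ID (mem_of_single (by norm_num)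
            (zero_add (.single Q 3 : Dv K) ▸ h8 :)) e.mem) e.ne e.ordQ (by
          rw [val_le_iff (mul_ne_zero h9 e.ne) (by simpa using e.ne), ord_mul _ h9 e.ne,
            ord_mul _ (by simp) e.ne, ord_pow, h.symm.spl.1]
          simpa using (mem_ID.1 h8).resolve_left h9 Q))
        rwa [show ι α * t = 1 * ι (α * ε / 3 ^ 3) by simp [e.eq, map_ofNat]; ring])
    rwa [show μ * ι (α * ε' / 27) = ι α * t' by simp [h7]; ring])
  have h12 : LP ι P Q L' t' μ B ε' := .of_ord h h2 h4 (by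
    rcases eq_or_ne ε' 0 with rfl | h0
    · simp
    refine mem_ID.2 (Or.inr fun v => ?_)
    rcases eq_or_ne P v with rfl | h13
    · have := (mem_ID.1 h11).resolve_left (by simp [h0, h9]) P
      rw [ord_div _ (by simp [h0, h9]) (by simp), ord_mul _ h9 h0, h10,
        show (27 : K) = 3 ^ 3 by norm_num, ord_pow, h.spl.1] at this
      simp [h.ne] at this ⊢
      omega
    · simpa [h13] using (mem_ID.1 h5).resolve_left h0 v) h7
  refine ⟨L', t', μ, B, ε', h1, h12, fun M D α hM hα h0 hQ => ?_⟩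
  obtain ⟨M', hM'⟩ := exists_cj σ M
  exact ⟨M', hM', key hM hM' hα h0, cjD_one D ▸ e.isL.cj_mul (g := 1) hσ h1 h2 hM hM',
    mul_ne_zero h0 h12.ne, add_assoc D _ _ ▸ mul_mem_ID hα h12.mem,
    by simp [ord_mul _ h0 h12.ne, hQ, h12.ordQ], by simp [h7]; ring⟩

/-- The lattices attached to a Heegner point. -/
lemma LP.isL_pow (h : Setup P Q) (hτ : 0 < τ.im) (e : LP ι P Q (lat (27 * τ)) τ (27 * μ) D ε)
    {i j : ℕ} (hij : i + j = 3) : IsL ι (lat (3 ^ j * τ)) (3 ^ j * μ) (D + .single P i) := by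
  have h0 : 0 < (27 * τ).im := by simpa using hτ
  have h1 : τ = μ * ι ε := by rw [e.eq]; simp [map_ofNat]; ring
  have h2 : (3 : ℂ) ^ i * 3 ^ j = 27 := by rw [← pow_add, hij]; norm_num
  have h3 := ID_mono (le_add_single D P (by omega : (i : ℤ) ≤ 3)) e.mem
  refine ⟨by simpa using e.isL.ne, fun z => ?_⟩
  rw [mem_lat (by simpa [show (3 : ℂ) ^ j = ((3 ^ j : ℝ) : ℂ) by simp, -Complex.ofReal_pow] using hτ)]
  refine ⟨?_, ?_⟩
  · rintro ⟨m, n, rfl⟩
    obtain ⟨x, hx, h4⟩ := (e.isL.mem 1).1 ((mem_lat h0).2 ⟨0, 1, by simp⟩)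
    refine ⟨_, add_mem (int_mul_mem m h3) (int_mul_mem n (h.pow_mul_mem i hx)), ?_⟩
    simp only [map_add, map_mul, map_intCast, map_pow, map_ofNat]
    linear_combination m * 3 ^ j * h1 + n * h4 - n * μ * ι x * h2
  · rintro ⟨x, hx, rfl⟩
    obtain ⟨k, hk⟩ := h.symm.spl.exists_int i (x := x / ε) (by
      rcases eq_or_ne x 0 with rfl | h4
      · simp
      rw [map_div₀, div_le_one₀ (val_pos _ e.ne), val_le_iff h4 e.ne, e.ordQ]
      exact (mem_ID.1 (mem_of_single (by simp) hx)).resolve_left h4 Q)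
    obtain ⟨m, n, h4⟩ := (mem_lat h0).1 (e.isL.mem_iff.2 (h.div_mem (sub_mem hx (int_mul_mem k h3))
      e.ne e.ordQ (by
        rw [show x - k * ε = (x / ε - k) * ε by field_simp [e.ne], map_mul, map_mul]
        gcongr)))
    refine ⟨k + 3 ^ i * m, n, ?_⟩
    simp only [map_div₀, map_sub, map_mul, map_intCast, map_pow, map_ofNat, ← h2] at h4
    field_simp at h4
    push_cast
    linear_combination h4 - k * 3 ^ j * h1

lemma im_pos {n : ℕ} [n.AtLeastTwo] (hτ : 0 < τ.im) : 0 < (OfNat.ofNat n * τ).im := by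
  simpa using hτ

lemma Dl_sc {c : ℂ} (hτ : 0 < τ.im) (hτ' : 0 < τ'.im) (h : Sc c (lat τ) (lat τ')) :
    Dl τ = c ^ 12 * Dl τ' := by
  obtain ⟨a, b, e, d, h1, rfl, rfl⟩ := exists_mob_of_sc hτ hτ' h
  simpa [act_of, den] using Dl_act (g := !![a, b; e, d]) (by simpa using h1) hτ'

lemma G9_sc {c : ℂ} (hτ : 0 < τ.im) (hτ' : 0 < τ'.im) (h : Sc c (lat τ) (lat τ'))
    (h' : Sc c (lat (9 * τ)) (lat (9 * τ'))) : G9 τ = c ^ 4 * G9 τ' := by
  obtain ⟨a, b, e, d, h1, rfl, rfl⟩ := exists_mob_of_sc hτ hτ' h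
  obtain ⟨m, n, h2⟩ := (mem_lat (im_pos hτ')).1 ((h'.mem 1).2 ((mem_lat (im_pos hτ)).2
    ⟨0, 1, by simp⟩))
  have h3 := congr_arg Complex.im h2
  obtain rfl : e = 9 * m := by
    have : (e : ℝ) = 9 * m := mul_right_cancel₀ hτ'.ne' (by simp at h3; linarith)
    exact_mod_cast this
  simpa using G9_mob h1 hτ'

lemma exists_perm {D : ClassGroup (𝓞 K) → Dv K} (hD : ∀ c, clD (D c) = c) (E : Dv K) :
    ∃ β : ClassGroup (𝓞 K) → K, (∀ c, β c ≠ 0) ∧ (∀ c, D c + E = dv (β c) + D (c * clD E)) ∧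
      dv (∏ c, β c) = hh K • E := by
  choose β h1 h2 using fun c => clD_eq_iff.1
    (show clD (D c + E) = clD (D (c * clD E)) by rw [clD_add, hD, hD])
  refine ⟨β, h1, h2, ?_⟩
  have := Finset.sum_congr rfl fun c (_ : c ∈ Finset.univ) => h2 c
  rw [Finset.sum_add_distrib, Finset.sum_add_distrib, ← dv_prod _ h1,
    show ∑ c, D (c * clD E) = _ from Equiv.sum_comp (.mulRight (clD E)) D, add_comm] at this
  simpa using (add_right_cancel this).symm

/-- Telescoping products over the class group. -/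
lemma tel {D : ClassGroup (𝓞 K) → Dv K} (hD : ∀ c, clD (D c) = c) (E : Dv K) {m : K} (hm : m ≠ 0)
    {μ F G : ClassGroup (𝓞 K) → ℂ} (hμ : ∀ c, μ c ≠ 0) {k : ℕ}
    (h : ∀ c c' x, x ≠ 0 → D c + E = dv x + D c' → F c = (ι m * μ c' / (μ c * ι x)) ^ k * G c') :
    ∃ A : K, A ≠ 0 ∧ dv A = hh K • (dv m - E) ∧ ∏ c, F c = ι A ^ k * ∏ c, G c := by
  obtain ⟨β, h1, h2, h3⟩ := exists_perm hD E
  have h4 : ∏ c, β c ≠ 0 := Finset.prod_ne_zero_iff.2 fun c _ => h1 c
  refine ⟨m ^ hh K / ∏ c, β c, by simp [hm, h4], by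
    rw [dv_div (by simp [hm]) h4, dv_pow, h3, nsmul_sub], ?_⟩
  rw [Finset.prod_congr rfl fun c _ => h c _ _ (h1 c) (h2 c), Finset.prod_mul_distrib,
    Finset.prod_pow, Finset.prod_div_distrib, Finset.prod_mul_distrib, Finset.prod_mul_distrib,
    show ∏ c, μ (c * clD E) = _ from Equiv.prod_comp (.mulRight (clD E)) μ,
    show ∏ c, G (c * clD E) = _ from Equiv.prod_comp (.mulRight (clD E)) G, mul_comm (∏ c, μ c),
    mul_div_mul_right _ _ (Finset.prod_ne_zero_iff.2 fun c _ => hμ c)]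
  simp

/-- The product of the values of the Kummer function at Heegner points. -/
theorem prod_fT (h : Setup P Q) {D : ClassGroup (𝓞 K) → Dv K} (hD : ∀ c, clD (D c) = c)
    {τ μ : ClassGroup (𝓞 K) → ℂ} {ε : ClassGroup (𝓞 K) → K} (hτ : ∀ c, 0 < (τ c).im)
    (e : ∀ c, LP ι P Q (lat (27 * τ c)) (τ c) (27 * μ c) (D c) (ε c)) :
    ∃ A B : K, A ≠ 0 ∧ B ≠ 0 ∧ dv B = hh K • .single Q 1 ∧
      (∏ c, (phiY (τ c) - 3 * phiX (τ c) + 5)) ^ 8 * ι B ^ 4 = ι A ^ 12 := by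
  have hμ c : μ c ≠ 0 := by simpa using (e c).isL.ne
  have h0 c := (e c).isL_pow h (hτ c) (i := 3) (j := 0) rfl
  have h1 c := (e c).isL_pow h (hτ c) (i := 2) (j := 1) rfl
  have h2 c := (e c).isL_pow h (hτ c) (i := 1) (j := 2) rfl
  simp only [pow_zero, one_mul, pow_one, show (3 : ℂ) ^ 2 = 9 by norm_num, Nat.cast_ofNat,
    Nat.cast_one] at h0 h1 h2
  obtain ⟨A, hA, -, h3⟩ := tel (ι := ι) hD (.single P 3) (m := 27) (by simp) hμ (k := 12)
    (F := fun c => Dl (τ c)) (G := fun c => Dl (27 * τ c)) fun c c' x hx hD => by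
      simpa [map_ofNat] using Dl_sc (hτ c) (im_pos (hτ c')) (((hD ▸ h0 c).shift hx).sc (e c').isL)
  obtain ⟨B, hB, h4, h5⟩ := tel (ι := ι) hD (.single P 1) (m := 3) (by simp) hμ (k := 4)
    (F := fun c => G9 (τ c)) (G := fun c => G9 (3 * τ c)) fun c c' x hx hD => by
      have h6 : D c + .single P 3 = dv x + (D c' + .single P 2) := by
        rw [← add_assoc, ← hD, add_assoc, ← Finsupp.single_add]
        norm_num
      have h7 := ((hD ▸ h2 c).shift hx).sc (e c').isL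
      rw [show 27 * μ c' / (9 * μ c * ι x) = 3 * μ c' / (μ c * ι x) by ring,
        show 27 * τ c' = 9 * (3 * τ c') by ring] at h7
      simpa [map_ofNat] using G9_sc (hτ c) (im_pos (hτ c')) (((h6 ▸ h0 c).shift hx).sc (h1 c')) h7
  refine ⟨A, B, hA, hB, by simpa [h.three] using h4, ?_⟩
  have h6 := Finset.prod_congr rfl fun c (_ : c ∈ Finset.univ) => fT_pow (hτ c)
  simp only [Finset.prod_mul_distrib, Finset.prod_pow, h3, h5] at h6
  refine mul_right_cancel₀ (mul_ne_zero (Finset.prod_ne_zero_iff.2 fun c (_ : c ∈ Finset.univ) =>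
    Dl_ne (im_pos (n := 27) (hτ c))) (Finset.prod_ne_zero_iff.2 fun c (_ : c ∈ Finset.univ) =>
      G9_ne (im_pos (n := 3) (hτ c)))) ?_
  linear_combination h6

end Pool.Agent.Lib.MP_23455a_nt
end

-- part Pool.Agent.Lib.MP_23455a_nt.Loc
section

set_option autoImplicit false

open NumberField Pool.Agent.Lib.MP_580eba_nt
open scoped Classical nonZeroDivisors NNReal

namespace Pool.Agent.Lib.MP_23455a_nt

variable {K : Type} [Field K] [NumberField K]

/-- The completion. -/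
abbrev Kv (v : Pl K) : Type := v.adicCompletion K

/-- The algebraic closure of the completion. -/
abbrev Om (v : Pl K) : Type := AlgebraicClosure (Kv v)

/-- The completion is nontrivially normed. -/
@[instance_reducible]
noncomputable def nKv (v : Pl K) : NontriviallyNormedField (Kv v) :=
  Valued.toNontriviallyNormedField (Kv v) (WithZero (Multiplicative ℤ))

attribute [local instance] nKv

/-- The spectral norm. -/
@[instance_reducible]
noncomputable def nOm (v : Pl K) : NormedField (Om v) := spectralNorm.normedField (Kv v) (Om v)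

attribute [local instance] nOm

theorem uOm (v : Pl K) : IsUltrametricDist (Om v) :=
  IsUltrametricDist.isUltrametricDist_of_forall_norm_add_le_max_norm
    (isNonarchimedean_spectralNorm (K := Kv v) (L := Om v))

attribute [local instance] uOm

/-- The valuation of the algebraic closure of the completion (the spectral norm). -/
noncomputable def Wv (v : Pl K) : Valuation (Om v) ℝ≥0 := NormedField.valuation

instance (v : Pl K) : CharZero (Om v) := algebraRat.charZero _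

variable {v : Pl K}

theorem Wv_lt {x y : Om v} : Wv v x < Wv v y ↔ ‖x‖ < ‖y‖ := Iff.rfl

theorem Wv_aut (s : GalK (Kv v)) (x : Om v) : Wv v (s x) = Wv v x :=
  NNReal.eq (spectralNorm_eq_of_equiv s x).symm

theorem norm_Kv (x : Kv v) : ‖algebraMap (Kv v) (Om v) x‖ = ‖x‖ := spectralNorm_extends x

theorem cont_Kv : Continuous (algebraMap (Kv v) (Om v)) :=
  (AddMonoidHomClass.isometry_of_norm _ norm_Kv).continuous

theorem Wv_lt_iff (x y : K) :
    Wv v (algebraMap K _ x) < Wv v (algebraMap K _ y) ↔ val v x < val v y := by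
  rw [Wv_lt, IsScalarTower.algebraMap_apply K (Kv v), IsScalarTower.algebraMap_apply K (Kv v) _ y,
    norm_Kv, norm_Kv]
  exact (congrArg₂ _ (FinitePlace.norm_embedding' v x)
    (FinitePlace.norm_embedding' v y)).to_iff.trans (NNReal.coe_lt_coe.trans
      (WithZeroMulInt.toNNReal_strictMono (HeightOneSpectrum.one_lt_absNorm_nnreal v)).lt_iff_lt)

theorem dens' {N : Type} [Field N] [Algebra K N] (j : N →ₐ[K] Om v) {z : Om v}
    (hz : ∀ s : GalK (Kv v), (∀ x, s (j x) = j x) → s z = z) {e : Om v} (he : e ≠ 0) :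
    ∃ x : N, Wv v (z - j x) < Wv v e := by
  have : CharZero (Kv v) := algebraRat.charZero _
  let F : IntermediateField (Kv v) (Om v) :=
    j.toRingHom.fieldRange.topologicalClosure.toIntermediateField fun x =>
      (v.denseRange_algebraMap K).induction_on x (isClosed_closure.preimage cont_Kv) fun y =>
        subset_closure ⟨algebraMap K N y, (j.commutes y).trans (IsScalarTower.algebraMap_apply ..)⟩
  have h : z ∈ F := by
    rw [← InfiniteGalois.fixedField_fixingSubgroup F, IntermediateField.mem_fixedField_iff]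
    exact fun s hs => hz s fun x => hs ⟨j x, subset_closure ⟨x, rfl⟩⟩
  obtain ⟨_, ⟨x, rfl⟩, hx⟩ := Metric.mem_closure_iff.1 h _ (norm_pos_iff.2 he)
  exact ⟨x, by rwa [dist_eq_norm] at hx⟩

/-- An element fixed by the local Galois group is a limit of elements of `K`. -/
theorem approx_K {z : Om v} (hz : ∀ s : GalK (Kv v), s z = z) {e : Om v} (he : e ≠ 0) :
    ∃ x : K, Wv v (z - algebraMap K _ x) < Wv v e :=
  dens' (Algebra.ofId K _) (fun s _ => hz s) he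

variable {N : Type} [Field N] [NumberField N] [Algebra K N]

/-- The embedding `j` induces the place `w`. -/
def Ind (j : N →ₐ[K] Om v) (w : Pl N) : Prop :=
  ∀ x y : N, Wv v (j x) < Wv v (j y) ↔ val w x < val w y

theorem exists_ind (j : N →ₐ[K] Om v) : ∃ w, Ind j w := by
  let V : Valuation N ℝ≥0 := (Wv v).comap j.toRingHom
  have h1 : ∀ x : 𝓞 N, V x ≤ 1 := fun x =>
    (Valuation.integer.integers V).mem_of_integral x.isIntegral_coe.tower_top
  let P : Ideal (𝓞 N) :=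
    { carrier := {x | V x < 1}
      add_mem' := fun ha hb => by
        simp only [Set.mem_ofPred_eq, RingOfIntegers.coe_eq_algebraMap, map_add] at *
        exact V.map_add_lt ha hb
      zero_mem' := by simp
      smul_mem' := fun a b hb => by
        simp only [Set.mem_ofPred_eq, RingOfIntegers.coe_eq_algebraMap, smul_eq_mul, map_mul] at *
        exact mul_lt_one_of_nonneg_of_lt_one_right (h1 a) zero_le hb }
  have h2 : ∀ x, x ∉ P ↔ V x = 1 := fun x =>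
    ⟨fun h => (h1 x).eq_or_lt.resolve_right h, fun h h' => h.not_lt h'⟩
  have hP : P.IsPrime := ⟨(Ideal.ne_top_iff_one P).2 ((h2 1).2 (by simp)), fun {a b} h => by
    by_contra! h'
    exact (h2 _).2 (by
      rw [RingOfIntegers.coe_eq_algebraMap, map_mul, map_mul, (h2 a).1 h'.1, (h2 b).1 h'.2,
        one_mul]) h⟩
  obtain ⟨π, h3, h4⟩ := Submodule.exists_mem_ne_zero_of_ne_bot v.ne_bot
  have h5 : algebraMap (𝓞 K) (𝓞 N) π ∈ P := by
    have := (Wv_lt_iff (v := v) π 1).2 (by rw [map_one]; exact (val_int_lt v π).2 h3)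
    rw [map_one, map_one, ← j.commutes] at this
    exact this
  let w : Pl N := ⟨P, hP, fun h => h4 (by
    rw [h, Ideal.mem_bot] at h5
    exact (FaithfulSMul.algebraMap_injective _ _).eq_iff' (map_zero _) |>.1 h5)⟩
  have h6 : ∀ x, val w x ≤ 1 → V x ≤ 1 ∧ (val w x < 1 → V x < 1) := fun x hx => by
    obtain ⟨a, b, h⟩ := w.exists_primeCompl_mul_eq_of_integer x hx
    have e1 := congrArg V h
    have e2 := congrArg (val w) h
    rw [map_mul, (h2 b).1 b.2, mul_one] at e1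
    rw [map_mul, ((val_int_le w b).eq_or_lt.resolve_right fun h => b.2 ((val_int_lt w b).1 h) :
      val w (algebraMap _ N b.1) = 1), mul_one] at e2
    rw [e1, e2]
    exact ⟨h1 a, (val_int_lt w a).1⟩
  refine ⟨w, fun x y => (Valuation.isEquiv_of_val_le_one (v := V) fun x =>
    ⟨fun h => ?_, fun h => (h6 x h).1⟩).lt_iff_lt⟩
  by_contra! h'
  have h7 : val w x⁻¹ < 1 := by rw [map_inv₀]; exact inv_lt_one_of_one_lt₀ h'
  have := (h6 _ h7.le).2 h7
  rw [map_inv₀, inv_lt_one₀ (zero_lt_iff.2 ((Valuation.ne_zero_iff _).2 (by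
    rintro rfl; simp at h')))] at this
  exact this.not_ge h

theorem Ind.lt_one {j : N →ₐ[K] Om v} {w : Pl N} (h : Ind j w) (x : N) :
    Wv v (j x) < 1 ↔ val w x < 1 := by simpa using h x 1

theorem Ind.und_eq {j : N →ₐ[K] Om v} {w : Pl N} (h : Ind j w) : und K w = v := pl_ext fun x => by
  rw [← val_map_lt_one, ← h.lt_one, j.commutes]
  simpa using Wv_lt_iff x 1

theorem exists_emb [IsGalois K N] {w : Pl N} (h : und K w = v) :
    ∃ j : N →ₐ[K] Om v, Ind j w := by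
  let j : N →ₐ[K] Om v := IsAlgClosed.lift
  obtain ⟨w', hw⟩ := exists_ind j
  obtain ⟨g, rfl⟩ := exists_smul_eq (N ≃ₐ[K] N) (h.trans hw.und_eq.symm)
  exact ⟨j.comp g, fun x y => (hw _ _).trans
    (congrArg₂ _ (val_smul g w x) (val_smul g w y)).to_iff⟩

theorem Ind.smul_eq {j : N →ₐ[K] Om v} {w : Pl N} (h : Ind j w) {g : N ≃ₐ[K] N}
    {s : GalK (Kv v)} (e : ∀ x, j (g x) = s (j x)) : g • w = w := pl_ext fun x => by
  obtain ⟨y, rfl⟩ := g.surjective x
  rw [← h.lt_one, e, Wv_aut, h.lt_one]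
  exact (congrArg (· < 1) (val_smul g w y)).to_iff

/-- Elements of the decomposition group come from the local Galois group. -/
theorem Ind.lift {j : N →ₐ[K] Om v} {w : Pl N} (h : Ind j w) {g : N ≃ₐ[K] N} (hg : g • w = w) :
    ∃ s : GalK (Kv v), ∀ x, j (g x) = s (j x) := by
  have h1 : ∀ y, ‖j (g y)‖ = ‖j y‖ := fun y => le_antisymm
    (not_lt.1 fun h' => ((h _ _).1 h').ne' (val_smul_of_eq hg y))
    (not_lt.1 fun h' => ((h _ _).1 h').ne (val_smul_of_eq hg y))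
  let pb := Field.powerBasisOfFiniteOfSeparable K N
  let m := minpoly (Kv v) (j pb.gen)
  have h2 : ∀ c : Fin (m.natDegree + 1) → Kv v,
      ‖∑ i, algebraMap _ _ (c i) * j (g pb.gen) ^ (i : ℕ)‖ =
        ‖∑ i, algebraMap _ _ (c i) * j pb.gen ^ (i : ℕ)‖ := fun c => by
    have := cont_Kv (v := v)
    refine (DenseRange.piMap fun _ => v.denseRange_algebraMap K).induction_on c
      (isClosed_eq (by fun_prop) (by fun_prop)) fun c => ?_
    simpa only [map_sum, map_mul, map_pow, AlgEquiv.commutes, AlgHom.commutes, Pi.map_apply,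
      ← IsScalarTower.algebraMap_apply] using h1 (∑ i, algebraMap K N (c i) * pb.gen ^ (i : ℕ))
  have h3 := h2 fun i => m.coeff i
  rw [Fin.sum_univ_eq_sum_range fun i => algebraMap _ _ (m.coeff i) * j (g pb.gen) ^ i,
    Fin.sum_univ_eq_sum_range fun i => algebraMap _ _ (m.coeff i) * j pb.gen ^ i] at h3
  simp only [← Algebra.smul_def, ← Polynomial.aeval_eq_sum_range, m, minpoly.aeval, norm_zero,
    norm_eq_zero] at h3
  obtain ⟨s, hs⟩ := minpoly.exists_algEquiv_of_root' (Algebra.IsAlgebraic.isAlgebraic _) h3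
  exact ⟨s, fun x => DFunLike.congr_fun (pb.algHom_ext (f := j.comp g)
    (g := (s.toAlgHom.restrictScalars K).comp j) hs.symm) x⟩

/-- Density of the global field in the local field it generates. -/
theorem dens (j : N →ₐ[K] Om v) {z : Om v}
    (hz : ∀ s : GalK (Kv v), (∀ x, s (j x) = j x) → s z = z) {e : Om v} (he : e ≠ 0) :
    ∃ x : N, Wv v (z - j x) < Wv v e := dens' j hz he

theorem exists_ext (M : Lev K) (j : M →ₐ[K] Om v) :
    ∃ j' : Kb K →ₐ[K] Om v, ∀ x : M, j' x = j x := by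
  let _ := j.toRingHom.toAlgebra
  have : IsScalarTower K M (Om v) := .of_algebraMap_eq fun x => (j.commutes x).symm
  let j' : Kb K →ₐ[M] Om v := IsAlgClosed.lift
  exact ⟨j'.restrictScalars K, fun x => j'.commutes x⟩

theorem exists_compat (j : Kb K →ₐ[K] Om v) (s : GalK (Kv v)) :
    ∃ σ : GalK K, ∀ x, j (σ x) = s (j x) :=
  exists_res j.toRingHom s fun x => by
    change s (j _) = j _
    rw [j.commutes, IsScalarTower.algebraMap_apply K (Kv v), s.commutes]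

end Pool.Agent.Lib.MP_23455a_nt
end

-- part Pool.Agent.Lib.MP_23455a_nt.Pair
section

set_option autoImplicit false

open NumberField Pool.Agent.Lib.MP_580eba_nt
open scoped Classical nonZeroDivisors

namespace Pool.Agent.Lib.MP_23455a_nt

variable {K : Type} [Field K] [NumberField K]

/-- A class in the first cohomology of the three-torsion: a character and a Kummer generator. -/
structure Pair (a : GalK K → ZMod 3) (γ : Kb K) (β : K) : Prop where
  ch : Ch a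
  ne : β ≠ 0
  cube : γ ^ 3 = algebraMap K _ β
  lev : ∃ N, Fac N a

/-- The point `Q` splits the cocycle at `σ`. -/
def Ok (a : GalK K → ZMod 3) (γ : Kb K) (Q : Pt (Kb K)) (σ : GalK K) : Prop :=
  pm (σ : _ →+* _) Q = Q + e3 (a σ) (γ / σ γ)

/-- The local Selmer condition. -/
def SelK (v : Pl K) (a : GalK K → ZMod 3) (γ : Kb K) : Prop :=
  ∀ j : Kb K →ₐ[K] Om v, ∃ P : Pt (Om v), ∀ (s : GalK (Kv v)) (σ : GalK K),
    (∀ x, j (σ x) = s (j x)) → pm (s : _ →+* _) P = P + e3 (a σ) (j (γ / σ γ))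

/-- The Kummer image of a rational point. -/
def KP (P : Pt K) (a : GalK K → ZMod 3) (γ : Kb K) : Prop :=
  ∃ Q : Pt (Kb K), 3 • Q = pm (algebraMap K _) P ∧ ∀ σ, Ok a γ Q σ

variable {a a' : GalK K → ZMod 3} {γ γ' : Kb K} {β β' : K} {v : Pl K}

omit [NumberField K] in
lemma Pair.γ_ne (h : Pair a γ β) : γ ≠ 0 := fun e => h.ne (by simpa [e] using h.cube.symm)

omit [NumberField K] in
lemma cube_map (σ : GalK K) {w : Kb K} (hw : w ^ 3 = 1) : σ w ^ 3 = 1 := by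
  rw [← map_pow, hw, map_one]

lemma pg_e3 (σ : GalK K) (i : ZMod 3) {w : Kb K} (hw : w ^ 3 = 1) :
    pm (σ : Kb K →+* Kb K) (e3 i w) = e3 i (σ w) := pm_e3 _ i hw

omit [NumberField K] in
lemma Pair.root (h : Pair a γ β) (σ : GalK K) : (γ / σ γ) ^ 3 = 1 := by
  rw [div_pow, ← map_pow, h.cube, AlgEquiv.commutes, div_self (by simpa using h.ne)]

omit [NumberField K] in
lemma Pair.root' (h : Pair a γ β) (σ : GalK K) {F : Type} [Field F] [Algebra K F]
    (j : Kb K →ₐ[K] F) : j (γ / σ γ) ^ 3 = 1 := by rw [← map_pow, h.root, map_one]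

omit [NumberField K] in
lemma Pair.mul (h : Pair a γ β) (h' : Pair a' γ' β') :
    Pair (fun σ => a σ + a' σ) (γ * γ') (β * β') := by
  obtain ⟨N, hN⟩ := h.lev
  obtain ⟨N', hN'⟩ := h'.lev
  exact ⟨h.ch.add h'.ch, mul_ne_zero h.ne h'.ne, by rw [mul_pow, h.cube, h'.cube, map_mul],
    N ⊔ N', fun σ e => by simp only [hN.mono le_sup_left σ e, hN'.mono le_sup_right σ e, add_zero]⟩

omit [NumberField K] in
lemma pair_one : Pair (fun _ => 0) (1 : Kb K) 1 := ⟨Ch.zero, one_ne_zero, by simp, ⊥, fun _ _ => rfl⟩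

omit [NumberField K] in
lemma Pair.pow (h : Pair a γ β) (n : ℕ) : Pair (fun σ => n * a σ) (γ ^ n) (β ^ n) := by
  induction n with
  | zero => simpa using pair_one
  | succ n ih => simpa [pow_succ, add_mul] using ih.mul h

omit [NumberField K] in
lemma div_map_mul (σ : GalK K) (γ γ' : Kb K) : γ * γ' / σ (γ * γ') = γ / σ γ * (γ' / σ γ') := by
  rw [map_mul, mul_div_mul_comm]

lemma Ok.add (h : Pair a γ β) (h' : Pair a' γ' β') {Q Q' : Pt (Kb K)} {σ : GalK K}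
    (e : Ok a γ Q σ) (e' : Ok a' γ' Q' σ) : Ok (fun σ => a σ + a' σ) (γ * γ') (Q + Q') σ := by
  rw [Ok, map_add, e, e', div_map_mul, e3_add _ _ (h.root σ) (h'.root σ)]
  abel

lemma Ok.mul (h : Pair a γ β) {Q : Pt (Kb K)} {σ τ : GalK K} (e : Ok a γ Q σ) (e' : Ok a γ Q τ) :
    Ok a γ Q (σ * τ) := by
  rw [Ok, show ((σ * τ : GalK K) : Kb K →+* Kb K) = (σ : Kb K →+* Kb K).comp τ from rfl, ← pm_pm,
    e', map_add, e, pg_e3 _ _ (h.root τ), add_assoc,
    ← e3_add _ _ (h.root σ) (cube_map σ (h.root τ)), h.ch, map_div₀,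
    div_mul_div_cancel₀ ((map_ne_zero σ).2 h.γ_ne), AlgEquiv.mul_apply]

lemma Ok.one (h : Pair a γ β) (Q : Pt (Kb K)) : Ok a γ Q 1 := by
  rw [Ok, h.ch.one, AlgEquiv.one_apply, div_self h.γ_ne, e3_zero_one, add_zero]
  exact pm_id Q

lemma Ok.pow (h : Pair a γ β) {Q : Pt (Kb K)} {σ : GalK K} (e : Ok a γ Q σ) (n : ℕ) :
    Ok a γ Q (σ ^ n) := by
  induction n with
  | zero => exact Ok.one h Q
  | succ n ih => exact pow_succ σ n ▸ ih.mul h e

lemma SelK.mul (h : Pair a γ β) (h' : Pair a' γ' β') (e : SelK v a γ) (e' : SelK v a' γ') :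
    SelK v (fun σ => a σ + a' σ) (γ * γ') := fun j => by
  obtain ⟨P, hP⟩ := e j
  obtain ⟨P', hP'⟩ := e' j
  refine ⟨P + P', fun s σ c => ?_⟩
  rw [map_add, hP s σ c, hP' s σ c, div_map_mul, map_mul, e3_add _ _ (h.root' σ j) (h'.root' σ j)]
  abel

lemma KP.add (h : Pair a γ β) (h' : Pair a' γ' β') {P P' : Pt K} (e : KP P a γ) (e' : KP P' a' γ') :
    KP (P + P') (fun σ => a σ + a' σ) (γ * γ') := by
  obtain ⟨Q, h1, h2⟩ := e
  obtain ⟨Q', h1', h2'⟩ := e'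
  exact ⟨Q + Q', by rw [nsmul_add, map_add, h1, h1'], fun σ => (h2 σ).add h h' (h2' σ)⟩

lemma kp_zero : KP (0 : Pt K) (fun _ => 0) 1 := ⟨0, by simp, fun σ => by simp [Ok, e3_zero_one]⟩

lemma KP.nsmul (h : Pair a γ β) {P : Pt K} (e : KP P a γ) (n : ℕ) :
    KP (n • P) (fun σ => n * a σ) (γ ^ n) := by
  induction n with
  | zero => simpa using kp_zero
  | succ n ih => simpa [pow_succ, add_mul, succ_nsmul] using ih.add (h.pow n) h e

lemma selK_of_ok (h : Pair a γ β) {Q : Pt (Kb K)} (e : ∀ σ, Ok a γ Q σ) (v : Pl K) : SelK v a γ :=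
  fun j => ⟨pm (j : _ →+* _) Q, fun s σ c => by
    rw [pm_pm, show (s : Om v →+* Om v).comp j = (j : Kb K →+* Om v).comp σ from
      RingHom.ext fun x => (c x).symm, ← pm_pm, e σ, map_add, pm_e3 _ _ (h.root σ)]
    rfl⟩

lemma KP.selK (h : Pair a γ β) {P : Pt K} (e : KP P a γ) (v : Pl K) : SelK v a γ :=
  selK_of_ok h e.choose_spec.2 v

lemma SelK.pow (h : Pair a γ β) (e : SelK v a γ) (n : ℕ) : SelK v (fun σ => n * a σ) (γ ^ n) := by
  induction n with
  | zero => simpa using kp_zero.selK pair_one v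
  | succ n ih => simpa [pow_succ, add_mul] using ih.mul (h.pow n) h e

lemma mem_range_of_fixed' {x : Kb K} (h : ∀ σ : GalK K, σ x = x) : x ∈ (algebraMap K (Kb K)).range :=
  (InfiniteGalois.mem_bot_iff_fixed x).2 h

lemma exists_pm_of_fixed {Q : Pt (Kb K)} (h : ∀ σ : GalK K, pm (σ : _ →+* _) Q = Q) :
    ∃ P, pm (algebraMap K _) P = Q :=
  exists_pm _ (mem_range_of_fixed' fun σ => (cA_pm (σ : Kb K →+* Kb K) Q).symm.trans (by rw [h]))
    (mem_range_of_fixed' fun σ => (cC_pm (σ : Kb K →+* Kb K) Q).symm.trans (by rw [h]))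

omit [NumberField K] in
lemma pm_pm_algebraMap (σ : GalK K) (P : Pt K) :
    pm (σ : Kb K →+* Kb K) (pm (algebraMap K (Kb K)) P) = pm (algebraMap K _) P := by
  rw [pm_pm]
  congr 2
  exact RingHom.ext σ.commutes

/-- A level over which the given points are defined. -/
lemma exists_lev_pt {S : Set (Pt (Kb K))} (hS : S.Finite) (N : Lev K) : ∃ M : Lev K, N ≤ M ∧
    ∀ Q ∈ S, cA Q ∈ M.toIntermediateField ∧ cB Q ∈ M.toIntermediateField ∧
      cC Q ∈ M.toIntermediateField := by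
  obtain ⟨M, hM⟩ := exists_lev (((hS.image cA).union (hS.image cB)).union (hS.image cC))
  have h : M.toIntermediateField ≤ (N ⊔ M).toIntermediateField := le_sup_right (a := N)
  exact ⟨N ⊔ M, le_sup_left, fun Q hQ => ⟨h (hM (.inl (.inl ⟨Q, hQ, rfl⟩))),
    h (hM (.inl (.inr ⟨Q, hQ, rfl⟩))), h (hM (.inr ⟨Q, hQ, rfl⟩))⟩⟩

/-- A splitting point determines a pair. -/
lemma exists_pair {c : GalK K → Pt (Kb K)} (h3 : ∀ σ, 3 • c σ = 0)
    (hc : ∀ σ τ : GalK K, c (σ * τ) = c σ + pm (σ : _ →+* _) (c τ)) :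
    ∃ (a : GalK K → ZMod 3) (w : GalK K → Kb K), Ch a ∧ (∀ σ, w σ ^ 3 = 1) ∧
      (∀ σ τ, w (σ * τ) = w σ * σ (w τ)) ∧ ∀ σ, c σ = e3 (a σ) (w σ) := by
  choose a w hw e using fun σ => exists_e3 (h3 σ)
  have key (σ τ : GalK K) : a (σ * τ) = a σ + a τ ∧ w (σ * τ) = w σ * σ (w τ) := by
    have h1 := cube_map σ (hw τ)
    refine e3_inj (hw _) (cube_mul (hw σ) h1) ?_
    rw [← e, hc, e3_add _ _ (hw σ) h1, ← e, e τ, pg_e3 _ _ (hw τ)]
  exact ⟨a, w, fun σ τ => (key σ τ).1, hw, fun σ τ => (key σ τ).2, e⟩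

theorem exists_ok {P : Pt K} {Q : Pt (Kb K)} (hQ : 3 • Q = pm (algebraMap K (Kb K)) P) :
    ∃ a, Pair a (gm Q) (fT P) ∧ ∀ σ, Ok a (gm Q) Q σ := by
  obtain ⟨a, w, ha, hw, -, e⟩ := exists_pair (c := fun σ => pm (σ : _ →+* _) Q - Q)
    (fun σ => by rw [nsmul_sub, ← map_nsmul, hQ, pm_pm_algebraMap, sub_self]) fun σ τ => by
      rw [map_sub, pm_pm, sub_add_sub_cancel']
      rfl
  have e' (σ : GalK K) : pm (σ : _ →+* _) Q = Q + e3 (a σ) (w σ) := by rw [← e, add_sub_cancel]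
  obtain ⟨N, -, hN⟩ := exists_lev_pt (Set.finite_singleton Q) ⊥
  obtain ⟨h1, -, h2⟩ := hN Q rfl
  refine ⟨a, ⟨ha, fT_ne P, by rw [gm_cube, hQ, fT_pm], N, fun σ hσ => ?_⟩, fun σ => ?_⟩
  · refine (e3_eq_zero (hw σ) ?_).1
    rw [← e, sub_eq_zero, pm_congr (g := .id _) (rs_eq_one_iff.1 hσ _ h1) (rs_eq_one_iff.1 hσ _ h2),
      pm_id]
  · have := gm_add_e3 Q (a σ) (hw σ)
    rw [← e', gm_pm] at this
    rw [Ok, e', (div_eq_iff ((map_ne_zero σ).2 (gm_ne Q))).2 (this.symm.trans (mul_comm _ _))]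

theorem exists_kp (P : Pt K) : ∃ a γ, Pair a γ (fT P) ∧ KP P a γ := by
  obtain ⟨Q, hQ⟩ := exists_third (pm (algebraMap K (Kb K)) P)
  obtain ⟨a, h1, h2⟩ := exists_ok hQ
  exact ⟨a, _, h1, Q, hQ, h2⟩

/-- A point whose Kummer image vanishes is divisible by three. -/
theorem KP.div {P : Pt K} {z : K} (h : Pair a γ (z ^ 3)) (e : KP P a γ) (h0 : ∀ σ, a σ = 0) :
    ∃ R, P = 3 • R := by
  obtain ⟨Q, h1, h2⟩ := e
  have hz : algebraMap K (Kb K) z ≠ 0 := by simpa using h.ne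
  have hw : (γ / algebraMap K (Kb K) z) ^ 3 = 1 := by
    rw [div_pow, h.cube, map_pow, div_self (pow_ne_zero 3 hz)]
  obtain ⟨R, hR⟩ := exists_pm_of_fixed (Q := Q + e3 0 (γ / algebraMap K (Kb K) z)) fun σ => by
    rw [map_add, h2 σ, h0, pg_e3 _ _ hw, add_assoc, ← e3_add _ _ (h.root σ) (cube_map σ hw),
      map_div₀, div_mul_div_cancel₀ ((map_ne_zero σ).2 h.γ_ne), σ.commutes, add_zero]
  exact ⟨R, pm_inj (algebraMap K (Kb K)) (by rw [map_nsmul, hR, nsmul_add, three_e3 _ hw, h1]; simp)⟩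

/-- The Kummer image of a point divisible by three vanishes. -/
theorem KP.triv {R : Pt K} (h : Pair a γ β) (e : KP (3 • R) a γ) :
    (∀ σ, a σ = 0) ∧ ∃ z, β = z ^ 3 := by
  obtain ⟨Q, h1, h2⟩ := e
  obtain ⟨i, w, hw, rfl⟩ := exists_e3_add (h1.trans (map_nsmul _ _ _))
  have key (σ : GalK K) : i = i + a σ ∧ σ w = w * (γ / σ γ) := by
    have := h2 σ
    rw [Ok, map_add, pm_pm_algebraMap, add_assoc, add_right_inj, pg_e3 _ _ hw,
      ← e3_add _ _ hw (h.root σ)] at this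
    exact e3_inj (cube_map σ hw) (cube_mul hw (h.root σ)) this
  obtain ⟨z, hz⟩ := mem_range_of_fixed' (x := w * γ) fun σ => by
    rw [map_mul, (key σ).2, mul_assoc, div_mul_cancel₀ _ ((map_ne_zero σ).2 h.γ_ne)]
  exact ⟨fun σ => by simpa using (key σ).1, z, (algebraMap K (Kb K)).injective (by
    rw [map_pow, hz, mul_pow, hw, one_mul, h.cube])⟩

/-- A globally split pair comes from a rational point. -/
theorem exists_kp_of_ok (h : Pair a γ β) {Q : Pt (Kb K)} (e : ∀ σ, Ok a γ Q σ) :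
    ∃ P, KP P a γ := by
  obtain ⟨P, hP⟩ := exists_pm_of_fixed (Q := 3 • Q) fun σ => by
    rw [map_nsmul, e σ, nsmul_add, three_e3 _ (h.root σ), add_zero]
  exact ⟨P, Q, hP.symm, e⟩

end Pool.Agent.Lib.MP_23455a_nt
end

-- part Pool.Agent.Lib.MP_23455a_nt.Heeg
section

set_option autoImplicit false

open NumberField Pool.Agent.Lib.MP_580eba_nt PeriodPair WeierstrassCurve
open Pool.Agent.Lib.MP_696deb_nt Pool.Agent.Lib.MP_696deb_nt.Gal
open scoped Classical nonZeroDivisors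

namespace Pool.Agent.Lib.MP_23455a_nt

variable {K : Type} [Field K] [NumberField K] {ι : K →+* ℂ} {f : Kb K →+* ℂ}
  {J : ClassGroup (𝓞 K) → Kb K} {r : GalK K →* ClassGroup (𝓞 K)} {P Q : Pl K} {L : PeriodPair}
  {t μ τ : ℂ} {D : Dv K} {ε : K}

lemma Ord27.pt (h : Ord27 L t) : ky L t ^ 2 + ky L t = kx L t ^ 3 - 7 ∧ kx L t ≠ 0 ∧
    ky L t - 3 * kx L t + 5 ≠ 0 ∧
      kv L t ^ 3 - 3 * kv L t - 1 = (ky L t - 1) * kv L t * (kv L t + 1) := by
  obtain ⟨τ, c, hτ, h1, h2⟩ := h.exists_sc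
  have h3 : kx L t = phiX τ := by rw [← kx_lat hτ, kx, kx, ModB.kv_sc h1 h2, ModB.ku_sc h1 h2]
  have h4 : ky L t = phiY τ := by rw [← ky_lat hτ, ky, ky, ModB.kv_sc h1 h2]
  obtain ⟨h5, h6⟩ := h.kv_ne
  refine ⟨by rw [h3, h4, phi_eq hτ], ?_, fun e => ?_, by rw [ky]; field_simp; ring⟩
  · rw [h3, phiX]
    exact div_ne_zero (pow_ne_zero _ (ModularForm.eta_ne_zero (im_pos hτ))) (mul_ne_zero
      (ModularForm.eta_ne_zero (im_pos hτ)) (pow_ne_zero _ (ModularForm.eta_ne_zero (im_pos hτ))))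
  · have := fT_pow hτ
    rw [← h3, ← h4, e] at this
    exact mul_ne_zero (Dl_ne hτ) (G9_ne (im_pos hτ)) (by simpa using this.symm)

lemma LP.exists_tau (h : Setup P Q) (e : LP ι P Q L t μ D ε) :
    ∃ τ μ ε, 0 < τ.im ∧ LP ι P Q (lat (27 * τ)) τ (27 * μ) D ε := by
  obtain ⟨τ, c, hτ, h1, h2⟩ := (e.ord27 h).exists_sc
  obtain ⟨x, hx, h3⟩ := (e.isL.mem _).1 h2
  have := h1.ne
  refine ⟨τ, c⁻¹ * μ / 27, ε + 3 ^ 3 * x, hτ, .of_ord h ?_ (ord27_lat hτ)
    (add_mem e.mem (h.pow_mul_mem 3 hx)) ?_⟩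
  · rw [mul_div_cancel₀ _ (by simp)]
    exact e.isL.of_sc h1.symm
  · simp only [e.eq, map_div₀, map_add, map_mul, map_pow, map_ofNat] at h3 ⊢
    field_simp
    linear_combination 27 * h3

lemma isHeegner_iff (h : Setup P Q) {c : ClassGroup (𝓞 K)} :
    IsHeegner ι (P.asIdeal ^ 3) c τ ↔ 0 < τ.im ∧ ∃ (a : (Ideal (𝓞 K))⁰) (μ : ℂ) (ε : K),
      ClassGroup.mk0 a = c ∧ LP ι P Q (lat (27 * τ)) τ (27 * μ) (dI a) ε := by
  refine and_congr_right fun hτ => exists₂_congr fun a μ => ?_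
  have h0 := nonZeroDivisors.ne_zero a.2
  have h1 : P.asIdeal ^ 3 * a ≠ 0 := mul_ne_zero (pow_ne_zero 3 P.ne_bot) h0
  have h2 : dI (P.asIdeal ^ 3 * (a : Ideal (𝓞 K))) = dI (a : Ideal (𝓞 K)) + .single P 3 := by
    rw [dI_mul (pow_ne_zero 3 P.ne_bot) h0, dI_pow, dI_asIdeal, add_comm]
    simp
  have h3 (z : ℂ) : (∃ k l : ℤ, z = k * τ + l / 27) ↔ 27 * z ∈ (lat (27 * τ)).lattice := by
    rw [mem_lat (im_pos hτ)]
    exact exists₂_congr fun k l => ⟨fun e => by rw [e]; ring, fun e => by linear_combination e / 27⟩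
  have h4 {I : Ideal (𝓞 K)} (hI : I ≠ 0) (z : ℂ) :
      (∃ x ∈ ID (dI I), z = μ * ι x) ↔ ∃ x ∈ I, z = μ * ι x := by simp [mem_ID_dI hI]
  refine ⟨fun ⟨h5, h6, h7, h8⟩ => ?_, fun ⟨ε, h5, e⟩ => ⟨by simpa using e.isL.ne, h5, fun z => ?_,
    fun z => ?_⟩⟩
  · obtain ⟨x, hx, h9⟩ := (h8 τ).1 ⟨1, 0, by simp⟩
    refine ⟨x, h6, .of_ord h ⟨by simpa, fun z => ?_⟩ (ord27_lat hτ)
      (h2 ▸ (coe_mem_ID_dI h1).2 hx) (by rw [h9]; simp [map_ofNat]; ring)⟩
    rw [← mul_div_cancel₀ z (by simp : (27 : ℂ) ≠ 0), ← h3, h7, ← h4 h0]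
    simp [mul_assoc]
  · rw [h3, e.isL.mem, ← h4 h0]
    simp [mul_assoc]
  · have := (e.isL_pow h hτ (i := 3) (j := 0) rfl).mem z
    rwa [pow_zero, one_mul, one_mul, mem_lat hτ, Nat.cast_ofNat, ← h2, h4 h1] at this

lemma sum_e3 {F : Type} [Field F] [CharZero F] [DecidableEq F] {ι : Type*} (s : Finset ι)
    (n : ι → ZMod 3) {w : ι → F} (hw : ∀ i, w i ^ 3 = 1) :
    (∏ i ∈ s, w i) ^ 3 = 1 ∧ ∑ i ∈ s, e3 (n i) (w i) = e3 (∑ i ∈ s, n i) (∏ i ∈ s, w i) := by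
  induction s using Finset.induction_on with
  | empty => simp [e3_zero_one]
  | insert a s ha ih =>
    rw [Finset.prod_insert ha, Finset.sum_insert ha, Finset.sum_insert ha, e3_add _ _ (hw a) ih.1,
      ih.2]
    exact ⟨cube_mul (hw a) ih.1, rfl⟩

/-- The Galois action on a system of level structures. -/
lemma gal_sys (h : Setup P Q) (hc : CMd ι f J r) (e₀ : LP ι P Q L t 1 0 ε)
    {D : ClassGroup (𝓞 K) → Dv K} (hD : ∀ c, clD (D c) = c) {α : ClassGroup (𝓞 K) → K}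
    (h1 : ∀ c, α c ∈ ID (D c)) (h2 : ∀ c, α c ≠ 0) (h3 : ∀ c, ord Q (α c) = D c Q)
    {M : ClassGroup (𝓞 K) → PeriodPair}
    (e : ∀ c, LP ι P Q (M c) (ι (α c) * t) 1 (D c) (α c * ε)) {σ : ℂ ≃+* ℂ}
    (hσ : ∀ x, σ (ι x) = ι x) : ∃ (ρ : ClassGroup (𝓞 K)) (n : ClassGroup (𝓞 K) → ℕ),
      σ (f (J 1)) = f (J ρ) ∧ (3 ∣ hh K → ∑ c, (n c : ZMod 3) = -chi Q ρ) ∧ ∀ c,
        σ (kx (M c) (ι (α c) * t)) = kx (M (c * ρ)) (ι (α (c * ρ)) * t) ∧
        σ (ky (M c) (ι (α c) * t)) = ky (M (c * ρ)) (ι (α (c * ρ)) * t) ∧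
        σ (kv (M c) (ι (α c) * t)) = rho^[n c] (kv (M (c * ρ)) (ι (α (c * ρ)) * t)) := by
  obtain ⟨L', t', μ, B, ε', h4, h5, h6⟩ := e₀.gal h hσ
  obtain ⟨β, h7, h8, h9⟩ := exists_perm hD B
  choose M' h10 h11 h12 using fun c => h6 (M c) (D c) (α c) (e c).isL (h1 c) (h2 c) (h3 c)
  choose h13 h14 n h15 h16 using fun c => (h12 c).cmp h (e (c * clD B)) (h7 c) (h8 c)
  refine ⟨clD B, n, by rw [← hc.eq _ _ _ h5.isL, jL_cj h4, hc.eq _ _ _ e₀.isL, clD_zero],
    fun h0 => ?_, fun c => ?_⟩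
  · have := Finset.sum_congr rfl fun c (_ : c ∈ Finset.univ) => h16 c
    simp only [h.symm.spl.lgv_mul (h2 _) h5.ne, h.symm.spl.lgv_mul (h2 _) e₀.ne,
      Finset.sum_add_distrib, Finset.sum_const, Finset.card_univ, nsmul_eq_mul,
      (ZMod.natCast_eq_zero_iff _ _).2 h0, ← h.symm.spl.lgv_prod _ h7] at this
    rw [h.chi_eq h0 (Finset.prod_ne_zero_iff.2 fun c _ => h7 c) h9]
    rw [show ∑ c, lgv Q (α (c * clD B)) = _ from
      Equiv.sum_comp (.mulRight (clD B)) fun c => lgv Q (α c)] at this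
    linear_combination -this
  · obtain ⟨k1, k2, k3⟩ := kv_rel (h10 c) (h11 c)
    exact ⟨k1 ▸ h13 c, k2 ▸ h14 c, k3 ▸ h15 c⟩

omit [NumberField K] in
lemma map_rho_iter (f : Kb K →+* ℂ) (n : ℕ) (V : Kb K) : f (rho^[n] V) = rho^[n] (f V) :=
  Function.Semiconj.iterate_right (map_rho f) n V

theorem heeg (h : Setup P Q) (hc : CMd ι f J r) :
    ∃ (y : Pt K) (a : GalK K → ZMod 3) (γ : Kb K) (B z : K),
      (∃ τ : ClassGroup (𝓞 K) → ℂ, ∀ c, IsHeegner ι (P.asIdeal ^ 3) c (τ c)) ∧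
      (∀ τ : ClassGroup (𝓞 K) → ℂ, (∀ c, IsHeegner ι (P.asIdeal ^ 3) c (τ c)) →
        ∃ h : ∀ c, (W27.baseChange ℂ).toAffine.Nonsingular (phiX (τ c)) (phiY (τ c)),
          pm ι y = ∑ c, Affine.Point.some _ _ (h c)) ∧
      B ≠ 0 ∧ dv B = hh K • .single Q 1 ∧ Pair a γ (B * z ^ 3) ∧ KP y a γ ∧
      (3 ∣ hh K → ∀ s, a s = -chi Q (r s)) := by
  have := h.tc
  obtain ⟨L, hL⟩ := exists_isL h.deg ι one_ne_zero 0
  obtain ⟨ε, k1, k2, k3⟩ := exists_mem_ord (.single P 3) Q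
  have e₀ : LP ι P Q L _ 1 0 ε := ⟨hL, k2, by simpa using k1, by simpa [h.ne] using k3, rfl⟩
  generalize ht : 1 * ι (ε / 27) = t at e₀
  choose I hI using ClassGroup.mk0_surjective (R := 𝓞 K)
  have hD (c) : clD (dI (I c : Ideal (𝓞 K))) = c := by rw [clD_dI, hI]
  choose α h1 h2 h3 using fun c => exists_mem_ord (dI (I c : Ideal (𝓞 K))) Q
  choose M hM using fun c => exists_isL h.deg ι one_ne_zero (dI (I c : Ideal (𝓞 K)))
  have e (c) : LP ι P Q (M c) (ι (α c) * t) 1 (dI (I c)) (α c * ε) :=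
    ⟨hM c, mul_ne_zero (h2 c) k2, mul_mem_ID (h1 c) k1,
      by simp [ord_mul _ (h2 c) k2, h3, k3, h.ne], by simp [← ht]; ring⟩
  have g := fun σ => gal_sys h hc e₀ hD h1 h2 h3 e (σ := σ)
  have o c := (e c).ord27 h
  generalize hs : (fun c => ι (α c) * t) = s at e g o
  simp only [congr_fun hs] at e g o
  choose X hX using fun c => mem_range_of_finite f (z := kx (M c) (s c))
    (Set.finite_range fun c => kx (M c) (s c)) fun σ hσ =>
      let ⟨_, _, _, _, h⟩ := g σ (by simpa only [hc.ext] using hσ); ⟨_, (h c).1.symm⟩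
  choose Y hY using fun c => mem_range_of_finite f (z := ky (M c) (s c))
    (Set.finite_range fun c => ky (M c) (s c)) fun σ hσ =>
      let ⟨_, _, _, _, h⟩ := g σ (by simpa only [hc.ext] using hσ); ⟨_, (h c).2.1.symm⟩
  choose V hV using fun c => mem_range_of_finite f (z := kv (M c) (s c))
    (Set.finite_range fun p : ZMod 3 × _ => rho^[p.1.val] (kv (M p.2) (s p.2))) fun σ hσ =>
      let ⟨ρ, n, _, _, h⟩ := g σ (by simpa only [hc.ext] using hσ)
      ⟨(n c, c * ρ), ((h c).2.2.trans (rho_iter (o _).kv_ne.1 (o _).kv_ne.2 _)).symm⟩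
  have p1 c : Y c ^ 2 + Y c = X c ^ 3 - 7 :=
    f.injective (by simpa [hX, hY, map_ofNat] using (o c).pt.1)
  have p2 c : X c ≠ 0 := fun e => (o c).pt.2.1 (by rw [← hX, e, map_zero])
  choose R hR hR' using fun c => exists_third_vv (h := ns_iff.2 (p1 c)) (V := V c)
    (f.injective (by simpa [hY, hV, map_ofNat] using (o c).pt.2.2.2))
  have key (σ : GalK K) : ∃ i, pm (σ : Kb K →+* Kb K) (∑ c, R c) = ∑ c, R c +
      e3 i ((∏ c, gm (R c)) / σ (∏ c, gm (R c))) ∧ ((∏ c, gm (R c)) / σ (∏ c, gm (R c))) ^ 3 = 1 ∧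
      (3 ∣ hh K → i = -chi Q (r σ)) := by
    obtain ⟨σ', hσ⟩ := exists_aut_C f σ
    obtain ⟨ρ, n, h4, h5, h6⟩ := g σ' fun x => by rw [← hc.ext, hσ, σ.commutes]
    obtain rfl : r σ = ρ := hc.inj (f.injective (by rw [← h4, hσ, hc.act, one_mul]))
    choose w hw h7 using fun c => eq_e3_of_vv (hR (c * r σ)) (p2 _)
      (Q := pm (σ : Kb K →+* Kb K) (R c)) (n := n c) (by
        rw [← map_nsmul, hR, hR, pm, Affine.Point.map_some, Affine.Point.some.injEq]
        exact ⟨f.injective ((hσ _).symm.trans (by rw [hX, hX, (h6 c).1])),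
          f.injective ((hσ _).symm.trans (by rw [hY, hY, (h6 c).2.1]))⟩) (by
        rw [vv_pm, hR', hR']
        exact f.injective ((hσ _).symm.trans (by rw [map_rho_iter, hV, hV, (h6 c).2.2])))
    have h8 : ∏ c, w c = (∏ c, gm (R c)) / σ (∏ c, gm (R c)) := by
      rw [map_prod, ← Equiv.prod_comp (.mulRight (r σ)) fun c => gm (R c),
        ← Finset.prod_div_distrib]
      refine Finset.prod_congr rfl fun c _ => eq_div_of_mul_eq ((map_ne_zero σ).2 (gm_ne _)) ?_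
      have := gm_add_e3 (R (c * r σ)) (n c) (hw c)
      rwa [← h7, gm_pm, mul_comm] at this
    obtain ⟨h9, h10⟩ := sum_e3 Finset.univ (fun c => n c) hw
    refine ⟨_, ?_, h8 ▸ h9, h5⟩
    rw [map_sum, ← h8, ← h10, ← Equiv.sum_comp (.mulRight (r σ)) R, ← Finset.sum_add_distrib]
    exact Finset.sum_congr rfl fun c _ => h7 c
  choose a k4 k5 k6 using key
  obtain ⟨y, hy⟩ := exists_pm_of_fixed (Q := 3 • ∑ c, R c) fun σ => by
    rw [map_nsmul, k4, nsmul_add, three_e3 _ (k5 σ), add_zero]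
  obtain ⟨a', k7, k8⟩ := exists_ok hy.symm
  obtain rfl : a = a' := funext fun σ =>
    (e3_inj (k5 σ) (k7.root σ) (add_left_cancel ((k4 σ).symm.trans (k8 σ)))).1
  have cmp {τ μ : ℂ} {D : Dv K} {ε : K} {c} (hτ : 0 < τ.im) (hD' : clD D = c)
      (e' : LP ι P Q (lat (27 * τ)) τ μ D ε) : phiX τ = f (X c) ∧ phiY τ = f (Y c) := by
    obtain ⟨x, hx, h4⟩ := clD_eq_iff.1 (hD'.trans (hD c).symm)
    obtain ⟨h5, h6, -⟩ := e'.cmp h (e c) hx h4
    exact ⟨by rw [hX, ← h5, kx_lat hτ], by rw [hY, ← h6, ky_lat hτ]⟩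
  choose τ μ ε' hτ e' using fun c => (e c).exists_tau h
  obtain ⟨A, B, hA, hB, k9, k10⟩ := prod_fT h hD hτ e'
  obtain ⟨u, hu⟩ := mem_range_of_fixed' (x := (∏ c, gm (R c)) ^ 3) fun σ => by
    have := k5 σ
    rw [div_pow, div_eq_one_iff_eq (pow_ne_zero 3 ((map_ne_zero σ).2
      (Finset.prod_ne_zero_iff.2 fun c _ => gm_ne _)))] at this
    rw [map_pow, this]
  have k11 : u ^ 8 * B ^ 4 = A ^ 12 := ι.injective (by
    rw [map_pow, ← k10, map_mul, map_pow, map_pow, ← hc.ext u, hu, ← Finset.prod_pow, map_prod]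
    congr 3
    funext c
    rw [gm_cube, hR, fT_some, (cmp (hτ c) (hD c) (e' c)).1, (cmp (hτ c) (hD c) (e' c)).2]
    · simp [map_ofNat]
    · exact fun e => (o c).pt.2.2.1 (by rw [← hX, ← hY, e.1, e.2]; norm_num [map_ofNat]))
  have k12 : B * (u ^ 3 * B / A ^ 4) ^ 3 = u := by
    field_simp
    linear_combination u * k11
  refine ⟨y, a, ∏ c, gm (R c), B, u ^ 3 * B / A ^ 4,
    ⟨τ, fun c => (isHeegner_iff h).2 ⟨hτ c, I c, μ c, ε' c, hI c, e' c⟩⟩, fun τ hτ => ?_, hB, k9,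
    ⟨k7.ch, ?_, by rw [k12, hu], k7.lev⟩, ⟨_, hy.symm, k4⟩, fun h0 σ => k6 σ h0⟩
  · choose h4 b ν η h5 h6 using fun c => (isHeegner_iff h).1 (hτ c)
    refine ⟨fun c => ns_iff.2 (phi_eq (h4 c)), ?_⟩
    rw [show ι = f.comp (algebraMap K _) from RingHom.ext fun x => (hc.ext x).symm, ← pm_pm, hy,
      Finset.smul_sum, map_sum]
    refine Finset.sum_congr rfl fun c _ => ?_
    have := cmp (h4 c) ((clD_dI _).trans (h5 c)) (h6 c)
    rw [hR, pm, Affine.Point.map_some, Affine.Point.some.injEq]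
    exact ⟨this.1.symm, this.2.symm⟩
  · rw [k12]
    exact fun e => hA (by simpa [e] using k11.symm)

end Pool.Agent.Lib.MP_23455a_nt
end

-- part Pool.Agent.Lib.MP_23455a_nt.LocS
section

set_option autoImplicit false

open NumberField Pool.Agent.Lib.MP_580eba_nt
open scoped Classical nonZeroDivisors

namespace Pool.Agent.Lib.MP_23455a_nt

variable {K : Type} [Field K] [NumberField K] {a : GalK K → ZMod 3} {γ : Kb K} {β : K} {N : Lev K}

namespace LocSAux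

variable {v : Pl K}

/-- The elements fixed by the local Galois group. -/
noncomputable def SS (v : Pl K) : Subfield (Om v) :=
  (IntermediateField.fixedField (⊤ : Subgroup (GalK (Kv v)))).toSubfield

lemma mem_SS {z : Om v} : z ∈ SS v ↔ ∀ s : GalK (Kv v), s z = z :=
  (IntermediateField.mem_fixedField_iff _ z).trans (by simp)

lemma alg_mem (x : K) : algebraMap K (Om v) x ∈ SS v := mem_SS.2 fun s => by
  rw [IsScalarTower.algebraMap_apply K (Kv v), s.commutes]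

lemma W_le_iff (x y : K) :
    Wv v (algebraMap K _ x) ≤ Wv v (algebraMap K _ y) ↔ val v x ≤ val v y := by
  simpa using (Wv_lt_iff (v := v) y x).not

lemma W_eq (hv : Spl v) {x : K} (hx : x ≠ 0) : Wv v (algebraMap K _ x) = Wv v 3 ^ ord v x := by
  have h : val v x = val v (3 ^ ord v x) := (ord_eq_iff v hx (zpow_ne_zero _ (by norm_num))).1 (by
    rw [ord_zpow, hv.1, mul_one])
  rw [← map_zpow₀, ← map_ofNat (algebraMap K (Om v)) 3, ← map_zpow₀]
  exact le_antisymm ((W_le_iff _ _).2 h.le) ((W_le_iff _ _).2 h.ge)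

lemma val_of_sub {x y : Om v} (h : Wv v (x - y) < Wv v x) : Wv v y = Wv v x := by
  rw [← sub_sub_cancel x y, (Wv v).map_sub_eq_of_lt_left h]

lemma z3 (hv : Spl v) : Z3 (Wv v) (SS v) := by
  have h3 : Wv v 3 < 1 := by
    have := (Wv_lt_iff (v := v) 3 1).2 (by
      rw [val_eq_exp v (by norm_num), hv.1, map_one, ← WithZero.exp_zero, WithZero.exp_lt_exp]
      norm_num)
    rwa [map_ofNat, map_one, map_one] at this
  refine ⟨h3, fun z hz h1 => ?_, fun z hz h0 => ?_⟩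
  · obtain ⟨x, hx⟩ := approx_K (mem_SS.1 hz) one_ne_zero
    rw [map_one] at hx
    have h2 : Wv v (algebraMap K _ x) ≤ 1 := val_le_of_sub h1 (by rwa [Valuation.map_sub_swap])
    obtain ⟨k, hk⟩ := hv.exists_int 1 (x := x) (by simpa using (W_le_iff x 1).1 (by simpa using h2))
    have h4 := (W_le_iff _ _).2 hk
    rw [pow_one, map_ofNat, map_sub, map_intCast] at h4
    exact ⟨k, by simpa using (Wv v).map_add_lt hx (h4.trans_lt h3)⟩
  · obtain ⟨x, hx⟩ := approx_K (mem_SS.1 hz) h0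
    have h1 := val_of_sub hx
    exact ⟨_, h1.symm.trans (W_eq hv (by rintro rfl; simp at hx))⟩

lemma pc_iff (hv : Spl v) {b : K} : PC v b ↔ PL (Wv v) (SS v) (algebraMap K _ b) := by
  constructor
  · rintro ⟨z, h0, h⟩
    exact ⟨_, alg_mem z, (map_ne_zero _).2 h0, by simpa [map_ofNat] using (W_le_iff _ _).2 h⟩
  · rintro ⟨z, hz, h0, h⟩
    have h9 : Wv v 9 < 1 := W9 (W := Wv v) ▸ pow_lt_one₀ zero_le (z3 hv).lt two_ne_zero
    obtain ⟨x, hx⟩ := approx_K (mem_SS.1 hz) (e := 9 * z) (mul_ne_zero (by norm_num) h0)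
    have h1 := val_of_sub (hx.trans_le (by rw [map_mul]; exact mul_le_of_le_one_left' h9.le))
    have h2 : algebraMap K (Om v) x ≠ 0 := (Wv v).pos_iff.1 (h1 ▸ (Wv v).pos_iff.2 h0)
    refine ⟨x, by simpa using h2, (W_le_iff _ _).1 ?_⟩
    simp only [map_ofNat, map_sub, map_div₀, map_pow, map_one]
    generalize algebraMap K (Om v) x = t, algebraMap K (Om v) b = c at *
    have h3 : Wv v (z / t) = 1 := by rw [map_div₀, h1, div_self ((Wv v).pos_iff.2 h0).ne']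
    have h4 : Wv v (z / t - 1) ≤ Wv v 9 := by
      rw [div_sub_one h2, map_div₀, div_le_iff₀ ((Wv v).pos_iff.2 h2), h1, ← map_mul]
      exact hx.le
    rw [show c / t ^ 3 - 1 = (c / z ^ 3 - 1) * (z / t) ^ 3 +
      (z / t - 1) * (z / t * (z / t + 1) + 1) by field_simp; ring]
    refine (Wv v).map_add_le (by rwa [map_mul, map_pow, h3, one_pow, mul_one]) ?_
    rw [map_mul]
    refine (mul_le_of_le_one_right' ((Wv v).map_add_le ?_ (by simp))).trans h4
    rw [map_mul, h3, one_mul]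
    exact (Wv v).map_add_le h3.le (by simp)

lemma ind_le {M : Type} [Field M] [NumberField M] [Algebra K M] {j : M →ₐ[K] Om v}
    {w : Pl M} (h : Ind j w) (x : M) : Wv v (j x) ≤ 1 ↔ val w x ≤ 1 := by
  simpa using (h 1 x).not

lemma exists_lift {M : Lev K} {j0 : M →ₐ[K] Om v} {j : Kb K →ₐ[K] Om v}
    (hj : ∀ x : M, j x = j0 x) {w : Pl M} (h : Ind j0 w) {g : M ≃ₐ[K] M} (hg : g • w = w) :
    ∃ (s : GalK (Kv v)) (σ : GalK K), (∀ x, j (σ x) = s (j x)) ∧ rs M σ = g := by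
  obtain ⟨s, hs⟩ := h.lift hg
  obtain ⟨σ, hσ⟩ := exists_compat j s
  refine ⟨s, σ, hσ, AlgEquiv.ext fun x => j0.injective ?_⟩
  change j0 _ = j0 _
  rw [← hj, rs_apply, hσ, hj, hs]

lemma rho_eq {F : Type} [Field F] {V : F} (h : V ≠ 0) (h' : V + 1 ≠ 0) {i : ZMod 3} (hi : i ≠ 0) :
    rho^[i.val] V = -1 / (V + 1) ∨ rho^[i.val] V = -(V + 1) / V := by
  obtain rfl | rfl | rfl := zmod_cases i
  · exact absurd rfl hi
  · exact .inl (by rw [add_comm]; rfl)
  · refine .inr ?_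
    have : 1 + V ≠ 0 := by rwa [add_comm]
    change -1 / (1 + -1 / (1 + V)) = _
    grind

/-- The ramified case. -/
lemma ram (hp : Pair a γ β) (hN : Fac N a) {w : Pl N} (hv : Spl v) (hw : und K w = v)
    {j0 : N →ₐ[K] Om v} (hj0 : Ind j0 w) {j : Kb K →ₐ[K] Om v} (hj : ∀ x : N, j x = j0 x)
    {V : Om v} (h0 : V ≠ 0) (h1 : V + 1 ≠ 0) (h2 : V ^ 2 + V + 1 ≠ 0)
    (hV : ∀ (s : GalK (Kv v)) (σ : GalK K), (∀ x, j (σ x) = s (j x)) → s V = rho^[(a σ).val] V)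
    {m : AA (Wv v) (SS v)} (hm : Wv v (1 + 2 * m) = 1)
    (e : V ^ 3 - 3 * V - 1 = (4 + 9 * m - 1) * V * (V + 1)) :
    (∃ σ, rs N σ ∈ In (N ≃ₐ[K] N) w ∧ a σ ≠ 0) ∧
      ∀ (y : N) (b : K), b ≠ 0 → 3 ∣ ord v b → (∀ σ, a σ = 0 → rs N σ • y = y) →
        (∀ σ, a σ = 1 → y * rs N σ • y * (rs N σ * rs N σ) • y = algebraMap K N b) →
        PC v b := by
  have hz := z3 hv
  obtain ⟨k1, k2, k3⟩ := hz.unif hm e
  have k4 : (3 / (V - 1)) ≠ 0 := div_ne_zero (by norm_num) (sub_ne_zero.2 k1)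
  have hr : ∃ σ, rs N σ ∈ In (N ≃ₐ[K] N) w ∧ a σ ≠ 0 := by
    by_contra! k
    obtain ⟨b, hb, hb'⟩ := hN.descend hp.ch
    obtain ⟨x, hx⟩ := dens' (j0.comp (IntermediateField.fixedField hb.ker).val) (z := 3 / (V - 1))
      (fun s hs => by
        obtain ⟨σ, hσ⟩ := exists_compat j s
        have h3 : rs N σ ∈ hb.ker := by
          rw [← IntermediateField.fixingSubgroup_fixedField hb.ker,
            IntermediateField.mem_fixingSubgroup_iff]
          exact fun x hx => j0.injective (by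
            change j0 _ = j0 _
            rw [← hj, rs_apply, hσ, hj]
            exact hs ⟨x, hx⟩)
        rw [map_div₀, map_sub, map_one, map_ofNat, hV s σ hσ, ← hb', hb.mem_ker.1 h3]
        rfl) k4
    have h3 : Wv v (j0 (x ^ 3)) = Wv v (j0 3) := by
      rw [map_pow, map_pow, map_ofNat, ← k3]
      exact congrArg (· ^ 3) (val_of_sub hx)
    have h4 := ord_congr (le_antisymm (not_lt.1 fun l => ((hj0 _ _).2 l).ne' h3)
      (not_lt.1 fun l => ((hj0 _ _).2 l).ne h3))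
    obtain ⟨n, hn⟩ := card_dvd_ord (K := K) hb.ker w (y := x) fun g hg => x.2 ⟨g, hg⟩
    rw [inf_eq_left.2 fun g hg => by
      obtain ⟨σ, rfl⟩ := rs_surj N g
      exact (hb' σ).trans (k σ hg), card_In (K := K)] at hn
    rw [ord_pow, hn, ← map_ofNat (algebraMap K N) 3, ord_map, hw, hv.1] at h4
    have h5 : (ee K w : ℤ) ≠ 0 := by exact_mod_cast (ee_pos w).ne'
    have := mul_left_cancel₀ h5 (show (ee K w : ℤ) * (3 * n) = ee K w * 1 by
      rw [← h4]; push_cast; ring)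
    omega
  refine ⟨hr, fun y b hb hb3 hy hy' => (pc_iff hv).2 ?_⟩
  obtain ⟨s, σ, hσ, h3⟩ : ∃ (s : GalK (Kv v)) (σ : GalK K), (∀ x, j (σ x) = s (j x)) ∧ a σ = 1 := by
    obtain ⟨σ, h3, h4⟩ := hr
    rcases hp.ch.exists_one h4 with h5 | h5
    · obtain ⟨s, τ, hτ, l⟩ := exists_lift hj hj0 (smul_eq_of_mem_In h3)
      exact ⟨s, τ, hτ, (hN.congr hp.ch l).trans h5⟩
    · obtain ⟨s, τ, hτ, l⟩ := exists_lift hj hj0 (smul_eq_of_mem_In (inv_mem h3))
      exact ⟨s, τ, hτ, (hN.congr hp.ch (l.trans (map_inv _ _).symm)).trans h5⟩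
  have hy0 : ∀ τ, a τ = 0 → τ (y : Kb K) = y := fun τ l =>
    (rs_smul N τ y).symm.trans (congrArg Subtype.val (hy τ l))
  have key : ∀ (t t' : GalK (Kv v)) (τ τ' : GalK K), (∀ x, j (τ x) = t (j x)) →
      (∀ x, j (τ' x) = t' (j x)) → a τ = a τ' →
      t (3 / (V - 1)) = t' (3 / (V - 1)) ∧ t (j y) = t' (j y) := fun t t' τ τ' l l' k => by
    refine ⟨by simp only [map_div₀, map_sub, map_one, map_ofNat, hV t τ l, hV t' τ' l', k], ?_⟩
    have := hy0 (τ'⁻¹ * τ) (by rw [hp.ch, hp.ch.inv, k, neg_add_cancel])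
    rw [← l, ← l']
    congr 1
    rw [← congrArg τ' this, ← AlgEquiv.mul_apply, mul_inv_cancel_left]
  have cm : ∀ {t t' : GalK (Kv v)} {τ τ' : GalK K}, (∀ x, j (τ x) = t (j x)) →
      (∀ x, j (τ' x) = t' (j x)) → ∀ x, j ((τ * τ') x) = (t * t') (j x) :=
    fun l l' x => by rw [AlgEquiv.mul_apply, l, l', AlgEquiv.mul_apply]
  have c1 : ∀ x, j ((1 : GalK K) x) = (1 : GalK (Kv v)) (j x) := fun _ => rfl
  have c2 := cm hσ hσ
  have a2 : a (σ * σ) = 2 := by rw [hp.ch, h3]; rfl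
  have ne : ∀ {t t' : GalK (Kv v)} {τ τ' : GalK K}, (∀ x, j (τ x) = t (j x)) →
      (∀ x, j (τ' x) = t' (j x)) → a τ ≠ a τ' → t (3 / (V - 1)) ≠ t' (3 / (V - 1)) :=
    fun {t t' τ τ'} l l' k k' => k (rho_inj h0 h1 h2 (by
      rw [← hV t τ l, ← hV t' τ' l']
      simp only [map_div₀, map_sub, map_one, map_ofNat] at k'
      simpa [div_eq_mul_inv] using k'))
  have n1 := ne c1 hσ (by rw [hp.ch.one, h3]; decide)
  have n2 := ne c1 c2 (by rw [hp.ch.one, a2]; decide)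
  have n3 := ne hσ c2 (by rw [h3, a2]; decide)
  have rt : ∀ t : GalK (Kv v), (1 + 2 * m) * t (3 / (V - 1)) ^ 3 +
      3 * (1 + 3 * m) * t (3 / (V - 1)) ^ 2 + 9 * m * t (3 / (V - 1)) - 3 = 0 := fun t => by
    have := congrArg t k2
    simpa only [map_add, map_sub _ _ (3 : Om v), map_mul, map_pow, map_one, map_ofNat, map_zero,
      mem_SS.1 (AA.mem m) t] using this
  obtain ⟨v1, v2, v3⟩ := Z3.vieta n1 n2 n3 (rt 1) (rt s) (rt (s * s))
  have pr : j y * s (j y) * (s * s) (j y) = algebraMap K _ b := by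
    rw [← hσ, ← c2, ← map_mul, ← map_mul, ← j.commutes]
    refine congrArg j (Eq.trans ?_ (congrArg Subtype.val (hy' σ h3)))
    rw [← map_mul, MulMemClass.coe_mul, MulMemClass.coe_mul, rs_smul, rs_smul]
  generalize 3 / (V - 1) = p, j y = Y at *
  rw [AlgEquiv.one_apply] at n1 n2 v1 v2 v3
  have fx : ∀ t : GalK (Kv v), ∀ f : Om v → Om v → Om v → Om v → Om v → Om v → Om v,
      (∀ p q r x y z, f q r p y z x = f p q r x y z) →
      f (t p) (t (s p)) (t ((s * s) p)) (t Y) (t (s Y)) (t ((s * s) Y)) =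
        f p (s p) ((s * s) p) Y (s Y) ((s * s) Y) := fun t f hf => by
    obtain ⟨τ, hτ⟩ := exists_compat j t
    have d1 := cm hτ hσ
    have d2 := cm hτ c2
    simp only [← AlgEquiv.mul_apply t]
    obtain l | l | l := zmod_cases (a τ)
    · obtain ⟨e1, e2⟩ := key _ _ _ _ hτ c1 (by rw [l, hp.ch.one])
      obtain ⟨e3, e4⟩ := key _ _ _ _ d1 hσ (by rw [hp.ch, l, zero_add])
      obtain ⟨e5, e6⟩ := key _ _ _ _ d2 c2 (by rw [hp.ch, l, zero_add])
      rw [e1, e2, e3, e4, e5, e6]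
      rfl
    · obtain ⟨e1, e2⟩ := key _ _ _ _ hτ hσ (by rw [l, h3])
      obtain ⟨e3, e4⟩ := key _ _ _ _ d1 c2 (by rw [hp.ch, l, h3, a2]; rfl)
      obtain ⟨e5, e6⟩ := key _ _ _ _ d2 c1 (by rw [hp.ch, l, a2, hp.ch.one]; rfl)
      rw [e1, e2, e3, e4, e5, e6]
      exact hf ..
    · obtain ⟨e1, e2⟩ := key _ _ _ _ hτ c2 (by rw [l, a2])
      obtain ⟨e3, e4⟩ := key _ _ _ _ d1 c1 (by rw [hp.ch, l, h3, hp.ch.one]; rfl)
      obtain ⟨e5, e6⟩ := key _ _ _ _ d2 hσ (by rw [hp.ch, l, a2, h3]; rfl)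
      rw [e1, e2, e3, e4, e5, e6]
      exact (hf ..).symm
  have q0 := lg_eq n1 n2 n3 Y (s Y) ((s * s) Y)
  have q1 := lg_eq n3 n1.symm n2.symm (s Y) ((s * s) Y) Y
  have q2 := lg_eq n2.symm n3.symm n1 ((s * s) Y) Y (s Y)
  rw [(lg_rot ..).1, (lg_rot ..).2.1, (lg_rot ..).2.2] at q1
  rw [← (lg_rot ..).1, ← (lg_rot ..).2.1, ← (lg_rot ..).2.2] at q2
  obtain ⟨n, hn⟩ := hb3
  have := hz.norm_pl hm k3 v1 v2 v3
    (mem_SS.2 fun t => (lg_map (t : Om v →+* Om v) ..).1.trans (fx t lg0 fun _ _ _ _ _ _ => (lg_rot ..).1))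
    (mem_SS.2 fun t => (lg_map (t : Om v →+* Om v) ..).2.1.trans
      (fx t lg1 fun _ _ _ _ _ _ => (lg_rot ..).2.1))
    (mem_SS.2 fun t => (lg_map (t : Om v →+* Om v) ..).2.2.trans
      (fx t lg2 fun _ _ _ _ _ _ => (lg_rot ..).2.2)) (n := n) (by
      have l := congrArg (Wv v) pr
      rw [map_mul, map_mul, Wv_aut, Wv_aut, W_eq hv hb, hn, mul_comm 3 n, zpow_mul,
        zpow_ofNat] at l
      rw [q0]
      exact (pow_left_inj₀ zero_le zero_le three_ne_zero).1 (by rw [← l]; ring))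
  rwa [q0, q1, q2, pr] at this

end LocSAux

open LocSAux

/-- The three types of local Selmer classes at a split place above three. -/
theorem S2 (hp : Pair a γ β) (hN : Fac N a) {w : Pl N} (hv : Spl (und K w))
    (h : SelK (und K w) a γ) :
    (PC (und K w) β ∧ ∀ σ, rs N σ • w = w → a σ = 0) ∨
    (3 ∣ ord (und K w) β ∧ ¬ PC (und K w) β ∧ (∀ σ, rs N σ ∈ In (N ≃ₐ[K] N) w → a σ = 0) ∧
      ∃ σ, a σ ≠ 0) ∨
    (¬ 3 ∣ ord (und K w) β ∧ (∃ σ, rs N σ ∈ In (N ≃ₐ[K] N) w ∧ a σ ≠ 0) ∧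
      ∀ (y : N) (b : K), b ≠ 0 → 3 ∣ ord (und K w) b → (∀ σ, a σ = 0 → rs N σ • y = y) →
        (∀ σ, a σ = 1 → y * rs N σ • y * (rs N σ * rs N σ) • y = algebraMap K N b) →
        PC (und K w) b) := by
  generalize hw : und K w = v at *
  have hz := z3 hv
  obtain ⟨j0, hj0⟩ := exists_emb (K := K) hw
  obtain ⟨j, hj⟩ := exists_ext N j0
  obtain ⟨P, hP⟩ := h j
  have hγ : j γ ≠ 0 := (map_ne_zero j).2 hp.γ_ne
  have hR : ∀ s : GalK (Kv v), pm (s : _ →+* _) (3 • P) = 3 • P := fun s => by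
    obtain ⟨σ, hσ⟩ := exists_compat j s
    rw [map_nsmul, hP s σ hσ, nsmul_add, three_e3 _ (hp.root' σ j), add_zero]
  have hZ : gm P / j γ ∈ SS v := mem_SS.2 fun s => by
    obtain ⟨σ, hσ⟩ := exists_compat j s
    have := gm_add_e3 P (a σ) (hp.root' σ j)
    rw [← hP s σ hσ, gm_pm, map_div₀, hσ] at this
    have h0 : s (j γ) ≠ 0 := (map_ne_zero s).2 hγ
    rw [RingHom.coe_coe] at this
    rw [map_div₀]
    generalize s (gm P) = u at *
    rw [← this]
    field_simp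
  have hZ0 := div_ne_zero (gm_ne P) hγ
  have hf : fT (3 • P) = algebraMap K _ β * (gm P / j γ) ^ 3 := by
    rw [div_pow, ← map_pow, hp.cube, j.commutes, gm_cube, mul_div_cancel₀ _ (by simpa using hp.ne)]
  have hpc : PC v β ↔ PL (Wv v) (SS v) (fT (3 • P)) := by rw [pc_iff hv, hf, pl_mul hZ hZ0]
  have hord : ∀ n : ℤ, Wv v (fT (3 • P)) = Wv v 3 ^ n → (3 ∣ ord v β ↔ 3 ∣ n) := fun n hn => by
    obtain ⟨k, hk⟩ := hz.pw _ hZ hZ0
    rw [hf, map_mul, map_pow, hk, W_eq hv hp.ne, ← zpow_natCast, ← zpow_mul,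
      ← zpow_add₀ W3_pos.ne'] at hn
    have := hz.zpow_inj hn
    omega
  rcases e : 3 • P with _ | ⟨x, y, hxy⟩
  · refine .inl ⟨hpc.2 ⟨-1, neg_mem (one_mem _), by norm_num, ?_⟩, fun σ0 h0 => ?_⟩
    · rw [e, show fT (.zero : Pt (Om v)) = -1 from fT_zero]
      norm_num
    · obtain ⟨s, σ, hσ, l⟩ := exists_lift hj hj0 h0
      obtain ⟨i, u, hu, rfl⟩ := exists_e3 (P := P) e
      have := hP s σ hσ
      rw [pm_e3 _ _ hu, ← e3_add _ _ hu (hp.root' σ j)] at this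
      have := (e3_inj (by rw [← map_pow, hu, map_one]) (cube_mul hu (hp.root' σ j)) this).1
      rw [← hN.congr hp.ch l]
      simpa using this
  have h0 : 3 • P ≠ 0 := e ▸ WeierstrassCurve.Affine.Point.some_ne_zero hxy
  obtain ⟨h1, h2⟩ := vv_ne h0
  have h3 := vv_cubic e
  have h4 := ns_iff.1 hxy
  have hV : ∀ (s : GalK (Kv v)) (σ : GalK K), (∀ x, j (σ x) = s (j x)) →
      s (vv P) = rho^[(a σ).val] (vv P) := fun s σ hσ => by
    rw [← vv_add_e3 h0 _ (hp.root' σ j), ← hP s σ hσ, vv_pm]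
    rfl
  have hpat : ∀ (s : GalK (Kv v)) (σ : GalK K), (∀ x, j (σ x) = s (j x)) → a σ ≠ 0 → _ :=
    fun s σ hσ l => hz.pat (U := s (vv P)) h1 h2 (hV s σ hσ ▸ rho_eq h1 h2 l) (Wv_aut s _)
      (by rw [← Wv_aut s (vv P + 1), map_add s, map_one])
  have hx : x ∈ SS v := mem_SS.2 fun s => by
    have := cC_pm (s : Om v →+* Om v) (3 • P)
    rw [hR, e] at this
    simpa [cC, map_ofNat] using this.symm
  have hy : y ∈ SS v := mem_SS.2 fun s => by
    have := cA_pm (s : Om v →+* Om v) (3 • P)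
    rw [hR, e] at this
    simpa [cA, map_ofNat] using this.symm
  rcases hz.tri hx hy h4 (fT_ne (3 • P)) (by
    by_cases l : x = 3 ∧ y = 4
    · obtain ⟨rfl, rfl⟩ := l
      exact .inl ⟨rfl, rfl, by rw [e]; exact fT_T⟩
    · exact .inr ⟨l, by rw [e]; exact fT_some hxy l⟩) with ⟨k1, k2⟩ | ⟨k1, k2, k3, k4⟩ | ⟨m, rfl, k1, k2, n, k3, k4⟩
  · refine .inl ⟨hpc.2 k2, fun σ0 l0 => ?_⟩
    obtain ⟨s, σ, hσ, l⟩ := exists_lift hj hj0 l0
    rw [← hN.congr hp.ch l]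
    by_contra l1
    obtain ⟨l2, l3, -⟩ := hpat s σ hσ l1
    have := congrArg (Wv v) h3
    rw [map_mul, map_mul, l2, l3, mul_one, mul_one, (Wv v).map_sub_eq_of_lt_left (x := y)
      (by simpa using k1)] at this
    exact k1.not_ge (this ▸ (Wv v).map_sub_le ((Wv v).map_sub_le (by simp [l2])
      (hz.three_lt l2.le).le) (by simp))
  · refine .inr (.inl ⟨(hord 0 (by simpa using k2)).2 (dvd_zero _), mt hpc.1 k3, fun σ0 l0 => ?_, ?_⟩)
    · obtain ⟨s, σ, hσ, l⟩ := exists_lift hj hj0 (smul_eq_of_mem_In l0)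
      rw [← hN.congr hp.ch l]
      by_contra l1
      obtain ⟨l2, l3, l4⟩ := hpat s σ hσ l1
      refine hz.not_one k1 h3 l2 l3 (l4 ?_)
      obtain ⟨u, hu⟩ := dens j0 (z := vv P) (fun t ht => by
        obtain ⟨τ, hτ⟩ := exists_compat j t
        rw [hV t τ hτ, hN τ (rs_eq_one_iff.2 fun x hx => j.injective (by
          change j _ = j _
          rw [hτ, hj ⟨x, hx⟩, ht]))]
        rfl) one_ne_zero
      rw [map_one] at hu
      have l5 : Wv v (j0 u) ≤ 1 := val_le_of_sub l2.le (by rwa [Valuation.map_sub_swap])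
      have l6 := (hj0.lt_one _).2 (mem_In.1 l0 u ((ind_le hj0 u).1 l5))
      have l7 : s (j0 u) = j0 (rs N σ0 • u) := by rw [← hj, ← hσ, ← l, ← hj, rs_smul]
      rw [show s (vv P) - vv P = s (vv P - j0 u) + j0 (rs N σ0 • u - u) - (vv P - j0 u) by
        simp only [map_sub, l7]; ring]
      exact Valuation.map_sub_lt _ (Valuation.map_add_lt _ (by rwa [Wv_aut]) l6) hu
    · by_contra! l
      refine k4 _ (mem_SS.2 fun s => ?_) h3
      obtain ⟨σ, hσ⟩ := exists_compat j s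
      rw [hV s σ hσ, l]
      rfl
  · exact .inr (.inr ⟨mt (hord n k3).1 k4, ram hp hN hv hw hj0 hj h1 h2 (by grind) hV k1 h3⟩)

/-- Locally trivial classes satisfy the Selmer condition. -/
theorem S4 (hp : Pair a γ β) (hN : Fac N a) {v : Pl K} (hβ : PC v β) (hv : Spl v)
    (h : ∀ (w : Pl N) (σ : GalK K), und K w = v → rs N σ • w = w → a σ = 0) : SelK v a γ := by
  intro j
  have _ := hN
  have hz := z3 hv
  obtain ⟨z, h1, h2, h3⟩ := (pc_iff hv).1 hβ
  have h4 : (j γ / z) ^ 3 = algebraMap K _ β / z ^ 3 := by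
    rw [div_pow, ← map_pow, hp.cube, j.commutes]
  obtain ⟨u, hu, h5⟩ := hz.exists_root (h4 ▸ h3)
  obtain ⟨w, hw⟩ := exists_ind (j.comp N.toIntermediateField.val)
  refine ⟨e3 0 u, fun s σ c => ?_⟩
  have h6 := hz.root_eq (s := s (u * (j γ / z))) h5 (by
    rwa [← map_one s, ← map_sub, Wv_aut]) (by
    rw [← map_pow, mul_pow, hu, h4]
    exact mem_SS.1 (mul_mem (one_mem _) (div_mem (alg_mem β) (pow_mem h1 3))) s)
  rw [map_mul, map_div₀, mem_SS.1 h1 s, ← c] at h6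
  have h7 : j (σ γ) ≠ 0 := (map_ne_zero j).2 ((map_ne_zero σ).2 hp.γ_ne)
  rw [h w σ hw.und_eq (hw.smul_eq (g := rs N σ) (s := s) fun x =>
    (congrArg j (rs_apply N σ x)).trans (c x)), pm_e3 _ _ hu, ← e3_add _ _ hu (hp.root' σ j),
    add_zero, map_div₀]
  congr 1
  rw [RingHom.coe_coe]
  field_simp at h6 ⊢
  exact h6

end Pool.Agent.Lib.MP_23455a_nt
end
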