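import Pool.Agent.Lib.MP_696deb_nt.JFun

/-! The cubic identity between eta quotients of level nine. -/

set_option autoImplicit false

open PowerSeries Filter Topology Complex ModularForm Asymptotics
open scoped Real
open Pool.Agent.Lib.MP_696deb_nt

namespace Pool.Agent.Lib.MP_23455a_nt.ModA

/-- The Hauptmodul of level nine. -/
noncomputable def t9 (z : ℂ) : ℂ := η z ^ 3 / η (9 * z) ^ 3

/-- A modular unit of degree two. -/
noncomputable def R9 (z : ℂ) : ℂ := η (3 * z) ^ 12 / (η z ^ 3 * η (9 * z) ^ 9)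

lemma eta_q (z : ℂ) : η z = q1 (z / 24) * eul (q1 z) := by rw [eta_eq, mul_div_assoc]; rfl

lemma tendsto_eul : Tendsto (fun z => eul (q1 z)) atI (𝓝 1) := by
  simpa only [cc_toC, cc_P1, Int.cast_one] using qe_P1.tendsto

lemma tendsto_eul_aff {r : ℝ} (hr : 0 < r) (k : ℂ) :
    Tendsto (fun z => eul (q1 (r * z + k))) atI (𝓝 1) := tendsto_eul.comp (tendsto_affine hr k)

lemma tendsto_eul_mul (r : ℕ) [r.AtLeastTwo] :
    Tendsto (fun z => eul (q1 ((OfNat.ofNat r : ℂ) * z))) atI (𝓝 1) := by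
  have := tendsto_eul_aff (r := OfNat.ofNat r) Nat.ofNat_pos 0
  simpa using this

lemma t9_mob {a b c d : ℤ} (h : a * d - b * (9 * c) = 1) {z : ℂ} (hz : 0 < z.im) :
    t9 (mob a b (9 * c) d z) = t9 z := by
  have ht : ∀ w : ℂ, 0 < w.im →
      t9 w = eta13 w * eta2 w / (eta13 (3 * w) * eta2 (9 * w)) := fun w hw => by
    have h3 := eta_ne (z := 3 * w) (im_mul_pos hw)
    have h9 := eta_ne (z := 9 * w) (im_mul_pos hw)
    rw [t9, eta13, eta13, eta2, eta2, show 3 * (3 * w) = 9 * w by ring]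
    generalize η (3 * w) = x, η (9 * w) = y at h3 h9 ⊢
    field_simp
  have h1 := eta2_tr a b (9 * c) d h z hz
  have h9 := eta2_tr a (9 * b) c d (by linear_combination h) (9 * z) (im_mul_pos hz)
  have g1 := eta13_tr a b (3 * c) d (by linear_combination h) z hz
  have g3 := eta13_tr a (3 * b) c d (by linear_combination h) (3 * z) (im_mul_pos hz)
  have e3 := mul_mob (m := 3) a b (3 * c) d z
  have e9 := mul_mob (m := 9) a b c d z
  have h4 : ∀ a b c d : ZMod 12, a * d - b * (9 * c) = 1 →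
      PhiE a b (3 * c) d + PsiE a b (9 * c) d = PhiE a (3 * b) c d + PsiE a (9 * b) c d := by
    decide +kernel
  have h6 := congr_arg e12 (h4 a b c d (by exact_mod_cast congr_arg (Int.cast : ℤ → ZMod 12) h))
  simp only [e12_add] at h6
  rw [show 3 * (3 * c) = 9 * c by ring] at e3 g1
  have hd := den_ne (a := a) (b := b) (by omega : a * d - b * (9 * c) ≠ 0) hz
  push_cast at h1 h9 g1 g3 e3 e9 hd
  rw [ht z hz, ht _ (im_mob_pos (by omega) hz), e3, e9, h1, h9, g1, g3,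
    show (3 : ℂ) * c * (3 * z) = 9 * c * z by ring, show (c : ℂ) * (9 * z) = 9 * c * z by ring]
  have k3 := e12_ne (PhiE a (3 * b) c d)
  have k9 := e12_ne (PsiE a (9 * b) c d)
  have l3 : eta13 (3 * z) ≠ 0 :=
    mul_ne_zero (eta_ne (im_mul_pos hz)) (eta_ne (im_mul_pos (im_mul_pos hz)))
  have l9 := eta2_ne (z := 9 * z) (im_mul_pos hz)
  generalize (9 : ℂ) * c * z + d = w at hd ⊢
  rw [div_eq_div_iff (by simp [*]) (by simp [*])]
  linear_combination (w ^ 2 * eta13 z * eta2 z * eta13 (3 * z) * eta2 (9 * z)) * h6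

lemma R9_mob {a b c d : ℤ} (h : a * d - b * (9 * c) = 1) {z : ℂ} (hz : 0 < z.im) :
    R9 (mob a b (9 * c) d z) = R9 z := by
  have ht : ∀ w : ℂ, 0 < w.im →
      R9 w = eta2 (3 * w) ^ 6 / eta2 (9 * w) ^ 6 / t9 w := fun w hw => by
    have h1 := eta_ne hw
    have h9 := eta_ne (z := 9 * w) (im_mul_pos hw)
    rw [R9, t9, eta2, eta2]
    field_simp
  have h3 := eta2_tr a (3 * b) (3 * c) d (by linear_combination h) (3 * z) (im_mul_pos hz)
  have h9 := eta2_tr a (9 * b) c d (by linear_combination h) (9 * z) (im_mul_pos hz)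
  have e3 := mul_mob (m := 3) a b (3 * c) d z
  have e9 := mul_mob (m := 9) a b c d z
  have h4 : ∀ a b c d : ZMod 12, a * d - b * (9 * c) = 1 →
      6 • PsiE a (3 * b) (3 * c) d = 6 • PsiE a (9 * b) c d := by decide +kernel
  have h6 := congr_arg e12 (h4 a b c d (by exact_mod_cast congr_arg (Int.cast : ℤ → ZMod 12) h))
  simp only [e12, AddChar.map_nsmul_eq_pow] at h6
  rw [show 3 * (3 * c) = 9 * c by ring] at e3
  have hd := den_ne (a := a) (b := b) (by omega : a * d - b * (9 * c) ≠ 0) hz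
  push_cast at h3 h9 e3 e9 hd
  rw [ht z hz, ht _ (im_mob_pos (by omega) hz), t9_mob h hz, e3, e9, h3, h9,
    show (3 : ℂ) * c * (3 * z) = 9 * c * z by ring, show (c : ℂ) * (9 * z) = 9 * c * z by ring,
    mul_pow, mul_pow, mul_pow, mul_pow, e12, e12, h6, mul_div_mul_left]
  exact mul_ne_zero (pow_ne_zero _ (e12_ne _)) (pow_ne_zero _ hd)

lemma bdd_q1 {s : ℝ} (hs : 0 ≤ s) (k : ℂ) : Bdd fun z => q1 (s * z + k) := by
  rcases hs.eq_or_lt with rfl | hs
  · simpa using Bdd.const (q1 k)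
  · exact Bdd.of_tendsto (tendsto_q1.comp (tendsto_affine hs k))

lemma bdd_quot {r s : ℝ} (hr : 0 < r) (hs : 0 < s) (k l : ℂ) (i j n : ℕ)
    (h : j + n * s ≤ i * r) :
    Bdd fun z => eta2 (r * z + k) ^ i / (eta2 z ^ j * eta2 (s * z + l) ^ n) := by
  have h1 := ((tendsto_eul_aff hr k).pow (2 * i)).div
    ((tendsto_eul.pow (2 * j)).mul ((tendsto_eul_aff hs l).pow (2 * n))) (by simp)
  refine ((bdd_q1 (s := (i * r - j - n * s) / 12) (by linarith) ((i * k - n * l) / 12)).mul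
    (Bdd.of_tendsto h1)).congr fun z _ => ?_
  have e : q1 ((r * z + k) / 24) ^ (2 * i) =
      q1 ((((i * r - j - n * s) / 12 : ℝ) : ℂ) * z + (i * k - n * l) / 12) *
        (q1 (z / 24) ^ (2 * j) * q1 ((s * z + l) / 24) ^ (2 * n)) := by
    simp only [← q1_nat_mul, ← q1_add]
    congr 1
    push_cast
    ring
  have n1 := q1_ne (z / 24)
  have n2 := q1_ne ((s * z + l) / 24)
  simp only [eta2, eta_q, ← pow_mul, mul_pow, Pi.div_apply, e]
  rw [mul_mul_mul_comm, mul_assoc (q1 _), mul_div_assoc, mul_div_mul_left _ _ (by positivity)]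

lemma Bdd.of_sq {F : ℂ → ℂ} (h : Bdd fun z => F z ^ 2) : Bdd F :=
  IsBigO.of_pow (n := 2) (by norm_num) (IsBigO.congr h (fun _ => rfl) fun _ => by simp)

/-- The eta function of a multiple near a cusp. -/
lemma eta2_dec {a b c d g e C k D : ℤ} (h : a * d - b * c = 1) (hg : 0 < g) (he : 0 < e)
    (hc : c = g * C) (hd : d = C * k + D * e) : ∃ κ : ℂ, κ ≠ 0 ∧ ∀ z : ℂ, 0 < z.im →
      eta2 (((g * e : ℤ) : ℂ) * mob a b c d z) =
        κ * (c * z + d) * eta2 (((g / e : ℝ) : ℂ) * z + k / e) := by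
  have he' : (e : ℂ) ≠ 0 := by exact_mod_cast he.ne'
  refine ⟨e12 (PsiE (e * a : ℤ) (g * b - a * k : ℤ) C D) / e, div_ne_zero (e12_ne _) he',
    fun z hz => ?_⟩
  have hj := den_ne (a := a) (b := b) (c := c) (d := d) (by omega) hz
  have hw : 0 < (((g / e : ℝ) : ℂ) * z + k / e).im := by
    have : ((k : ℂ) / e).im = 0 := by norm_cast
    rw [add_im, this, add_zero, im_ofReal_mul]
    positivity
  have h1 := eta2_tr (e * a) (g * b - a * k) C D (by rw [← h, hc, hd]; ring) _ hw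
  have h2 : (C : ℂ) * (((g / e : ℝ) : ℂ) * z + k / e) + D = (c * z + d) / e := by
    rw [hc, hd]
    push_cast
    field_simp
    ring
  have h3 : mob (e * a) (g * b - a * k) C D (((g / e : ℝ) : ℂ) * z + k / e) =
      ((g * e : ℤ) : ℂ) * mob a b c d z := by
    rw [mob, mob, h2]
    push_cast
    field_simp
    ring
  rw [← h3, h1, h2]
  ring

lemma bdd_cusp {W j : ℂ → ℂ} {r s : ℝ} (hr : 0 < r) (hs : 0 < s) {k l κ1 κ3 κ9 : ℂ}
    (n1 : κ1 ≠ 0) (n9 : κ9 ≠ 0) (hj : ∀ z : ℂ, 0 < z.im → j z ≠ 0)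
    (h1 : ∀ z : ℂ, 0 < z.im → eta2 (W z) = κ1 * j z * eta2 z)
    (h3 : ∀ z : ℂ, 0 < z.im → eta2 (3 * W z) = κ3 * j z * eta2 (r * z + k))
    (h9 : ∀ z : ℂ, 0 < z.im → eta2 (9 * W z) = κ9 * j z * eta2 (s * z + l))
    (hs1 : s ≤ 1) (hrs : 3 + 9 * s ≤ 12 * r) :
    Bdd fun z => R9 (W z) - t9 (W z) ^ 2 - 9 * t9 (W z) := by
  have b1 : Bdd fun z => t9 (W z) := by
    refine Bdd.of_sq (((Bdd.const (κ1 ^ 3 / κ9 ^ 3)).mul (bdd_quot one_pos hs 0 l 3 0 3
      (by push_cast; linarith))).congr fun z hz => ?_)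
    have := hj z hz
    have e : t9 (W z) ^ 2 = eta2 (W z) ^ 3 / eta2 (9 * W z) ^ 3 := by
      simp only [t9, eta2, div_pow, ← pow_mul]
    rw [e, h1 z hz, h9 z hz]
    simp only [ofReal_one, one_mul, add_zero, pow_zero]
    generalize eta2 (s * z + l) = x
    by_cases hx : x = 0
    · simp [hx]
    · field_simp
  have b2 : Bdd fun z => R9 (W z) := by
    refine Bdd.of_sq (((Bdd.const (κ3 ^ 12 / (κ1 ^ 3 * κ9 ^ 9))).mul (bdd_quot hr hs k l 12 3 9
      (by push_cast; linarith))).congr fun z hz => ?_)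
    have := hj z hz
    have := eta2_ne hz
    have e : R9 (W z) ^ 2 = eta2 (3 * W z) ^ 12 / (eta2 (W z) ^ 3 * eta2 (9 * W z) ^ 9) := by
      simp only [R9, eta2, div_pow, mul_pow, ← pow_mul]
    rw [e, h1 z hz, h3 z hz, h9 z hz]
    generalize eta2 (s * z + l) = x
    by_cases hx : x = 0
    · simp [hx]
    · field_simp
  exact ((b2.sub (b1.mul b1)).sub ((Bdd.const 9).mul b1)).congr fun z _ => by ring

lemma t9_eq (z : ℂ) : q1 z * t9 z = eul (q1 z) ^ 3 / eul (q1 (9 * z)) ^ 3 := by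
  have e : q1 (9 * z / 24) ^ 3 = q1 z * q1 (z / 24) ^ 3 := by
    simp only [← q1_nat_mul, ← q1_add]
    congr 1
    push_cast
    ring
  have := q1_ne z
  have := q1_ne (z / 24)
  rw [t9, eta_q, eta_q, mul_pow, mul_pow, e]
  generalize eul (q1 (9 * z)) ^ 3 = x
  by_cases hx : x = 0
  · simp [hx]
  · field_simp

lemma R9_eq (z : ℂ) : q1 z ^ 2 * R9 z =
    eul (q1 (3 * z)) ^ 12 / (eul (q1 z) ^ 3 * eul (q1 (9 * z)) ^ 9) := by
  have e : q1 (z / 24) ^ 3 * q1 (9 * z / 24) ^ 9 = q1 z ^ 2 * q1 (3 * z / 24) ^ 12 := by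
    simp only [← q1_nat_mul, ← q1_add]
    congr 1
    push_cast
    ring
  have := q1_ne z
  have := q1_ne (3 * z / 24)
  rw [R9, eta_q, eta_q, eta_q, mul_pow, mul_pow, mul_pow, mul_mul_mul_comm, e]
  generalize eul (q1 z) ^ 3 * eul (q1 (9 * z)) ^ 9 = x
  by_cases hx : x = 0
  · simp [hx]
  · field_simp

/-- Euler's series in `X ^ 9`. -/
noncomputable def P9 : ℤ⟦X⟧ := expand 9 (by norm_num) P1

lemma qe_P9 : QE (fun z => eul (q1 (9 * z))) (toC P9) := by
  simpa [P9, map_expand] using qe_P1.expand 9 (by norm_num)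

lemma N9_low : ∃ R : ℤ⟦X⟧,
    P3 ^ 12 - P1 ^ 9 * P9 ^ 3 - 9 * X * (P1 ^ 6 * P9 ^ 6) - 27 * X ^ 2 = X ^ 3 * R := by
  let φ := Ideal.Quotient.mk (Ideal.span {(X : ℤ⟦X⟧) ^ 3})
  have hx : φ X ^ 3 = 0 := by
    rw [← map_pow, Ideal.Quotient.eq_zero_iff_mem]; exact Ideal.mem_span_singleton_self _
  obtain ⟨R1, h1⟩ := P1_low
  obtain ⟨R3, h3⟩ := P3_low
  have h9 : P9 = 1 + X ^ 3 * (-X ^ 6 - X ^ 15 + X ^ 42 * expand 9 (by norm_num) R1) := by
    rw [P9, h1]
    simp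
    ring
  have hx5 : φ X ^ 5 = 0 := by linear_combination φ X ^ 2 * hx
  have e1 : φ P1 = 1 - φ X - φ X ^ 2 := by simp [h1, hx5]
  have e3 : φ P3 = 1 := by simp [h3, hx, hx5]
  have e9 : φ P9 = 1 := by rw [h9, map_add, map_mul, map_pow, hx]; simp
  have e2 : (1 - φ X - φ X ^ 2) ^ 3 = 1 - 3 * φ X := by
    linear_combination (5 - 3 * φ X ^ 2 - φ X ^ 3) * hx
  have : φ (P3 ^ 12 - P1 ^ 9 * P9 ^ 3 - 9 * X * (P1 ^ 6 * P9 ^ 6) - 27 * X ^ 2) = 0 := by
    simp only [map_sub, map_mul, map_pow, map_ofNat, e1, e3, e9]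
    rw [show 9 = 3 * 3 from rfl, show 6 = 3 * 2 from rfl, pow_mul, pow_mul _ 3 2, e2]
    linear_combination (-54 : ℤ⟦X⟧ ⧸ Ideal.span {(X : ℤ⟦X⟧) ^ 3}) * hx
  exact Ideal.mem_span_singleton.mp (Ideal.Quotient.eq_zero_iff_mem.mp this)

lemma tendsto_inf : Tendsto (fun z => R9 z - t9 z ^ 2 - 9 * t9 z) atI (𝓝 27) := by
  obtain ⟨R, hR⟩ := N9_low
  have hN := ((qe_P3.pow 12).sub ((qe_P1.pow 9).mul (qe_P9.pow 3))).sub
    (((QE.ofNat 9).mul QE.q).mul ((qe_P1.pow 6).mul (qe_P9.pow 6)))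
  rw [show _ - _ = X ^ 2 * (27 + X * toC R) by
    have := congr_arg toC hR
    simp only [map_sub, map_mul, map_pow, map_ofNat, map_X] at this
    linear_combination this] at hN
  have hD := (QE.q.pow 2).mul ((qe_P1.pow 3).mul (qe_P9.pow 9))
  rw [← map_pow toC, ← map_pow toC, ← map_mul] at hD
  have c1 : coeff 0 (toC (P1 ^ 3 * P9 ^ 9)) = 1 := by
    rw [cc_toC]; simp [P9, constantCoeff_expand, cc_P1]
  have h1 := hN.tendsto_div hD (by rw [c1]; exact one_ne_zero)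
  rw [c1, div_one, map_add, coeff_zero_X_mul, add_zero, coeff_zero_eq_constantCoeff, map_ofNat] at h1
  refine h1.congr' (ev_pos.mono fun z hz => ?_)
  have l1 := eul_ne hz
  have l9 := eul_ne (z := 9 * z) (im_mul_pos hz)
  have l0 := q1_ne z
  have e1 := t9_eq z
  have e2 := R9_eq z
  rw [mul_comm, ← eq_div_iff l0] at e1
  rw [mul_comm, ← eq_div_iff (pow_ne_zero 2 l0)] at e2
  beta_reduce
  rw [e1, e2]
  generalize eul (q1 (3 * z)) = x, eul (q1 (9 * z)) = y at l9 ⊢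
  field_simp

lemma hol_t9 : Hol t9 := fun z hz =>
  ((hol_eta z hz).pow 3).div (((hol_eta _ (im_mul_pos hz)).comp z (by fun_prop)).pow 3)
    (pow_ne_zero _ (eta_ne (im_mul_pos hz)))

lemma hol_R9 : Hol R9 := fun z hz =>
  (((hol_eta _ (im_mul_pos hz)).comp z (by fun_prop)).pow 12).div
    (((hol_eta z hz).pow 3).mul (((hol_eta _ (im_mul_pos hz)).comp z (by fun_prop)).pow 9))
    (mul_ne_zero (pow_ne_zero _ (eta_ne hz)) (pow_ne_zero _ (eta_ne (im_mul_pos hz))))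

/-- The cubic identity. -/
theorem R9_t9 {z : ℂ} (hz : 0 < z.im) : R9 z = t9 z ^ 2 + 9 * t9 z + 27 := by
  have hinv : ∀ a b c d : ℤ, a * d - b * (9 * c) = 1 → ∀ z : ℂ, 0 < z.im →
      R9 (mob a b (9 * c) d z) - t9 (mob a b (9 * c) d z) ^ 2 - 9 * t9 (mob a b (9 * c) d z) =
        R9 z - t9 z ^ 2 - 9 * t9 z := fun a b c d h z hz => by rw [R9_mob h hz, t9_mob h hz]
  obtain ⟨c, hc⟩ := const_of_inv 9 (h := fun z => R9 z - t9 z ^ 2 - 9 * t9 z)
    (fun z hz => ((hol_R9 z hz).sub ((hol_t9 z hz).pow 2)).sub ((hol_t9 z hz).const_mul 9)) hinv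
    fun a b c d h => by
      have hj : ∀ z : ℂ, 0 < z.im → (c : ℂ) * z + d ≠ 0 := fun z hz =>
        den_ne (a := a) (b := b) (by omega) hz
      have p3 : ∀ x : ℤ, ¬ 3 ∣ x → IsCoprime x 3 := fun x hx =>
        (Int.prime_three.coprime_iff_not_dvd.mpr hx).symm
      by_cases h3 : 3 ∣ c
      · obtain ⟨C, hC⟩ := h3
        by_cases h9 : 3 ∣ C
        · obtain ⟨C, rfl⟩ := h9
          obtain rfl : c = 9 * C := by omega
          exact (Bdd.of_tendsto tendsto_inf).congr (hinv a b C d h)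
        · obtain ⟨u, v, huv⟩ := p3 C h9
          obtain ⟨κ3, -, k3⟩ := eta2_dec (g := 3) (e := 1) (k := 0) (D := d) h (by norm_num)
            (by norm_num) hC (by ring)
          obtain ⟨κ9, n9, k9⟩ := eta2_dec (g := 3) (e := 3) (k := u * d) (D := v * d) h
            (by norm_num) (by norm_num) hC (by linear_combination -d * huv)
          exact bdd_cusp (by norm_num) (by norm_num) (e12_ne _) n9 hj (eta2_tr a b c d h) k3 k9
            (by norm_num) (by norm_num)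
      · obtain ⟨u, v, huv⟩ := (p3 c h3).mul_right (p3 c h3)
        obtain ⟨κ3, -, k3⟩ := eta2_dec (g := 1) (e := 3) (C := c) (k := u * d) (D := 3 * v * d) h
          (by norm_num) (by norm_num) (by ring) (by linear_combination -d * huv)
        obtain ⟨κ9, n9, k9⟩ := eta2_dec (g := 1) (e := 9) (C := c) (k := u * d) (D := v * d) h
          (by norm_num) (by norm_num) (by ring) (by linear_combination -d * huv)
        exact bdd_cusp (by norm_num) (by norm_num) (e12_ne _) n9 hj (eta2_tr a b c d h) k3 k9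
          (by norm_num) (by norm_num)
  obtain rfl : c = 27 := tendsto_nhds_unique
    (tendsto_const_nhds.congr' (ev_pos.mono fun z hz => (hc z hz).symm)) tendsto_inf
  linear_combination hc z hz

/-- A factor with a nonzero leading term can be cancelled. -/
lemma eq_zero_of_mul {F G H : ℂ → ℂ} (hF : Hol F) (hG : Hol G)
    (h : ∀ z : ℂ, 0 < z.im → F z * G z = 0) {c : ℂ} (hc : c ≠ 0)
    (ht : Tendsto (fun z => H z * G z) atI (𝓝 c)) {z : ℂ} (hz : 0 < z.im) : F z = 0 := by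
  have an : ∀ F : ℂ → ℂ, Hol F → AnalyticOnNhd ℂ F {z : ℂ | 0 < z.im} := fun F hF z hz =>
    DifferentiableOn.analyticAt (fun w hw => (hF w hw).differentiableWithinAt)
      ((isOpen_lt continuous_const continuous_im).mem_nhds hz)
  refine (AnalyticOnNhd.eq_zero_or_eq_zero_of_mul_eq_zero (an F hF) (an G hG) h
    (convex_halfSpace_im_gt 0).isPreconnected).elim (fun H => H z hz) fun H0 => (hc ?_).elim
  refine tendsto_nhds_unique ht (tendsto_const_nhds.congr' (ev_pos.mono fun z hz => ?_))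
  have : G z = 0 := H0 z hz
  simp [this]

end Pool.Agent.Lib.MP_23455a_nt.ModA
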