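import Pool.Agent.Lib.MP_23455a_nt.Defs
import Pool.Agent.Lib.MP_696deb_nt.KleinTheta
import Pool.Agent.Lib.MP_696deb_nt.Transport
import Pool.Agent.Lib.MP_696deb_nt.JFun
import Pool.Agent.Lib.MP_23455a_nt.ModA

set_option autoImplicit false

open Complex PeriodPair ModularForm
open Pool.Agent.Shared.Weier Pool.Agent.Lib.MP_696deb_nt Pool.Agent.Lib.MP_696deb_nt.Gal

namespace Pool.Agent.Lib.MP_23455a_nt

lemma indep_im {w : ℂ} (h : w.im ≠ 0) : LinearIndependent ℝ ![w, 1] :=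
  LinearIndependent.pair_iff.mpr fun s t hst => by
    have h1 := congr_arg Complex.im hst
    have h2 := congr_arg Complex.re hst
    simp [h] at h1
    simpa [h1] using h2

/-- The lattice spanned by `τ` and `1`. -/
noncomputable def lat (τ : ℂ) : PeriodPair :=
  if h : 0 < τ.im then ⟨τ, 1, indep_im h.ne'⟩ else ⟨I, 1, indep_im (by simp)⟩

lemma lat_ω₁ {τ : ℂ} (h : 0 < τ.im) : (lat τ).ω₁ = τ := by rw [lat, dif_pos h]

lemma lat_ω₂ (τ : ℂ) : (lat τ).ω₂ = 1 := by rw [lat]; split_ifs <;> rfl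

lemma mem_lat {τ z : ℂ} (h : 0 < τ.im) : z ∈ (lat τ).lattice ↔ ∃ m n : ℤ, z = m * τ + n := by
  rw [PeriodPair.mem_lattice, lat_ω₁ h, lat_ω₂]
  simp only [mul_one, eq_comm]

/-- The point `t` has order `27` modulo the lattice. -/
def Ord27 (L : PeriodPair) (t : ℂ) : Prop := ∀ k : ℤ, k * t ∈ L.lattice ↔ 27 ∣ k

/-- The Hauptmodul of level nine. -/
noncomputable def kv (L : PeriodPair) (t : ℂ) : ℂ :=
  (℘[L] (3 * t) - ℘[L] (6 * t)) / (℘[L] (6 * t) - ℘[L] (12 * t))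

/-- A modular unit of level `27`. -/
noncomputable def ku (L : PeriodPair) (t : ℂ) : ℂ :=
  (℘[L] (4 * t) - ℘[L] (7 * t)) * (℘[L] (3 * t) - ℘[L] (9 * t)) /
    ((℘[L] (2 * t) - ℘[L] (4 * t)) * (℘[L] (7 * t) - ℘[L] (9 * t)))

/-- The first coordinate on `X_0(27)`. -/
noncomputable def kx (L : PeriodPair) (t : ℂ) : ℂ := (kv L t ^ 2 + kv L t + 1) / ku L t ^ 2

/-- The second coordinate on `X_0(27)`. -/
noncomputable def ky (L : PeriodPair) (t : ℂ) : ℂ :=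
  (kv L t ^ 3 - 3 * kv L t - 1) / (kv L t * (kv L t + 1)) + 1

variable {L : PeriodPair} {t τ : ℂ}

theorem ord27_lat (hτ : 0 < τ.im) : Ord27 (lat (27 * τ)) τ := fun k => by
  rw [mem_lat (im_mul_pos hτ)]
  refine ⟨fun ⟨m, n, h⟩ => ⟨m, ?_⟩, fun ⟨m, h⟩ => ⟨m, 0, by rw [h]; push_cast; ring⟩⟩
  have := congr_arg Complex.im h
  simp only [mul_im, intCast_re, intCast_im, zero_mul, add_zero, add_im, re_ofNat, im_ofNat] at this
  exact_mod_cast mul_right_cancel₀ hτ.ne' (this.trans (by ring) : (k : ℝ) * τ.im = 27 * m * τ.im)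

namespace ModB

open Filter Topology Klein ModA
open scoped Real

lemma sc_of_basis {M : PeriodPair} {c : ℂ} (hc : c ≠ 0) {a b a' b' e : ℤ}
    (h : e * (a * b' - b * a') = 1) (h1 : c * M.ω₁ = a * L.ω₁ + b * L.ω₂)
    (h2 : c * M.ω₂ = a' * L.ω₁ + b' * L.ω₂) : Sc c M L := by
  have h' : (e : ℂ) * (a * b' - b * a') = 1 := by exact_mod_cast h
  refine ⟨hc, fun z => ?_⟩
  simp only [mem_lattice]
  constructor
  · rintro ⟨m, n, k⟩
    refine ⟨e * (m * b' - n * a'), e * (n * a - m * b), mul_left_cancel₀ hc ?_⟩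
    push_cast
    linear_combination k + (e * (m * b' - n * a')) * h1 + e * (n * a - m * b) * h2 +
      (m * L.ω₁ + n * L.ω₂) * h'
  · rintro ⟨m, n, rfl⟩
    exact ⟨m * a + n * a', m * b + n * b', by push_cast; linear_combination -m * h1 - n * h2⟩

lemma sc_mob {a b c d : ℤ} (h : a * d - b * (27 * c) = 1) (hτ : 0 < τ.im) :
    Sc (27 * c * τ + d) (lat (27 * mob a b (27 * c) d τ)) (lat (27 * τ)) ∧
      (27 * c * τ + d) * mob a b (27 * c) d τ - a * τ ∈ (lat (27 * τ)).lattice := by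
  have hj : (27 * c * τ + d : ℂ) ≠ 0 := by
    simpa using den_ne (by omega : a * d - b * (27 * c) ≠ 0) hτ
  have e : (27 * c * τ + d) * mob a b (27 * c) d τ = a * τ + b := by
    rw [mob]; push_cast; field_simp
  refine ⟨sc_of_basis hj (a := a) (b := 27 * b) (a' := c) (b' := d) (e := 1)
    (by linear_combination h) ?_ ?_, (mem_lat (im_mul_pos hτ)).mpr ⟨0, b, by rw [e]; simp⟩⟩
  · rw [lat_ω₁ (im_mul_pos (im_mob_pos (by omega) hτ)), lat_ω₁ (im_mul_pos hτ), lat_ω₂]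
    push_cast at e ⊢
    linear_combination 27 * e
  · rw [lat_ω₂, lat_ω₁ (im_mul_pos hτ), lat_ω₂]; ring

lemma wp_sc {M : PeriodPair} {c s : ℂ} (h1 : Sc c M L) (h2 : c * s - t ∈ L.lattice) (k : ℕ)
    [k.AtLeastTwo] : ℘[L] (OfNat.ofNat k * t) = c⁻¹ ^ 2 * ℘[M] (OfNat.ofNat k * s) := by
  rw [← h1.wp, ← L.weierstrassP_add_coe (OfNat.ofNat k * t) ⟨_, nsmul_mem h2 k⟩]
  congr 1
  change (k : ℂ) * t + k • (c * s - t) = c * (k * s)
  rw [nsmul_eq_mul]
  ring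

lemma kv_sc {M : PeriodPair} {c s : ℂ} (h1 : Sc c M L) (h2 : c * s - t ∈ L.lattice) :
    kv L t = kv M s := by
  simp only [kv, wp_sc h1 h2, ← mul_sub]
  rw [mul_div_mul_left _ _ (pow_ne_zero 2 (inv_ne_zero h1.ne))]

lemma ku_sc {M : PeriodPair} {c s : ℂ} (h1 : Sc c M L) (h2 : c * s - t ∈ L.lattice) :
    ku L t = ku M s := by
  have := pow_ne_zero 2 (inv_ne_zero h1.ne)
  simp only [ku, wp_sc h1 h2, ← mul_sub]
  rw [mul_mul_mul_comm, mul_mul_mul_comm _ (_ - _) (c⁻¹ ^ 2),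
    mul_div_mul_left _ _ (mul_ne_zero this this)]

/-- One half of the product formula for a Klein form. -/
noncomputable def ww (τ : ℂ) (a : ℤ) : ℂ := poch (q1 (27 * τ)) (q1 (a * τ))

/-- The Klein forms of level `27`. -/
noncomputable def kk (τ : ℂ) (a : ℤ) : ℂ := q1 (τ * a ^ 2 / 54) * Th (27 * τ) (a * τ)

/-- The division values of the Weierstrass function. -/
noncomputable def pp (τ : ℂ) (a : ℤ) : ℂ := (lat (27 * τ)).weierstrassP (a * τ)

lemma kk_eq (τ : ℂ) (a : ℤ) :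
    kk τ a = q1 (τ * (a * (a - 27) / 54)) * (ww τ a * ww τ (27 - a)) := by
  rw [kk, Th, ww, ww, show τ * (a * (a - 27) / 54) = τ * a ^ 2 / 54 + -(a * τ) / 2 by ring, q1_add]
  push_cast
  rw [sub_mul]
  ring

lemma kk_symm (τ : ℂ) (a : ℤ) : kk τ (27 - a) = kk τ a := by
  rw [kk_eq, kk_eq, sub_sub_cancel, mul_comm (ww τ a)]
  push_cast
  ring_nf

lemma hol_kk (a : ℤ) : Hol fun τ => kk τ a := fun τ h => by
  have hw : ∀ b : ℤ, DifferentiableAt ℂ (fun τ => ww τ b) τ := fun b =>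
    differentiableAt_poch ((analyticAt_q1 _).comp (by fun_prop))
      ((analyticAt_q1 _).comp (by fun_prop)) (norm_q1_lt (by simpa using h))
  simp only [kk_eq]
  exact (show DifferentiableAt ℂ (fun τ => q1 (τ * (a * (a - 27) / 54))) τ by
    unfold q1; fun_prop).mul ((hw _).mul (hw _))

lemma tendsto_ww (a : ℕ) [a.AtLeastTwo] :
    Tendsto (fun τ => ww τ (OfNat.ofNat a)) atI (𝓝 1) := by
  have h1 := (differentiableAt_poch (x := fun s => s ^ 27) (w := fun s => s ^ a) (s := 0)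
    (by fun_prop) (by fun_prop) (by simp)).continuousAt.tendsto
  rw [zero_pow (NeZero.ne a), poch_zero] at h1
  refine (h1.comp tendsto_q1).congr fun τ => ?_
  simp only [Function.comp, ww, ← q1_nat_mul, Nat.cast_ofNat, Int.cast_ofNat]
  rfl

variable (h : 0 < τ.im)

include h

lemma notMem {a : ℤ} (ha : ¬ 27 ∣ a) : a * τ ∉ (lat (27 * τ)).lattice := fun e =>
  ha ((ord27_lat h a).mp e)

lemma kk_ne (a : ℤ) (ha : ¬ 27 ∣ a) : kk τ a ≠ 0 :=
  mul_ne_zero (q1_ne _) (Th_ne (im_mul_pos h) fun m n e =>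
    notMem h ha ((mem_lat (im_mul_pos h)).mpr ⟨m, n, e⟩))

lemma pp_symm (a : ℤ) : pp τ (27 - a) = pp τ a := by
  rw [pp, pp, ← PeriodPair.weierstrassP_neg _ (a * τ), ← (lat (27 * τ)).weierstrassP_add_coe
    (-(a * τ)) ⟨_, (mem_lat (im_mul_pos h)).mpr ⟨1, 0, rfl⟩⟩]
  push_cast
  ring_nf

lemma pp_sub (a b c d : ℤ)
    (H : ¬ 27 ∣ a ∧ ¬ 27 ∣ b ∧ (c = a + b ∨ c = 27 - (a + b)) ∧ d = a - b) :
    pp τ b - pp τ a =
      deriv (Th (27 * τ)) 0 ^ 2 * (kk τ c * kk τ d) / (kk τ a ^ 2 * kk τ b ^ 2) := by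
  obtain ⟨ha, hb, hc, rfl⟩ := H
  have hω : 0 < (27 * τ).im := im_mul_pos h
  have e := wp_sub_of_theta (L := lat (27 * τ)) (differentiable_Th hω) (Th_neg hω)
    (fun z hz => Th_ne hω fun m n e => hz ((mem_lat hω).mpr ⟨m, n, e⟩)) (deriv_Th_ne hω)
    ⟨-q1 (-(27 * τ) / 2), -(2 * π * I), neg_ne_zero.mpr (q1_ne _), fun z => by
      rw [lat_ω₁ hω, Th_add_omega hω, sub_eq_add_neg, q1_add, q1]
      simp only [q1]
      ring_nf⟩
    ⟨-1, 0, by simp, fun z => by simp [lat_ω₂, Th_add_one]⟩ (notMem h ha) (notMem h hb)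
  have e2 : q1 (τ * (a + b) ^ 2 / 54) * q1 (τ * (a - b) ^ 2 / 54) =
      q1 (τ * a ^ 2 / 54) ^ 2 * q1 (τ * b ^ 2 / 54) ^ 2 := by
    simp only [sq (q1 _), ← q1_add]
    ring_nf
  rw [eq_div_iff (mul_ne_zero (pow_ne_zero 2 (kk_ne h a ha)) (pow_ne_zero 2 (kk_ne h b hb))),
    show kk τ c = kk τ (a + b) by rcases hc with rfl | rfl <;> simp only [kk_symm]]
  simp only [kk, pp]
  push_cast
  rw [add_mul (a : ℂ), sub_mul (a : ℂ)]
  linear_combination -(q1 (τ * a ^ 2 / 54) ^ 2 * q1 (τ * b ^ 2 / 54) ^ 2) * e -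
    deriv (Th (27 * τ)) 0 ^ 2 * Th (27 * τ) (a * τ + b * τ) * Th (27 * τ) (a * τ - b * τ) * e2

lemma kk_all : deriv (Th (27 * τ)) 0 ≠ 0 ∧ kk τ 3 ≠ 0 ∧ kk τ 6 ≠ 0 ∧ kk τ 9 ≠ 0 ∧ kk τ 12 ≠ 0 :=
  ⟨deriv_Th_ne (im_mul_pos h), kk_ne h _ (by decide), kk_ne h _ (by decide),
    kk_ne h _ (by decide), kk_ne h _ (by decide)⟩

lemma rel1 : kk τ 3 * kk τ 12 ^ 2 + kk τ 3 ^ 2 * kk τ 6 = kk τ 12 * kk τ 6 ^ 2 := by
  obtain ⟨k0, k3, k6, k9, k12⟩ := kk_all h
  have : pp τ 3 - pp τ 6 + (pp τ 6 - pp τ 12) = pp τ 3 - pp τ 12 := by ring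
  rw [pp_sub h 6 3 9 3 (by decide), pp_sub h 12 6 9 6 (by decide),
    pp_sub h 12 3 12 9 (by decide)] at this
  field_simp at this
  linear_combination this

lemma rel2 : kk τ 12 ^ 3 * kk τ 6 + kk τ 6 * kk τ 3 ^ 3 = kk τ 9 ^ 3 * kk τ 12 := by
  obtain ⟨k0, k3, k6, k9, k12⟩ := kk_all h
  have : pp τ 3 - pp τ 9 + (pp τ 9 - pp τ 12) = pp τ 3 - pp τ 12 := by ring
  rw [pp_sub h 9 3 12 6 (by decide), pp_sub h 12 9 6 3 (by decide),
    pp_sub h 12 3 12 9 (by decide)] at this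
  field_simp at this
  linear_combination this

lemma kv_eq : kv (lat (27 * τ)) τ = kk τ 12 ^ 2 / (kk τ 3 * kk τ 6) := by
  obtain ⟨k0, k3, k6, k9, k12⟩ := kk_all h
  have : kv (lat (27 * τ)) τ = (pp τ 3 - pp τ 6) / (pp τ 6 - pp τ 12) := by
    simp only [kv, pp, Int.cast_ofNat]
  rw [this, pp_sub h 6 3 9 3 (by decide), pp_sub h 12 6 9 6 (by decide)]
  field_simp

lemma kv_add_one : kv (lat (27 * τ)) τ + 1 = kk τ 12 * kk τ 6 / kk τ 3 ^ 2 := by
  obtain ⟨k0, k3, k6, k9, k12⟩ := kk_all h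
  rw [kv_eq h]
  field_simp
  linear_combination rel1 h

lemma ku_eq : ku (lat (27 * τ)) τ = kk τ 12 / kk τ 3 := by
  obtain ⟨k0, k3, k6, k9, k12⟩ := kk_all h
  have k2 := kk_ne h 2 (by decide)
  have k4 := kk_ne h 4 (by decide)
  have k7 := kk_ne h 7 (by decide)
  have k11 := kk_ne h 11 (by decide)
  have : ku (lat (27 * τ)) τ =
      (pp τ 4 - pp τ 7) * (pp τ 3 - pp τ 9) / ((pp τ 2 - pp τ 4) * (pp τ 7 - pp τ 9)) := by
    simp only [ku, pp, Int.cast_ofNat]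
  rw [this, pp_sub h 7 4 11 3 (by decide), pp_sub h 9 3 12 6 (by decide),
    pp_sub h 4 2 6 2 (by decide), pp_sub h 9 7 11 2 (by decide)]
  field_simp

lemma ku_cube : kv (lat (27 * τ)) τ * (kv (lat (27 * τ)) τ + 1) = ku (lat (27 * τ)) τ ^ 3 := by
  obtain ⟨k0, k3, k6, k9, k12⟩ := kk_all h
  rw [kv_add_one h, kv_eq h, ku_eq h]
  field_simp

lemma kx_eq : kx (lat (27 * τ)) τ = kk τ 9 ^ 3 / (kk τ 3 * kk τ 6 * kk τ 12) := by
  obtain ⟨k0, k3, k6, k9, k12⟩ := kk_all h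
  rw [kx, show kv (lat (27 * τ)) τ ^ 2 + kv (lat (27 * τ)) τ + 1 = ku (lat (27 * τ)) τ ^ 3 + 1 by
    linear_combination ku_cube h, ku_eq h]
  field_simp
  linear_combination rel2 h

lemma kv_two : kv (lat (27 * τ)) (2 * τ) = -1 / (1 + kv (lat (27 * τ)) τ) := by
  obtain ⟨k0, k3, k6, k9, k12⟩ := kk_all h
  have : kv (lat (27 * τ)) (2 * τ) = (pp τ 6 - pp τ 12) / -(pp τ (27 - 3) - pp τ 12) := by
    simp only [kv, pp, ← mul_assoc, neg_sub]
    norm_num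
  rw [this, pp_symm h, add_comm 1, kv_add_one h, pp_sub h 12 6 9 6 (by decide),
    pp_sub h 12 3 12 9 (by decide)]
  field_simp

lemma ku_two : ku (lat (27 * τ)) (2 * τ) = -(kk τ 3 / kk τ 6) := by
  obtain ⟨k0, k3, k6, k9, k12⟩ := kk_all h
  have k4 := kk_ne h 4 (by decide)
  have k5 := kk_ne h 5 (by decide)
  have k8 := kk_ne h 8 (by decide)
  have k14 := kk_ne h 14 (by decide)
  have : ku (lat (27 * τ)) (2 * τ) = (pp τ 8 - pp τ 14) * (pp τ 6 - pp τ (27 - 9)) /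
      ((pp τ 4 - pp τ 8) * -(pp τ (27 - 9) - pp τ 14)) := by
    simp only [ku, pp, ← mul_assoc, neg_sub]
    norm_num
  rw [this, pp_symm h, pp_sub h 14 8 5 6 (by decide), pp_sub h 9 6 12 3 (by decide),
    pp_sub h 8 4 12 4 (by decide), pp_sub h 14 9 4 5 (by decide)]
  field_simp

lemma eul_split (d m : ℕ) (hd : m * d = 27) :
    eul (q1 (d * τ)) = ∏ r ∈ Finset.range m, ww τ ((r + 1) * d) := by
  have h0 : (0 : ℝ) < d := by exact_mod_cast Nat.pos_of_ne_zero (by rintro rfl; omega)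
  rw [eul_eq_poch, poch_split (norm_q1_lt (by simpa using mul_pos h0 h)) (m := m)
    (by rintro rfl; omega)]
  refine Finset.prod_congr rfl fun r _ => ?_
  rw [ww, ← pow_succ, ← q1_nat_mul, ← q1_nat_mul, ← mul_assoc, ← Nat.cast_mul, hd]
  push_cast
  rw [mul_assoc]

omit h in
lemma phiX_eq : phiX τ = (q1 τ ^ 2)⁻¹ *
    (eul (q1 (9 * τ)) ^ 4 / (eul (q1 (3 * τ)) * eul (q1 (27 * τ)) ^ 3)) := by
  have e : q1 (3 * τ / 24) * q1 (27 * τ / 24) ^ 3 = q1 τ ^ 2 * q1 (9 * τ / 24) ^ 4 := by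
    simp only [← q1_nat_mul, ← q1_add]
    congr 1
    push_cast
    ring
  have := q1_ne τ
  have := q1_ne (9 * τ / 24)
  rw [phiX, ModA.eta_q, ModA.eta_q, ModA.eta_q, mul_pow, mul_pow, mul_mul_mul_comm, e]
  generalize eul (q1 (3 * τ)) * eul (q1 (27 * τ)) ^ 3 = x
  by_cases hx : x = 0
  · simp [hx]
  · field_simp

omit h in
lemma phiX_cube : phiX τ ^ 3 = R9 (3 * τ) := by
  rw [phiX, R9, show 3 * (3 * τ) = 9 * τ by ring, show 9 * (3 * τ) = 27 * τ by ring, div_pow,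
    mul_pow, ← pow_mul, ← pow_mul]

omit h in
lemma phiY_eq : phiY τ = t9 (3 * τ) + 4 := by
  rw [phiY, t9, show 9 * (3 * τ) = 27 * τ by ring]

omit h in
lemma tendsto_Y : Tendsto (fun τ => q1 τ ^ 3 * t9 (3 * τ)) atI (𝓝 1) := by
  have := ((tendsto_eul_mul 3).pow 3).div ((tendsto_eul_mul 27).pow 3) (by simp)
  simp only [one_pow, div_one] at this
  refine this.congr fun τ => ?_
  have e := t9_eq (3 * τ)
  have hq : q1 (3 * τ) = q1 τ ^ 3 := by simpa using q1_nat_mul 3 τ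
  rw [show 9 * (3 * τ) = 27 * τ by ring] at e
  rw [← hq]
  exact e.symm

lemma kv_inv : (kv (lat (27 * τ)) τ)⁻¹ =
    q1 τ ^ 3 * (ww τ 3 * ww τ 24 * (ww τ 6 * ww τ 21) / (ww τ 12 * ww τ 15) ^ 2) := by
  have e : q1 (τ * -(4 / 3)) * q1 (τ * -(7 / 3)) = q1 τ ^ 3 * q1 (τ * -(10 / 3)) ^ 2 := by
    simp only [← q1_nat_mul, ← q1_add]
    ring_nf
  have := q1_ne (τ * -(10 / 3))
  rw [kv_eq h, inv_div]
  simp only [kk_eq]
  norm_num only
  rw [mul_mul_mul_comm, e, mul_pow (q1 _), mul_comm (q1 τ ^ 3), mul_assoc,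
    mul_div_mul_left _ _ (pow_ne_zero 2 this), mul_div_assoc]

end ModB

open ModA ModB Filter Topology

theorem Ord27.exists_sc (h : Ord27 L t) :
    ∃ τ c : ℂ, 0 < τ.im ∧ Sc c (lat (27 * τ)) L ∧ c * τ - t ∈ L.lattice := by
  obtain ⟨m, n, e⟩ := mem_lattice.mp ((h 27).mpr dvd_rfl)
  have hg : 0 < Int.gcd m n := Int.gcd_pos_iff.mpr (by
    by_contra! hc
    have h0 : t = 0 := by simpa [hc.1, hc.2] using e
    simpa [h0] using h 1)
  obtain ⟨g, m, n, -, hc, rfl, rfl⟩ := Int.exists_gcd_one' hg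
  obtain ⟨x, y, hxy⟩ := Int.isCoprime_iff_gcd_eq_one.mpr hc
  have key : ¬ (3 : ℤ) ∣ g := by
    rintro ⟨k, hk⟩
    refine absurd ((h 9).mp (mem_lattice.mpr ⟨m * k, n * k, mul_left_cancel₀ three_ne_zero ?_⟩))
      (by decide)
    rw [hk] at e
    push_cast at e ⊢
    linear_combination e
  have hg : IsCoprime (g : ℤ) (3 ^ 3) :=
    (Int.prime_three.coprime_iff_not_dvd.mpr key).symm.pow_right
  obtain ⟨d, b, hd⟩ := hg
  have hxy' : (x : ℝ) * m + y * n = 1 := by exact_mod_cast hxy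
  have k0 : ∀ r s : ℝ, r * (m * L.ω₁ + n * L.ω₂) + s * (-y * L.ω₁ + x * L.ω₂) = 0 → r = 0 :=
    fun r s k => by
      have := LinearIndependent.pair_iff.mp L.indep (r * m - s * y) (r * n + s * x) (by
        simp only [real_smul]; push_cast; linear_combination k)
      linear_combination x * this.1 + y * this.2 - r * hxy'
  have main : ∀ ε : ℤ, ε * ε = 1 → ∀ ω : ℂ, ω = ε * (-y * L.ω₁ + x * L.ω₂) →
      0 < ((m * L.ω₁ + n * L.ω₂) / (27 * ω)).im →
      ∃ τ c : ℂ, 0 < τ.im ∧ Sc c (lat (27 * τ)) L ∧ c * τ - t ∈ L.lattice := fun ε hε ω hω h0 => by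
    have h1 : ω ≠ 0 := by rintro rfl; simp at h0
    have h2 : Sc ω (lat (27 * ((m * L.ω₁ + n * L.ω₂) / (27 * ω)))) L :=
      sc_of_basis h1 (a := m) (b := n) (a' := -(ε * y)) (b' := ε * x) (e := ε)
        (by linear_combination (x * m + y * n) * hε + hxy)
        (by rw [lat_ω₁ (im_mul_pos h0)]; field_simp) (by rw [lat_ω₂, hω]; push_cast; ring)
    obtain ⟨h3, h4⟩ := sc_mob (a := g) (b := -b) (c := 1) (d := d) (by linear_combination hd) h0
    refine ⟨_, _, im_mob_pos (by linarith) h0, h3.trans h2, ?_⟩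
    convert (h2.mem _).mpr h4 using 1
    rw [mul_sub, mul_assoc, sub_right_inj]
    field_simp
    push_cast at e ⊢
    linear_combination -e
  rcases lt_trichotomy 0 ((m * L.ω₁ + n * L.ω₂) / (27 * (-y * L.ω₁ + x * L.ω₂))).im with k | k | k
  · exact main 1 rfl _ (by simp) k
  · set ω := -y * L.ω₁ + x * L.ω₂
    by_cases h1 : ω = 0
    · have := LinearIndependent.pair_iff.mp L.indep (-y) x (by simpa [ω] using h1)
      exact absurd hxy' (by simp [this.2, neg_eq_zero.mp this.1])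
    obtain ⟨r, hr⟩ : ∃ r : ℝ, (r : ℂ) = (m * L.ω₁ + n * L.ω₂) / (27 * ω) :=
      ⟨_, Complex.ext rfl (by simpa using k)⟩
    rw [eq_div_iff (by simpa using h1)] at hr
    exact absurd (k0 1 (-(27 * r)) (by push_cast; linear_combination -hr)) one_ne_zero
  · exact main (-1) rfl (-(-y * L.ω₁ + x * L.ω₂)) (by simp)
      (by rw [mul_neg, div_neg, neg_im]; linarith)

theorem kx_lat (hτ : 0 < τ.im) : kx (lat (27 * τ)) τ = phiX τ := by
  have e3 := eul_split hτ 3 9 rfl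
  have e9 := eul_split hτ 9 3 rfl
  have e27 := eul_split hτ 27 1 rfl
  have n3 := eul_ne (z := 3 * τ) (im_mul_pos hτ)
  have n0 := q1_ne τ
  have e : q1 (τ * -(4 / 3)) * q1 (τ * -(7 / 3)) * q1 (τ * -(10 / 3)) =
      q1 τ ^ 2 * q1 (τ * -3) ^ 3 := by
    simp only [← q1_nat_mul, ← q1_add]
    ring_nf
  have n1 := q1_ne (τ * -3)
  norm_num [Finset.prod_range_succ] at e3 e9 e27
  rw [kx_eq hτ, phiX_eq, e9, e27]
  rw [e3] at n3 ⊢
  simp only [kk_eq]
  norm_num only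
  simp only [ne_eq, mul_eq_zero, not_or] at n3
  obtain ⟨⟨⟨⟨⟨⟨⟨⟨w1, w2⟩, w3⟩, w4⟩, w5⟩, w6⟩, w7⟩, w8⟩, w9⟩ := n3
  rw [mul_mul_mul_comm (q1 _), mul_mul_mul_comm (_ * _), e]
  generalize q1 (τ * -3) = u at n1 ⊢
  field_simp

theorem phi_eq (hτ : 0 < τ.im) : phiY τ ^ 2 + phiY τ = phiX τ ^ 3 - 7 := by
  rw [phiX_cube, phiY_eq, R9_t9 (im_mul_pos hτ)]
  ring

theorem Ord27.kv_ne (h : Ord27 L t) : kv L t ≠ 0 ∧ kv L t + 1 ≠ 0 := by
  obtain ⟨τ, c, h1, h2, h3⟩ := h.exists_sc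
  obtain ⟨k0, k3, k6, k9, k12⟩ := kk_all h1
  rw [kv_sc h2 h3, kv_add_one h1, kv_eq h1]
  constructor <;> positivity

theorem ky_lat (hτ : 0 < τ.im) : ky (lat (27 * τ)) τ = phiY τ := by
  have hv : Hol fun τ => kv (lat (27 * τ)) τ := fun τ h =>
    (((hol_kk 12 τ h).pow 2).div ((hol_kk 3 τ h).mul (hol_kk 6 τ h))
      (mul_ne_zero (kk_ne h _ (by decide)) (kk_ne h _ (by decide)))).congr_of_eventuallyEq
      (mem_of_superset ((isOpen_lt continuous_const continuous_im).mem_nhds h) fun _ hz => kv_eq hz)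
  have hy : Hol fun τ => ky (lat (27 * τ)) τ := fun τ h => by
    have h1 := hv τ h
    obtain ⟨h2, h3⟩ := (ord27_lat h).kv_ne
    unfold ky
    fun_prop (disch := positivity)
  have hY : Hol phiY := fun τ h => by
    rw [funext fun τ => phiY_eq (τ := τ)]
    exact ((hol_t9 _ (im_mul_pos h)).comp τ (by fun_prop)).add_const 4
  have hW := (((tendsto_ww 3).mul (tendsto_ww 24)).mul ((tendsto_ww 6).mul (tendsto_ww 21))).div
    (((tendsto_ww 12).mul (tendsto_ww 15)).pow 2) (by simp)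
  have hs := (tendsto_q1.pow 3).mul hW
  have hT := ((((tendsto_const_nhds (x := (1 : ℂ))).sub ((hs.pow 2).const_mul 3)).sub
    (hs.pow 3)).div (hW.mul (hs.const_add 1)) (by simp)).add
    (tendsto_Y.add ((tendsto_q1.pow 3).mul_const 6))
  refine sub_eq_zero.mp (eq_zero_of_mul (F := fun τ => ky (lat (27 * τ)) τ - phiY τ)
    (G := fun τ => ky (lat (27 * τ)) τ + phiY τ + 1) (H := fun τ => q1 τ ^ 3)
    (fun τ h => (hy τ h).sub (hY τ h)) (fun τ h => ((hy τ h).add (hY τ h)).add_const 1)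
    (fun τ h => ?_) (by simp) (hT.congr' (ev_pos.mono fun τ h => ?_)) hτ)
  · obtain ⟨h2, h3⟩ := (ord27_lat h).kv_ne
    have h4 := phi_eq h
    have h5 := ku_cube h
    rw [← kx_lat h, kx, div_pow, ← pow_mul, mul_comm 2 3, pow_mul, ← h5] at h4
    have h6 : ky (lat (27 * τ)) τ ^ 2 + ky (lat (27 * τ)) τ = phiY τ ^ 2 + phiY τ := by
      rw [h4, ky]
      field_simp
      ring
    linear_combination h6
  · obtain ⟨h2, h3⟩ := (ord27_lat h).kv_ne
    have h4 := kv_inv h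
    have n0 := q1_ne τ
    simp only [Pi.div_apply, ← h4]
    rw [mul_comm (q1 τ ^ 3), ← div_eq_iff (pow_ne_zero 3 n0)] at h4
    rw [← h4, ky, phiY_eq]
    have h5 : 1 + (kv (lat (27 * τ)) τ)⁻¹ ≠ 0 := by
      rwa [← one_div, one_add_div h2, ne_eq, div_eq_zero_iff, not_or, ← ne_eq, ← ne_eq, and_iff_left h2]
    field_simp
    ring

theorem Ord27.two (h : Ord27 L t) : kx L (2 * t) = kx L t ∧ ky L (2 * t) = ky L t ∧
    kv L (2 * t) = -1 / (1 + kv L t) := by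
  obtain ⟨h4, h5⟩ := h.kv_ne
  obtain ⟨τ, c, h1, h2, h3⟩ := h.exists_sc
  have h3' : c * (2 * τ) - 2 * t ∈ L.lattice := by
    convert add_mem h3 h3 using 1
    ring
  obtain ⟨k0, k3, k6, k9, k12⟩ := kk_all h1
  have h6 : kv L (2 * t) = -1 / (1 + kv L t) := by rw [kv_sc h2 h3', kv_sc h2 h3, kv_two h1]
  have h7 : ku L (2 * t) * (kv L t + 1) = -ku L t := by
    rw [ku_sc h2 h3', ku_sc h2 h3, kv_sc h2 h3, kv_add_one h1, ku_two h1, ku_eq h1]
    field_simp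
  rw [add_comm] at h6
  refine ⟨?_, ?_, by rw [h6, add_comm]⟩
  · rw [kx, kx, h6, ← neg_sq (ku L t), ← h7, mul_pow, show (-1 / (kv L t + 1)) ^ 2 +
      -1 / (kv L t + 1) + 1 = (kv L t ^ 2 + kv L t + 1) / (kv L t + 1) ^ 2 by field_simp; ring,
      div_div, mul_comm]
  · rw [ky, ky, h6]
    have h8 : -1 / (kv L t + 1) + 1 = kv L t / (kv L t + 1) := by field_simp; ring
    rw [h8]
    field_simp
    ring

/-- The weight four form of level nine. -/
noncomputable def G9 (z : ℂ) : ℂ := η (3 * z) ^ 8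

theorem G9_ne (hτ : 0 < τ.im) : G9 τ ≠ 0 := pow_ne_zero _ (eta_ne (im_mul_pos hτ))

theorem G9_mob {a b c d : ℤ} (h : a * d - b * (9 * c) = 1) (hτ : 0 < τ.im) :
    G9 (mob a b (9 * c) d τ) = (9 * c * τ + d) ^ 4 * G9 τ := by
  have h3 := eta2_tr a (3 * b) (3 * c) d (by linear_combination h) (3 * τ) (im_mul_pos hτ)
  have e3 := mul_mob (m := 3) a b (3 * c) d τ
  have h4 : ∀ a b c d : ZMod 12, a * d - b * (9 * c) = 1 →
      4 • PsiE a (3 * b) (3 * c) d = 0 := by decide +kernel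
  have h6 := congr_arg e12 (h4 a b c d (by exact_mod_cast congr_arg (Int.cast : ℤ → ZMod 12) h))
  rw [e12_zero, e12, AddChar.map_nsmul_eq_pow] at h6
  rw [show 3 * (3 * c) = 9 * c by ring] at e3
  push_cast at h3 e3
  have hG : ∀ z, G9 z = eta2 (3 * z) ^ 4 := fun z => by rw [G9, eta2, ← pow_mul]
  rw [hG, hG, e3, h3, mul_pow, mul_pow, e12, h6]
  ring

theorem fT_pow (hτ : 0 < τ.im) :
    (phiY τ - 3 * phiX τ + 5) ^ 8 * (Dl (27 * τ) * G9 τ) = Dl τ * G9 (3 * τ) := by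
  have hY : Hol fun τ => t9 (3 * τ) + 9 := fun τ h =>
    ((hol_t9 _ (im_mul_pos h)).comp τ (by fun_prop)).add_const 9
  have hX : Hol fun τ => phiX τ * (t9 τ + 3) := fun τ h =>
    ((((hol_eta _ (im_mul_pos h)).comp τ (by fun_prop)).pow 4).div
      (((hol_eta _ (im_mul_pos h)).comp τ (by fun_prop)).mul
        (((hol_eta _ (im_mul_pos h)).comp τ (by fun_prop)).pow 3))
      (mul_ne_zero (eta_ne (im_mul_pos h)) (pow_ne_zero _ (eta_ne (im_mul_pos h))))).mul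
      ((hol_t9 τ h).add_const 3)
  have tY : Tendsto (fun τ => q1 τ ^ 3 * (t9 (3 * τ) + 9)) atI (𝓝 1) := by
    simpa [mul_add] using tendsto_Y.add ((tendsto_q1.pow 3).mul_const 9)
  have tX : Tendsto (fun τ => q1 τ ^ 3 * (phiX τ * (t9 τ + 3))) atI (𝓝 1) := by
    have := (((tendsto_eul_mul 9).pow 4).div ((tendsto_eul_mul 3).mul
      ((tendsto_eul_mul 27).pow 3)) (by simp)).mul (((tendsto_eul.pow 3).div
        ((tendsto_eul_mul 9).pow 3) (by simp)).add (tendsto_q1.mul_const 3))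
    simp only [one_pow, mul_one, div_one, zero_mul, add_zero] at this
    refine this.congr fun τ => ?_
    have := q1_ne τ
    simp only [Pi.div_apply]
    rw [← t9_eq, phiX_eq]
    field_simp
  have key := eq_zero_of_mul (F := fun τ => phiX τ * (t9 τ + 3) - (t9 (3 * τ) + 9))
    (G := fun τ => (phiX τ * (t9 τ + 3)) ^ 2 + phiX τ * (t9 τ + 3) * (t9 (3 * τ) + 9) +
      (t9 (3 * τ) + 9) ^ 2) (H := fun τ => q1 τ ^ 6) (fun τ h => (hX τ h).sub (hY τ h))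
    (fun τ h => (((hX τ h).pow 2).add ((hX τ h).mul (hY τ h))).add ((hY τ h).pow 2))
    (fun τ h => by
      have h1 := R9_t9 h
      have h2 := R9_t9 (z := 3 * τ) (im_mul_pos h)
      rw [← phiX_cube] at h2
      have h3 : phiX τ ^ 3 * (t9 τ * R9 τ) = t9 (3 * τ) ^ 3 := by
        have n1 := eta_ne h
        have n3 := eta_ne (z := 3 * τ) (im_mul_pos h)
        have n9 := eta_ne (z := 9 * τ) (im_mul_pos h)
        have n27 := eta_ne (z := 27 * τ) (im_mul_pos h)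
        rw [phiX, t9, t9, R9, show 9 * (3 * τ) = 27 * τ by ring]
        generalize η (3 * τ) = x, η (9 * τ) = y, η (27 * τ) = w at n3 n9 n27 ⊢
        field_simp
      rw [h1] at h3
      linear_combination h3 + 27 * h2) (by norm_num)
    ((((tX.pow 2).add (tX.mul tY)).add (tY.pow 2)).congr fun τ => by ring) hτ
  have n1 := eta_ne hτ
  have n3 := eta_ne (z := 3 * τ) (im_mul_pos hτ)
  have n9 := eta_ne (z := 9 * τ) (im_mul_pos hτ)
  have n27 := eta_ne (z := 27 * τ) (im_mul_pos hτ)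
  rw [show phiY τ - 3 * phiX τ + 5 = phiX τ * t9 τ by rw [phiY_eq]; linear_combination -key,
    phiX, t9, Dl, Dl, G9, G9, show 3 * (3 * τ) = 9 * τ by ring]
  generalize η (3 * τ) = x, η (9 * τ) = y, η (27 * τ) = w at n3 n9 n27 ⊢
  field_simp

end Pool.Agent.Lib.MP_23455a_nt
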