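import Pool.Agent.Lib.MP_23455a_nt.Cls
import Pool.Agent.Lib.MP_23455a_nt.Mod
import Pool.Agent.Lib.MP_696deb_nt.JInj
import Pool.Agent.Lib.MP_696deb_nt.AutC

set_option autoImplicit false

open NumberField Pool.Agent.Lib.MP_580eba_nt PeriodPair
open Pool.Agent.Lib.MP_696deb_nt Pool.Agent.Lib.MP_696deb_nt.Gal
open scoped Classical nonZeroDivisors

namespace Pool.Agent.Lib.MP_23455a_nt

variable {K : Type} [Field K] [NumberField K] {ι : K →+* ℂ} {L L' M M' : PeriodPair} {μ μ' c : ℂ}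
  {D D' : Dv K} {σ : ℂ ≃+* ℂ}

/-- The lattice is a multiple of the fractional ideal of `D`. -/
structure IsL (ι : K →+* ℂ) (L : PeriodPair) (μ : ℂ) (D : Dv K) : Prop where
  ne : μ ≠ 0
  mem : ∀ z, z ∈ L.lattice ↔ ∃ x ∈ ID D, z = μ * ι x

theorem IsL.mem_iff (h : IsL ι L μ D) {x : K} : μ * ι x ∈ L.lattice ↔ x ∈ ID D := by
  rw [h.mem]
  refine ⟨fun ⟨y, hy, e⟩ => ?_, fun hx => ⟨x, hx, rfl⟩⟩
  rwa [ι.injective (mul_left_cancel₀ h.ne e)]

lemma indep_aux [IsTotallyComplex K] (ι : K →+* ℂ) (b : Module.Basis (Fin 2) ℚ K) {s t : ℝ}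
    (h : (s : ℂ) * ι (b 0) + t * ι (b 1) = 0) : s = 0 ∧ t = 0 := by
  have key {u v : K} (hu : u ≠ 0) (r : ℝ) (e : ι v = r * ι u)
      (hs : ∀ x : K, ∃ p q : ℚ, x = p * u + q * v) : False := by
    have h1 (x : K) : ∃ a : ℝ, ι x = a * ι u := by
      obtain ⟨p, q, rfl⟩ := hs x
      exact ⟨p + q * r, by simp only [map_add, map_mul, map_ratCast, e]; push_cast; ring⟩
    obtain ⟨a, ha⟩ := h1 1
    have ha0 : (a : ℂ) ≠ 0 := fun h0 => by simp [h0] at ha
    refine IsTotallyComplex.complexEmbedding_not_isReal ι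
      (ComplexEmbedding.isReal_iff.2 (RingHom.ext fun x => ?_))
    obtain ⟨c, hc⟩ := h1 x
    have h2 : ι x = (c / a : ℝ) := by
      rw [map_one] at ha
      push_cast
      rw [eq_div_iff ha0, hc]
      linear_combination -c * ha
    rw [ComplexEmbedding.conjugate_coe_eq, h2, Complex.conj_ofReal]
  have hs (x : K) : x = (b.repr x 0 : ℚ) * b 0 + (b.repr x 1 : ℚ) * b 1 := by
    simpa [Fin.sum_univ_two, Rat.smul_def] using (b.sum_repr x).symm
  by_cases h0 : s = 0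
  · refine ⟨h0, ?_⟩
    simpa [h0, b.ne_zero] using h
  · exact (key (b.ne_zero 1) (-t / s) (by
      push_cast
      rw [div_mul_eq_mul_div, eq_div_iff (by exact_mod_cast h0)]
      linear_combination h) fun x => ⟨_, _, (hs x).trans (add_comm _ _)⟩).elim

theorem exists_isL [IsTotallyComplex K] (hK : Module.finrank ℚ K = 2) (ι : K →+* ℂ) (hμ : μ ≠ 0)
    (D : Dv K) : ∃ L, IsL ι L μ D := by
  let I : (FractionalIdeal (𝓞 K)⁰ K)ˣ := Units.mk0 _ (fr_ne D)
  let b0 := basisOfFractionalIdeal K I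
  let b := b0.reindex (Fintype.equivFinOfCardEq ((Module.finrank_eq_card_basis b0).symm.trans hK))
  have hb (x : K) : x ∈ ID D ↔ ∃ m n : ℤ, m * b 0 + n * b 1 = x := by
    have h1 := mem_span_basisOfFractionalIdeal K (I := I) (x := x)
    rw [← b0.range_reindex (Fintype.equivFinOfCardEq
      ((Module.finrank_eq_card_basis b0).symm.trans hK)), Submodule.mem_span_range_iff_exists_fun]
      at h1
    refine h1.symm.trans ⟨fun ⟨c, hc⟩ => ⟨c 0, c 1, ?_⟩, fun ⟨m, n, hc⟩ => ⟨![m, n], ?_⟩⟩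
    · simpa [Fin.sum_univ_two, b] using hc
    · simpa [Fin.sum_univ_two, b] using hc
  refine ⟨⟨μ * ι (b 0), μ * ι (b 1), LinearIndependent.pair_iff.mpr fun s t h => ?_⟩, hμ,
    fun z => ?_⟩
  · have h1 : (s : ℂ) * ι (b 0) + t * ι (b 1) = 0 := mul_left_cancel₀ hμ (by
      simp only [Complex.real_smul] at h; linear_combination h)
    exact indep_aux ι b h1
  · simp only [mem_lattice, hb]
    constructor
    · rintro ⟨m, n, rfl⟩
      exact ⟨_, ⟨m, n, rfl⟩, by simp only [map_add, map_mul, map_intCast]; ring⟩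
    · rintro ⟨_, ⟨m, n, rfl⟩, rfl⟩
      exact ⟨m, n, by simp only [map_add, map_mul, map_intCast]; ring⟩

theorem IsL.of_sc (h : IsL ι L μ D) (h' : Sc c L L') : IsL ι L' (c * μ) D := 
  ⟨mul_ne_zero h'.ne h.ne, fun z => by
    rw [← h'.symm.mem, h.mem]
    refine exists_congr fun x => and_congr_right fun _ => ?_
    rw [inv_mul_eq_iff_eq_mul₀ h'.ne, mul_assoc]⟩

theorem IsL.shift {x : K} (hx : x ≠ 0) (h : IsL ι L μ (dv x + D)) : IsL ι L (μ * ι x) D := 
  ⟨mul_ne_zero h.ne (by simpa using hx), fun z => by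
    rw [h.mem]
    constructor
    · rintro ⟨y, hy, rfl⟩
      refine ⟨x⁻¹ * y, (mul_mem_ID_iff hx).1 (by rwa [mul_inv_cancel_left₀ hx]), ?_⟩
      rw [mul_assoc, ← map_mul, mul_inv_cancel_left₀ hx]
    · rintro ⟨y, hy, rfl⟩
      exact ⟨x * y, (mul_mem_ID_iff hx).2 hy, by rw [map_mul, mul_assoc]⟩⟩

theorem IsL.sc (h : IsL ι L μ D) (h' : IsL ι L' μ' D) : Sc (μ' / μ) L L' := 
  ⟨div_ne_zero h'.ne h.ne, fun z => by
    rw [h.mem, h'.mem]
    refine exists_congr fun x => and_congr_right fun _ => ?_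
    rw [div_mul_eq_mul_div, div_eq_iff h.ne, mul_right_comm, mul_assoc,
      mul_right_inj' h'.ne]⟩

lemma exists_ne_zero_ID (D : Dv K) : ∃ y ∈ ID D, y ≠ 0 :=
  Submodule.exists_mem_ne_zero_of_ne_bot fun h => fr_ne D (FractionalIdeal.coeToSubmodule_eq_bot.1 h)

theorem IsL.cl_eq (h : IsL ι L μ D) (h' : IsL ι L' μ' D') (e : Sc c L L') : clD D = clD D' := by
  have h1 := h.of_sc e
  obtain ⟨y, hy, hy0⟩ := exists_ne_zero_ID D
  obtain ⟨w, -, hw⟩ := (h'.mem _).1 (h1.mem_iff.2 hy)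
  have hy' : ι y ≠ 0 := by simpa using hy0
  have hw0 : w ≠ 0 := by
    rintro rfl
    exact mul_ne_zero h1.ne hy' (by simpa using hw)
  have hx : w / y ≠ 0 := div_ne_zero hw0 hy0
  have h2 : μ' * ι (w / y) = c * μ := by rw [map_div₀, ← mul_div_assoc, ← hw, mul_div_cancel_right₀ _ hy']
  have h3 : D' = dv (w / y) + D := ID_inj (Submodule.ext fun x => by
    obtain ⟨x, rfl⟩ : ∃ u, x = w / y * u := ⟨(w / y)⁻¹ * x, (mul_inv_cancel_left₀ hx x).symm⟩
    rw [mul_mem_ID_iff hx, ← h'.mem_iff, ← h1.mem_iff, map_mul, ← mul_assoc, h2])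
  exact (clD_eq_iff.2 ⟨_, hx, h3⟩).symm

/-- A conjugate of a lattice with complex multiplication has complex multiplication. -/
theorem IsL.exists_cj [IsTotallyComplex K] (hK : Module.finrank ℚ K = 2) (h : IsL ι L μ D)
    (e : Cj σ L L') {g : K ≃ₐ[ℚ] K} (hg : ∀ x, σ (ι x) = ι (g x)) :
    ∃ μ' D', IsL ι L' μ' D' := by
  have h1 (a : 𝓞 K) {z : ℂ} (hz : z ∈ L'.lattice) : ι a * z ∈ L'.lattice := by
    rcases eq_or_ne (a : K) 0 with h0 | h0
    · simp [h0]
    have := e.isog_mem e (α := ι (g.symm a)) (by simpa using h0) (fun w hw => by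
      obtain ⟨x, hx, rfl⟩ := (h.mem w).1 hw
      rw [mul_left_comm, ← map_mul, h.mem_iff]
      exact (ID D).smul_mem (⟨g.symm a, a.2.map g.symm.toAlgHom.toRingHom.toIntAlgHom⟩ : 𝓞 K) hx) hz
    rwa [hg, g.apply_symm_apply] at this
  have hω : L'.ω₁ ≠ 0 := fun h0 => by
    simpa using (LinearIndependent.pair_iff.mp L'.indep 1 0 (by simp [h0])).1
  obtain ⟨M, hM⟩ := exists_isL hK ι hω 0
  obtain ⟨N, hN, hN'⟩ := exists_mul_mem (L := M) (M := L') fun z hz => by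
    obtain ⟨x, hx, rfl⟩ := (hM.mem z).1 hz
    obtain ⟨a, rfl⟩ := mem_ID_zero.1 hx
    rw [mul_comm]
    exact h1 a L'.ω₁_mem_lattice
  have h2 {z : ℂ} (hz : z ∈ L'.lattice) : ∃ x : K, z = L'.ω₁ * ι x := by
    obtain ⟨x, -, hx⟩ := (hM.mem _).1 (hN' z hz)
    have hN0 : (N : ℂ) ≠ 0 := by exact_mod_cast hN.ne'
    exact ⟨x / N, by rw [map_div₀, map_natCast, ← mul_div_assoc, ← hx, mul_div_cancel_left₀ _ hN0]⟩
  let S : Submodule (𝓞 K) K :=
    { carrier := {x | L'.ω₁ * ι x ∈ L'.lattice}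
      add_mem' := fun {a b} ha hb => by
        simpa only [Set.mem_ofPred_eq, map_add, mul_add] using add_mem ha hb
      zero_mem' := by simp
      smul_mem' := fun a x hx => by
        simpa only [Set.mem_ofPred_eq, Algebra.smul_def, map_mul, mul_left_comm L'.ω₁] using h1 a hx }
  obtain ⟨y, hy⟩ := h2 L'.ω₂_mem_lattice
  have hS : S = Submodule.span (𝓞 K) {1, y} := by
    refine le_antisymm (fun x hx => ?_) (Submodule.span_le.2 ?_)
    · obtain ⟨m, n, k⟩ := mem_lattice.1 (show L'.ω₁ * ι x ∈ L'.lattice from hx)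
      refine Submodule.mem_span_pair.2 ⟨m, n, ι.injective (mul_left_cancel₀ hω ?_)⟩
      rw [← k, hy]
      simp only [Algebra.smul_def, map_add, map_mul, map_intCast, map_one]
      rw [← hy]
      linear_combination -(n : ℂ) * hy
    · rintro _ (rfl | rfl)
      · simpa [S] using L'.ω₁_mem_lattice
      · exact show L'.ω₁ * ι _ ∈ L'.lattice from hy ▸ L'.ω₂_mem_lattice
  obtain ⟨D', hD⟩ := exists_ID (M := S) (hS ▸ Submodule.fg_span (Set.toFinite _)) fun h0 => by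
    have : (1 : K) ∈ S := hS ▸ Submodule.subset_span (by simp)
    simp [h0] at this
  refine ⟨L'.ω₁, D', hω, fun z => ⟨fun hz => ?_, ?_⟩⟩
  · obtain ⟨x, rfl⟩ := h2 hz
    exact ⟨x, hD ▸ hz, rfl⟩
  · rintro ⟨x, hx, rfl⟩
    rwa [hD] at hx

/-- The conjugate of a divisor. -/
noncomputable def cjD (g : K ≃ₐ[ℚ] K) (D : Dv K) : Dv K := D.equivMapDomain (MulAction.toPerm g)

theorem cjD_one (D : Dv K) : cjD 1 D = D := Finsupp.ext fun v => by simp [cjD]

theorem mem_ID_cjD (g : K ≃ₐ[ℚ] K) {x : K} : g x ∈ ID (cjD g D) ↔ x ∈ ID D := by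
  rw [mem_ID, mem_ID, map_eq_zero, ← (MulAction.toPerm g).forall_congr_right]
  refine or_congr_right (forall_congr' fun v => ?_)
  rw [cjD, Finsupp.equivMapDomain_apply, Equiv.symm_apply_apply, MulAction.toPerm_apply,
    ← ord_smul g v x]
  rfl

lemma cjD_neg (g : K ≃ₐ[ℚ] K) (D : Dv K) : cjD g (-D) = -cjD g D := Finsupp.ext fun _ => rfl

/-- Conjugation commutes with multiplication by ideals. -/
theorem IsL.cj_mul {B : Dv K} {g : K ≃ₐ[ℚ] K} (hg : ∀ x, σ (ι x) = ι (g x)) (h : IsL ι L 1 0)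
    (e : Cj σ L L') (h' : IsL ι L' μ B) (hM : IsL ι M 1 D) (e' : Cj σ M M') :
    IsL ι M' μ (cjD g D + B) := by
  have k1 {x y : K} (hx : x ∈ ID (cjD g D)) (hy : y ∈ ID B) : μ * ι (x * y) ∈ M'.lattice := by
    obtain ⟨x, rfl⟩ := g.surjective x
    rcases eq_or_ne x 0 with rfl | h0
    · simp
    have := e.isog_mem e' (α := ι x) (by simpa using h0) (fun w hw => by
      obtain ⟨u, hu, rfl⟩ := (h.mem w).1 hw
      rw [mul_left_comm, ← map_mul, hM.mem_iff]
      simpa using mul_mem_ID ((mem_ID_cjD g).1 hx) hu) (h'.mem_iff.2 hy)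
    rwa [hg, mul_left_comm, ← map_mul] at this
  have k2 {x : K} (hx : x ∈ ID (-cjD g D)) {z : ℂ} (hz : z ∈ M'.lattice) :
      ι x * z ∈ L'.lattice := by
    obtain ⟨x, rfl⟩ := g.surjective x
    rcases eq_or_ne x 0 with rfl | h0
    · simp
    rw [← cjD_neg, mem_ID_cjD] at hx
    have := e'.isog_mem e (α := ι x) (by simpa using h0) (fun w hw => by
      obtain ⟨u, hu, rfl⟩ := (hM.mem w).1 hw
      rw [mul_left_comm, ← map_mul, h.mem_iff]
      simpa using mul_mem_ID hx hu) hz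
    rwa [hg] at this
  refine ⟨h'.ne, fun z => ⟨fun hz => ?_, ?_⟩⟩
  · have h1 : (1 : K) ∈ ID (cjD g D) * ID (-cjD g D) := by
      rw [← ID_add, add_neg_cancel]
      exact mem_ID_zero.2 ⟨1, rfl⟩
    have key : ∀ u ∈ ID (cjD g D) * ID (-cjD g D),
        ∃ x ∈ ID (cjD g D + B), ι u * z = μ * ι x := fun u hu => by
      refine Submodule.mul_induction_on hu (fun a ha b hb => ?_) ?_
      · obtain ⟨y, hy, k⟩ := (h'.mem _).1 (k2 hb hz)
        exact ⟨a * y, mul_mem_ID ha hy, by rw [map_mul, mul_assoc, k, map_mul]; ring⟩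
      · rintro a b ⟨x, hx, k⟩ ⟨y, hy, l⟩
        exact ⟨x + y, add_mem hx hy, by rw [map_add, add_mul, k, l, map_add, mul_add]⟩
    simpa using key 1 h1
  · rintro ⟨x, hx, rfl⟩
    rw [ID_add] at hx
    refine Submodule.mul_induction_on hx (fun a ha b hb => k1 ha hb) fun a b ha hb => ?_
    rw [map_add, mul_add]
    exact add_mem ha hb

/-- The modular invariant of a lattice. -/
noncomputable def jL (L : PeriodPair) : ℂ := 1728 * L.g₂ ^ 3 / (L.g₂ ^ 3 - 27 * L.g₃ ^ 2)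

theorem jL_sc (h : Sc c L L') : jL L' = jL L := by
  have := pow_ne_zero 12 (inv_ne_zero h.ne)
  rw [jL, jL, h.g₂, h.g₃, ← mul_div_mul_left (1728 * L.g₂ ^ 3) _ this]
  congr 1 <;> ring

theorem jL_cj (h : Cj σ L L') : jL L' = σ (jL L) := by
  simp only [jL, h.h2, h.h3, map_div₀, map_mul, map_sub, map_pow, map_ofNat]

theorem exists_sc_of_jL (h : jL L' = jL L) : ∃ c, Sc c L L' := by
  have d1 := Pool.Agent.Shared.Weier.disc_ne_zero L
  have d2 := Pool.Agent.Shared.Weier.disc_ne_zero L'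
  rw [jL, jL, div_eq_div_iff d2 d1] at h
  obtain ⟨s, hs⟩ := IsAlgClosed.exists_pow_nat_eq (27 : ℂ) (n := 2) (by norm_num)
  have hs0 : s ≠ 0 := by rintro rfl; norm_num at hs
  obtain ⟨c, hc, h4, h6⟩ := exists_scale (x := L'.g₂) (y := s * L'.g₃) (a := L.g₂) (b := s * L.g₃)
    (div_ne_zero d2 d1) (by field_simp; linear_combination h / 1728)
    (by rw [mul_pow, mul_pow, hs]; field_simp; linear_combination h / 1728 / 27)
    (by rwa [mul_pow, hs])
  have h1 := sc_scale L (inv_ne_zero hc)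
  refine ⟨_, h1.trans (sc_one (lattice_eq_of_g ?_ ?_))⟩
  · rw [h1.g₂, inv_inv, h4]
  · rw [h1.g₃, inv_inv]
    exact mul_left_cancel₀ hs0 (by rw [h6]; ring)

theorem jL_lat {τ : ℂ} (hτ : 0 < τ.im) : jL (lat τ) = jf τ := by
  have e1 := ModularForm.discriminant_eq_E₄_cube_sub_E₆_sq ⟨τ, hτ⟩
  change Dl τ = _ at e1
  have d1 := Dl_ne hτ
  have h1 : Sc 1 (lat τ) (Unif.pairOf ⟨τ, hτ⟩ one_ne_zero) :=
    ModB.sc_of_basis one_ne_zero (a := 1) (b := 0) (a' := 0) (b' := 1) (e := 1) (by simp)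
      (by simp [lat_ω₁ hτ, Unif.pairOf]) (by simp [lat_ω₂, Unif.pairOf])
  have z6 : riemannZeta 6 = Real.pi ^ 6 / 945 := by
    have := riemannZeta_two_mul_nat (k := 3) (by norm_num)
    norm_num [show bernoulli 6 = 1 / 42 by decide +kernel, Nat.factorial] at this
    rw [this]; ring
  have hp : (Real.pi : ℂ) ≠ 0 := by exact_mod_cast Real.pi_ne_zero
  rw [← jL_sc h1, jL, jf, E4, UpperHalfPlane.ofComplex_apply_of_im_pos hτ, PeriodPair.g₂,
    PeriodPair.g₃, Unif.G_pairOf _ _ (by norm_num : 3 ≤ 4), Unif.G_pairOf _ _ (by norm_num : 3 ≤ 6)]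
  simp only [Nat.cast_ofNat, riemannZeta_four, z6, one_pow, inv_one, one_mul]
  change 1728 * (60 * (2 * (_ / 90) * ModularForm.E₄ ⟨τ, hτ⟩)) ^ 3 /
    ((60 * (2 * (_ / 90) * ModularForm.E₄ ⟨τ, hτ⟩)) ^ 3 -
      27 * (140 * (2 * (_ / 945) * ModularForm.E₆ ⟨τ, hτ⟩)) ^ 2) = _
  rw [show (60 * (2 * ((Real.pi : ℂ) ^ 4 / 90) * ModularForm.E₄ ⟨τ, hτ⟩)) ^ 3 -
      27 * (140 * (2 * ((Real.pi : ℂ) ^ 6 / 945) * ModularForm.E₆ ⟨τ, hτ⟩)) ^ 2 =
      4096 * Real.pi ^ 12 * Dl τ by rw [e1]; ring]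
  field_simp
  ring

theorem exists_sc_lat (L : PeriodPair) : ∃ τ c : ℂ, 0 < τ.im ∧ Sc c (lat τ) L := by
  have h2 : L.ω₂ ≠ 0 := fun h0 => by
    simpa using (LinearIndependent.pair_iff.mp L.indep 0 1 (by simp [h0])).2
  rcases lt_trichotomy 0 (L.ω₁ / L.ω₂).im with k | k | k
  · exact ⟨_, _, k, ModB.sc_of_basis h2 (a := 1) (b := 0) (a' := 0) (b' := 1) (e := 1) (by simp)
      (by rw [lat_ω₁ k]; field_simp; simp) (by simp [lat_ω₂])⟩
  · obtain ⟨r, hr⟩ : ∃ r : ℝ, (r : ℂ) = L.ω₁ / L.ω₂ := ⟨_, Complex.ext rfl (by simpa using k)⟩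
    rw [eq_div_iff h2] at hr
    simpa using (LinearIndependent.pair_iff.mp L.indep 1 (-r) (by
      simp only [Complex.real_smul]; push_cast; linear_combination -hr)).1
  · have k' : 0 < (-(L.ω₁ / L.ω₂)).im := by simpa using k
    exact ⟨_, _, k', ModB.sc_of_basis h2 (a := -1) (b := 0) (a' := 0) (b' := 1) (e := -1) (by simp)
      (by rw [lat_ω₁ k']; field_simp; simp) (by simp [lat_ω₂])⟩

/-- Homothetic lattices come from equivalent points of the upper half plane. -/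
theorem exists_mob_of_sc {τ τ' : ℂ} (hτ : 0 < τ.im) (hτ' : 0 < τ'.im) (h : Sc c (lat τ) (lat τ')) :
    ∃ a b e d : ℤ, a * d - b * e = 1 ∧ τ = mob a b e d τ' ∧ c = e * τ' + d := by
  obtain ⟨a, b, h1⟩ := (mem_lat hτ').1 ((h.mem τ).2 ((mem_lat hτ).2 ⟨1, 0, by simp⟩))
  obtain ⟨e, d, h2⟩ := (mem_lat hτ').1 ((h.mem 1).2 ((mem_lat hτ).2 ⟨0, 1, by simp⟩))
  obtain ⟨a', b', h3⟩ := (mem_lat hτ).1 ((h.symm.mem τ').2 ((mem_lat hτ').2 ⟨1, 0, by simp⟩))
  obtain ⟨e', d', h4⟩ := (mem_lat hτ).1 ((h.symm.mem 1).2 ((mem_lat hτ').2 ⟨0, 1, by simp⟩))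
  rw [inv_mul_eq_iff_eq_mul₀ h.ne] at h3 h4
  rw [mul_one] at h2
  have key {m n : ℤ} (k : (m : ℂ) * τ' + n = 0) : m = 0 ∧ n = 0 := by
    have k1 : m = 0 := by simpa [hτ'.ne'] using congr_arg Complex.im k
    exact ⟨k1, by simpa [k1] using k⟩
  obtain ⟨k1, k2⟩ := key (m := a' * a + b' * e - 1) (n := a' * b + b' * d)
    (by push_cast; linear_combination -h3 - a' * h1 - b' * h2)
  obtain ⟨k3, k4⟩ := key (m := e' * a + d' * e) (n := e' * b + d' * d - 1)
    (by push_cast; linear_combination -h4 - e' * h1 - d' * h2)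
  have h5 : τ = mob a b e d τ' := by rw [mob, ← h1, ← h2, mul_div_cancel_left₀ _ h.ne]
  refine ⟨a, b, e, d, ?_, h5, h2⟩
  have h6 : (a * d - b * e) * (a' * d' - b' * e') = 1 := by
    linear_combination (e' * b + d' * d) * k1 + k4 - (e' * a + d' * e) * k2
  rcases Int.eq_one_or_neg_one_of_mul_eq_one h6 with h7 | h7
  · exact h7
  · rw [h5, im_mob, h7] at hτ
    exact absurd hτ (not_lt.2 (div_nonpos_of_nonpos_of_nonneg (by simpa using hτ'.le) (sq_nonneg _)))

theorem exists_ext_C (ι : K →+* ℂ) : ∃ f : Kb K →+* ℂ, ∀ x, f (algebraMap K _ x) = ι x := by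
  let := ι.toAlgebra
  exact ⟨(IsAlgClosed.lift : Kb K →ₐ[K] ℂ).toRingHom, (IsAlgClosed.lift : Kb K →ₐ[K] ℂ).commutes⟩

lemma countable_K (K : Type) [Field K] [NumberField K] : Countable K :=
  (Module.finBasis ℚ K).equivFun.injective.countable

lemma countable_Kb (K : Type) [Field K] [NumberField K] : Countable (Kb K) := by
  have := countable_K K
  exact Cardinal.mk_le_aleph0_iff.1 ((Algebra.IsAlgebraic.cardinalMk_le_max K (Kb K)).trans
    (max_le Cardinal.mk_le_aleph0 le_rfl))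

omit [NumberField K] in
lemma mem_range_of_alg (f : Kb K →+* ℂ) {p : Polynomial K} (hp : p ≠ 0) {z : ℂ}
    (h : Polynomial.eval₂ (f.comp (algebraMap K _)) z p = 0) : z ∈ f.range := by
  have h0 : p.map (algebraMap K (Kb K)) ≠ 0 := Polynomial.map_ne_zero hp
  have h1 : z ∈ ((p.map (algebraMap K (Kb K))).map f).roots :=
    (Polynomial.mem_roots (Polynomial.map_ne_zero h0)).2 (by
      rwa [Polynomial.IsRoot, Polynomial.eval_map, Polynomial.eval₂_map])
  rw [(IsAlgClosed.splits _).roots_map] at h1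
  obtain ⟨x, -, hx⟩ := Multiset.mem_map.1 h1
  exact ⟨x, hx⟩

theorem exists_aut_C (f : Kb K →+* ℂ) (s : GalK K) : ∃ σ : ℂ ≃+* ℂ, ∀ x, σ (f x) = f (s x) :=
  have := countable_Kb K
  exists_aut f (f.comp (s : Kb K →+* Kb K)) f.injective (RingHom.injective _)

/-- An automorphism of the complex numbers which fixes `K` restricts to the algebraic closure. -/
theorem exists_res_C (f : Kb K →+* ℂ) (h : ∀ x, σ (f (algebraMap K _ x)) = f (algebraMap K _ x)) :
    ∃ s : GalK K, ∀ x, σ (f x) = f (s x) := by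
  have h1 (x : Kb K) : ∃ y, f y = σ (f x) := by
    obtain ⟨p, hp, e⟩ := Algebra.IsAlgebraic.isAlgebraic (R := K) x
    refine mem_range_of_alg f hp ?_
    have := congr_arg ((σ : ℂ →+* ℂ).comp f) e
    rw [Polynomial.aeval_def, Polynomial.hom_eval₂, map_zero] at this
    rwa [show f.comp (algebraMap K _) = ((σ : ℂ →+* ℂ).comp f).comp (algebraMap K _) from
      RingHom.ext fun x => (h x).symm]
  choose s hs using h1
  let t : Kb K →ₐ[K] Kb K :=
    { toFun := s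
      map_one' := f.injective (by simp [hs])
      map_mul' := fun x y => f.injective (by simp [hs])
      map_zero' := f.injective (by simp [hs])
      map_add' := fun x y => f.injective (by simp [hs])
      commutes' := fun x => f.injective (by rw [hs, h]) }
  exact ⟨AlgEquiv.ofBijective t (Algebra.IsAlgebraic.algHom_bijective t), fun x => (hs x).symm⟩

/-- A complex number with finitely many conjugates over `K` is algebraic. -/
theorem mem_range_of_finite (f : Kb K →+* ℂ) {z : ℂ} {S : Set ℂ} (hS : S.Finite)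
    (h : ∀ σ : ℂ ≃+* ℂ, (∀ x, σ (f (algebraMap K _ x)) = f (algebraMap K _ x)) → σ z ∈ S) :
    z ∈ f.range := by
  let := (f.comp (algebraMap K _)).toAlgebra
  have := countable_K K
  obtain ⟨p, hp, e⟩ := isAlgebraic_of_finite (K := K) hS h
  exact mem_range_of_alg f hp e

/-- Singular moduli and the Galois action on them. -/
structure CMd (ι : K →+* ℂ) (f : Kb K →+* ℂ) (J : ClassGroup (𝓞 K) → Kb K)
    (r : GalK K →* ClassGroup (𝓞 K)) : Prop where
  ext : ∀ x, f (algebraMap K _ x) = ι x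
  inj : Function.Injective J
  eq : ∀ L μ D, IsL ι L μ D → jL L = f (J (clD D))
  act : ∀ s c, s (J c) = J (c * r s)

theorem exists_cmd [IsTotallyComplex K] (hK : Module.finrank ℚ K = 2) (ι : K →+* ℂ) :
    ∃ f J r, CMd ι f J r := by
  obtain ⟨f, hf⟩ := exists_ext_C ι
  choose d hd using clD_surj (K := K)
  choose l hl using fun D : Dv K => exists_isL hK ι one_ne_zero D
  have e1 {L : PeriodPair} {μ : ℂ} {D : Dv K} (h : IsL ι L μ D) : jL L = jL (l (d (clD D))) := by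
    obtain ⟨x, hx, e⟩ := clD_eq_iff.1 (hd (clD D))
    rw [e]
    exact (jL_sc (h.sc ((hl _).shift hx))).symm
  have e2 {σ : ℂ ≃+* ℂ} (h : ∀ x, σ (f (algebraMap K _ x)) = f (algebraMap K _ x)) :
      ∃ b, ∀ c, σ (jL (l (d c))) = jL (l (d (c * b))) := by
    have hg (x : K) : σ (ι x) = ι ((1 : K ≃ₐ[ℚ] K) x) := by simpa [hf] using h x
    obtain ⟨L', e⟩ := exists_cj σ (l 0)
    obtain ⟨μ, B, hB⟩ := (hl 0).exists_cj hK e hg
    refine ⟨clD B, fun c => ?_⟩
    obtain ⟨M', e'⟩ := exists_cj σ (l (d c))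
    rw [← jL_cj e', e1 (IsL.cj_mul hg (hl 0) e hB (hl _) e'), cjD_one, clD_add, hd]
  have e3 (c : ClassGroup (𝓞 K)) : ∃ y, f y = jL (l (d c)) :=
    mem_range_of_finite f (Set.finite_range fun c => jL (l (d c))) fun σ h => by
      obtain ⟨b, hb⟩ := e2 h
      exact ⟨_, (hb c).symm⟩
  choose J hJ using e3
  have e4 : Function.Injective J := fun a b h => by
    obtain ⟨c, hc⟩ := exists_sc_of_jL ((hJ b).symm.trans (h ▸ hJ a))
    rw [← hd a, (hl _).cl_eq (hl _) hc, hd]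
  have e5 (s : GalK K) : ∃ b, ∀ c, s (J c) = J (c * b) := by
    obtain ⟨σ, hσ⟩ := exists_aut_C f s
    obtain ⟨b, hb⟩ := e2 (σ := σ) fun x => by rw [hσ, s.commutes]
    exact ⟨b, fun c => f.injective (by rw [← hσ, hJ, hb, hJ])⟩
  choose r hr using e5
  refine ⟨f, J, MonoidHom.mk' r fun s t => e4 ?_, hf, e4, fun L μ D h => by rw [hJ, e1 h], hr⟩
  rw [← one_mul (r _), ← hr, AlgEquiv.mul_apply, hr, hr, one_mul, mul_comm]

end Pool.Agent.Lib.MP_23455a_nt
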